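import Pool.Agent.Helper30.WD.T1

/-! affine covariance of the L2 Fourier transform -/

set_option autoImplicit false
open MeasureTheory Filter Topology Set
open scoped ENNReal ComplexConjugate FourierTransform

namespace Pool.Agent.Helper30.WD

/-- time-side wavelet system -/
noncomputable def fj (f : ℝ → ℂ) (j k : ℤ) (x : ℝ) : ℂ := (((2:ℝ) ^ ((j:ℝ) / 2) : ℝ) : ℂ) * f ((2:ℝ) ^ j * x - k)

theorem fj_eq (f : ℝ → ℂ) (j k : ℤ) : fj f j k = dil j (fun y => f (y - k)) := rfl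

theorem memLp_fj {f : ℝ → ℂ} (hf : MemLp f 2) (j k : ℤ) : MemLp (fj f j k) 2 := by
  have h1 : MemLp (fun y => f (y - k)) 2 := by
    have := hf.comp_measurePreserving (measurePreserving_sub_right (volume : Measure ℝ) (k:ℝ))
    exact this
  exact memLp_dil j h1

theorem N2_shift (f : ℝ → ℂ) (k : ℝ) : N2 (fun y => f (y - k)) = N2 f := by
  unfold N2
  exact lintegral_sub_right_eq_self (fun y => ‖f y‖ₑ ^ 2) k

theorem N2_fj (f : ℝ → ℂ) (j k : ℤ) : N2 (fj f j k) = N2 f := by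
  rw [fj_eq, N2_dil, N2_shift]

theorem integrable_fj {f : ℝ → ℂ} (hf : Integrable f) (j k : ℤ) : Integrable (fj f j k) := by
  unfold fj
  apply Integrable.const_mul
  have h1 : Integrable (fun y => f (y - k)) := hf.comp_sub_right k
  exact h1.comp_mul_left' (by positivity)

theorem fourier_fj (f : ℝ → ℂ) (j k : ℤ) (ξ : ℝ) : 𝓕 (fj f j k) ξ = wj (𝓕 f) j k ξ := by
  have ha : (0:ℝ) < (2:ℝ) ^ j := by positivity
  unfold wj dil fj
  simp only
  rw [zpow_neg]
  rw [Real.fourier_real_eq_integral_exp_smul, Real.fourier_real_eq_integral_exp_smul]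
  set a : ℝ := (2:ℝ) ^ j with hadef
  set c : ℂ := (((2:ℝ) ^ ((j:ℝ) / 2) : ℝ) : ℂ) with hc
  obtain ⟨g, hg⟩ : ∃ g : ℝ → ℂ, ∀ y, g y = Complex.exp (((-2 * Real.pi * (a⁻¹ * (y + k)) * ξ : ℝ) : ℂ) * Complex.I) * f y :=
    ⟨_, fun y => rfl⟩
  have h1 : ∫ v : ℝ, Complex.exp (((-2 * Real.pi * v * ξ : ℝ) : ℂ) * Complex.I) • (c * f (a * v - k))
      = c * ∫ v : ℝ, g (a * v - k) := by
    rw [← integral_const_mul]
    apply integral_congr_ae
    apply Eventually.of_forall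
    intro v
    simp only
    have e : a⁻¹ * (a * v - k + k) = v := by field_simp; ring
    rw [smul_eq_mul, hg, e]
    ring
  have h2 : ∫ v : ℝ, g (a * v - k) = (a⁻¹ : ℝ) • ∫ y : ℝ, g y := by
    rw [Measure.integral_comp_mul_left (fun w : ℝ => g (w - k)) a,
      integral_sub_right_eq_self g, abs_of_pos (inv_pos.2 ha)]
  have h3 : ∫ y : ℝ, g y
      = ek (-k) (a⁻¹ * ξ) * ∫ v : ℝ, Complex.exp (((-2 * Real.pi * v * (a⁻¹ * ξ) : ℝ) : ℂ) * Complex.I) • f v := by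
    rw [← integral_const_mul]
    apply integral_congr_ae
    apply Eventually.of_forall
    intro y
    have e : Complex.exp (((-2 * Real.pi * (a⁻¹ * (y + k)) * ξ : ℝ) : ℂ) * Complex.I)
        = ek (-k) (a⁻¹ * ξ) * Complex.exp (((-2 * Real.pi * y * (a⁻¹ * ξ) : ℝ) : ℂ) * Complex.I) := by
      unfold ek
      rw [← Complex.exp_add]
      congr 1
      push_cast; ring
    simp only [smul_eq_mul]
    rw [hg, e]; ring
  have h4 : c * ((a⁻¹ : ℝ) : ℂ) = (((2:ℝ) ^ (((-j : ℤ) : ℝ) / 2) : ℝ) : ℂ) := by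
    rw [hc, ← Complex.ofReal_mul]
    congr 1
    rw [hadef, ← zpow_neg, ← Real.rpow_intCast, ← Real.rpow_add (by norm_num)]
    congr 1
    push_cast; ring
  rw [h1, h2, h3, Complex.real_smul, ← h4]
  ring

theorem N2_wj' (F : ℝ → ℂ) (j k : ℤ) : N2 (wj F j k) = N2 F := by
  unfold wj
  rw [N2_dil]
  unfold N2
  apply lintegral_congr
  intro ξ
  have : ‖ek (-k) ξ‖ = 1 := by
    unfold ek
    have e : 2 * (Real.pi : ℂ) * Complex.I * ((-k : ℤ) : ℂ) * ξ = ((2 * Real.pi * (-k : ℤ) * ξ : ℝ) : ℂ) * Complex.I := by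
      push_cast; ring
    rw [e, Complex.norm_exp_ofReal_mul_I]
  rw [enorm_sq_ofReal, enorm_sq_ofReal, norm_mul, this, one_mul]

theorem wj_sub (F G : ℝ → ℂ) (j k : ℤ) (ξ : ℝ) : wj F j k ξ - wj G j k ξ = wj (fun η => F η - G η) j k ξ := by
  unfold wj dil; ring

theorem fj_sub (F G : ℝ → ℂ) (j k : ℤ) (ξ : ℝ) : fj F j k ξ - fj G j k ξ = fj (fun η => F η - G η) j k ξ := by
  unfold fj; ring

theorem wj_congr {F G : ℝ → ℂ} (h : F =ᵐ[volume] G) (j k : ℤ) : wj F j k =ᵐ[volume] wj G j k := by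
  apply dil_congr
  filter_upwards [h] with ξ hξ
  rw [hξ]

theorem N2_add_le {a b : ℝ → ℂ} (ha : AEStronglyMeasurable a) :
    N2 (fun ξ => a ξ + b ξ) ≤ 2 * N2 a + 2 * N2 b := by
  have hm1 : AEMeasurable (fun ξ => 2 * ‖a ξ‖ₑ ^ 2) := (ha.enorm.pow_const 2).const_mul 2
  unfold N2
  rw [← lintegral_const_mul' _ _ (by norm_num), ← lintegral_const_mul' _ _ (by norm_num),
    ← lintegral_add_left' hm1]
  apply lintegral_mono
  intro ξ
  simp only
  rw [enorm_sq_ofReal, enorm_sq_ofReal, enorm_sq_ofReal, show (2:ℝ≥0∞) = ENNReal.ofReal 2 by simp,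
    ← ENNReal.ofReal_mul (by norm_num), ← ENNReal.ofReal_mul (by norm_num), ← ENNReal.ofReal_add (by positivity) (by positivity)]
  apply ENNReal.ofReal_le_ofReal
  have h3 := norm_add_le (a ξ) (b ξ)
  nlinarith [norm_nonneg (a ξ), norm_nonneg (b ξ), norm_nonneg (a ξ + b ξ), sq_nonneg (‖a ξ‖ - ‖b ξ‖)]

theorem T1_affine (f : Lp ℂ 2 (volume : Measure ℝ)) (j k : ℤ)
    (hf : MemLp (fun x : ℝ => (((2:ℝ) ^ ((j:ℝ) / 2) : ℝ) : ℂ) * f ((2:ℝ) ^ j * x - k)) 2) :
    (Lp.fourierTransformₗᵢ ℝ ℂ (hf.toLp _) : ℝ → ℂ) =ᵐ[volume]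
      wj (Lp.fourierTransformₗᵢ ℝ ℂ f : ℝ → ℂ) j k := by
  have hfm := Lp.memLp f
  set U : ℝ → ℂ := (Lp.fourierTransformₗᵢ ℝ ℂ f : ℝ → ℂ) with hU
  set V : ℝ → ℂ := (Lp.fourierTransformₗᵢ ℝ ℂ (hf.toLp _) : ℝ → ℂ) with hV
  have hUm : AEStronglyMeasurable U := (Lp.memLp _).1
  have hVm : AEStronglyMeasurable V := (Lp.memLp _).1
  -- truncated versions
  have key : ∀ n : ℕ, N2 (fun ξ => V ξ - wj U j k ξ) ≤ 4 * N2 (fun x => f x - tr f n x) := by
    intro n
    set W : ℝ → ℂ := (Lp.fourierTransformₗᵢ ℝ ℂ ((memLp_fj (memLp_tr hfm n) j k).toLp _) : ℝ → ℂ) with hW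
    set T : ℝ → ℂ := (Lp.fourierTransformₗᵢ ℝ ℂ ((memLp_tr hfm n).toLp _) : ℝ → ℂ) with hT
    have hWm : AEStronglyMeasurable W := (Lp.memLp _).1
    have hWT : W =ᵐ[volume] wj T j k := by
      have h1 := fourier_L1L2 (integrable_fj (integrable_tr hfm n) j k) (memLp_fj (memLp_tr hfm n) j k)
      have h2 := wj_congr (fourier_L1L2 (integrable_tr hfm n) (memLp_tr hfm n)) j k
      filter_upwards [h1, h2] with ξ a b
      rw [hW, a, b, fourier_fj]
    have h1 : N2 (fun ξ => V ξ - W ξ) = N2 (fun x => f x - tr f n x) := by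
      rw [hV, hW, N2_toLp_sub, ← map_sub, LinearIsometryEquiv.enorm_map, ← N2_toLp_sub]
      rw [← N2_fj (fun x => f x - tr f n x) j k]
      apply N2_congr
      filter_upwards [hf.coeFn_toLp, (memLp_fj (memLp_tr hfm n) j k).coeFn_toLp] with x a b
      rw [a, b, ← fj_sub]; rfl
    have h2 : N2 (fun ξ => wj T j k ξ - wj U j k ξ) = N2 (fun x => f x - tr f n x) := by
      simp only [wj_sub]
      rw [show (fun ξ => wj (fun η => T η - U η) j k ξ) = wj (fun η => T η - U η) j k from rfl, N2_wj', hT, hU,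
        N2_toLp_sub, ← map_sub, LinearIsometryEquiv.enorm_map, ← N2_toLp_sub]
      unfold N2
      apply lintegral_congr_ae
      filter_upwards [(memLp_tr hfm n).coeFn_toLp] with x a
      rw [a]
      rw [← enorm_neg, neg_sub]
    have h3 : N2 (fun ξ => V ξ - wj U j k ξ) ≤ 2 * N2 (fun ξ => V ξ - W ξ) + 2 * N2 (fun ξ => wj T j k ξ - wj U j k ξ) := by
      have e : N2 (fun ξ => V ξ - wj U j k ξ) = N2 (fun ξ => (V ξ - W ξ) + (wj T j k ξ - wj U j k ξ)) := by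
        apply N2_congr
        filter_upwards [hWT] with ξ a
        rw [a]; ring
      rw [e]
      exact N2_add_le (hVm.sub hWm)
    rw [h1, h2] at h3
    refine h3.trans (le_of_eq ?_)
    rw [← add_mul]; norm_num
  have hlim : Tendsto (fun n => 4 * N2 (fun x => f x - tr f n x)) atTop (𝓝 (4 * 0)) :=
    ENNReal.Tendsto.const_mul (N2_tr hfm) (Or.inr (by norm_num))
  have h4 : N2 (fun ξ => V ξ - wj U j k ξ) ≤ 4 * 0 := ge_of_tendsto' hlim key
  have h5 : N2 (fun ξ => V ξ - wj U j k ξ) = 0 := by simpa using h4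
  unfold N2 at h5
  have hwm : AEStronglyMeasurable (wj U j k) := by
    apply aesm_dil
    apply AEStronglyMeasurable.mul _ hUm
    have hc : Continuous (ek (-k)) := by unfold ek; fun_prop
    exact hc.aestronglyMeasurable
  have hm2 : AEMeasurable (fun ξ => ‖V ξ - wj U j k ξ‖ₑ ^ 2) := (hVm.sub hwm).enorm.pow_const 2
  rw [lintegral_eq_zero_iff' hm2] at h5
  filter_upwards [h5] with ξ hξ
  have : ‖V ξ - wj U j k ξ‖ₑ ^ 2 = 0 := hξ
  have h6 : V ξ - wj U j k ξ = 0 := by simpa using this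
  exact sub_eq_zero.1 h6

end Pool.Agent.Helper30.WD
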