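import Pool.Agent.Helper99.WD.T2
import Pool.Agent.Helper30.WD.T1b

/-! Transfer between the frozen set and the Fourier side (uses T1, T2). -/

set_option autoImplicit false
open MeasureTheory Filter Topology Set
open scoped ENNReal ComplexConjugate

namespace Pool.Agent.Helper30.WD

open Pool.Agent.Helper99.WD

/-- Plancherel for functions -/
theorem planch {a b : ℝ → ℂ} (ha : MemLp a 2) (hb : MemLp b 2) :
    ∫ x, a x * conj (b x) = ∫ ξ, (Lp.fourierTransformₗᵢ ℝ ℂ (ha.toLp a) : ℝ → ℂ) ξ *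
      conj ((Lp.fourierTransformₗᵢ ℝ ℂ (hb.toLp b) : ℝ → ℂ) ξ) := by
  have h1 := inner_toLp ha hb
  rw [← h1, ← (Lp.fourierTransformₗᵢ ℝ ℂ).inner_map_map (hb.toLp b) (ha.toLp a), L2.inner_def]
  refine integral_congr_ae (Eventually.of_forall (fun ξ => ?_))
  simp only [RCLike.inner_apply]

theorem T3_P1 (f : Lp ℂ 2 (volume : Measure ℝ)) (j k j' k' : ℤ) :
    ∫ x : ℝ, fj f j k x * conj (fj f j' k' x) =
      ∫ ξ : ℝ, wj (Lp.fourierTransformₗᵢ ℝ ℂ f : ℝ → ℂ) j k ξ *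
        conj (wj (Lp.fourierTransformₗᵢ ℝ ℂ f : ℝ → ℂ) j' k' ξ) := by
  rw [planch (memLp_fj (Lp.memLp f) j k) (memLp_fj (Lp.memLp f) j' k')]
  apply integral_congr_ae
  filter_upwards [T1_affine f j k (memLp_fj (Lp.memLp f) j k), T1_affine f j' k' (memLp_fj (Lp.memLp f) j' k')]
    with ξ h1 h2
  change (Lp.fourierTransformₗᵢ ℝ ℂ ((memLp_fj (Lp.memLp f) j k).toLp _) : ℝ → ℂ) ξ *
    conj ((Lp.fourierTransformₗᵢ ℝ ℂ ((memLp_fj (Lp.memLp f) j' k').toLp _) : ℝ → ℂ) ξ) = _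
  rw [← h1, ← h2]
  rfl

theorem T3_P2 (f : Lp ℂ 2 (volume : Measure ℝ)) {g : ℝ → ℂ} (hg : MemLp g 2) (j k : ℤ) :
    ∫ x : ℝ, g x * conj (fj f j k x) =
      ∫ ξ : ℝ, (Lp.fourierTransformₗᵢ ℝ ℂ (hg.toLp g) : ℝ → ℂ) ξ *
        conj (wj (Lp.fourierTransformₗᵢ ℝ ℂ f : ℝ → ℂ) j k ξ) := by
  rw [planch hg (memLp_fj (Lp.memLp f) j k)]
  apply integral_congr_ae
  filter_upwards [T1_affine f j k (memLp_fj (Lp.memLp f) j k)] with ξ h1
  rw [← h1]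
  rfl

theorem T3_complete (f : Lp ℂ 2 (volume : Measure ℝ)) :
    (∀ g : ℝ → ℂ, MemLp g 2 → (∀ j k : ℤ, ∫ x : ℝ, g x * conj (fj f j k x) = 0) → g =ᵐ[volume] 0) ↔
    (∀ G : ℝ → ℂ, MemLp G 2 → (∀ j k : ℤ, ∫ ξ : ℝ, G ξ *
      conj (wj (Lp.fourierTransformₗᵢ ℝ ℂ f : ℝ → ℂ) j k ξ) = 0) → G =ᵐ[volume] 0) := by
  constructor
  · intro h G hG h0
    set g : Lp ℂ 2 (volume : Measure ℝ) := (Lp.fourierTransformₗᵢ ℝ ℂ).symm (hG.toLp G) with hgdef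
    have hUg : Lp.fourierTransformₗᵢ ℝ ℂ g = hG.toLp G := by rw [hgdef, LinearIsometryEquiv.apply_symm_apply]
    have hgm : MemLp (g : ℝ → ℂ) 2 := Lp.memLp g
    have e1 : hgm.toLp (g : ℝ → ℂ) = g := Lp.toLp_coeFn g hgm
    have h1 := h g hgm (fun j k => by
      rw [T3_P2 f hgm j k, e1, hUg, ← h0 j k]
      apply integral_congr_ae
      filter_upwards [hG.coeFn_toLp] with ξ hξ
      rw [hξ])
    have h2 : g = 0 := (Lp.eq_zero_iff_ae_eq_zero).2 h1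
    rw [h2, map_zero] at hUg
    have h3 := hG.coeFn_toLp
    rw [← hUg] at h3
    filter_upwards [h3, Lp.coeFn_zero ℂ 2 (volume : Measure ℝ)] with ξ a b
    rw [← a, b]
  · intro h g hg h0
    have h1 := h _ (Lp.memLp (Lp.fourierTransformₗᵢ ℝ ℂ (hg.toLp g))) (fun j k => by
      rw [← T3_P2 f hg j k]; exact h0 j k)
    have h2 : Lp.fourierTransformₗᵢ ℝ ℂ (hg.toLp g) = 0 := (Lp.eq_zero_iff_ae_eq_zero).2 h1
    have h3 : hg.toLp g = 0 := by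
      apply (Lp.fourierTransformₗᵢ ℝ ℂ).injective
      rw [h2, map_zero]
    have h4 := hg.coeFn_toLp
    rw [h3] at h4
    filter_upwards [h4, Lp.coeFn_zero ℂ 2 (volume : Measure ℝ)] with ξ a b
    rw [← a, b]

theorem T3_iff (D : ℝ → ℕ) (f : Lp ℂ 2 (volume : Measure ℝ)) :
    f ∈ FrozenSet D ↔ Lp.fourierTransformₗᵢ ℝ ℂ f ∈ WW D := by
  have hT2 := T2_isPW_iff (Lp.fourierTransformₗᵢ ℝ ℂ f : ℝ → ℂ) (Lp.memLp _)
  have hc := T3_complete f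
  constructor
  · rintro ⟨h1, h2, F, hF, hlim, hd⟩
    have hFe := T1_trunc_unique f F hF hlim
    refine ⟨hT2.2 ⟨fun j k j' k' => ?_, hc.1 h2⟩, ?_⟩
    · rw [← T3_P1 f j k j' k']
      exact h1 j k j' k'
    · filter_upwards [dimf_congr hFe, hd] with ξ a b
      rw [← a]; exact b
  · rintro ⟨h1, h2⟩
    obtain ⟨k1, k2⟩ := hT2.1 h1
    refine ⟨fun j k j' k' => ?_, hc.2 k2, (Lp.fourierTransformₗᵢ ℝ ℂ f : ℝ → ℂ), Lp.memLp _, T1_trunc f, h2⟩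
    have := T3_P1 f j k j' k'
    rw [k1] at this
    exact this

theorem T3 (D : ℝ → ℕ) (h : IsPathConnected (WW D)) : IsPathConnected (FrozenSet D) := by
  have e : FrozenSet D = (fun F => (Lp.fourierTransformₗᵢ ℝ ℂ).symm F) '' (WW D) := by
    ext f
    rw [T3_iff]
    constructor
    · intro hf
      exact ⟨_, hf, LinearIsometryEquiv.symm_apply_apply _ _⟩
    · rintro ⟨F, hF, rfl⟩
      rw [LinearIsometryEquiv.apply_symm_apply]; exact hF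
  rw [e]
  exact h.image (LinearIsometryEquiv.continuous _)

end Pool.Agent.Helper30.WD
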