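import Pool.Agent.Helper30.WD.Main
import Pool.Agent.Helper30.WD.T3

/-! If `D` vanishes on a set of positive measure, the space of wavelets with dimension function `D`
is equiconnected. Fourier side: the cutting map. -/

set_option autoImplicit false
open MeasureTheory Filter Topology Set
open scoped ENNReal ComplexConjugate

namespace Pool.Agent.Helper30.WD

/-- `L²(ℝ)` -/
noncomputable abbrev LL := Lp ℂ 2 (volume : Measure ℝ)

/-- multiplication by the indicator of `P` on `L²` -/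
noncomputable def cutL {P : Set ℝ} (hP : MeasurableSet P) (g : LL) : LL :=
  ((Lp.memLp g).indicator hP).toLp _

theorem cutL_coe {P : Set ℝ} (hP : MeasurableSet P) (g : LL) :
    (cutL hP g : ℝ → ℂ) =ᵐ[volume] P.indicator g := MemLp.coeFn_toLp _

theorem enorm_sq_eq (g : LL) : ‖g‖ₑ ^ 2 = N2 (g : ℝ → ℂ) := by
  have := N2_toLp_sub g 0
  rw [sub_zero] at this
  rw [← this]
  unfold N2
  apply lintegral_congr_ae
  filter_upwards [Lp.coeFn_zero ℂ 2 (volume : Measure ℝ)] with x hx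
  rw [hx]; simp

theorem cutL_sub {P : Set ℝ} (hP : MeasurableSet P) (g h : LL) :
    cutL hP (g - h) = cutL hP g - cutL hP h := by
  apply Lp.ext
  filter_upwards [cutL_coe hP (g - h), cutL_coe hP g, cutL_coe hP h, Lp.coeFn_sub g h,
    Lp.coeFn_sub (cutL hP g) (cutL hP h)] with x h1 h2 h3 h4 h5
  rw [h1, h5, Pi.sub_apply, h2, h3]
  by_cases hx : x ∈ P
  · simp only [indicator_of_mem hx, h4, Pi.sub_apply]
  · simp only [indicator_of_notMem hx, sub_zero]

theorem cutL_norm_le {P : Set ℝ} (hP : MeasurableSet P) (g : LL) : ‖cutL hP g‖ ≤ ‖g‖ := by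
  apply Lp.norm_le_norm_of_ae_le
  filter_upwards [cutL_coe hP g] with x hx
  rw [hx]
  by_cases h : x ∈ P
  · rw [indicator_of_mem h]
  · rw [indicator_of_notMem h, norm_zero]; exact norm_nonneg _

/-- for a.e. `ξ`, membership in `Pt D (s n)` is eventually membership in `Pt D t` -/
theorem Pt_ev (D : ℝ → ℕ) {t : ℝ} {s : ℕ → ℝ} (hs : Tendsto s atTop (𝓝 t)) :
    ∀ᵐ ξ : ℝ, ∀ᶠ n in atTop, (ξ ∈ Pt D (s n) ↔ ξ ∈ Pt D t) := by
  classical
  have hgen : ∀ᵐ ξ : ℝ, ∀ j : ℕ, Int.fract ((2:ℝ) ^ j * ξ) ≠ t := by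
    have h1 : ∀ᵐ ξ : ℝ, Int.fract ξ ≠ t := by
      have : ∀ n : ℤ, ∀ᵐ ξ : ℝ, ξ ≠ t + n := fun n => by
        have : volume ({t + (n:ℝ)} : Set ℝ) = 0 := by simp
        exact compl_mem_ae_iff.2 this
      filter_upwards [ae_all_iff.2 this] with ξ hξ h
      apply hξ ⌊ξ⌋
      rw [← h, Int.fract]; ring
    rw [ae_all_iff]
    intro j
    exact ae_scale h1 _ (by positivity)
  filter_upwards [hgen] with ξ hξ
  by_cases hex : ∃ j : ℕ, D ((2:ℝ) ^ j * ξ) = 0
  · let j := Nat.find hex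
    have hj : D ((2:ℝ) ^ j * ξ) = 0 := Nat.find_spec hex
    have hj' : ∀ l < j, D ((2:ℝ) ^ l * ξ) ≠ 0 := fun l hl => Nat.find_min hex hl
    have hiff : ∀ t', ξ ∈ Pt D t' ↔ Int.fract ((2:ℝ) ^ j * ξ) < t' := by
      intro t'
      constructor
      · rintro ⟨i, h1, h2, h3⟩
        have : i = j := by
          rcases lt_trichotomy i j with h | h | h
          · exact absurd h1 (hj' i h)
          · exact h
          · exact absurd hj (h2 j h)
        rw [← this]; exact h3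
      · intro h; exact ⟨j, hj, hj', h⟩
    simp only [hiff]
    rcases lt_or_gt_of_ne (hξ j) with h | h
    · filter_upwards [hs.eventually (lt_mem_nhds h)] with n hn
      exact ⟨fun _ => h, fun _ => hn⟩
    · filter_upwards [hs.eventually (gt_mem_nhds h)] with n hn
      exact ⟨fun h' => absurd h' (not_lt.2 (le_of_lt hn)), fun h' => absurd h' (not_lt.2 (le_of_lt h))⟩
  · have : ∀ t', ξ ∉ Pt D t' := by
      rintro t' ⟨i, h1, _, _⟩
      exact hex ⟨i, h1⟩
    exact Eventually.of_forall (fun n => ⟨fun h => absurd h (this _), fun h => absurd h (this _)⟩)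

theorem Pt_mono (D : ℝ → ℕ) {s t : ℝ} (h : s ≤ t) : Pt D s ⊆ Pt D t := by
  rintro ξ ⟨j, h1, h2, h3⟩
  exact ⟨j, h1, h2, h3.trans_le h⟩

theorem Pt_zero (D : ℝ → ℕ) (ξ : ℝ) : ξ ∉ Pt D 0 := by
  rintro ⟨j, _, _, h⟩
  exact absurd h (not_lt.2 (Int.fract_nonneg _))

theorem Pt_one {D : ℝ → ℕ} (hDm : Measurable D) (hDp : Function.Periodic D 1)
    (hpos : ¬ ∀ᵐ ξ : ℝ, 1 ≤ D ξ) : ∀ᵐ ξ : ℝ, ξ ∈ Pt D 1 := by
  classical
  have hhit : ∀ᵐ ξ : ℝ, ∃ j : ℕ, (2:ℝ) ^ j * ξ ∈ {ξ | D ξ = 0} := by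
    apply hit
    · exact hDm (measurableSet_singleton 0)
    · intro ξ n
      change D (ξ + n) = 0 ↔ D ξ = 0
      rw [D_int hDp]
    · intro h
      apply hpos
      filter_upwards [h] with ξ hξ
      have : D ξ ≠ 0 := hξ
      omega
  filter_upwards [hhit] with ξ hex
  exact ⟨Nat.find hex, Nat.find_spec hex, fun l hl => Nat.find_min hex hl, Int.fract_lt_one _⟩

/-- strong continuity in `t` -/
theorem cutL_tendsto {D : ℝ → ℕ} (hDm : Measurable D) (g : LL) {t : ℝ} {s : ℕ → ℝ}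
    (hs : Tendsto s atTop (𝓝 t)) :
    Tendsto (fun n => cutL (Pt_meas hDm (s n)) g) atTop (𝓝 (cutL (Pt_meas hDm t) g)) := by
  classical
  rw [tendsto_iff_edist_tendsto_0]
  have hN : Tendsto (fun n => N2 (fun ξ => (cutL (Pt_meas hDm (s n)) g : ℝ → ℂ) ξ -
      (cutL (Pt_meas hDm t) g : ℝ → ℂ) ξ)) atTop (𝓝 0) := by
    unfold N2
    have hz : (0 : ℝ≥0∞) = ∫⁻ _ξ : ℝ, 0 := by simp
    rw [hz]
    refine tendsto_lintegral_of_dominated_convergence' (fun ξ => ‖(g : ℝ → ℂ) ξ‖ₑ ^ 2) ?_ ?_ ?_ ?_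
    · intro n
      exact (((Lp.aestronglyMeasurable _).sub (Lp.aestronglyMeasurable _)).enorm).pow_const 2
    · intro n
      filter_upwards [cutL_coe (Pt_meas hDm (s n)) g, cutL_coe (Pt_meas hDm t) g] with x h1 h2
      rw [h1, h2]
      by_cases a : x ∈ Pt D (s n) <;> by_cases b : x ∈ Pt D t
      · rw [indicator_of_mem a, indicator_of_mem b]; simp
      · rw [indicator_of_mem a, indicator_of_notMem b, sub_zero]
      · rw [indicator_of_notMem a, indicator_of_mem b, zero_sub, enorm_neg]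
      · rw [indicator_of_notMem a, indicator_of_notMem b]; simp
    · have := N2_lt_top (Lp.memLp g)
      exact this.ne
    · have hall : ∀ᵐ x : ℝ, ∀ n : ℕ, (cutL (Pt_meas hDm (s n)) g : ℝ → ℂ) x =
          (Pt D (s n)).indicator (g : ℝ → ℂ) x := ae_all_iff.2 (fun n => cutL_coe _ g)
      filter_upwards [hall, cutL_coe (Pt_meas hDm t) g, Pt_ev D hs] with x h1 h2 h3
      apply tendsto_const_nhds.congr'
      filter_upwards [h3] with n hn
      rw [h1 n, h2]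
      by_cases b : x ∈ Pt D t
      · rw [indicator_of_mem b, indicator_of_mem (hn.2 b)]; simp
      · rw [indicator_of_notMem b, indicator_of_notMem (fun h' => b (hn.1 h'))]; simp
  have e : ∀ n, edist (cutL (Pt_meas hDm (s n)) g) (cutL (Pt_meas hDm t) g) =
      (N2 (fun ξ => (cutL (Pt_meas hDm (s n)) g : ℝ → ℂ) ξ -
      (cutL (Pt_meas hDm t) g : ℝ → ℂ) ξ)) ^ (1/2 : ℝ) := by
    intro n
    rw [N2_toLp_sub, edist_eq_enorm_sub, ← ENNReal.rpow_natCast, ← ENNReal.rpow_mul]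
    norm_num
  simp only [e]
  have := (ENNReal.continuous_rpow_const (y := (1/2:ℝ))).tendsto 0 |>.comp hN
  simpa [Function.comp_def] using this

/-- the cutting map on the Fourier side: `F1` on `Pt D t`, `F0` off it -/
noncomputable def EF {D : ℝ → ℕ} (hDm : Measurable D) (F0 F1 : LL) (t : ℝ) : LL :=
  F0 + cutL (Pt_meas hDm t) (F1 - F0)

theorem EF_coe {D : ℝ → ℕ} (hDm : Measurable D) (F0 F1 : LL) (t : ℝ) :
    (EF hDm F0 F1 t : ℝ → ℂ) =ᵐ[volume] pat (Pt D t) F1 F0 := by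
  filter_upwards [Lp.coeFn_add F0 (cutL (Pt_meas hDm t) (F1 - F0)), cutL_coe (Pt_meas hDm t) (F1 - F0),
    Lp.coeFn_sub F1 F0] with x h1 h2 h3
  change (F0 + cutL (Pt_meas hDm t) (F1 - F0) : LL) x = _
  rw [h1, Pi.add_apply, h2]
  by_cases b : x ∈ Pt D t
  · rw [indicator_of_mem b, pat_mem b, h3, Pi.sub_apply]; ring
  · rw [indicator_of_notMem b, pat_notMem b, add_zero]

theorem EF_continuous {D : ℝ → ℕ} (hDm : Measurable D) :
    Continuous (fun p : LL × LL × ℝ => EF hDm p.1 p.2.1 p.2.2) := by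
  have hc : Continuous (fun q : LL × ℝ => cutL (Pt_meas hDm q.2) q.1) := by
    apply SeqContinuous.continuous
    intro q q0 hq
    have h1 : Tendsto (fun n => (q n).1) atTop (𝓝 q0.1) := (continuous_fst.tendsto q0).comp hq
    have h2 : Tendsto (fun n => (q n).2) atTop (𝓝 q0.2) := (continuous_snd.tendsto q0).comp hq
    have h3 := cutL_tendsto hDm q0.1 h2
    rw [tendsto_iff_norm_sub_tendsto_zero] at h1 h3 ⊢
    have h4 := h1.add h3
    rw [add_zero] at h4
    refine squeeze_zero (fun _ => norm_nonneg _) (fun n => ?_) h4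
    simp only [Function.comp_apply]
    have e : cutL (Pt_meas hDm (q n).2) (q n).1 - cutL (Pt_meas hDm q0.2) q0.1 =
        cutL (Pt_meas hDm (q n).2) ((q n).1 - q0.1) +
        (cutL (Pt_meas hDm (q n).2) q0.1 - cutL (Pt_meas hDm q0.2) q0.1) := by
      rw [cutL_sub]; abel
    rw [e]
    exact (norm_add_le _ _).trans (add_le_add (cutL_norm_le _ _) le_rfl)
  unfold EF
  exact continuous_fst.add (hc.comp ((continuous_snd.fst.sub continuous_fst).prodMk continuous_snd.snd))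

theorem EF_mem {D : ℝ → ℕ} (hDm : Measurable D) (hDp : Function.Periodic D 1) {F0 F1 : LL}
    (h0 : F0 ∈ WW D) (h1 : F1 ∈ WW D) (t : ℝ) : EF hDm F0 F1 t ∈ WW D := by
  have hpd : PatchData F1 F0 D (Pt D t) :=
    ⟨h1.1, h0.1, h1.2, h0.2, hDm, Pt_meas hDm t, Pt_per hDp t, Eventually.of_forall (fun ξ h => Pt_inv t ξ h)⟩
  have e := EF_coe hDm F0 F1 t
  refine ⟨hpd.isPW.congr e.symm, ?_⟩
  filter_upwards [hpd.dim, dimf_congr e] with ξ a b
  rw [b, a]

theorem EF_zero {D : ℝ → ℕ} (hDm : Measurable D) (F0 F1 : LL) : EF hDm F0 F1 0 = F0 := by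
  apply Lp.ext
  filter_upwards [EF_coe hDm F0 F1 0] with x hx
  rw [hx, pat_notMem (Pt_zero D x)]

theorem EF_one {D : ℝ → ℕ} (hDm : Measurable D) (hDp : Function.Periodic D 1)
    (hpos : ¬ ∀ᵐ ξ : ℝ, 1 ≤ D ξ) (F0 F1 : LL) : EF hDm F0 F1 1 = F1 := by
  apply Lp.ext
  filter_upwards [EF_coe hDm F0 F1 1, Pt_one hDm hDp hpos] with x hx h1
  rw [hx, pat_mem h1]

theorem EF_or {D : ℝ → ℕ} (hDm : Measurable D) (F0 F1 : LL) (t : ℝ) :
    ∀ᵐ ξ : ℝ, EF hDm F0 F1 t ξ = F0 ξ ∨ EF hDm F0 F1 t ξ = F1 ξ := by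
  filter_upwards [EF_coe hDm F0 F1 t] with x hx
  rw [hx]
  by_cases b : x ∈ Pt D t
  · right; rw [pat_mem b]
  · left; rw [pat_notMem b]

/-- the path is additive for the squared distance -/
theorem EF_pyth {D : ℝ → ℕ} (hDm : Measurable D) (F0 F1 : LL) {s t : ℝ} (hst : s ≤ t) :
    ‖F0 - EF hDm F0 F1 s‖ ^ 2 + ‖EF hDm F0 F1 s - EF hDm F0 F1 t‖ ^ 2 + ‖EF hDm F0 F1 t - F1‖ ^ 2 =
      ‖F0 - F1‖ ^ 2 := by
  have key : ‖F0 - EF hDm F0 F1 s‖ₑ ^ 2 + ‖EF hDm F0 F1 s - EF hDm F0 F1 t‖ₑ ^ 2 +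
      ‖EF hDm F0 F1 t - F1‖ₑ ^ 2 = ‖F0 - F1‖ₑ ^ 2 := by
    rw [← N2_toLp_sub, ← N2_toLp_sub, ← N2_toLp_sub, ← N2_toLp_sub]
    unfold N2
    have m1 : AEMeasurable (fun x => ‖F0 x - EF hDm F0 F1 s x‖ₑ ^ 2) volume :=
      (((Lp.aestronglyMeasurable _).sub (Lp.aestronglyMeasurable _)).enorm).pow_const 2
    have m2 : AEMeasurable (fun x => ‖EF hDm F0 F1 s x - EF hDm F0 F1 t x‖ₑ ^ 2) volume :=
      (((Lp.aestronglyMeasurable _).sub (Lp.aestronglyMeasurable _)).enorm).pow_const 2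
    have m12 : AEMeasurable (fun x => ‖F0 x - EF hDm F0 F1 s x‖ₑ ^ 2 +
        ‖EF hDm F0 F1 s x - EF hDm F0 F1 t x‖ₑ ^ 2) volume := m1.add m2
    rw [← lintegral_add_left' m1, ← lintegral_add_left' m12]
    apply lintegral_congr_ae
    filter_upwards [EF_coe hDm F0 F1 s, EF_coe hDm F0 F1 t] with x h1 h2
    rw [h1, h2]
    by_cases a : x ∈ Pt D s
    · have b := Pt_mono D hst a
      rw [pat_mem a, pat_mem b]; simp
    · by_cases b : x ∈ Pt D t
      · rw [pat_notMem a, pat_mem b]; simp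
      · rw [pat_notMem a, pat_notMem b]; simp
  have h := congrArg ENNReal.toReal key
  rw [ENNReal.toReal_add (by finiteness) (by finiteness), ENNReal.toReal_add (by finiteness) (by finiteness)] at h
  simpa only [ENNReal.toReal_pow, toReal_enorm] using h

end Pool.Agent.Helper30.WD
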