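import Mathlib

/-!
Fourier-side definitions for MP_1deea1_an (path connectivity of wavelets with a prescribed
dimension function). All functions are `ℝ → ℂ`; `F` plays the role of `ψ^`.
-/

set_option autoImplicit false
open MeasureTheory Filter Topology
open scoped ENNReal ComplexConjugate

namespace Pool.Agent.Helper30.WD

/-- the exponential `ξ ↦ e^{2π i k ξ}` -/
noncomputable def ek (k : ℤ) (ξ : ℝ) : ℂ := Complex.exp (2 * Real.pi * Complex.I * k * ξ)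

/-- bracket product -/
noncomputable def br (G F : ℝ → ℂ) (ξ : ℝ) : ℂ := ∑' n : ℤ, G (ξ + n) * conj (F (ξ + n))

/-- `∑ₙ |F(ξ+n)|²` -/
noncomputable def nsq (F : ℝ → ℂ) (ξ : ℝ) : ℝ≥0∞ := ∑' n : ℤ, ‖F (ξ + n)‖ₑ ^ 2

/-- `E₀(G) = ∑ₖ |⟨G, e_k F⟩|²` -/
noncomputable def EE (F G : ℝ → ℂ) : ℝ≥0∞ :=
  ∑' k : ℤ, ‖∫ ξ, G ξ * conj (F ξ) * ek k ξ‖ₑ ^ 2

/-- unitary dilation -/
noncomputable def dil (j : ℤ) (G : ℝ → ℂ) (ξ : ℝ) : ℂ :=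
  (((2:ℝ) ^ ((j:ℝ) / 2) : ℝ) : ℂ) * G ((2:ℝ) ^ j * ξ)

/-- squared `L²` norm -/
noncomputable def N2 (G : ℝ → ℂ) : ℝ≥0∞ := ∫⁻ ξ, ‖G ξ‖ₑ ^ 2

/-- `F` is the Fourier transform of an orthonormal wavelet, in Parseval form. -/
structure IsPW (F : ℝ → ℂ) : Prop where
  mem : MemLp F 2
  norm : N2 F = 1
  pars : ∀ G : ℝ → ℂ, MemLp G 2 → ∑' j : ℤ, EE F (dil j G) = N2 G

/-- dimension function -/
noncomputable def dimf (F : ℝ → ℂ) (ξ : ℝ) : ℝ≥0∞ :=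
  ∑' j : ℕ, ∑' k : ℤ, ‖F ((2:ℝ) ^ (j + 1) * (ξ + k))‖ₑ ^ 2

/-! ### transfer of a.e. statements -/

theorem ae_affine {P : ℝ → Prop} (h : ∀ᵐ ξ : ℝ, P ξ) (a b : ℝ) (ha : a ≠ 0) :
    ∀ᵐ ξ : ℝ, P (a * ξ + b) := by
  have h1 : ∀ᵐ ξ : ℝ, P (ξ + b) :=
    (measurePreserving_add_right volume b).quasiMeasurePreserving.ae h
  have h2 : Measure.QuasiMeasurePreserving (fun x : ℝ => a * x) volume volume := by
    refine ⟨measurable_const_mul a, ?_⟩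
    rw [Real.map_volume_mul_left ha]
    exact Measure.smul_absolutelyContinuous
  exact h2.ae h1

theorem ae_orbit {P : ℝ → Prop} (h : ∀ᵐ ξ : ℝ, P ξ) :
    ∀ᵐ ξ : ℝ, ∀ (j : ℤ) (q : ℚ), P ((2:ℝ) ^ j * ξ + q) := by
  rw [ae_all_iff]; intro j
  rw [ae_all_iff]; intro q
  exact ae_affine h _ _ (by positivity)

theorem ae_add_int {P : ℝ → Prop} (h : ∀ᵐ ξ : ℝ, P ξ) :
    ∀ᵐ ξ : ℝ, ∀ n : ℤ, P (ξ + n) := by
  filter_upwards [ae_orbit h] with ξ hξ n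
  have := hξ 0 n
  simpa using this

theorem ae_pow_add {P : ℝ → Prop} (h : ∀ᵐ ξ : ℝ, P ξ) :
    ∀ᵐ ξ : ℝ, ∀ (j : ℕ) (n : ℤ), P ((2:ℝ) ^ j * (ξ + n)) := by
  filter_upwards [ae_orbit h] with ξ hξ j n
  have := hξ j ((2:ℚ)^j * n)
  have h2 : (2:ℝ) ^ j * (ξ + n) = (2:ℝ) ^ (j:ℤ) * ξ + (((2:ℚ)^j * n : ℚ) : ℝ) := by
    push_cast
    rw [zpow_natCast]
    ring
  rw [h2]; exact this

end Pool.Agent.Helper30.WD
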