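import Pool.Agent.Helper30.WD.Patch

/-! Ergodicity of the doubling map: hitting times and the dichotomy for the dimension function. -/

set_option autoImplicit false
open MeasureTheory Filter Topology Set
open scoped ENNReal ComplexConjugate

namespace Pool.Agent.Helper30.WD

theorem circ_set {P : Set ℝ} (hPm : MeasurableSet P) (hP : Per P) :
    ∃ B : Set (AddCircle (1:ℝ)), MeasurableSet B ∧ ∀ ξ : ℝ, (ξ : AddCircle (1:ℝ)) ∈ B ↔ ξ ∈ P := by
  let B : Set (AddCircle (1:ℝ)) := {x | ((AddCircle.measurableEquivIoc (1:ℝ) 0 x : ℝ)) ∈ P}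
  refine ⟨B, ?_, ?_⟩
  · exact measurableSet_preimage
      (measurable_subtype_coe.comp (AddCircle.measurableEquivIoc (1:ℝ) 0).measurable) hPm
  · intro ξ
    have h1 : ∀ ξ ∈ Ioc (0:ℝ) 1, ((ξ : AddCircle (1:ℝ)) ∈ B ↔ ξ ∈ P) := by
      intro ξ hξ
      change (AddCircle.measurableEquivIoc (1:ℝ) 0 (ξ : AddCircle (1:ℝ)) : ℝ) ∈ P ↔ ξ ∈ P
      have : (AddCircle.measurableEquivIoc (1:ℝ) 0 (ξ : AddCircle (1:ℝ)) : ℝ) = ξ := by
        have h0 : ξ ∈ Ioc (0:ℝ) (0 + 1) := by simpa using hξ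
        exact AddCircle.equivIoc_coe_of_mem (p := 1) (a := 0) h0
      rw [this]
    have h2 := h1 (ξ + ((-(⌈ξ⌉ - 1) : ℤ) : ℝ)) (by
      push_cast
      constructor
      · have := Int.ceil_lt_add_one ξ; linarith
      · have := Int.le_ceil ξ; linarith)
    rw [hP] at h2
    rw [← h2]
    have : ((ξ + ((-(⌈ξ⌉ - 1) : ℤ) : ℝ) : ℝ) : AddCircle (1:ℝ)) = (ξ : AddCircle (1:ℝ)) := by
      rw [AddCircle.coe_add]
      have h3 : (((-(⌈ξ⌉ - 1) : ℤ) : ℝ) : AddCircle (1:ℝ)) = 0 := by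
        rw [AddCircle.coe_eq_zero_iff]
        exact ⟨-(⌈ξ⌉ - 1), by simp⟩
      rw [h3, add_zero]
    rw [this]

theorem ae_circ {Q : AddCircle (1:ℝ) → Prop} (h : ∀ᵐ y, Q y) : ∀ᵐ ξ : ℝ, Q (ξ : AddCircle (1:ℝ)) := by
  apply ae_of_ae_Ioc (P := fun ξ : ℝ => Q (ξ : AddCircle (1:ℝ)))
  · intro ξ m hm
    have : ((ξ + (m:ℝ) : ℝ) : AddCircle (1:ℝ)) = (ξ : AddCircle (1:ℝ)) := by
      rw [AddCircle.coe_add]
      have h3 : ((m : ℝ) : AddCircle (1:ℝ)) = 0 := by
        rw [AddCircle.coe_eq_zero_iff]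
        exact ⟨m, by simp⟩
      rw [h3, add_zero]
    rwa [this] at hm
  · have := (AddCircle.measurePreserving_mk (1:ℝ) 0).quasiMeasurePreserving.ae h
    simpa using this

theorem two_smul_coe (ξ : ℝ) : (2:ℕ) • (ξ : AddCircle (1:ℝ)) = ((2 * ξ : ℝ) : AddCircle (1:ℝ)) := by
  rw [← AddCircle.coe_nsmul]; simp

/-- every positive-measure periodic set is hit by almost every doubling orbit -/
theorem hit {Z : Set ℝ} (hZm : MeasurableSet Z) (hZ : Per Z) (hpos : ¬ ∀ᵐ ξ : ℝ, ξ ∉ Z) :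
    ∀ᵐ ξ : ℝ, ∃ j : ℕ, (2:ℝ) ^ j * ξ ∈ Z := by
  let A : Set ℝ := {ξ | ∃ j : ℕ, (2:ℝ) ^ j * ξ ∈ Z}
  have hAm : MeasurableSet A := by
    have : A = ⋃ j : ℕ, {ξ | (2:ℝ) ^ j * ξ ∈ Z} := by ext ξ; simp [A]
    rw [this]
    exact MeasurableSet.iUnion (fun j => measurable_const_mul _ hZm)
  have hA : Per A := by
    intro ξ n
    constructor
    · rintro ⟨j, hj⟩
      refine ⟨j, ?_⟩
      have := (hZ ((2:ℝ) ^ j * ξ) (2 ^ j * n)).1 (by push_cast; rw [← mul_add]; exact hj)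
      exact this
    · rintro ⟨j, hj⟩
      refine ⟨j, ?_⟩
      have := (hZ ((2:ℝ) ^ j * ξ) (2 ^ j * n)).2 hj
      push_cast at this; rw [← mul_add] at this; exact this
  obtain ⟨B, hBm, hB⟩ := circ_set hAm hA
  have herg : Ergodic (fun y : AddCircle (1:ℝ) => 2 • y) := AddCircle.ergodic_nsmul (by norm_num)
  have hpre : (fun y : AddCircle (1:ℝ) => 2 • y) ⁻¹' B ⊆ B := by
    intro y hy
    induction y using QuotientAddGroup.induction_on with
    | H x =>
      change (2:ℕ) • (x : AddCircle (1:ℝ)) ∈ B at hy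
      change (x : AddCircle (1:ℝ)) ∈ B
      rw [two_smul_coe, hB] at hy
      rw [hB]
      obtain ⟨j, hj⟩ := hy
      refine ⟨j+1, ?_⟩
      rw [pow_succ, mul_assoc]; exact hj
  rcases herg.ae_empty_or_univ_of_preimage_ae_le hBm.nullMeasurableSet
    (LE.le.eventuallyLE hpre) with h | h
  · exfalso
    apply hpos
    have h1 : ∀ᵐ y : AddCircle (1:ℝ), y ∉ B := by
      filter_upwards [h] with y hy
      intro hyB
      have : (y ∈ B) = (y ∈ (∅ : Set (AddCircle (1:ℝ)))) := hy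
      rw [this] at hyB
      exact hyB
    filter_upwards [ae_circ h1] with ξ hξ hmem
    apply hξ
    rw [hB]
    exact ⟨0, by simpa using hmem⟩
  · have h1 : ∀ᵐ y : AddCircle (1:ℝ), y ∈ B := by
      filter_upwards [h] with y hy
      have : (y ∈ B) = (y ∈ (univ : Set (AddCircle (1:ℝ)))) := hy
      rw [this]; trivial
    filter_upwards [ae_circ h1] with ξ hξ
    exact (hB ξ).1 hξ

/-- If `D ≥ 1` a.e. then `D = 1` a.e. -/
theorem D_eq_one {D : ℝ → ℕ} (hDm : Measurable D) (hDp : Function.Periodic D 1)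
    (h2 : ∀ᵐ ξ : ℝ, D ξ + D (ξ + 1 / 2) = D (2 * ξ) + 1) (h1 : ∀ᵐ ξ : ℝ, 1 ≤ D ξ) :
    ∀ᵐ ξ : ℝ, D ξ = 1 := by
  let A : Set ℝ := {ξ | 2 ≤ D ξ}
  have hAm : MeasurableSet A := hDm measurableSet_Ici
  have hDint : ∀ (ξ : ℝ) (n : ℤ), D (ξ + n) = D ξ := by
    intro ξ n
    have := hDp.int_mul n ξ
    simpa using this
  have hA : Per A := by
    intro ξ n
    change 2 ≤ D (ξ + n) ↔ 2 ≤ D ξ
    rw [hDint]
  obtain ⟨B, hBm, hB⟩ := circ_set hAm hA
  have herg : Ergodic (fun y : AddCircle (1:ℝ) => 2 • y) := AddCircle.ergodic_nsmul (by norm_num)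
  -- B ⊆ T⁻¹ B almost everywhere
  let good : Set ℝ := {ξ | D ξ + D (ξ + 1 / 2) = D (2 * ξ) + 1 ∧ 1 ≤ D (ξ + 1/2)}
  have hgood : ∀ᵐ ξ : ℝ, ξ ∈ good := by
    have h1' := ae_affine h1 1 (1/2) one_ne_zero
    filter_upwards [h2, h1'] with ξ a b
    exact ⟨a, by simpa using b⟩
  have hDhalf : Measurable (fun ξ => D (ξ + 1/2)) := hDm.comp (measurable_add_const _)
  have hD2 : Measurable (fun ξ => D (2 * ξ)) := hDm.comp (measurable_const_mul _)
  have hgm : MeasurableSet good := by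
    apply MeasurableSet.inter
    · exact measurableSet_eq_fun (hDm.add hDhalf) (hD2.add_const 1)
    · exact hDhalf measurableSet_Ici
  have hgp : Per good := by
    intro ξ n
    change (D (ξ + n) + D (ξ + n + 1 / 2) = D (2 * (ξ + n)) + 1 ∧ 1 ≤ D (ξ + n + 1/2)) ↔
      (D ξ + D (ξ + 1 / 2) = D (2 * ξ) + 1 ∧ 1 ≤ D (ξ + 1/2))
    rw [hDint, show ξ + n + 1/2 = (ξ + 1/2) + n by ring, hDint,
      show 2 * (ξ + (n:ℝ)) = 2 * ξ + ((2 * n : ℤ) : ℝ) by push_cast; ring, hDint]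
  obtain ⟨C, hCm, hC⟩ := circ_set hgm hgp
  have hCae : ∀ᵐ y : AddCircle (1:ℝ), y ∈ C := by
    have hmp := AddCircle.measurePreserving_mk (1:ℝ) 0
    have : volume Cᶜ = 0 := by
      rw [← hmp.measure_preimage hCm.compl.nullMeasurableSet]
      have h3 : (fun x : ℝ => (x : AddCircle (1:ℝ))) ⁻¹' Cᶜ = goodᶜ := by
        ext ξ; simp only [mem_preimage, mem_compl_iff, hC]
      rw [h3]
      have h4 : volume goodᶜ = 0 := hgood
      exact le_antisymm ((Measure.restrict_apply_le _ _).trans h4.le) zero_le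
    exact this
  have hpre : B ≤ᵐ[volume] (fun y : AddCircle (1:ℝ) => 2 • y) ⁻¹' B := by
    filter_upwards [hCae] with y hy hyB
    induction y using QuotientAddGroup.induction_on with
    | H x =>
      change (x : AddCircle (1:ℝ)) ∈ B at hyB
      change (2:ℕ) • (x : AddCircle (1:ℝ)) ∈ B
      have hx : x ∈ good := (hC x).1 hy
      rw [two_smul_coe, hB]
      rw [hB] at hyB
      have a : 2 ≤ D x := hyB
      obtain ⟨b, c⟩ := hx
      change 2 ≤ D (2 * x)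
      omega
  rcases herg.ae_empty_or_univ_of_ae_le_preimage hBm.nullMeasurableSet hpre with h | h
  · have h1' : ∀ᵐ y : AddCircle (1:ℝ), y ∉ B := by
      filter_upwards [h] with y hy
      intro hyB
      have : (y ∈ B) = (y ∈ (∅ : Set (AddCircle (1:ℝ)))) := hy
      rw [this] at hyB
      exact hyB
    filter_upwards [ae_circ h1', h1] with ξ hξ h1ξ
    rw [hB] at hξ
    have : ¬ 2 ≤ D ξ := hξ
    omega
  · exfalso
    have h1' : ∀ᵐ y : AddCircle (1:ℝ), y ∈ B := by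
      filter_upwards [h] with y hy
      have : (y ∈ B) = (y ∈ (univ : Set (AddCircle (1:ℝ)))) := hy
      rw [this]; trivial
    have hall : ∀ m : ℕ, ∀ᵐ ξ : ℝ, m + 2 ≤ D ξ := by
      intro m
      induction m with
      | zero =>
        filter_upwards [ae_circ h1'] with ξ hξ
        have : 2 ≤ D ξ := (hB ξ).1 hξ
        omega
      | succ m ih =>
        have a := ae_affine ih 1 (1/2) one_ne_zero
        have b : ∀ᵐ ξ : ℝ, m + 1 + 2 ≤ D (2 * ξ) := by
          filter_upwards [ih, a, h2] with ξ x1 x2 x3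
          rw [one_mul] at x2
          omega
        have c := ae_scale b (1/2) (by norm_num)
        filter_upwards [c] with ξ hξ
        have : 2 * (1 / 2 * ξ) = ξ := by ring
        rwa [this] at hξ
    have hall' : ∀ᵐ ξ : ℝ, ∀ m : ℕ, m + 2 ≤ D ξ := ae_all_iff.2 hall
    obtain ⟨ξ, hξ⟩ := hall'.exists
    have := hξ (D ξ)
    omega

end Pool.Agent.Helper30.WD
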