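import Pool.Agent.Helper30.WD.MRA2

/-! Upper bound for the energy of small indicator functions in `V_0`. -/

set_option autoImplicit false
open MeasureTheory Filter Topology Set
open scoped ENNReal ComplexConjugate

namespace Pool.Agent.Helper30.WD

/-- indicator function with complex values -/
noncomputable def chi (A : Set ℝ) : ℝ → ℂ := A.indicator (fun _ => (1:ℂ))

theorem chi_mem {A : Set ℝ} {ξ : ℝ} (h : ξ ∈ A) : chi A ξ = 1 := indicator_of_mem h _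
theorem chi_notMem {A : Set ℝ} {ξ : ℝ} (h : ξ ∉ A) : chi A ξ = 0 := indicator_of_notMem h _

theorem chi_enorm (A : Set ℝ) (ξ : ℝ) : ‖chi A ξ‖ₑ ^ 2 = A.indicator (fun _ => (1:ℝ≥0∞)) ξ := by
  by_cases h : ξ ∈ A
  · rw [chi_mem h, indicator_of_mem h]; simp
  · rw [chi_notMem h, indicator_of_notMem h]; simp

theorem chi_inter (P A : Set ℝ) : P.indicator (chi A) = chi (P ∩ A) := by
  ext ξ
  by_cases h : ξ ∈ P
  · rw [indicator_of_mem h]
    by_cases h2 : ξ ∈ A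
    · rw [chi_mem h2, chi_mem (show ξ ∈ P ∩ A from ⟨h, h2⟩)]
    · rw [chi_notMem h2, chi_notMem (fun h' : ξ ∈ P ∩ A => h2 h'.2)]
  · rw [indicator_of_notMem h, chi_notMem (fun h' : ξ ∈ P ∩ A => h h'.1)]

theorem N2_chi {A : Set ℝ} (hA : MeasurableSet A) : N2 (chi A) = volume A := by
  unfold N2
  simp only [chi_enorm]
  rw [lintegral_indicator hA]; simp

theorem memLp_chi {A : Set ℝ} (hA : MeasurableSet A) (hf : volume A < ⊤) : MemLp (chi A) 2 := by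
  apply memLp_of_N2
  · exact (measurable_const.indicator hA).aestronglyMeasurable
  · rw [N2_chi hA]; exact hf

/-- `σ(ξ) = ∑_{j ≥ 1} |F(2^j ξ)|²` -/
noncomputable def sg (F : ℝ → ℂ) (ξ : ℝ) : ℝ≥0∞ := ∑' j : ℕ, ‖F ((2:ℝ) ^ (j+1) * ξ)‖ₑ ^ 2

theorem sg_meas {F : ℝ → ℂ} (hF : Measurable F) : Measurable (sg F) :=
  Measurable.tsum (fun j => (hF.comp (measurable_const_mul _)).enorm.pow_const 2)

theorem dimf_eq_sg (F : ℝ → ℂ) (ξ : ℝ) : dimf F ξ = ∑' k : ℤ, sg F (ξ + k) := by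
  unfold dimf sg; rw [ENNReal.tsum_comm]

/-- mass of the dilated pieces -/
noncomputable def ms (F : ℝ → ℂ) (B : Set ℝ) (j : ℕ) : ℝ≥0∞ := ∫⁻ ξ in B, ‖F ((2:ℝ) ^ (j+1) * ξ)‖ₑ ^ 2

variable {F : ℝ → ℂ}

theorem ms_nonneg_add {B P : Set ℝ} (hP : MeasurableSet P) (j : ℕ) :
    ms F B j = ms F (P ∩ B) j + ms F (Pᶜ ∩ B) j := by
  unfold ms
  rw [inter_comm P B, inter_comm Pᶜ B, ← lintegral_inter_add_sdiff (f := fun ξ => ‖F ((2:ℝ) ^ (j+1) * ξ)‖ₑ ^ 2) B hP,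
    sdiff_eq]

theorem sq_const (j : ℤ) (ξ : ℝ) (B : Set ℝ) :
    ‖dil j (chi B) ξ‖ₑ ^ 2 = ENNReal.ofReal ((2:ℝ) ^ j) * {ξ | (2:ℝ) ^ j * ξ ∈ B}.indicator (fun _ => (1:ℝ≥0∞)) ξ := by
  rw [dil_enorm_sq, chi_enorm]
  congr 1

/-- one-scale bound for a set contained in an interval of length `ℓ` -/
theorem EE_small (hF : Measurable F) (hn : ∀ᵐ ξ, nsq F ξ ≤ 1) {B : Set ℝ} (hB : MeasurableSet B)
    {a ℓ : ℝ} (hℓ : 0 ≤ ℓ) (hBI : B ⊆ Icc a (a + ℓ)) (j : ℕ) :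
    EE F (dil (-((j:ℤ) + 1)) (chi B)) ≤ ENNReal.ofReal (1 + (2:ℝ) ^ (j+1) * ℓ) * ms F B j := by
  have hBf : volume B < ⊤ := (measure_mono hBI).trans_lt (by rw [Real.volume_Icc]; exact ENNReal.ofReal_lt_top)
  have hcm := memLp_chi hB hBf
  set s : ℝ := (2:ℝ) ^ (j+1) with hs
  have hspos : 0 < s := by positivity
  have hz : (2:ℝ) ^ (-((j:ℤ) + 1)) = s⁻¹ := by
    rw [zpow_neg, hs, ← zpow_natCast (2:ℝ) (j+1)]; push_cast; rfl
  let B' : Set ℝ := {ξ | (2:ℝ) ^ (-((j:ℤ) + 1)) * ξ ∈ B}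
  have hB'm : MeasurableSet B' := measurable_const_mul _ hB
  have hbr : ∀ ξ, br (dil (-((j:ℤ) + 1)) (chi B)) F ξ = br (dil (-((j:ℤ) + 1)) (chi B)) (B'.indicator F) ξ := by
    intro ξ
    unfold br
    apply tsum_congr; intro n
    by_cases h : ξ + n ∈ B'
    · rw [indicator_of_mem h]
    · have : dil (-((j:ℤ) + 1)) (chi B) (ξ + n) = 0 := by
        unfold dil
        rw [chi_notMem (show (2:ℝ) ^ (-((j:ℤ) + 1)) * (ξ + n) ∉ B from h), mul_zero]
      rw [this, zero_mul, zero_mul]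
  have hnsq : ∀ ξ, nsq (dil (-((j:ℤ) + 1)) (chi B)) ξ ≤ ENNReal.ofReal (s⁻¹ * (s * ℓ + 1)) := by
    intro ξ
    unfold nsq
    calc ∑' n : ℤ, ‖dil (-((j:ℤ) + 1)) (chi B) (ξ + n)‖ₑ ^ 2
        ≤ ∑' n : ℤ, ENNReal.ofReal s⁻¹ * (Icc (s * a) (s * a + s * ℓ)).indicator (fun _ => (1:ℝ≥0∞)) (ξ + n) := by
          apply ENNReal.tsum_le_tsum; intro n
          rw [sq_const, hz]
          refine mul_le_mul' le_rfl ?_
          by_cases h : (ξ + n) ∈ {ξ | s⁻¹ * ξ ∈ B}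
          · rw [indicator_of_mem h, indicator_of_mem]
            have h1 := hBI (show s⁻¹ * (ξ + n) ∈ B from h)
            have e : ξ + n = s * (s⁻¹ * (ξ + n)) := by field_simp
            rw [e]
            constructor
            · gcongr; exact h1.1
            · rw [← mul_add]; gcongr; exact h1.2
          · rw [indicator_of_notMem h]; exact zero_le
      _ = ENNReal.ofReal s⁻¹ * ∑' n : ℤ, (Icc (s * a) (s * a + s * ℓ)).indicator (fun _ => (1:ℝ≥0∞)) (ξ + n) := by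
          rw [ENNReal.tsum_mul_left]
      _ ≤ ENNReal.ofReal s⁻¹ * ENNReal.ofReal (s * a + s * ℓ - s * a + 1) := by
          gcongr
          exact count_Icc (by nlinarith) ξ
      _ = ENNReal.ofReal (s⁻¹ * (s * ℓ + 1)) := by
          rw [← ENNReal.ofReal_mul (by positivity)]; congr 2; ring
  rw [EE_eq (memLp_dil _ hcm) hF.aestronglyMeasurable hn]
  calc ∫⁻ ξ in Ioc (0:ℝ) 1, ‖br (dil (-((j:ℤ) + 1)) (chi B)) F ξ‖ₑ ^ 2
      ≤ ∫⁻ ξ in Ioc (0:ℝ) 1, ENNReal.ofReal (s⁻¹ * (s * ℓ + 1)) * nsq (B'.indicator F) ξ := by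
        apply lintegral_mono; intro ξ
        simp only
        rw [hbr]
        refine (br_sq_le _ _ _).trans ?_
        gcongr
        exact hnsq ξ
    _ = ENNReal.ofReal (s⁻¹ * (s * ℓ + 1)) * N2 (B'.indicator F) := by
        rw [lintegral_const_mul' _ _ ENNReal.ofReal_ne_top,
          N2_per (hF.indicator hB'm).aestronglyMeasurable]
    _ = ENNReal.ofReal (s⁻¹ * (s * ℓ + 1)) * (ENNReal.ofReal s * ms F B j) := by
        congr 1
        unfold N2 ms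
        have e : ∀ ξ, ‖B'.indicator F ξ‖ₑ ^ 2 = (fun η => B.indicator (fun η => ‖F (s * η)‖ₑ ^ 2) η) (s⁻¹ * ξ) := by
          intro ξ
          simp only
          by_cases h : ξ ∈ B'
          · have h' : s⁻¹ * ξ ∈ B := by rw [← hz]; exact h
            rw [indicator_of_mem h, indicator_of_mem h']
            rw [← mul_assoc, mul_inv_cancel₀ hspos.ne', one_mul]
          · have h' : s⁻¹ * ξ ∉ B := by rw [← hz]; exact h
            rw [indicator_of_notMem h, indicator_of_notMem h']; simp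
        simp only [e]
        rw [lintegral_comp_mul (fun η => B.indicator (fun η => ‖F (s * η)‖ₑ ^ 2) η) (inv_pos.2 hspos), inv_inv,
          lintegral_indicator hB]
    _ = ENNReal.ofReal (1 + s * ℓ) * ms F B j := by
        rw [← mul_assoc, ← ENNReal.ofReal_mul (by positivity)]
        congr 2
        field_simp; ring

theorem qq_small (hF : Measurable F) (hn : ∀ᵐ ξ, nsq F ξ ≤ 1) {B : Set ℝ} (hB : MeasurableSet B)
    {a ℓ : ℝ} (hℓ : 0 ≤ ℓ) (hBI : B ⊆ Icc a (a + ℓ)) :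
    qq F (chi B) ≤ ∑' j : ℕ, ENNReal.ofReal (1 + (2:ℝ) ^ (j+1) * ℓ) * ms F B j :=
  ENNReal.tsum_le_tsum (fun j => EE_small hF hn hB hℓ hBI j)

/-- refinement by halving -/
theorem qq_refine (hw : IsPW F) (hF : Measurable F) (k : ℕ) : ∀ (M : ℕ) (a : ℝ) (B : Set ℝ), MeasurableSet B →
    B ⊆ Ico a (a + 1 / 2 ^ M) →
    qq F (chi B) ≤ ∑' j : ℕ, ENNReal.ofReal (1 + (2:ℝ) ^ (j+1) * (1 / 2 ^ (M + k))) * ms F B j := by
  induction k with
  | zero =>
    intro M a B hB hBI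
    exact qq_small hF hw.nsq_le hB (by positivity) (hBI.trans Ico_subset_Icc_self)
  | succ k ih =>
    intro M a B hB hBI
    let P : Set ℝ := {ξ | Int.fract (ξ - a) < 1 / 2 ^ (M + 1)}
    have hPm : MeasurableSet P := (measurable_fract.comp (measurable_sub_const a)) measurableSet_Iio
    have hP : Per P := by
      intro ξ n
      change Int.fract (ξ + n - a) < _ ↔ Int.fract (ξ - a) < _
      rw [show ξ + (n:ℝ) - a = (ξ - a) + n by ring, Int.fract_add_intCast]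
    have hBf : volume B < ⊤ := (measure_mono hBI).trans_lt (by rw [Real.volume_Ico]; exact ENNReal.ofReal_lt_top)
    rw [qq_split hw hPm hP (memLp_chi hB hBf), chi_inter, chi_inter]
    have hone : (1:ℝ) / 2 ^ M ≤ 1 := by
      rw [div_le_one (by positivity)]; exact one_le_pow₀ (by norm_num)
    have hfr : ∀ ξ ∈ B, Int.fract (ξ - a) = ξ - a := by
      intro ξ hξ
      have := hBI hξ
      rw [Int.fract_eq_self]
      exact ⟨by linarith [this.1], by linarith [this.2]⟩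
    have e2 : (1:ℝ) / 2 ^ M = 1 / 2 ^ (M+1) + 1 / 2 ^ (M+1) := by rw [pow_succ]; field_simp; norm_num
    have h1 := ih (M+1) a (P ∩ B) (hPm.inter hB) (by
      rintro ξ ⟨hp, hb⟩
      have hp' : Int.fract (ξ - a) < 1 / 2 ^ (M + 1) := hp
      rw [hfr ξ hb] at hp'
      exact ⟨(hBI hb).1, by linarith⟩)
    have h2 := ih (M+1) (a + 1 / 2 ^ (M+1)) (Pᶜ ∩ B) (hPm.compl.inter hB) (by
      rintro ξ ⟨hp, hb⟩
      have hp' : ¬ Int.fract (ξ - a) < 1 / 2 ^ (M + 1) := hp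
      rw [hfr ξ hb, not_lt] at hp'
      have h3 := (hBI hb).2
      rw [e2] at h3
      exact ⟨by linarith, by linarith⟩)
    have e3 : M + 1 + k = M + (k + 1) := by ring
    rw [e3] at h1 h2
    calc qq F (chi (P ∩ B)) + qq F (chi (Pᶜ ∩ B))
        ≤ (∑' j : ℕ, ENNReal.ofReal (1 + (2:ℝ) ^ (j+1) * (1 / 2 ^ (M + (k + 1)))) * ms F (P ∩ B) j)
          + ∑' j : ℕ, ENNReal.ofReal (1 + (2:ℝ) ^ (j+1) * (1 / 2 ^ (M + (k + 1)))) * ms F (Pᶜ ∩ B) j := add_le_add h1 h2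
      _ = _ := by
        rw [← ENNReal.tsum_add]
        apply tsum_congr; intro j
        rw [← mul_add, ← ms_nonneg_add hPm]

/-- dyadic shells -/
def shell (r : ℤ) : Set ℝ := {ξ | (2:ℝ) ^ r ≤ |ξ| ∧ |ξ| < (2:ℝ) ^ (r+1)}

theorem shell_meas (r : ℤ) : MeasurableSet (shell r) := by
  have h2 : Measurable (fun ξ : ℝ => |ξ|) := measurable_norm
  exact (h2 measurableSet_Ici).inter (h2 measurableSet_Iio)

theorem shell_unique {r r' : ℤ} {ξ : ℝ} (h : ξ ∈ shell r) (h' : ξ ∈ shell r') : r = r' := by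
  have h1 : (2:ℝ) ^ r < (2:ℝ) ^ (r'+1) := lt_of_le_of_lt h.1 h'.2
  have h2 : (2:ℝ) ^ r' < (2:ℝ) ^ (r+1) := lt_of_le_of_lt h'.1 h.2
  have h3 := (zpow_lt_zpow_iff_right₀ (by norm_num : (1:ℝ) < 2)).1 h1
  have h4 := (zpow_lt_zpow_iff_right₀ (by norm_num : (1:ℝ) < 2)).1 h2
  omega

theorem shell_exists {ξ : ℝ} (h : ξ ≠ 0) : ∃ r : ℤ, ξ ∈ shell r := by
  obtain ⟨r, h1, h2⟩ := exists_mem_Ico_zpow (abs_pos.2 h) (by norm_num : (1:ℝ) < 2)
  exact ⟨r, h1, h2⟩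

/-- total mass over the dilates of a subset of a shell -/
theorem ms_sum_le (hF : Measurable F) {A : Set ℝ} (hA : MeasurableSet A) {r : ℤ} (hAr : A ⊆ shell r) :
    ∑' j : ℕ, ENNReal.ofReal ((2:ℝ) ^ (j+1)) * ms F A j ≤ N2 F := by
  have e : ∀ j : ℕ, ENNReal.ofReal ((2:ℝ) ^ (j+1)) * ms F A j
      = ∫⁻ ξ, {ξ | ((2:ℝ) ^ (j+1))⁻¹ * ξ ∈ A}.indicator (fun ξ => ‖F ξ‖ₑ ^ 2) ξ := by
    intro j
    unfold ms
    have e1 : ∀ ξ, {ξ | ((2:ℝ) ^ (j+1))⁻¹ * ξ ∈ A}.indicator (fun ξ => ‖F ξ‖ₑ ^ 2) ξ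
        = (fun η => A.indicator (fun η => ‖F ((2:ℝ) ^ (j+1) * η)‖ₑ ^ 2) η) (((2:ℝ) ^ (j+1))⁻¹ * ξ) := by
      intro ξ
      simp only
      by_cases h : ((2:ℝ) ^ (j+1))⁻¹ * ξ ∈ A
      · rw [indicator_of_mem h, indicator_of_mem (show ξ ∈ {ξ | ((2:ℝ) ^ (j+1))⁻¹ * ξ ∈ A} from h),
          ← mul_assoc, mul_inv_cancel₀ (by positivity), one_mul]
      · rw [indicator_of_notMem h, indicator_of_notMem (show ξ ∉ {ξ | ((2:ℝ) ^ (j+1))⁻¹ * ξ ∈ A} from h)]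
    simp only [e1]
    rw [lintegral_comp_mul (fun η => A.indicator (fun η => ‖F ((2:ℝ) ^ (j+1) * η)‖ₑ ^ 2) η) (by positivity),
      inv_inv, lintegral_indicator hA]
  simp only [e]
  rw [← lintegral_tsum]
  · unfold N2
    apply lintegral_mono; intro ξ
    simp only
    by_cases hex : ∃ j : ℕ, ((2:ℝ) ^ (j+1))⁻¹ * ξ ∈ A
    · obtain ⟨j, hj⟩ := hex
      rw [tsum_eq_single j]
      · rw [indicator_of_mem (show ξ ∈ {ξ | ((2:ℝ) ^ (j+1))⁻¹ * ξ ∈ A} from hj)]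
      · intro i hi
        rw [indicator_of_notMem]
        intro hi'
        apply hi
        have h1 := hAr hj
        have h2 := hAr (show ((2:ℝ) ^ (i+1))⁻¹ * ξ ∈ A from hi')
        have hsh : ∀ j : ℕ, ((2:ℝ) ^ (j+1))⁻¹ * ξ ∈ shell r → ξ ∈ shell (r + (j+1)) := by
          rintro j ⟨a, b⟩
          rw [abs_mul, abs_of_pos (by positivity : (0:ℝ) < ((2:ℝ) ^ (j+1))⁻¹)] at a b
          have hp : (0:ℝ) < 2 ^ (j+1) := by positivity
          have ez : (2:ℝ) ^ ((j:ℤ) + 1) = 2 ^ (j+1) := by exact_mod_cast zpow_natCast (2:ℝ) (j+1)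
          constructor
          · rw [zpow_add₀ (by norm_num), ez]
            calc (2:ℝ) ^ r * 2 ^ (j+1) ≤ (((2:ℝ) ^ (j+1))⁻¹ * |ξ|) * 2 ^ (j+1) := by gcongr
              _ = |ξ| := by field_simp
          · rw [show r + ((j:ℤ) + 1) + 1 = (r + 1) + ((j:ℤ) + 1) by ring, zpow_add₀ (by norm_num) (r+1), ez]
            calc |ξ| = (((2:ℝ) ^ (j+1))⁻¹ * |ξ|) * 2 ^ (j+1) := by field_simp
              _ < (2:ℝ) ^ (r+1) * 2 ^ (j+1) := by gcongr
        have := shell_unique (hsh j h1) (hsh i h2)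
        omega
    · push Not at hex
      have : ∑' j : ℕ, {ξ | ((2:ℝ) ^ (j+1))⁻¹ * ξ ∈ A}.indicator (fun ξ => ‖F ξ‖ₑ ^ 2) ξ = 0 := by
        rw [ENNReal.tsum_eq_zero]; intro j
        exact indicator_of_notMem (show ξ ∉ {ξ | ((2:ℝ) ^ (j+1))⁻¹ * ξ ∈ A} from hex j) _
      rw [this]; exact zero_le
  · intro j
    exact ((hF.enorm.pow_const 2).indicator (measurable_const_mul _ hA)).aemeasurable

/-- **Lemma U** -/
theorem lemU (hw : IsPW F) (hF : Measurable F) {A : Set ℝ} (hA : MeasurableSet A) {r : ℤ}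
    (hAr : A ⊆ shell r) {c : ℝ} (hAc : A ⊆ Ico c (c+1)) :
    qq F (chi A) ≤ ∫⁻ ξ in A, sg F ξ := by
  have hsum : ∫⁻ ξ in A, sg F ξ = ∑' j : ℕ, ms F A j := by
    unfold sg ms
    rw [lintegral_tsum]
    intro j
    exact ((hF.comp (measurable_const_mul _)).enorm.pow_const 2).aemeasurable
  rw [hsum]
  have hk : ∀ k : ℕ, qq F (chi A) ≤ (∑' j : ℕ, ms F A j) + ENNReal.ofReal ((1/2:ℝ) ^ k) * N2 F := by
    intro k
    have h1 := qq_refine hw hF k 0 c A hA (by simpa using hAc)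
    refine h1.trans ?_
    rw [zero_add]
    calc ∑' j : ℕ, ENNReal.ofReal (1 + (2:ℝ) ^ (j+1) * (1 / 2 ^ k)) * ms F A j
        = ∑' j : ℕ, (ms F A j + ENNReal.ofReal ((1/2:ℝ) ^ k) * (ENNReal.ofReal ((2:ℝ) ^ (j+1)) * ms F A j)) := by
          apply tsum_congr; intro j
          rw [ENNReal.ofReal_add (by positivity) (by positivity), ENNReal.ofReal_one, add_mul, one_mul,
            ← mul_assoc, ← ENNReal.ofReal_mul (by positivity)]
          congr 3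
          rw [one_div, one_div, inv_pow]; ring
      _ = (∑' j : ℕ, ms F A j) + ENNReal.ofReal ((1/2:ℝ) ^ k) * ∑' j : ℕ, (ENNReal.ofReal ((2:ℝ) ^ (j+1)) * ms F A j) := by
          rw [ENNReal.tsum_add, ENNReal.tsum_mul_left]
      _ ≤ _ := by gcongr; exact ms_sum_le hF hA hAr
  have ht : Tendsto (fun k : ℕ => (∑' j : ℕ, ms F A j) + ENNReal.ofReal ((1/2:ℝ) ^ k) * N2 F) atTop
      (𝓝 ((∑' j : ℕ, ms F A j) + ENNReal.ofReal 0 * N2 F)) := by
    apply tendsto_const_nhds.add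
    apply ENNReal.Tendsto.mul_const
    · exact ENNReal.tendsto_ofReal (tendsto_pow_atTop_nhds_zero_of_lt_one (by norm_num) (by norm_num))
    · right; rw [hw.norm]; exact ENNReal.one_ne_top
  have := ge_of_tendsto' ht hk
  simpa using this

end Pool.Agent.Helper30.WD
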