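import Pool.Agent.Helper30.WD.MSF

/-! From a scaling function with filters to a Parseval wavelet. -/

set_option autoImplicit false
open MeasureTheory Filter Topology Set
open scoped ENNReal ComplexConjugate

namespace Pool.Agent.Helper30.WD

/-! ### integrals of periodic functions -/

theorem lint_per_shift {h : ℝ → ℝ≥0∞} (hp : ∀ ξ (n : ℤ), h (ξ + n) = h ξ) (c : ℝ) :
    ∫⁻ ξ in Ioc (0:ℝ) 1, h (ξ + c) = ∫⁻ ξ in Ioc (0:ℝ) 1, h ξ := by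
  have hmp := (measurePreserving_add_right (volume : Measure ℝ) c)
  have e := hmp.setLIntegral_comp_preimage_emb (measurableEmbedding_addRight c) h (Ioc c (c+1))
  have h2 : (fun x : ℝ => x + c) ⁻¹' Ioc c (c+1) = Ioc 0 1 := by
    ext x; simp only [mem_preimage, mem_Ioc]; constructor <;> rintro ⟨a, b⟩ <;> constructor <;> linarith
  rw [h2] at e
  rw [e]
  have h3 := (isAddFundamentalDomain_Ioc (zero_lt_one : (0:ℝ) < 1) c volume).setLIntegral_eq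
    (isAddFundamentalDomain_Ioc (zero_lt_one : (0:ℝ) < 1) 0 volume) h (by
      rintro ⟨g, hg⟩ x
      obtain ⟨n, rfl⟩ := AddSubgroup.mem_zmultiples_iff.1 hg
      change h (n • (1:ℝ) + x) = h x
      rw [zsmul_eq_mul, mul_one, add_comm, hp])
  rw [h3, zero_add]

theorem lint_per_double {h : ℝ → ℝ≥0∞} (hp : ∀ ξ (n : ℤ), h (ξ + n) = h ξ) :
    ∫⁻ ξ in Ioc (0:ℝ) 1, h (2 * ξ) = ∫⁻ ξ in Ioc (0:ℝ) 1, h ξ := by
  have e1 : ∫⁻ ξ in Ioc (0:ℝ) 1, h (2 * ξ) = ∫⁻ ξ, (Ioc (0:ℝ) 2).indicator h (2 * ξ) := by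
    rw [← lintegral_indicator measurableSet_Ioc]
    apply lintegral_congr; intro ξ
    by_cases hx : ξ ∈ Ioc (0:ℝ) 1
    · rw [indicator_of_mem hx, indicator_of_mem]
      exact ⟨by linarith [hx.1], by linarith [hx.2]⟩
    · rw [indicator_of_notMem hx, indicator_of_notMem]
      intro h'
      exact hx ⟨by linarith [h'.1], by linarith [h'.2]⟩
  rw [e1, lintegral_comp_mul _ (by norm_num : (0:ℝ) < 2), lintegral_indicator measurableSet_Ioc]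
  have e2 : Ioc (0:ℝ) 2 = Ioc (0:ℝ) 1 ∪ Ioc 1 2 := by
    rw [Ioc_union_Ioc_eq_Ioc (by norm_num) (by norm_num)]
  rw [e2, lintegral_union measurableSet_Ioc (by
    rw [Set.disjoint_left]; rintro x ⟨_, h1⟩ ⟨h2, _⟩; linarith)]
  have e3 : ∫⁻ ξ in Ioc (1:ℝ) 2, h ξ = ∫⁻ ξ in Ioc (0:ℝ) 1, h ξ := by
    have := lintegral_Ioc_int h 1
    push_cast at this
    rw [show (1:ℝ) + 1 = 2 by norm_num] at this
    rw [this]
    apply lintegral_congr; intro ξ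
    have := hp ξ 1
    push_cast at this; exact this
  rw [e3, ← two_mul, ← mul_assoc]
  have : ENNReal.ofReal (2:ℝ)⁻¹ * 2 = 1 := by
    rw [ENNReal.ofReal_inv_of_pos (by norm_num)]
    simp [ENNReal.inv_mul_cancel]
  rw [this, one_mul]

/-! ### even/odd splitting -/

theorem hasSum_int_even_odd {M : Type*} [AddCommMonoid M] [TopologicalSpace M] [ContinuousAdd M]
    {f : ℤ → M} {a b : M} (he : HasSum (fun k : ℤ => f (2 * k)) a)
    (ho : HasSum (fun k : ℤ => f (2 * k + 1)) b) : HasSum f (a + b) := by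
  have := mul_right_injective₀ (two_ne_zero' ℤ)
  replace ho := ((add_left_injective (1:ℤ)).comp this).hasSum_range_iff.2 ho
  refine (this.hasSum_range_iff.2 he).add_isCompl ?_ ho
  have h1 : range (fun k : ℤ => 2 * k) = {n : ℤ | Even n} := by
    ext n; constructor
    · rintro ⟨k, rfl⟩; exact ⟨k, by ring⟩
    · rintro ⟨k, hk⟩; exact ⟨k, by simp only; omega⟩
  have h2 : range ((fun x : ℤ => x + 1) ∘ fun k : ℤ => 2 * k) = {n : ℤ | Odd n} := by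
    ext n; constructor
    · rintro ⟨k, rfl⟩; exact ⟨k, by simp⟩
    · rintro ⟨k, hk⟩; exact ⟨k, by simp only [Function.comp]; omega⟩
  rw [h1, h2]
  exact Int.isCompl_even_odd

theorem summable_br {G φ : ℝ → ℂ} {ξ : ℝ} (hG : nsq G ξ < ⊤) (hφ : nsq φ ξ < ⊤) :
    Summable (fun n : ℤ => G (ξ + n) * conj (φ (ξ + n))) := by
  have h1 : ∑' n : ℤ, ‖G (ξ + n) * conj (φ (ξ + n))‖ₑ ≠ ⊤ := by
    have := tsum_mul_sq_le (fun n : ℤ => ‖G (ξ + n)‖ₑ) (fun n : ℤ => ‖φ (ξ + n)‖ₑ)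
    have h2 : (∑' n : ℤ, ‖G (ξ + n)‖ₑ * ‖φ (ξ + n)‖ₑ) ^ 2 < ⊤ :=
      this.trans_lt (ENNReal.mul_lt_top hG hφ)
    have h3 : ∑' n : ℤ, ‖G (ξ + n)‖ₑ * ‖φ (ξ + n)‖ₑ ≠ ⊤ := by
      intro h; rw [h] at h2; simp at h2
    convert! h3 using 3
    rename_i n
    rw [enorm_mul, RCLike.enorm_conj]
  have hs : Summable (fun n : ℤ => ‖G (ξ + n) * conj (φ (ξ + n))‖) := by
    have := ENNReal.summable_toReal h1
    simpa using this
  exact hs.of_norm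

/-- value of the bracket at `2ξ` in terms of the finer bracket -/
theorem br_two {G φ ψ ν : ℝ → ℂ} {ξ : ℝ} (hν : ∀ (ξ : ℝ) (n : ℤ), ν (ξ + n) = ν ξ)
    (h0 : ∀ n : ℤ, ψ (2 * (ξ + n)) = ν (ξ + n) * φ (ξ + n))
    (h1 : ∀ n : ℤ, ψ (2 * (ξ + 1/2 + n)) = ν (ξ + 1/2 + n) * φ (ξ + 1/2 + n))
    (s0 : Summable (fun n : ℤ => dil 1 G (ξ + n) * conj (φ (ξ + n))))
    (s1 : Summable (fun n : ℤ => dil 1 G (ξ + 1/2 + n) * conj (φ (ξ + 1/2 + n)))) :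
    br G ψ (2 * ξ) = (((2:ℝ) ^ (-(1:ℝ)/2) : ℝ) : ℂ) *
      (conj (ν ξ) * br (dil 1 G) φ ξ + conj (ν (ξ + 1/2)) * br (dil 1 G) φ (ξ + 1/2)) := by
  set c : ℂ := (((2:ℝ) ^ (-(1:ℝ)/2) : ℝ) : ℂ) with hc
  have hcc : c * (((2:ℝ) ^ (((1:ℤ):ℝ) / 2) : ℝ) : ℂ) = 1 := by
    rw [hc, ← Complex.ofReal_mul, ← Real.rpow_add (by norm_num)]
    norm_num
  have key : ∀ w : ℝ, G (2 * w) = c * dil 1 G w := by
    intro w
    unfold dil
    rw [← mul_assoc, hcc, one_mul, zpow_one]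
  have he : HasSum (fun k : ℤ => G (2 * ξ + ((2 * k : ℤ) : ℝ)) * conj (ψ (2 * ξ + ((2 * k : ℤ) : ℝ))))
      (c * conj (ν ξ) * br (dil 1 G) φ ξ) := by
    have := s0.hasSum.mul_left (c * conj (ν ξ))
    convert! this using 2 with k
    have e : 2 * ξ + ((2 * k : ℤ) : ℝ) = 2 * (ξ + k) := by push_cast; ring
    rw [e, h0, key, hν, map_mul]
    ring
  have ho : HasSum (fun k : ℤ => G (2 * ξ + ((2 * k + 1 : ℤ) : ℝ)) * conj (ψ (2 * ξ + ((2 * k + 1 : ℤ) : ℝ))))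
      (c * conj (ν (ξ + 1/2)) * br (dil 1 G) φ (ξ + 1/2)) := by
    have := s1.hasSum.mul_left (c * conj (ν (ξ + 1/2)))
    convert! this using 2 with k
    have e : 2 * ξ + ((2 * k + 1 : ℤ) : ℝ) = 2 * (ξ + 1/2 + k) := by push_cast; ring
    rw [e, h1, key, hν, map_mul]
    ring
  have := (hasSum_int_even_odd (f := fun k : ℤ => G (2 * ξ + (k : ℝ)) * conj (ψ (2 * ξ + (k : ℝ)))) he ho).tsum_eq
  unfold br at this ⊢
  rw [this]; ring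

theorem nsq_two {φ ψ ν : ℝ → ℂ} {ξ : ℝ} (hν : ∀ (ξ : ℝ) (n : ℤ), ν (ξ + n) = ν ξ)
    (h0 : ∀ n : ℤ, ψ (2 * (ξ + n)) = ν (ξ + n) * φ (ξ + n))
    (h1 : ∀ n : ℤ, ψ (2 * (ξ + 1/2 + n)) = ν (ξ + 1/2 + n) * φ (ξ + 1/2 + n)) :
    nsq ψ (2 * ξ) = ‖ν ξ‖ₑ ^ 2 * nsq φ ξ + ‖ν (ξ + 1/2)‖ₑ ^ 2 * nsq φ (ξ + 1/2) := by
  have he : HasSum (fun k : ℤ => ‖ψ (2 * ξ + ((2 * k : ℤ) : ℝ))‖ₑ ^ 2) (‖ν ξ‖ₑ ^ 2 * nsq φ ξ) := by
    unfold nsq
    rw [← ENNReal.tsum_mul_left]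
    convert! (ENNReal.summable (f := fun k : ℤ => ‖ν ξ‖ₑ ^ 2 * ‖φ (ξ + k)‖ₑ ^ 2)).hasSum using 2 with k
    have e : 2 * ξ + ((2 * k : ℤ) : ℝ) = 2 * (ξ + k) := by push_cast; ring
    rw [e, h0, hν, enorm_mul, mul_pow]
  have ho : HasSum (fun k : ℤ => ‖ψ (2 * ξ + ((2 * k + 1 : ℤ) : ℝ))‖ₑ ^ 2)
      (‖ν (ξ + 1/2)‖ₑ ^ 2 * nsq φ (ξ + 1/2)) := by
    unfold nsq
    rw [← ENNReal.tsum_mul_left]
    convert! (ENNReal.summable (f := fun k : ℤ => ‖ν (ξ + 1/2)‖ₑ ^ 2 * ‖φ (ξ + 1/2 + k)‖ₑ ^ 2)).hasSum using 2 with k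
    have e : 2 * ξ + ((2 * k + 1 : ℤ) : ℝ) = 2 * (ξ + 1/2 + k) := by push_cast; ring
    rw [e, h1, hν, enorm_mul, mul_pow]
  have := (hasSum_int_even_odd (f := fun k : ℤ => ‖ψ (2 * ξ + (k : ℝ))‖ₑ ^ 2) he ho).tsum_eq
  unfold nsq at this ⊢
  exact this

/-! ### 2 × 2 unitary matrices -/

theorem unitary2 {a b c d : ℂ} (h1 : ‖a‖ₑ ^ 2 + ‖b‖ₑ ^ 2 = 1) (h2 : ‖c‖ₑ ^ 2 + ‖d‖ₑ ^ 2 = 1)
    (h3 : a * conj c + b * conj d = 0) :
    (‖a‖ ^ 2 + ‖c‖ ^ 2 = 1) ∧ (‖b‖ ^ 2 + ‖d‖ ^ 2 = 1) ∧ conj a * b + conj c * d = 0 := by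
  have conv : ∀ x y : ℂ, ‖x‖ₑ ^ 2 + ‖y‖ₑ ^ 2 = 1 → x * conj x + y * conj y = 1 := by
    intro x y h
    have e : ∀ a : ℂ, ‖a‖ₑ ^ 2 = ENNReal.ofReal (‖a‖ ^ 2) := by
      intro a; rw [ENNReal.ofReal_pow (norm_nonneg _), ofReal_norm]
    rw [e, e, ← ENNReal.ofReal_add (by positivity) (by positivity), ENNReal.ofReal_eq_one] at h
    rw [Complex.mul_conj, Complex.mul_conj, Complex.normSq_eq_norm_sq, Complex.normSq_eq_norm_sq]
    exact_mod_cast h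
  have k1 := conv a b h1
  have k2 := conv c d h2
  have k3 : c * conj a + d * conj b = 0 := by
    have := congrArg conj h3
    simp only [map_add, map_mul, Complex.conj_conj, map_zero] at this
    rw [← this]; ring
  have hmul : (!![a, b; c, d] : Matrix (Fin 2) (Fin 2) ℂ) * !![conj a, conj c; conj b, conj d] = 1 := by
    ext i j
    fin_cases i <;> fin_cases j <;> simp [Matrix.mul_apply, Fin.sum_univ_two]
    · exact k1
    · exact h3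
    · exact k3
    · exact k2
  have hmul2 := mul_eq_one_comm.1 hmul
  have e00 := congrFun (congrFun hmul2 0) 0
  have e11 := congrFun (congrFun hmul2 1) 1
  have e01 := congrFun (congrFun hmul2 0) 1
  simp [Matrix.mul_apply, Fin.sum_univ_two] at e00 e11 e01
  refine ⟨?_, ?_, ?_⟩
  · have : ((‖a‖ ^ 2 + ‖c‖ ^ 2 : ℝ) : ℂ) = 1 := by
      rw [← e00]; push_cast
      rw [← Complex.conj_mul', ← Complex.conj_mul']
    exact_mod_cast this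
  · have : ((‖b‖ ^ 2 + ‖d‖ ^ 2 : ℝ) : ℂ) = 1 := by
      rw [← e11]; push_cast
      rw [← Complex.conj_mul', ← Complex.conj_mul']
    exact_mod_cast this
  · exact e01

theorem unitary2_norm {a b c d : ℂ} (h1 : ‖a‖ₑ ^ 2 + ‖b‖ₑ ^ 2 = 1) (h2 : ‖c‖ₑ ^ 2 + ‖d‖ₑ ^ 2 = 1)
    (h3 : a * conj c + b * conj d = 0) (x y : ℂ) :
    ‖conj a * x + conj b * y‖ₑ ^ 2 + ‖conj c * x + conj d * y‖ₑ ^ 2 = ‖x‖ₑ ^ 2 + ‖y‖ₑ ^ 2 := by
  obtain ⟨k1, k2, k3⟩ := unitary2 h1 h2 h3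
  have e : ∀ a : ℂ, ‖a‖ₑ ^ 2 = ENNReal.ofReal (‖a‖ ^ 2) := by
    intro a; rw [ENNReal.ofReal_pow (norm_nonneg _), ofReal_norm]
  simp only [e]
  rw [← ENNReal.ofReal_add (by positivity) (by positivity),
    ← ENNReal.ofReal_add (by positivity) (by positivity)]
  congr 1
  have ee : ∀ z : ℂ, ((‖z‖ ^ 2 : ℝ) : ℂ) = z * conj z := by
    intro z; rw [Complex.mul_conj, Complex.normSq_eq_norm_sq]
  have k1' : a * conj a + c * conj c = 1 := by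
    rw [← ee, ← ee, ← Complex.ofReal_add, k1]; simp
  have k2' : b * conj b + d * conj d = 1 := by
    rw [← ee, ← ee, ← Complex.ofReal_add, k2]; simp
  have k4 : a * conj b + c * conj d = 0 := by
    have := congrArg conj k3
    simp only [map_add, map_mul, Complex.conj_conj, map_zero] at this
    exact this
  have : ((‖conj a * x + conj b * y‖ ^ 2 + ‖conj c * x + conj d * y‖ ^ 2 : ℝ) : ℂ)
      = ((‖x‖ ^ 2 + ‖y‖ ^ 2 : ℝ) : ℂ) := by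
    push_cast [ee]
    simp only [map_add, map_mul, Complex.conj_conj]
    linear_combination (x * conj x) * k1' + (y * conj y) * k2' + (x * conj y) * (k3) + (y * conj x) * k4
  exact_mod_cast this

end Pool.Agent.Helper30.WD
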