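import Pool.Agent.Helper30.WD.MRA

/-! The MRA theorem. -/

set_option autoImplicit false
open MeasureTheory Filter Topology Set
open scoped ENNReal ComplexConjugate

namespace Pool.Agent.Helper30.WD

theorem enorm_sq_ofReal (a : ℂ) : ‖a‖ₑ ^ 2 = ENNReal.ofReal (‖a‖ ^ 2) := by
  rw [ENNReal.ofReal_pow (norm_nonneg _), ofReal_norm]

/-- counting integers in an interval -/
theorem count_Icc {a b : ℝ} (hab : a ≤ b) (ξ : ℝ) :
    ∑' n : ℤ, (Icc a b).indicator (fun _ => (1:ℝ≥0∞)) (ξ + n) ≤ ENNReal.ofReal (b - a + 1) := by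
  have e : ∀ n : ℤ, (Icc a b).indicator (fun _ => (1:ℝ≥0∞)) (ξ + n)
      = {l : ℤ | ξ + l ∈ Icc a b}.indicator (fun _ => (1:ℝ≥0∞)) n := by
    intro n
    by_cases hx : ξ + n ∈ Icc a b
    · rw [indicator_of_mem hx, indicator_of_mem (show n ∈ {l : ℤ | ξ + l ∈ Icc a b} from hx)]
    · rw [indicator_of_notMem hx, indicator_of_notMem (show n ∉ {l : ℤ | ξ + l ∈ Icc a b} from hx)]
  simp only [e]
  rw [tsum_ind_encard]
  have hset : {l : ℤ | ξ + l ∈ Icc a b} = ↑(Finset.Icc ⌈a - ξ⌉ ⌊b - ξ⌋) := by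
    ext l
    simp only [mem_ofPred_eq, mem_Icc, Finset.coe_Icc, Int.ceil_le, Int.le_floor]
    constructor <;> rintro ⟨h1, h2⟩ <;> constructor <;> linarith
  rw [hset, Set.encard_coe_eq_coe_finsetCard, Int.card_Icc]
  have h1 : (((⌊b - ξ⌋ + 1 - ⌈a - ξ⌉).toNat : ℕ) : ℝ) ≤ b - a + 1 := by
    rcases le_or_gt 0 (⌊b - ξ⌋ + 1 - ⌈a - ξ⌉) with h | h
    · have : (((⌊b - ξ⌋ + 1 - ⌈a - ξ⌉).toNat : ℕ) : ℝ) = ((⌊b - ξ⌋ + 1 - ⌈a - ξ⌉ : ℤ) : ℝ) := by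
        have := Int.toNat_of_nonneg h
        exact_mod_cast this
      rw [this]; push_cast
      have h2 := Int.floor_le (b - ξ)
      have h3 := Int.le_ceil (a - ξ)
      linarith
    · rw [Int.toNat_of_nonpos h.le]; push_cast; linarith
  calc (((⌊b - ξ⌋ + 1 - ⌈a - ξ⌉).toNat : ℕ∞) : ℝ≥0∞) = (((⌊b - ξ⌋ + 1 - ⌈a - ξ⌉).toNat : ℕ) : ℝ≥0∞) := by simp
    _ = ENNReal.ofReal (((⌊b - ξ⌋ + 1 - ⌈a - ξ⌉).toNat : ℕ) : ℝ) := by rw [ENNReal.ofReal_natCast]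
    _ ≤ _ := ENNReal.ofReal_le_ofReal h1

theorem EE_le_N2 {F G : ℝ → ℂ} (hG : MemLp G 2) (hF : AEStronglyMeasurable F)
    (h : ∀ᵐ ξ, nsq F ξ ≤ 1) : EE F G ≤ N2 G := by
  rw [EE_eq hG hF h, N2_per hG.1]
  apply lintegral_mono_ae
  filter_upwards [ae_restrict_of_ae h] with ξ hξ
  calc ‖br G F ξ‖ₑ ^ 2 ≤ nsq G ξ * nsq F ξ := br_sq_le G F ξ
    _ ≤ nsq G ξ * 1 := by gcongr
    _ = _ := mul_one _

/-- energy of a function supported on a set meeting each fibre at most once -/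
theorem EE_inj {F H : ℝ → ℂ} (hH : MemLp H 2) (hF : AEStronglyMeasurable F)
    (h : ∀ᵐ ξ, nsq F ξ ≤ 1) (hinj : ∀ ξ, H ξ ≠ 0 → ∀ n : ℤ, n ≠ 0 → H (ξ + n) = 0) :
    EE F H = ∫⁻ ξ, ‖H ξ‖ₑ ^ 2 * ‖F ξ‖ₑ ^ 2 := by
  have hm : AEMeasurable (fun ξ => ‖H ξ‖ₑ ^ 2 * ‖F ξ‖ₑ ^ 2) :=
    (hH.1.enorm.pow_const 2).mul (hF.enorm.pow_const 2)
  rw [EE_eq hH hF h, lintegral_per hm]
  apply lintegral_congr; intro ξ
  by_cases hex : ∃ n : ℤ, H (ξ + n) ≠ 0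
  · obtain ⟨n, hn⟩ := hex
    have hother : ∀ m : ℤ, m ≠ n → H (ξ + m) = 0 := by
      intro m hm
      have := hinj _ hn (m - n) (sub_ne_zero.2 hm)
      have e : ξ + n + ((m - n : ℤ) : ℝ) = ξ + m := by push_cast; ring
      rwa [e] at this
    unfold br
    rw [tsum_eq_single n, tsum_eq_single n]
    · rw [enorm_mul, RCLike.enorm_conj, mul_pow]
    · intro m hm; rw [hother m hm]; simp
    · intro m hm; rw [hother m hm]; simp
  · push Not at hex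
    unfold br
    simp [hex]

theorem tri_sq {ε : ℝ} (hε : 0 < ε) (a b : ℂ) :
    ‖a‖ₑ ^ 2 ≤ ENNReal.ofReal (1 + ε) * ‖b‖ₑ ^ 2 + ENNReal.ofReal (1 + ε⁻¹) * ‖a - b‖ₑ ^ 2 := by
  simp only [enorm_sq_ofReal]
  rw [← ENNReal.ofReal_mul (by positivity), ← ENNReal.ofReal_mul (by positivity),
    ← ENNReal.ofReal_add (by positivity) (by positivity)]
  apply ENNReal.ofReal_le_ofReal
  have h1 : ‖a‖ ≤ ‖b‖ + ‖a - b‖ := by
    have := norm_add_le b (a - b)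
    rwa [add_sub_cancel] at this
  have h2 : ‖a‖ ^ 2 ≤ (‖b‖ + ‖a - b‖) ^ 2 := by
    have := norm_nonneg a
    gcongr
  have h3 : 0 ≤ (ε * ‖b‖ - ‖a - b‖) ^ 2 / ε := by positivity
  have h4 : (ε * ‖b‖ - ‖a - b‖) ^ 2 / ε = ε * ‖b‖ ^ 2 - 2 * ‖b‖ * ‖a - b‖ + ε⁻¹ * ‖a - b‖ ^ 2 := by
    field_simp; ring
  nlinarith

theorem EE_tri {F G G1 : ℝ → ℂ} (hF : MemLp F 2) (hG : MemLp G 2) (hG1 : MemLp G1 2) {ε : ℝ} (hε : 0 < ε) :
    EE F G1 ≤ ENNReal.ofReal (1 + ε) * EE F G + ENNReal.ofReal (1 + ε⁻¹) * EE F (fun ξ => G1 ξ - G ξ) := by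
  unfold EE
  rw [← ENNReal.tsum_mul_left, ← ENNReal.tsum_mul_left, ← ENNReal.tsum_add]
  apply ENNReal.tsum_le_tsum
  intro k
  have e : ∫ ξ, (G1 ξ - G ξ) * conj (F ξ) * ek k ξ
      = (∫ ξ, G1 ξ * conj (F ξ) * ek k ξ) - ∫ ξ, G ξ * conj (F ξ) * ek k ξ := by
    rw [← integral_sub (integrable_mul_ek (integrable_mul_conj hG1 hF) k)
      (integrable_mul_ek (integrable_mul_conj hG hF) k)]
    congr 1; ext ξ; ring
  rw [e]
  exact tri_sq hε _ _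

/-! ### truncation -/

/-- truncation sets -/
def TA (G : ℝ → ℂ) (M : ℕ) : Set ℝ := {ξ | 1 ≤ M * |ξ| ∧ |ξ| ≤ M ∧ ‖G ξ‖ ≤ M}

theorem TA_meas {G : ℝ → ℂ} (hG : Measurable G) (M : ℕ) : MeasurableSet (TA G M) := by
  have h1 : Measurable (fun ξ : ℝ => (M:ℝ) * |ξ|) := measurable_const_mul _ |>.comp measurable_norm
  have h2 : Measurable (fun ξ : ℝ => |ξ|) := measurable_norm
  have h3 : Measurable (fun ξ : ℝ => ‖G ξ‖) := hG.norm
  exact (h1 measurableSet_Ici).inter ((h2 measurableSet_Iic).inter (h3 measurableSet_Iic))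

theorem TA_tendsto {G : ℝ → ℂ} (hG : Measurable G) (hG2 : MemLp G 2) :
    Tendsto (fun M : ℕ => N2 ((TA G M)ᶜ.indicator G)) atTop (𝓝 0) := by
  have h0 : ∀ᵐ ξ : ℝ, ξ ≠ 0 := by
    have h00 : volume ({0} : Set ℝ) = 0 := by simp
    exact compl_mem_ae_iff.2 h00
  have : Tendsto (fun M : ℕ => ∫⁻ ξ, ‖(TA G M)ᶜ.indicator G ξ‖ₑ ^ 2) atTop (𝓝 (∫⁻ ξ : ℝ, 0)) := by
    apply tendsto_lintegral_of_dominated_convergence (fun ξ => ‖G ξ‖ₑ ^ 2)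
    · intro M
      exact ((hG.indicator (TA_meas hG M).compl).enorm.pow_const 2)
    · intro M
      apply Eventually.of_forall; intro ξ
      change ‖(TA G M)ᶜ.indicator G ξ‖ₑ ^ 2 ≤ ‖G ξ‖ₑ ^ 2
      by_cases hx : ξ ∈ (TA G M)ᶜ
      · rw [indicator_of_mem hx]
      · rw [indicator_of_notMem hx]; simp
    · exact (N2_lt_top hG2).ne
    · filter_upwards [h0] with ξ hξ
      apply tendsto_const_nhds.congr'
      obtain ⟨M1, hM1⟩ := exists_nat_ge (1 / |ξ|)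
      obtain ⟨M2, hM2⟩ := exists_nat_ge |ξ|
      obtain ⟨M3, hM3⟩ := exists_nat_ge ‖G ξ‖
      filter_upwards [eventually_ge_atTop M1, eventually_ge_atTop M2, eventually_ge_atTop M3] with M h1 h2 h3
      have h1' : (M1:ℝ) ≤ M := by exact_mod_cast h1
      have h2' : (M2:ℝ) ≤ M := by exact_mod_cast h2
      have h3' : (M3:ℝ) ≤ M := by exact_mod_cast h3
      have hmem : ξ ∈ TA G M := by
        refine ⟨?_, hM2.trans h2', hM3.trans h3'⟩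
        have hp : 0 < |ξ| := abs_pos.2 hξ
        have := (div_le_iff₀ hp).1 (hM1.trans h1')
        exact this
      rw [indicator_of_notMem (fun h : ξ ∈ (TA G M)ᶜ => h hmem)]; simp
  simpa [N2] using this

theorem ind_sub (A : Set ℝ) (G : ℝ → ℂ) : (fun ξ => A.indicator G ξ - G ξ) = fun ξ => - Aᶜ.indicator G ξ := by
  ext ξ
  by_cases hx : ξ ∈ A
  · rw [indicator_of_mem hx, indicator_of_notMem (fun h : ξ ∈ Aᶜ => h hx)]; simp
  · rw [indicator_of_notMem hx, indicator_of_mem (show ξ ∈ Aᶜ from hx)]; simp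

theorem N2_neg (G : ℝ → ℂ) : N2 (fun ξ => - G ξ) = N2 G := by
  unfold N2; simp

/-! ### MRA structure -/

structure IsMRA (φ m μ : ℝ → ℂ) : Prop where
  φm : Measurable φ
  mm : Measurable m
  μm : Measurable μ
  mper : ∀ (ξ : ℝ) (n : ℤ), m (ξ + n) = m ξ
  μper : ∀ (ξ : ℝ) (n : ℤ), μ (ξ + n) = μ ξ
  n1 : ∀ᵐ ξ : ℝ, nsq φ ξ = 1
  ref : ∀ᵐ ξ : ℝ, φ (2 * ξ) = m ξ * φ ξ
  u1 : ∀ᵐ ξ : ℝ, ‖m ξ‖ₑ ^ 2 + ‖m (ξ + 1/2)‖ₑ ^ 2 = 1
  u2 : ∀ᵐ ξ : ℝ, ‖μ ξ‖ₑ ^ 2 + ‖μ (ξ + 1/2)‖ₑ ^ 2 = 1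
  u3 : ∀ᵐ ξ : ℝ, m ξ * conj (μ ξ) + m (ξ + 1/2) * conj (μ (ξ + 1/2)) = 0
  lim : ∀ᵐ ξ : ℝ, Tendsto (fun j : ℕ => ‖φ (ξ / 2 ^ j)‖) atTop (𝓝 1)

/-- the wavelet of an MRA -/
noncomputable def wav (φ μ : ℝ → ℂ) (ξ : ℝ) : ℂ := μ (ξ / 2) * φ (ξ / 2)

variable {φ m μ : ℝ → ℂ}

theorem wav_two (φ μ : ℝ → ℂ) (ξ : ℝ) : wav φ μ (2 * ξ) = μ ξ * φ ξ := by
  unfold wav; rw [mul_div_cancel_left₀ _ (by norm_num : (2:ℝ) ≠ 0)]

theorem IsMRA.wm (h : IsMRA φ m μ) : Measurable (wav φ μ) :=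
  (h.μm.comp (measurable_div_const 2)).mul (h.φm.comp (measurable_div_const 2))

theorem IsMRA.n1' (h : IsMRA φ m μ) : ∀ᵐ ξ : ℝ, nsq φ ξ ≤ 1 := by
  filter_upwards [h.n1] with ξ hξ using hξ.le

theorem ae_half {P : ℝ → Prop} (h : ∀ᵐ ξ : ℝ, P ξ) : ∀ᵐ ξ : ℝ, P (ξ + 1/2) := by
  have := ae_affine h 1 (1/2) one_ne_zero
  simpa using this

theorem IsMRA.nw (h : IsMRA φ m μ) : ∀ᵐ ξ : ℝ, nsq (wav φ μ) ξ = 1 := by
  have : ∀ᵐ ξ : ℝ, nsq (wav φ μ) (2 * ξ) = 1 := by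
    filter_upwards [h.n1, ae_half h.n1, h.u2] with ξ a b c
    rw [nsq_two h.μper (fun n => wav_two _ _ _) (fun n => wav_two _ _ _), a, b, mul_one, mul_one, c]
  have h2 := ae_scale this (1/2) (by norm_num)
  filter_upwards [h2] with ξ hξ
  rwa [show 2 * (1 / 2 * ξ) = ξ by ring] at hξ

theorem IsMRA.memφ (h : IsMRA φ m μ) : MemLp φ 2 := by
  apply memLp_of_N2 h.φm.aestronglyMeasurable
  exact (N2_le_of_nsq_le h.φm.aestronglyMeasurable h.n1').trans_lt ENNReal.one_lt_top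

theorem ae_nsq_lt_top {G : ℝ → ℂ} (hG : MemLp G 2) : ∀ᵐ ξ : ℝ, nsq G ξ < ⊤ := by
  apply ae_of_ae_Ioc (P := fun ξ => nsq G ξ < ⊤)
  · intro ξ m hm; rwa [nsq_add_int] at hm
  · apply ae_lt_top' (aemeas_nsq hG.1).restrict
    rw [← N2_per hG.1]; exact (N2_lt_top hG).ne

theorem IsMRA.step (h : IsMRA φ m μ) {G : ℝ → ℂ} (hG : MemLp G 2) :
    EE φ (dil 1 G) = EE (wav φ μ) G + EE φ G := by
  have hD := memLp_dil 1 hG
  have hwn : ∀ᵐ ξ, nsq (wav φ μ) ξ ≤ 1 := by filter_upwards [h.nw] with ξ hξ using hξ.le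
  rw [EE_eq hD h.φm.aestronglyMeasurable h.n1', EE_eq hG h.wm.aestronglyMeasurable hwn,
    EE_eq hG h.φm.aestronglyMeasurable h.n1', ← lintegral_add_left'
      ((aesm_br hG.1 h.wm.aestronglyMeasurable).enorm.pow_const 2).restrict]
  rw [← lint_per_double (h := fun ξ => ‖br G (wav φ μ) ξ‖ₑ ^ 2 + ‖br G φ ξ‖ₑ ^ 2) (by
    intro ξ n; simp only [br_add_int])]
  have hpt : ∀ᵐ ξ : ℝ, ‖br G (wav φ μ) (2 * ξ)‖ₑ ^ 2 + ‖br G φ (2 * ξ)‖ₑ ^ 2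
      = ENNReal.ofReal 2⁻¹ * (‖br (dil 1 G) φ ξ‖ₑ ^ 2 + ‖br (dil 1 G) φ (ξ + 1/2)‖ₑ ^ 2) := by
    filter_upwards [h.u1, h.u2, h.u3, ae_add_int h.ref, ae_add_int (ae_half h.ref), h.n1, ae_half h.n1,
      ae_nsq_lt_top hD, ae_half (ae_nsq_lt_top hD)] with ξ u1 u2 u3 r0 r1 n0 n1 d0 d1
    have s0 := summable_br (G := dil 1 G) (φ := φ) (ξ := ξ) d0 (by rw [n0]; exact ENNReal.one_lt_top)
    have s1 := summable_br (G := dil 1 G) (φ := φ) (ξ := ξ + 1/2) d1 (by rw [n1]; exact ENNReal.one_lt_top)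
    have r1' : ∀ n : ℤ, φ (2 * (ξ + 1/2 + n)) = m (ξ + 1/2 + n) * φ (ξ + 1/2 + n) := by
      intro n
      have := r1 n
      rw [show ξ + (n:ℝ) + 1/2 = ξ + 1/2 + n by ring] at this
      exact this
    rw [br_two h.μper (fun n => wav_two _ _ _) (fun n => wav_two _ _ _) s0 s1,
      br_two h.mper r0 r1' s0 s1, enorm_mul, enorm_mul, mul_pow, mul_pow, ← mul_add]
    have hc : ‖(((2:ℝ) ^ (-(1:ℝ)/2) : ℝ) : ℂ)‖ₑ ^ 2 = ENNReal.ofReal 2⁻¹ := by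
      have := sq_coef (-1)
      push_cast at this
      rw [this, zpow_neg_one]
    rw [hc]
    congr 1
    rw [add_comm]
    exact unitary2_norm u1 u2 u3 _ _
  rw [lintegral_congr_ae (ae_restrict_of_ae hpt), lintegral_const_mul' _ _ ENNReal.ofReal_ne_top,
    lintegral_add_left' ((aesm_br hD.1 h.φm.aestronglyMeasurable).enorm.pow_const 2).restrict,
    lint_per_shift (h := fun ξ => ‖br (dil 1 G) φ ξ‖ₑ ^ 2) (by intro ξ n; simp only [br_add_int]),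
    ← two_mul, ← mul_assoc]
  have : ENNReal.ofReal (2:ℝ)⁻¹ * 2 = 1 := by
    rw [ENNReal.ofReal_inv_of_pos (by norm_num)]
    simp [ENNReal.inv_mul_cancel]
  rw [this, one_mul]

theorem nsq_ge (φ : ℝ → ℂ) (ξ : ℝ) : ‖φ ξ‖ₑ ^ 2 ≤ nsq φ ξ := by
  have h1 : ‖φ (ξ + ((0:ℤ):ℝ))‖ₑ ^ 2 ≤ nsq φ ξ :=
    ENNReal.le_tsum (f := fun n : ℤ => ‖φ (ξ + n)‖ₑ ^ 2) 0
  rw [Int.cast_zero, add_zero] at h1
  exact h1

theorem IsMRA.limE (h : IsMRA φ m μ) :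
    ∀ᵐ ξ : ℝ, Tendsto (fun j : ℕ => ‖φ (ξ / 2 ^ j)‖ₑ ^ 2) atTop (𝓝 1) := by
  filter_upwards [h.lim] with ξ hξ
  have h1 : Tendsto (fun j : ℕ => ENNReal.ofReal (‖φ (ξ / 2 ^ j)‖ ^ 2)) atTop (𝓝 (ENNReal.ofReal (1 ^ 2))) :=
    ENNReal.tendsto_ofReal (hξ.pow 2)
  rw [one_pow, ENNReal.ofReal_one] at h1
  have h2 : (fun j : ℕ => ‖φ (ξ / 2 ^ j)‖ₑ ^ 2) = fun j : ℕ => ENNReal.ofReal (‖φ (ξ / 2 ^ j)‖ ^ 2) :=
    funext (fun j => enorm_sq_ofReal _)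
  rw [h2]; exact h1

theorem IsMRA.mono (h : IsMRA φ m μ) {G : ℝ → ℂ} (hG : MemLp G 2) (n : ℤ) :
    EE φ (dil n G) ≤ EE φ (dil (n+1) G) := by
  have := h.step (memLp_dil n hG)
  rw [dil_dil, add_comm 1 n] at this
  rw [this]; exact le_add_self

/-- upward limit for truncated functions -/
theorem IsMRA.up_trunc (h : IsMRA φ m μ) {G : ℝ → ℂ} (hG : Measurable G) (hG2 : MemLp G 2) (M : ℕ) :
    Tendsto (fun n : ℕ => EE φ (dil (n:ℤ) ((TA G M).indicator G))) atTop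
      (𝓝 (N2 ((TA G M).indicator G))) := by
  set G1 := (TA G M).indicator G with hG1
  have hG1m : Measurable G1 := hG.indicator (TA_meas hG M)
  have hG1L : MemLp G1 2 := memLp_indicator (TA_meas hG M) hG2
  have hsupp : ∀ ξ, G1 ξ ≠ 0 → |ξ| ≤ M := by
    intro ξ hξ
    by_contra hc
    apply hξ
    rw [hG1, indicator_of_notMem]
    intro hm; exact hc hm.2.1
  have hev : ∀ᶠ n : ℕ in atTop, EE φ (dil (n:ℤ) G1) = ∫⁻ ξ, ‖G1 ξ‖ₑ ^ 2 * ‖φ (ξ / 2 ^ n)‖ₑ ^ 2 := by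
    obtain ⟨n0, hn0⟩ := pow_unbounded_of_one_lt (2 * M + 1 : ℝ) (by norm_num : (1:ℝ) < 2)
    filter_upwards [eventually_ge_atTop n0] with n hn
    have hbig : (2 * M + 1 : ℝ) < 2 ^ n := lt_of_lt_of_le hn0 (pow_le_pow_right₀ (by norm_num) hn)
    have hs : ∀ ξ, dil (n:ℤ) G1 ξ ≠ 0 → |ξ| < 1/2 := by
      intro ξ hξ
      have h1 : G1 ((2:ℝ) ^ (n:ℤ) * ξ) ≠ 0 := by
        intro h0; apply hξ; unfold dil; rw [h0, mul_zero]
      have h2 := hsupp _ h1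
      rw [zpow_natCast, abs_mul, abs_of_pos (by positivity : (0:ℝ) < 2 ^ n)] at h2
      by_contra hc
      push Not at hc
      have : (2:ℝ) ^ n * (1/2) ≤ 2 ^ n * |ξ| := by gcongr
      linarith
    rw [EE_inj (memLp_dil _ hG1L) h.φm.aestronglyMeasurable h.n1']
    · have e : ∀ ξ, ‖dil (n:ℤ) G1 ξ‖ₑ ^ 2 * ‖φ ξ‖ₑ ^ 2 = ENNReal.ofReal ((2:ℝ) ^ (n:ℤ)) *
          (fun η => ‖G1 η‖ₑ ^ 2 * ‖φ (η / 2 ^ n)‖ₑ ^ 2) ((2:ℝ) ^ (n:ℤ) * ξ) := by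
        intro ξ
        rw [dil_enorm_sq, mul_assoc]
        simp only [zpow_natCast]
        rw [mul_div_cancel_left₀ _ (by positivity : (2:ℝ) ^ n ≠ 0)]
      simp only [e]
      rw [lintegral_const_mul' _ _ ENNReal.ofReal_ne_top, lintegral_comp_mul
        (fun η => ‖G1 η‖ₑ ^ 2 * ‖φ (η / 2 ^ n)‖ₑ ^ 2) (by positivity), ← mul_assoc,
        ← ENNReal.ofReal_mul (by positivity), mul_inv_cancel₀ (by positivity)]
      simp
    · intro ξ hξ k hk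
      by_contra hne
      have h1 := hs _ hξ
      have h2 := hs _ hne
      have h3 : (1:ℝ) ≤ |(k:ℝ)| := by
        have : 1 ≤ |k| := Int.one_le_abs hk
        exact_mod_cast this
      have h4 : |(k:ℝ)| ≤ |ξ + k| + |ξ| := by
        have : (k:ℝ) = (ξ + k) - ξ := by ring
        calc |(k:ℝ)| = |(ξ + k) - ξ| := by rw [← this]
          _ ≤ _ := abs_sub _ _
      linarith
  have hlim : Tendsto (fun n : ℕ => ∫⁻ ξ, ‖G1 ξ‖ₑ ^ 2 * ‖φ (ξ / 2 ^ n)‖ₑ ^ 2) atTop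
      (𝓝 (∫⁻ ξ, ‖G1 ξ‖ₑ ^ 2 * 1)) := by
    apply tendsto_lintegral_of_dominated_convergence (fun ξ => ‖G1 ξ‖ₑ ^ 2)
    · intro n
      exact (hG1m.enorm.pow_const 2).mul ((h.φm.comp (measurable_div_const _)).enorm.pow_const 2)
    · intro n
      have h1 : ∀ᵐ ξ : ℝ, ‖φ ξ‖ₑ ^ 2 ≤ 1 := by
        filter_upwards [h.n1'] with ξ hξ using (nsq_ge φ ξ).trans hξ
      have h2 := ae_scale h1 (1 / 2 ^ n) (by positivity)
      filter_upwards [h2] with ξ hξ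
      rw [show 1 / 2 ^ n * ξ = ξ / 2 ^ n by ring] at hξ
      calc ‖G1 ξ‖ₑ ^ 2 * ‖φ (ξ / 2 ^ n)‖ₑ ^ 2 ≤ ‖G1 ξ‖ₑ ^ 2 * 1 := by gcongr
        _ = _ := mul_one _
    · exact (N2_lt_top hG1L).ne
    · filter_upwards [h.limE] with ξ hξ
      exact ENNReal.Tendsto.const_mul hξ (Or.inl (by simp))
  simp only [mul_one] at hlim
  exact hlim.congr' (hev.mono (fun n hn => hn.symm))

theorem IsMRA.up' (h : IsMRA φ m μ) {G : ℝ → ℂ} (hG : Measurable G) (hG2 : MemLp G 2) :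
    Tendsto (fun n : ℕ => EE φ (dil (n:ℤ) G)) atTop (𝓝 (N2 G)) := by
  have hmono : Monotone (fun n : ℕ => EE φ (dil (n:ℤ) G)) := by
    apply monotone_nat_of_le_succ
    intro n
    have := h.mono hG2 n
    push_cast
    exact this
  have hle : ∀ n : ℕ, EE φ (dil (n:ℤ) G) ≤ N2 G := by
    intro n
    rw [← N2_dil (n:ℤ) G]
    exact EE_le_N2 (memLp_dil _ hG2) h.φm.aestronglyMeasurable h.n1'
  set L := ⨆ n : ℕ, EE φ (dil (n:ℤ) G) with hL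
  have htL : Tendsto (fun n : ℕ => EE φ (dil (n:ℤ) G)) atTop (𝓝 L) := tendsto_atTop_iSup hmono
  have hLle : L ≤ N2 G := iSup_le hle
  have hkey : ∀ (M : ℕ) (ε : ℝ), 0 < ε → N2 G ≤ ENNReal.ofReal (1 + ε) * L +
      ENNReal.ofReal (1 + ε⁻¹) * N2 ((TA G M)ᶜ.indicator G) + N2 ((TA G M)ᶜ.indicator G) := by
    intro M ε hε
    rw [N2_split (TA_meas hG M) G hG2.1]
    gcongr
    refine le_of_tendsto' (h.up_trunc hG hG2 M) (fun n => ?_)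
    have hL1 := memLp_indicator (TA_meas hG M) hG2
    refine (EE_tri h.memφ (memLp_dil (n:ℤ) hG2) (memLp_dil (n:ℤ) hL1) hε).trans ?_
    gcongr
    · exact le_iSup (fun n : ℕ => EE φ (dil (n:ℤ) G)) n
    · have e : (fun ξ => dil (n:ℤ) ((TA G M).indicator G) ξ - dil (n:ℤ) G ξ)
          = dil (n:ℤ) (fun ξ => (TA G M).indicator G ξ - G ξ) := by
        ext ξ; unfold dil; ring
      rw [e, ind_sub]
      have hm : MemLp (fun ξ => -(TA G M)ᶜ.indicator G ξ) 2 :=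
        (memLp_indicator (TA_meas hG M).compl hG2).neg
      refine (EE_le_N2 (memLp_dil _ hm) h.φm.aestronglyMeasurable h.n1').trans ?_
      rw [N2_dil, N2_neg]
  have hkey2 : ∀ ε : ℝ, 0 < ε → N2 G ≤ ENNReal.ofReal (1 + ε) * L := by
    intro ε hε
    have ht := TA_tendsto hG hG2
    have : Tendsto (fun M : ℕ => ENNReal.ofReal (1 + ε) * L +
        ENNReal.ofReal (1 + ε⁻¹) * N2 ((TA G M)ᶜ.indicator G) + N2 ((TA G M)ᶜ.indicator G)) atTop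
        (𝓝 (ENNReal.ofReal (1 + ε) * L + ENNReal.ofReal (1 + ε⁻¹) * 0 + 0)) :=
      ((tendsto_const_nhds).add (ENNReal.Tendsto.const_mul ht (Or.inr ENNReal.ofReal_ne_top))).add ht
    have := ge_of_tendsto' this (fun M => hkey M ε hε)
    simpa using this
  have hfin : N2 G ≤ L := by
    have ht : Tendsto (fun n : ℕ => ENNReal.ofReal (1 + (1 / ((n:ℝ) + 1))) * L) atTop (𝓝 (ENNReal.ofReal (1 + 0) * L)) := by
      apply ENNReal.Tendsto.mul_const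
      · apply ENNReal.tendsto_ofReal
        exact tendsto_const_nhds.add tendsto_one_div_add_atTop_nhds_zero_nat
      · right; exact (hLle.trans_lt (N2_lt_top hG2)).ne
    have := ge_of_tendsto' ht (fun n => hkey2 _ (by positivity))
    simpa using this
  rw [le_antisymm hfin hLle]
  exact htL

theorem IsMRA.up (h : IsMRA φ m μ) {G : ℝ → ℂ} (hG2 : MemLp G 2) :
    Tendsto (fun n : ℕ => EE φ (dil (n:ℤ) G)) atTop (𝓝 (N2 G)) := by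
  have hae : G =ᵐ[volume] hG2.1.mk G := hG2.1.ae_eq_mk
  have hm : MemLp (hG2.1.mk G) 2 := hG2.ae_eq hae
  have := h.up' hG2.1.stronglyMeasurable_mk.measurable hm
  rw [← N2_congr hae] at this
  refine this.congr (fun n => ?_)
  apply EE_congr
  filter_upwards [dil_congr (n:ℤ) hae] with ξ hξ
  rw [hξ]

/-- downward limit for truncated functions -/
theorem IsMRA.down_trunc (h : IsMRA φ m μ) {G : ℝ → ℂ} (hG : Measurable G) (hG2 : MemLp G 2) {M : ℕ} (hM : 1 ≤ M) :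
    Tendsto (fun n : ℕ => EE φ (dil (-(n:ℤ)) ((TA G M).indicator G))) atTop (𝓝 0) := by
  set G1 := (TA G M).indicator G with hG1
  have hMr : (1:ℝ) ≤ M := by exact_mod_cast hM
  have hG1L : MemLp G1 2 := memLp_indicator (TA_meas hG M) hG2
  let E : ℕ → Set ℝ := fun n => {ξ | (2:ℝ) ^ n ≤ M * |ξ|}
  have hEm : ∀ n, MeasurableSet (E n) := by
    intro n
    have h1 : Measurable (fun ξ : ℝ => (M:ℝ) * |ξ|) := measurable_const_mul _ |>.comp measurable_norm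
    exact h1 measurableSet_Ici
  have hsupp : ∀ (n : ℕ) ξ, dil (-(n:ℤ)) G1 ξ ≠ 0 → ξ ∈ E n ∧ ξ ∈ Icc (-(M * 2 ^ n : ℝ)) (M * 2 ^ n) ∧
      ‖dil (-(n:ℤ)) G1 ξ‖ₑ ^ 2 ≤ ENNReal.ofReal ((2:ℝ) ^ (-(n:ℤ)) * M ^ 2) := by
    intro n ξ hξ
    have h1 : G1 ((2:ℝ) ^ (-(n:ℤ)) * ξ) ≠ 0 := by
      intro h0; apply hξ; unfold dil; rw [h0, mul_zero]
    have hmem : (2:ℝ) ^ (-(n:ℤ)) * ξ ∈ TA G M := by
      by_contra hc
      apply h1; rw [hG1, indicator_of_notMem hc]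
    obtain ⟨a, b, c⟩ := hmem
    rw [zpow_neg, zpow_natCast, abs_mul, abs_of_pos (by positivity : (0:ℝ) < ((2:ℝ) ^ n)⁻¹)] at a b
    have hp : (0:ℝ) < 2 ^ n := by positivity
    refine ⟨?_, ?_, ?_⟩
    · change (2:ℝ) ^ n ≤ M * |ξ|
      have : 1 * 2 ^ n ≤ (M * ((2 ^ n)⁻¹ * |ξ|)) * (2:ℝ) ^ n := by gcongr
      have e : (M * (((2:ℝ) ^ n)⁻¹ * |ξ|)) * (2:ℝ) ^ n = M * |ξ| := by field_simp
      rw [e] at this; linarith
    · apply abs_le.1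
      have : (((2:ℝ) ^ n)⁻¹ * |ξ|) * 2 ^ n ≤ M * 2 ^ n := by gcongr
      have e : (((2:ℝ) ^ n)⁻¹ * |ξ|) * 2 ^ n = |ξ| := by field_simp
      rwa [e] at this
    · rw [dil_enorm_sq, enorm_sq_ofReal, ← ENNReal.ofReal_mul (by positivity)]
      apply ENNReal.ofReal_le_ofReal
      have h2 : ‖G1 ((2:ℝ) ^ (-(n:ℤ)) * ξ)‖ ≤ M := by
        rw [hG1, indicator_of_mem (by
          by_contra hc
          apply h1; rw [hG1, indicator_of_notMem hc])]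
        exact c
      gcongr
  -- pointwise bound
  have hbound : ∀ (n : ℕ) (ξ : ℝ), ‖br (dil (-(n:ℤ)) G1) φ ξ‖ₑ ^ 2
      ≤ ENNReal.ofReal (M ^ 2 * (2 * M + 1)) * nsq ((E n).indicator φ) ξ := by
    intro n ξ
    have e1 : br (dil (-(n:ℤ)) G1) φ ξ = br (dil (-(n:ℤ)) G1) ((E n).indicator φ) ξ := by
      unfold br
      apply tsum_congr; intro k
      by_cases h0 : dil (-(n:ℤ)) G1 (ξ + k) = 0
      · rw [h0, zero_mul, zero_mul]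
      · rw [indicator_of_mem (hsupp n _ h0).1]
    rw [e1]
    refine (br_sq_le _ _ _).trans ?_
    gcongr
    unfold nsq
    calc ∑' k : ℤ, ‖dil (-(n:ℤ)) G1 (ξ + k)‖ₑ ^ 2
        ≤ ∑' k : ℤ, ENNReal.ofReal ((2:ℝ) ^ (-(n:ℤ)) * M ^ 2) *
            (Icc (-(M * 2 ^ n : ℝ)) (M * 2 ^ n)).indicator (fun _ => (1:ℝ≥0∞)) (ξ + k) := by
          apply ENNReal.tsum_le_tsum; intro k
          by_cases h0 : dil (-(n:ℤ)) G1 (ξ + k) = 0
          · rw [h0]; simp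
          · obtain ⟨_, b, c⟩ := hsupp n _ h0
            rw [indicator_of_mem b, mul_one]; exact c
      _ = ENNReal.ofReal ((2:ℝ) ^ (-(n:ℤ)) * M ^ 2) *
            ∑' k : ℤ, (Icc (-(M * 2 ^ n : ℝ)) (M * 2 ^ n)).indicator (fun _ => (1:ℝ≥0∞)) (ξ + k) := by
          rw [ENNReal.tsum_mul_left]
      _ ≤ ENNReal.ofReal ((2:ℝ) ^ (-(n:ℤ)) * M ^ 2) * ENNReal.ofReal (M * 2 ^ n - (-(M * 2 ^ n)) + 1) := by
          gcongr
          exact count_Icc (by nlinarith [show (0:ℝ) < 2 ^ n by positivity]) ξ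
      _ = ENNReal.ofReal ((2:ℝ) ^ (-(n:ℤ)) * M ^ 2 * (M * 2 ^ n - (-(M * 2 ^ n)) + 1)) := by
          rw [← ENNReal.ofReal_mul (by positivity)]
      _ ≤ ENNReal.ofReal (M ^ 2 * (2 * M + 1)) := by
          apply ENNReal.ofReal_le_ofReal
          rw [zpow_neg, zpow_natCast]
          have hp : (1:ℝ) ≤ 2 ^ n := one_le_pow₀ (by norm_num)
          have e : ((2:ℝ) ^ n)⁻¹ * M ^ 2 * (M * 2 ^ n - (-(M * 2 ^ n)) + 1)
              = M ^ 2 * (2 * M) + M ^ 2 * ((2:ℝ) ^ n)⁻¹ := by field_simp; ring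
          rw [e]
          have : ((2:ℝ) ^ n)⁻¹ ≤ 1 := inv_le_one_of_one_le₀ hp
          nlinarith [sq_nonneg (M:ℝ)]
  have hEE : ∀ n : ℕ, EE φ (dil (-(n:ℤ)) G1) ≤ ENNReal.ofReal (M ^ 2 * (2 * M + 1)) * N2 ((E n).indicator φ) := by
    intro n
    rw [EE_eq (memLp_dil _ hG1L) h.φm.aestronglyMeasurable h.n1',
      N2_per (h.φm.indicator (hEm n)).aestronglyMeasurable, ← lintegral_const_mul' _ _ ENNReal.ofReal_ne_top]
    exact lintegral_mono (fun ξ => hbound n ξ)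
  have hN : Tendsto (fun n : ℕ => N2 ((E n).indicator φ)) atTop (𝓝 0) := by
    have : Tendsto (fun n : ℕ => ∫⁻ ξ, ‖(E n).indicator φ ξ‖ₑ ^ 2) atTop (𝓝 (∫⁻ ξ : ℝ, 0)) := by
      apply tendsto_lintegral_of_dominated_convergence (fun ξ => ‖φ ξ‖ₑ ^ 2)
      · intro n
        exact ((h.φm.indicator (hEm n)).enorm.pow_const 2)
      · intro n
        apply Eventually.of_forall; intro ξ
        change ‖(E n).indicator φ ξ‖ₑ ^ 2 ≤ ‖φ ξ‖ₑ ^ 2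
        by_cases hx : ξ ∈ E n
        · rw [indicator_of_mem hx]
        · rw [indicator_of_notMem hx]; simp
      · exact (N2_lt_top h.memφ).ne
      · apply Eventually.of_forall; intro ξ
        apply tendsto_const_nhds.congr'
        obtain ⟨n0, hn0⟩ := pow_unbounded_of_one_lt (M * |ξ|) (by norm_num : (1:ℝ) < 2)
        filter_upwards [eventually_ge_atTop n0] with n hn
        have hbig : M * |ξ| < 2 ^ n := lt_of_lt_of_le hn0 (pow_le_pow_right₀ (by norm_num) hn)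
        rw [indicator_of_notMem (fun hx : ξ ∈ E n => absurd hbig (not_lt.2 hx))]; simp
    simpa [N2] using this
  have hfinal := ENNReal.Tendsto.const_mul hN (Or.inr (ENNReal.ofReal_ne_top (r := M ^ 2 * (2 * M + 1))))
  rw [mul_zero] at hfinal
  exact tendsto_of_tendsto_of_tendsto_of_le_of_le tendsto_const_nhds hfinal (fun n => zero_le) hEE

theorem IsMRA.down' (h : IsMRA φ m μ) {G : ℝ → ℂ} (hG : Measurable G) (hG2 : MemLp G 2) :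
    Tendsto (fun n : ℕ => EE φ (dil (-(n:ℤ)) G)) atTop (𝓝 0) := by
  rw [ENNReal.tendsto_nhds_zero]
  intro δ hδ
  have ht := ENNReal.Tendsto.const_mul (TA_tendsto hG hG2) (Or.inr (ENNReal.ofReal_ne_top (r := (1 + (1:ℝ)⁻¹))))
  rw [mul_zero] at ht
  have hδ2 : (0:ℝ≥0∞) < δ / 2 := ENNReal.half_pos hδ.ne'
  obtain ⟨M, hM1, hM2⟩ := ((ht.eventually (gt_mem_nhds hδ2)).and (eventually_ge_atTop 1)).exists
  have hd := ENNReal.Tendsto.const_mul (h.down_trunc hG hG2 hM2) (Or.inr (ENNReal.ofReal_ne_top (r := (1 + (1:ℝ)))))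
  rw [mul_zero] at hd
  filter_upwards [hd.eventually (gt_mem_nhds hδ2)] with n hn
  have hL1 := memLp_indicator (TA_meas hG M) hG2
  have htri := EE_tri (F := φ) h.memφ (memLp_dil (-(n:ℤ)) hL1) (memLp_dil (-(n:ℤ)) hG2) (zero_lt_one)
  refine htri.trans ?_
  have e : (fun ξ => dil (-(n:ℤ)) G ξ - dil (-(n:ℤ)) ((TA G M).indicator G) ξ)
      = dil (-(n:ℤ)) ((TA G M)ᶜ.indicator G) := by
    ext ξ; unfold dil
    have := congrFun (ind_sub (TA G M) G) ((2:ℝ) ^ (-(n:ℤ)) * ξ)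
    rw [← mul_sub, ← neg_sub, this, neg_neg]
  rw [e]
  have h2 : EE φ (dil (-(n:ℤ)) ((TA G M)ᶜ.indicator G)) ≤ N2 ((TA G M)ᶜ.indicator G) := by
    rw [← N2_dil (-(n:ℤ))]
    exact EE_le_N2 (memLp_dil _ (memLp_indicator (TA_meas hG M).compl hG2)) h.φm.aestronglyMeasurable h.n1'
  calc _ ≤ δ / 2 + ENNReal.ofReal (1 + (1:ℝ)⁻¹) * N2 ((TA G M)ᶜ.indicator G) := by
        gcongr
    _ ≤ δ / 2 + δ / 2 := by gcongr
    _ = δ := ENNReal.add_halves δ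

theorem IsMRA.down (h : IsMRA φ m μ) {G : ℝ → ℂ} (hG2 : MemLp G 2) :
    Tendsto (fun n : ℕ => EE φ (dil (-(n:ℤ)) G)) atTop (𝓝 0) := by
  have hae : G =ᵐ[volume] hG2.1.mk G := hG2.1.ae_eq_mk
  have hm : MemLp (hG2.1.mk G) 2 := hG2.ae_eq hae
  have := h.down' hG2.1.stronglyMeasurable_mk.measurable hm
  refine this.congr (fun n => ?_)
  apply EE_congr
  filter_upwards [dil_congr (-(n:ℤ)) hae] with ξ hξ
  rw [hξ]

/-- **The MRA theorem.** -/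
theorem IsMRA.isPW (h : IsMRA φ m μ) : IsPW (wav φ μ) := by
  have hN : N2 (wav φ μ) = 1 := by
    rw [N2_per h.wm.aestronglyMeasurable, lintegral_congr_ae (ae_restrict_of_ae h.nw)]
    simp
  refine ⟨memLp_of_N2 h.wm.aestronglyMeasurable (by rw [hN]; exact ENNReal.one_lt_top), hN, ?_⟩
  apply pars_of_tele (fun G => EE φ G)
  · intro G hG; exact h.step hG
  · intro G hG; exact h.up hG
  · intro G hG; exact h.down hG

theorem IsMRA.dim (h : IsMRA φ m μ) : ∀ᵐ ξ : ℝ, dimf (wav φ μ) ξ = 1 := by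
  have hcol : ∀ᵐ ξ : ℝ, ‖wav φ μ (2 * ξ)‖ₑ ^ 2 + ‖φ (2 * ξ)‖ₑ ^ 2 = ‖φ ξ‖ₑ ^ 2 := by
    filter_upwards [h.u1, h.u2, h.u3, h.ref] with ξ u1 u2 u3 r
    rw [wav_two, r, enorm_mul, enorm_mul, mul_pow, mul_pow, ← add_mul]
    have := (unitary2 u1 u2 u3).1
    have h3 : ‖μ ξ‖ₑ ^ 2 + ‖m ξ‖ₑ ^ 2 = 1 := by
      rw [enorm_sq_ofReal, enorm_sq_ofReal, ← ENNReal.ofReal_add (by positivity) (by positivity),
        add_comm, this, ENNReal.ofReal_one]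
    rw [h3, one_mul]
  have hsum : ∀ᵐ ξ : ℝ, ∑' n : ℕ, ‖φ ((2:ℝ) ^ n * ξ)‖ₑ ^ 2 ≠ ⊤ := by
    have h1 : ∫⁻ ξ : ℝ, ∑' n : ℕ, ‖φ ((2:ℝ) ^ n * ξ)‖ₑ ^ 2 ≠ ⊤ := by
      rw [lintegral_tsum]
      · have e : ∀ n : ℕ, ∫⁻ ξ : ℝ, ‖φ ((2:ℝ) ^ n * ξ)‖ₑ ^ 2 = ENNReal.ofReal ((1/2:ℝ) ^ n) * N2 φ := by
          intro n
          rw [lintegral_comp_mul (fun ξ => ‖φ ξ‖ₑ ^ 2) (by positivity)]
          unfold N2; congr 2; rw [one_div, inv_pow]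
        simp only [e]
        rw [ENNReal.tsum_mul_right]
        apply ENNReal.mul_ne_top
        · rw [← ENNReal.ofReal_tsum_of_nonneg (fun n => by positivity)
            (summable_geometric_of_lt_one (by norm_num) (by norm_num))]
          exact ENNReal.ofReal_ne_top
        · exact (N2_lt_top h.memφ).ne
      · intro n
        exact ((h.φm.comp (measurable_const_mul _)).enorm.pow_const 2).aemeasurable
    have h2 := ae_lt_top' (AEMeasurable.tsum (fun n : ℕ =>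
      ((h.φm.comp (measurable_const_mul ((2:ℝ) ^ n))).enorm.pow_const 2).aemeasurable)) h1
    filter_upwards [h2] with ξ hξ using hξ.ne
  have hfin : ∀ᵐ ξ : ℝ, ‖φ ξ‖ₑ ^ 2 ≤ 1 := by
    filter_upwards [h.n1'] with ξ hξ using (nsq_ge φ ξ).trans hξ
  have htel : ∀ᵐ ξ : ℝ, ∑' j : ℕ, ‖wav φ μ ((2:ℝ) ^ (j+1) * ξ)‖ₑ ^ 2 = ‖φ ξ‖ₑ ^ 2 := by
    filter_upwards [ae_pow_add hcol, hsum, hfin] with ξ hc hs hf
    have hpart : ∀ n : ℕ, ∑ j ∈ Finset.range n, ‖wav φ μ ((2:ℝ) ^ (j+1) * ξ)‖ₑ ^ 2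
        + ‖φ ((2:ℝ) ^ n * ξ)‖ₑ ^ 2 = ‖φ ξ‖ₑ ^ 2 := by
      intro n
      induction n with
      | zero => simp
      | succ n ih =>
        rw [Finset.sum_range_succ, add_assoc]
        have := hc n 0
        simp only [Int.cast_zero, add_zero] at this
        have e : (2:ℝ) * ((2:ℝ) ^ n * ξ) = (2:ℝ) ^ (n+1) * ξ := by rw [pow_succ]; ring
        rw [e] at this
        rw [this]; exact ih
    have ht0 := ENNReal.tendsto_atTop_zero_of_tsum_ne_top hs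
    have ht : Tendsto (fun n : ℕ => ∑ j ∈ Finset.range n, ‖wav φ μ ((2:ℝ) ^ (j+1) * ξ)‖ₑ ^ 2
        + ‖φ ((2:ℝ) ^ n * ξ)‖ₑ ^ 2) atTop
        (𝓝 (∑' j : ℕ, ‖wav φ μ ((2:ℝ) ^ (j+1) * ξ)‖ₑ ^ 2 + 0)) :=
      (ENNReal.summable.hasSum.tendsto_sum_nat).add ht0
    simp only [hpart, add_zero] at ht
    exact tendsto_nhds_unique ht tendsto_const_nhds |>.symm ▸ rfl
  filter_upwards [ae_add_int htel, h.n1] with ξ ht hn
  unfold dimf
  rw [ENNReal.tsum_comm]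
  simp only [ht]
  exact hn

end Pool.Agent.Helper30.WD
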