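import Pool.Agent.Helper30.WD.Scal

/-! MSF wavelets from generalized scaling sets. -/

set_option autoImplicit false
open MeasureTheory Filter Topology Set
open scoped ENNReal ComplexConjugate

namespace Pool.Agent.Helper30.WD

/-- generalized scaling set for `D` -/
structure ScSet (D : ℝ → ℕ) (S : Set ℝ) : Prop where
  meas : MeasurableSet S
  half : ∀ᵐ ξ : ℝ, ξ ∈ S → ξ / 2 ∈ S
  cnt : ∀ᵐ ξ : ℝ, {l : ℤ | ξ + l ∈ S}.encard = D ξ
  evt : ∀ᵐ ξ : ℝ, ∃ j : ℕ, ξ / 2 ^ j ∈ S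
  exit : ∀ᵐ ξ : ℝ, ∃ j : ℕ, (2:ℝ) ^ j * ξ ∉ S

/-- wavelet set -/
def KS (S : Set ℝ) : Set ℝ := {ξ | ξ / 2 ∈ S ∧ ξ ∉ S}

theorem KS_meas {S : Set ℝ} (h : MeasurableSet S) : MeasurableSet (KS S) :=
  MeasurableSet.inter ((measurable_div_const 2) h) h.compl

/-- exactly one dilate of a generic point is in `KS S`, and it determines membership in `S` -/
theorem ScSet.tile {D : ℝ → ℕ} {S : Set ℝ} (h : ScSet D S) :
    ∀ᵐ ξ : ℝ, ∃ i : ℤ, ∀ j : ℤ, ((2:ℝ) ^ j * ξ ∈ KS S ↔ j = i) ∧ ((2:ℝ) ^ j * ξ ∈ S ↔ j < i) := by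
  have h1 := ae_orbit h.half
  filter_upwards [h1, h.evt, h.exit] with ξ hd ⟨a, ha⟩ ⟨b, hb⟩
  have hdown1 : ∀ j : ℤ, (2:ℝ) ^ j * ξ ∈ S → (2:ℝ) ^ (j - 1) * ξ ∈ S := by
    intro j hj
    have := hd j 0
    simp only [Rat.cast_zero, add_zero] at this
    have h2 := this hj
    have e : (2:ℝ) ^ (j - 1) * ξ = (2:ℝ) ^ j * ξ / 2 := by
      rw [zpow_sub_one₀ (by norm_num)]; ring
    rw [e]; exact h2
  have hdown : ∀ (n : ℕ) (j : ℤ), (2:ℝ) ^ j * ξ ∈ S → (2:ℝ) ^ (j - n) * ξ ∈ S := by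
    intro n
    induction n with
    | zero => intro j hj; simpa using hj
    | succ n ih =>
      intro j hj
      have := hdown1 _ (ih j hj)
      have e : j - (n:ℤ) - 1 = j - ((n + 1 : ℕ) : ℤ) := by push_cast; ring
      rwa [e] at this
  have hdown' : ∀ j k : ℤ, k ≤ j → (2:ℝ) ^ j * ξ ∈ S → (2:ℝ) ^ k * ξ ∈ S := by
    intro j k hkj hj
    have := hdown (j - k).toNat j hj
    rwa [Int.toNat_of_nonneg (by omega), sub_sub_cancel] at this
  -- find the first exit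
  have ha' : (2:ℝ) ^ (-(a:ℤ)) * ξ ∈ S := by
    rw [zpow_neg, zpow_natCast]
    have : ((2:ℝ) ^ a)⁻¹ * ξ = ξ / 2 ^ a := by ring
    rw [this]; exact ha
  have hb' : (2:ℝ) ^ (b:ℤ) * ξ ∉ S := by rw [zpow_natCast]; exact hb
  have hex : ∃ n : ℕ, (2:ℝ) ^ (-(a:ℤ) + n) * ξ ∉ S := by
    refine ⟨a + b, ?_⟩
    have e : -(a:ℤ) + ((a + b : ℕ) : ℤ) = b := by push_cast; ring
    rw [e]; exact hb'
  classical
  let n := Nat.find hex
  have hn : (2:ℝ) ^ (-(a:ℤ) + n) * ξ ∉ S := Nat.find_spec hex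
  have hn' : ∀ m < n, (2:ℝ) ^ (-(a:ℤ) + m) * ξ ∈ S := by
    intro m hm
    by_contra hc
    exact Nat.find_min hex hm hc
  have hn0 : 0 < n := by
    rcases Nat.eq_zero_or_pos n with h0 | h0
    · rw [h0] at hn; simp only [Nat.cast_zero, add_zero] at hn; exact absurd ha' hn
    · exact h0
  set i : ℤ := -(a:ℤ) + n with hi
  have hSi : ∀ j : ℤ, (2:ℝ) ^ j * ξ ∈ S ↔ j < i := by
    intro j
    constructor
    · intro hj
      by_contra hc
      push Not at hc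
      exact hn (hdown' j i hc hj)
    · intro hj
      have h3 := hn' (n - 1) (by omega)
      apply hdown' _ _ _ h3
      push_cast [Nat.cast_sub (show 1 ≤ n from hn0)]
      omega
  refine ⟨i, fun j => ⟨?_, hSi j⟩⟩
  have e : (2:ℝ) ^ j * ξ / 2 = (2:ℝ) ^ (j - 1) * ξ := by
    rw [zpow_sub_one₀ (by norm_num)]; ring
  change ((2:ℝ) ^ j * ξ / 2 ∈ S ∧ (2:ℝ) ^ j * ξ ∉ S) ↔ j = i
  rw [e, hSi, hSi]
  omega

theorem ScSet.trans {D : ℝ → ℕ} {S : Set ℝ} (h : ScSet D S)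
    (h2 : ∀ᵐ ξ : ℝ, D ξ + D (ξ + 1 / 2) = D (2 * ξ) + 1) :
    ∀ᵐ ξ : ℝ, {l : ℤ | ξ + l ∈ KS S}.encard = 1 := by
  have hc2 := ae_affine h.cnt (1/2) 0 (by norm_num)
  have hc3 := ae_affine h.cnt (1/2) (1/2) (by norm_num)
  have h2' := ae_affine h2 (1/2) 0 (by norm_num)
  filter_upwards [h.cnt, hc2, hc3, h2', ae_add_int h.half] with ξ c1 c2 c3 hd hh
  have e2 : 2 * (1 / 2 * ξ + 0) = ξ := by ring
  rw [e2] at hd
  have e3 : 1 / 2 * ξ + 0 + 1/2 = 1/2 * ξ + 1/2 := by ring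
  rw [e3] at hd
  set A : Set ℤ := {l : ℤ | (ξ + l) / 2 ∈ S} with hA
  have hAc : A.encard = D ξ + 1 := by
    have e1 : A = (fun m => 2 * m) '' {m : ℤ | 1/2 * ξ + 0 + m ∈ S} ∪
        (fun m => 2 * m + 1) '' {m : ℤ | 1/2 * ξ + 1/2 + m ∈ S} := by
      ext l
      simp only [hA, mem_ofPred_eq, mem_union, mem_image]
      rcases Int.even_or_odd' l with ⟨m, hm | hm⟩
      · have e : (ξ + l) / 2 = 1/2 * ξ + 0 + m := by rw [hm]; push_cast; ring
        rw [e]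
        constructor
        · intro a; left; exact ⟨m, a, hm.symm⟩
        · rintro (⟨m', a, b⟩ | ⟨m', _, b⟩)
          · have : m' = m := by omega
            subst this; exact a
          · omega
      · have e : (ξ + l) / 2 = 1/2 * ξ + 1/2 + m := by rw [hm]; push_cast; ring
        rw [e]
        constructor
        · intro a; right; exact ⟨m, a, hm.symm⟩
        · rintro (⟨m', _, b⟩ | ⟨m', a, b⟩)
          · omega
          · have : m' = m := by omega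
            subst this; exact a
    rw [e1, Set.encard_union_eq]
    · rw [Function.Injective.encard_image, Function.Injective.encard_image, c2, c3]
      · exact_mod_cast hd
      · intro a b hab
        simp only at hab; omega
      · intro a b hab
        simp only at hab; omega
    · rw [Set.disjoint_left]
      rintro l ⟨m, _, rfl⟩ ⟨m', _, h'⟩
      simp only at h'; omega
  have hsub : {l : ℤ | ξ + l ∈ S} ⊆ A := fun l hl => hh l hl
  have hK : {l : ℤ | ξ + l ∈ KS S} = A \ {l : ℤ | ξ + l ∈ S} := by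
    ext l; rfl
  have h5 := Set.encard_sdiff_add_encard_of_subset hsub
  rw [← hK, c1, hAc] at h5
  have hfin : {l : ℤ | ξ + l ∈ KS S}.encard ≠ ⊤ := by
    intro h6
    rw [h6] at h5
    simp at h5
    have : ((D ξ : ℕ∞) + 1) ≠ ⊤ := by exact_mod_cast ENat.natCast_ne_top (D ξ + 1)
    exact this h5.symm
  obtain ⟨n, hn⟩ := ENat.ne_top_iff_exists.1 hfin
  rw [← hn] at h5 ⊢
  have h6 : n + D ξ = D ξ + 1 := by exact_mod_cast h5
  have : n = 1 := by omega
  rw [this]; rfl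

theorem tsum_ind_encard (A : Set ℤ) : ∑' k : ℤ, A.indicator (fun _ => (1:ℝ≥0∞)) k = A.encard := by
  rw [← tsum_subtype]
  exact ENNReal.tsum_set_one A

/-- MSF wavelets -/
theorem msf {D : ℝ → ℕ} {S : Set ℝ} (h : ScSet D S)
    (h2 : ∀ᵐ ξ : ℝ, D ξ + D (ξ + 1 / 2) = D (2 * ξ) + 1) {u : ℝ → ℂ} (hu : Measurable u)
    (hun : ∀ ξ ∈ KS S, ‖u ξ‖ = 1) :
    IsPW ((KS S).indicator u) ∧ ∀ᵐ ξ, dimf ((KS S).indicator u) ξ = D ξ := by
  classical
  set K := KS S with hKdef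
  have hKm : MeasurableSet K := KS_meas h.meas
  have hFm : Measurable (K.indicator u) := hu.indicator hKm
  have hFe : ∀ ξ, ‖K.indicator u ξ‖ₑ ^ 2 = K.indicator (fun _ => (1:ℝ≥0∞)) ξ := by
    intro ξ
    by_cases hx : ξ ∈ K
    · rw [indicator_of_mem hx, indicator_of_mem hx, ← ofReal_norm, hun ξ hx]; simp
    · rw [indicator_of_notMem hx, indicator_of_notMem hx]; simp
  have hn1 : ∀ᵐ ξ, nsq (K.indicator u) ξ = 1 := by
    filter_upwards [h.trans h2] with ξ hξ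
    unfold nsq
    simp only [hFe]
    have e : ∀ n : ℤ, K.indicator (fun _ => (1:ℝ≥0∞)) (ξ + n)
        = {l : ℤ | ξ + l ∈ K}.indicator (fun _ => (1:ℝ≥0∞)) n := by
      intro n
      by_cases hx : ξ + n ∈ K
      · rw [indicator_of_mem hx, indicator_of_mem (show n ∈ {l : ℤ | ξ + l ∈ K} from hx)]
      · rw [indicator_of_notMem hx, indicator_of_notMem (show n ∉ {l : ℤ | ξ + l ∈ K} from hx)]
    simp only [e]
    rw [tsum_ind_encard, hξ]; simp
  have hn1' : ∀ᵐ ξ, nsq (K.indicator u) ξ ≤ 1 := by filter_upwards [hn1] with ξ hξ using hξ.le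
  have hN : N2 (K.indicator u) = 1 := by
    rw [N2_per hFm.aestronglyMeasurable, lintegral_congr_ae (ae_restrict_of_ae hn1)]
    simp
  have hmem : MemLp (K.indicator u) 2 :=
    memLp_of_N2 hFm.aestronglyMeasurable (by rw [hN]; exact ENNReal.one_lt_top)
  have hEE : ∀ H : ℝ → ℂ, MemLp H 2 → EE (K.indicator u) H = ∫⁻ ξ, K.indicator (fun ξ => ‖H ξ‖ₑ ^ 2) ξ := by
    intro H hH
    have hHm : AEMeasurable (K.indicator (fun ξ => ‖H ξ‖ₑ ^ 2)) := (hH.1.enorm.pow_const 2).indicator hKm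
    rw [EE_eq hH hFm.aestronglyMeasurable hn1', lintegral_per hHm]
    apply lintegral_congr_ae
    apply ae_restrict_of_ae
    filter_upwards [h.trans h2] with ξ hξ
    obtain ⟨n, hn⟩ := Set.encard_eq_one.1 hξ
    have hmemn : ∀ m : ℤ, ξ + m ∈ K ↔ m = n := by
      intro m
      have : m ∈ {l : ℤ | ξ + l ∈ K} ↔ m ∈ ({n} : Set ℤ) := by rw [hn]
      simpa using this
    have e1 : br H (K.indicator u) ξ = H (ξ + n) * conj (u (ξ + n)) := by
      unfold br
      rw [tsum_eq_single n]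
      · rw [indicator_of_mem ((hmemn n).2 rfl)]
      · intro m hm
        rw [indicator_of_notMem (fun h' => hm ((hmemn m).1 h'))]; simp
    rw [e1, tsum_eq_single n]
    · rw [indicator_of_mem ((hmemn n).2 rfl), enorm_mul, RCLike.enorm_conj, mul_pow]
      have : ‖u (ξ + n)‖ₑ = 1 := by
        rw [← ofReal_norm, hun _ ((hmemn n).2 rfl)]; simp
      rw [this]; simp
    · intro m hm
      rw [indicator_of_notMem (fun h' => hm ((hmemn m).1 h'))]
  refine ⟨⟨hmem, hN, ?_⟩, ?_⟩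
  · intro G hG
    have e1 : ∀ j : ℤ, EE (K.indicator u) (dil j G)
        = ∫⁻ ξ, {ξ : ℝ | (2:ℝ) ^ (-j) * ξ ∈ K}.indicator (fun _ => (1:ℝ≥0∞)) ξ * ‖G ξ‖ₑ ^ 2 := by
      intro j
      rw [hEE _ (memLp_dil j hG)]
      have e2 : ∀ ξ, K.indicator (fun ξ => ‖dil j G ξ‖ₑ ^ 2) ξ = ENNReal.ofReal ((2:ℝ) ^ j) *
          (fun η => {ξ : ℝ | (2:ℝ) ^ (-j) * ξ ∈ K}.indicator (fun _ => (1:ℝ≥0∞)) η * ‖G η‖ₑ ^ 2) ((2:ℝ) ^ j * ξ) := by
        intro ξ
        have e3 : (2:ℝ) ^ (-j) * ((2:ℝ) ^ j * ξ) = ξ := by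
          rw [← mul_assoc, ← zpow_add₀ (by norm_num)]; simp
        by_cases hx : ξ ∈ K
        · rw [indicator_of_mem hx, dil_enorm_sq]
          simp only
          rw [indicator_of_mem (show (2:ℝ) ^ j * ξ ∈ {ξ : ℝ | (2:ℝ) ^ (-j) * ξ ∈ K} by
            rw [mem_ofPred_eq, e3]; exact hx), one_mul]
        · rw [indicator_of_notMem hx]
          simp only
          rw [indicator_of_notMem (show (2:ℝ) ^ j * ξ ∉ {ξ : ℝ | (2:ℝ) ^ (-j) * ξ ∈ K} by
            rw [mem_ofPred_eq, e3]; exact hx), zero_mul, mul_zero]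
      simp only [e2]
      rw [lintegral_const_mul' _ _ ENNReal.ofReal_ne_top, lintegral_comp_mul
        (fun η => {ξ : ℝ | (2:ℝ) ^ (-j) * ξ ∈ K}.indicator (fun _ => (1:ℝ≥0∞)) η * ‖G η‖ₑ ^ 2) (by positivity),
        ← mul_assoc, ← ENNReal.ofReal_mul (by positivity), mul_inv_cancel₀ (by positivity)]
      simp
    simp only [e1]
    rw [← lintegral_tsum]
    · unfold N2
      apply lintegral_congr_ae
      filter_upwards [h.tile] with ξ ⟨i, hi⟩
      rw [ENNReal.tsum_mul_right, tsum_eq_single (-i)]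
      · rw [indicator_of_mem, one_mul]
        rw [mem_ofPred_eq, neg_neg]
        exact ((hi i).1).2 rfl
      · intro j hj
        rw [indicator_of_notMem]
        intro h'
        rw [mem_ofPred_eq] at h'
        have := ((hi (-j)).1).1 h'
        omega
    · intro j
      apply AEMeasurable.mul
      · exact (measurable_const.indicator ((measurable_const_mul _) hKm)).aemeasurable
      · exact hG.1.enorm.pow_const 2
  · filter_upwards [h.cnt, ae_add_int h.tile] with ξ hc ht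
    unfold dimf
    rw [ENNReal.tsum_comm]
    simp only [hFe]
    have e : ∀ k : ℤ, ∑' j : ℕ, K.indicator (fun _ => (1:ℝ≥0∞)) ((2:ℝ) ^ (j+1) * (ξ + k))
        = {l : ℤ | ξ + l ∈ S}.indicator (fun _ => (1:ℝ≥0∞)) k := by
      intro k
      obtain ⟨i, hi⟩ := ht k
      have hS0 : ξ + k ∈ S ↔ 0 < i := by
        have := (hi 0).2; simpa using this
      have hKj : ∀ j : ℕ, (2:ℝ) ^ (j+1) * (ξ + k) ∈ K ↔ ((j:ℤ) + 1 = i) := by
        intro j
        have := (hi ((j:ℤ) + 1)).1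
        have e' : (2:ℝ) ^ ((j:ℤ) + 1) = (2:ℝ) ^ (j+1) := by exact_mod_cast zpow_natCast (2:ℝ) (j+1)
        rwa [e'] at this
      by_cases hx : ξ + k ∈ S
      · rw [indicator_of_mem (show k ∈ {l : ℤ | ξ + l ∈ S} from hx)]
        have hpos := hS0.1 hx
        rw [tsum_eq_single (i - 1).toNat]
        · rw [indicator_of_mem]
          rw [hKj, Int.toNat_of_nonneg (by omega)]; ring
        · intro j hj
          rw [indicator_of_notMem]
          intro h'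
          have := (hKj j).1 h'
          apply hj; omega
      · rw [indicator_of_notMem (show k ∉ {l : ℤ | ξ + l ∈ S} from hx)]
        rw [ENNReal.tsum_eq_zero]
        intro j
        rw [indicator_of_notMem]
        intro h'
        have := (hKj j).1 h'
        apply hx; rw [hS0]; omega
    simp only [e]
    rw [tsum_ind_encard, hc]; simp

/-- the greedy set is a generalized scaling set -/
theorem greedy_scset {D : ℝ → ℕ} (hDm : Measurable D) (hDp : Function.Periodic D 1)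
    (h2 : ∀ᵐ ξ : ℝ, D ξ + D (ξ + 1 / 2) = D (2 * ξ) + 1)
    (h3 : ∀ᵐ ξ : ℝ, ((D ξ : ℕ∞) ≤ {k : ℤ | ∀ j : ℕ, 1 ≤ D ((ξ + k) / 2 ^ j)}.encard))
    (h4 : ∀ᵐ ξ : ℝ, ∀ᶠ j : ℕ in Filter.atTop, 1 ≤ D (ξ / 2 ^ j))
    (hpos : ¬ ∀ᵐ ξ : ℝ, 1 ≤ D ξ) : ScSet D (Scal.S D) := by
  have hni : ∀ᵐ ξ : ℝ, ∀ n : ℤ, 2 * ξ ≠ n := by
    rw [ae_all_iff]; intro n
    have : volume ({(n:ℝ) / 2} : Set ℝ) = 0 := by simp
    have h1 : ∀ᵐ ξ : ℝ, ξ ≠ (n:ℝ)/2 := compl_mem_ae_iff.2 this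
    filter_upwards [h1] with ξ hξ h'
    apply hξ; rw [← h']; ring
  have hgood : ∀ᵐ ξ : ℝ, Scal.Good D ξ := by
    filter_upwards [h2, h3, hni] with ξ a b c
    exact ⟨a, b, c⟩
  have hgen : ∀ᵐ ξ : ℝ, Scal.Gen D ξ := ae_orbit hgood
  refine ⟨Scal.S_meas hDm, ?_, ?_, ?_, ?_⟩
  · exact Eventually.of_forall (fun ξ h => ((Scal.claimA' hDp ξ).1 h).1)
  · filter_upwards [hgen] with ξ hξ
    exact Scal.claimC hDp hξ
  · filter_upwards [h4] with ξ hξ
    obtain ⟨J, hJ⟩ := eventually_atTop.1 hξ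
    have ht : Tendsto (fun j : ℕ => |ξ| * (1/2:ℝ) ^ j) atTop (𝓝 (|ξ| * 0)) :=
      (tendsto_pow_atTop_nhds_zero_of_lt_one (by norm_num) (by norm_num)).const_mul _
    rw [mul_zero] at ht
    obtain ⟨j, hj1, hj2⟩ := ((ht.eventually (gt_mem_nhds (show (0:ℝ) < 1/2 by norm_num))).and
      (eventually_ge_atTop J)).exists
    refine ⟨j, Scal.claimB ?_ ?_⟩
    · rw [abs_div, abs_of_pos (show (0:ℝ) < 2 ^ j by positivity)]
      rw [one_div, inv_pow] at hj1
      rw [div_eq_mul_inv]; simpa using hj1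
    · intro k
      rw [div_div, ← pow_add]
      exact hJ _ (by omega)
  · have hhit : ∀ᵐ ξ : ℝ, ∃ j : ℕ, (2:ℝ) ^ j * ξ ∈ {ξ | D ξ = 0} := by
      apply hit
      · exact hDm (measurableSet_singleton 0)
      · intro ξ n
        change D (ξ + n) = 0 ↔ D ξ = 0
        rw [D_int hDp]
      · intro h
        apply hpos
        filter_upwards [h] with ξ hξ
        have : D ξ ≠ 0 := hξ
        omega
    filter_upwards [hhit] with ξ ⟨j, hj⟩
    refine ⟨j, fun hS => ?_⟩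
    have h0 := ((Scal.claimA' hDp _).1 hS).2 ∅ (by simp)
    have h1 : D ((2:ℝ) ^ j * ξ) = 0 := hj
    rw [h1] at h0
    simp at h0

end Pool.Agent.Helper30.WD
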