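import Pool.Agent.Helper30.WD.Mod2

/-! The Fourier side theorem: `WW D` is path connected. -/

set_option autoImplicit false
open MeasureTheory Filter Topology Set
open scoped ENNReal ComplexConjugate

namespace Pool.Agent.Helper30.WD

theorem Jn.congr {D : ℝ → ℕ} {F0 F1 F0' F1' : ℝ → ℂ} (h : Jn D F0 F1) (e0 : F0 =ᵐ[volume] F0')
    (e1 : F1 =ᵐ[volume] F1') : Jn D F0' F1' := by
  obtain ⟨f, a, b, c, d⟩ := h
  exact ⟨f, a, b, c.trans e0, d.trans e1⟩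

theorem Jn.congrD {D D' : ℝ → ℕ} {F0 F1 : ℝ → ℂ} (h : Jn D F0 F1) (e : ∀ᵐ ξ : ℝ, D ξ = D' ξ) : Jn D' F0 F1 := by
  obtain ⟨f, a, b, c, d⟩ := h
  refine ⟨f, fun t ht => ⟨(a t ht).1, ?_⟩, b, c, d⟩
  filter_upwards [(a t ht).2, e] with ξ h1 h2
  rw [h1, h2]

theorem mem_WW_toLp {D : ℝ → ℕ} {F : ℝ → ℂ} (hF : MemLp F 2 volume) (h : IsPW F) (hd : ∀ᵐ ξ, dimf F ξ = D ξ) :
    hF.toLp F ∈ WW D := by
  have e : (hF.toLp F : ℝ → ℂ) =ᵐ[volume] F := MemLp.coeFn_toLp hF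
  refine ⟨h.congr e.symm, ?_⟩
  filter_upwards [hd, dimf_congr e] with ξ a b
  rw [b, a]

/-- `WW D` is path connected -/
theorem WW_isPathConnected {D : ℝ → ℕ} (hDm : Measurable D) (hDp : Function.Periodic D 1)
    (h2 : ∀ᵐ ξ : ℝ, D ξ + D (ξ + 1 / 2) = D (2 * ξ) + 1)
    (h3 : ∀ᵐ ξ : ℝ, ((D ξ : ℕ∞) ≤ {k : ℤ | ∀ j : ℕ, 1 ≤ D ((ξ + k) / 2 ^ j)}.encard))
    (h4 : ∀ᵐ ξ : ℝ, ∀ᶠ j : ℕ in Filter.atTop, 1 ≤ D (ξ / 2 ^ j)) : IsPathConnected (WW D) := by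
  by_cases hpos : ∀ᵐ ξ : ℝ, 1 ≤ D ξ
  · -- MRA case
    have hD1 := D_eq_one hDm hDp h2 hpos
    have hD1' : ∀ᵐ ξ : ℝ, (fun _ : ℝ => (1:ℕ)) ξ = D ξ := by
      filter_upwards [hD1] with ξ h using h.symm
    have h2' : ∀ᵐ ξ : ℝ, (fun _ : ℝ => (1:ℕ)) ξ + (fun _ : ℝ => (1:ℕ)) (ξ + 1 / 2) = (fun _ : ℝ => (1:ℕ)) (2 * ξ) + 1 :=
      Eventually.of_forall (fun _ => rfl)
    obtain ⟨wK, dK⟩ := msf SH_scset h2' (u := fun _ => (1:ℂ)) measurable_const (fun ξ _ => by simp)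
    have dK' : ∀ᵐ ξ, dimf ((KS SH).indicator (fun _ => (1:ℂ))) ξ = D ξ := by
      filter_upwards [dK, hD1] with ξ a b
      rw [a, b]
    refine ⟨wK.mem.toLp _, mem_WW_toLp wK.mem wK dK', ?_⟩
    intro F hF
    -- measurable representative
    have hae := Lp.aestronglyMeasurable F
    set F' : ℝ → ℂ := hae.mk F with hF'
    have hFe : (F : ℝ → ℂ) =ᵐ[volume] F' := hae.ae_eq_mk
    have hF'm : Measurable F' := hae.stronglyMeasurable_mk.measurable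
    have w' : IsPW F' := hF.1.congr hFe
    have d' : ∀ᵐ ξ, dimf F' ξ = 1 := by
      filter_upwards [dimf_congr hFe, hF.2, hD1] with ξ a b c
      rw [← a, b, c]; simp
    obtain ⟨φ, m, μ, hM, e⟩ := exists_MRA w' hF'm d'
    have hu : Measurable (fun ξ : ℝ => ph φ (ξ / 2)) := (ph_meas hM.φm).comp (measurable_div_const _)
    obtain ⟨wU, dU⟩ := msf SH_scset h2' (u := fun ξ => ph φ (ξ / 2)) hu (fun ξ _ => ph_norm φ _)
    have j1 : Jn D (F : ℝ → ℂ) (wU.mem.toLp _ : ℝ → ℂ) :=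
      ((jn_mra hM).congrD hD1').congr ((hFe.trans e).symm) (MemLp.coeFn_toLp wU.mem).symm
    have j2 : Jn D (wU.mem.toLp _ : ℝ → ℂ) (wK.mem.toLp _ : ℝ → ℂ) :=
      ((jn_phase SH_scset h2' hu (fun ξ => ph_norm φ _)).congrD hD1').congr
        (MemLp.coeFn_toLp wU.mem).symm (MemLp.coeFn_toLp wK.mem).symm
    exact (j1.joinedIn.trans j2.joinedIn).symm
  · have hS := greedy_scset hDm hDp h2 h3 h4 hpos
    obtain ⟨wK, dK⟩ := msf hS h2 (u := fun _ => (1:ℂ)) measurable_const (fun ξ _ => by simp)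
    refine ⟨wK.mem.toLp _, mem_WW_toLp wK.mem wK dK, ?_⟩
    intro F hF
    have hm := mem_WW_toLp wK.mem wK dK
    exact (joined_A hDm hDp hpos hm.1 hF.1 hm.2 hF.2).joinedIn

end Pool.Agent.Helper30.WD
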