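import Pool.Agent.Helper30.WD.Phi3

/-! Modification of an MRA near the integers: elementary part. -/

set_option autoImplicit false
open MeasureTheory Filter Topology Set
open scoped ENNReal ComplexConjugate

namespace Pool.Agent.Helper30.WD

/-- distance to the nearest integer -/
noncomputable def dz (ξ : ℝ) : ℝ := |ξ - round ξ|

theorem dz_nonneg (ξ : ℝ) : 0 ≤ dz ξ := abs_nonneg _

theorem dz_le_half (ξ : ℝ) : dz ξ ≤ 1/2 := abs_sub_round ξ

theorem dz_add_int (ξ : ℝ) (n : ℤ) : dz (ξ + n) = dz ξ := by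
  unfold dz; rw [round_add_intCast]; push_cast; congr 1; ring

theorem dz_le_abs (ξ : ℝ) : dz ξ ≤ |ξ| := by
  have := round_le ξ 0
  simpa [dz] using this

theorem dz_eq_abs {ξ : ℝ} (h : |ξ| ≤ 1/2) : dz ξ = |ξ| := by
  apply le_antisymm (dz_le_abs ξ)
  unfold dz
  by_cases h0 : round ξ = 0
  · rw [h0]; simp
  · have h1 : (1:ℝ) ≤ |((round ξ : ℤ) : ℝ)| := by
      have : 1 ≤ |round ξ| := Int.one_le_abs h0
      exact_mod_cast this
    have h2 : |((round ξ : ℤ) : ℝ)| - |ξ| ≤ |ξ - round ξ| := by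
      have := abs_sub_abs_le_abs_sub ((round ξ : ℤ) : ℝ) ξ
      rwa [abs_sub_comm] at this
    linarith

theorem dz_rep (ξ : ℝ) : ∃ (n : ℤ) (r : ℝ), ξ = r + n ∧ |r| ≤ 1/2 ∧ dz ξ = |r| :=
  ⟨round ξ, ξ - round ξ, by ring, abs_sub_round ξ, rfl⟩

theorem dz_half (ξ : ℝ) : dz ξ + dz (ξ + 1/2) = 1/2 := by
  obtain ⟨n, r, h1, h2, h3⟩ := dz_rep ξ
  rw [h3, h1, show r + (n:ℝ) + 1/2 = (r + 1/2) + n by ring, dz_add_int]
  have h4 := abs_le.1 h2
  rcases le_or_gt r 0 with h | h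
  · rw [dz_eq_abs (by rw [abs_le]; constructor <;> linarith [h4.1]), abs_of_nonpos h, abs_of_nonneg (by linarith [h4.1])]
    ring
  · rw [show r + 1/2 = (r - 1/2) + ((1:ℤ):ℝ) by push_cast; ring, dz_add_int,
      dz_eq_abs (by rw [abs_le]; constructor <;> linarith [h4.2]), abs_of_pos h, abs_of_nonpos (by linarith [h4.2])]
    ring

theorem dz_two_lt {ξ : ℝ} (h : dz ξ < 1/4) : dz (2 * ξ) = 2 * dz ξ := by
  obtain ⟨n, r, h1, h2, h3⟩ := dz_rep ξ
  rw [h3] at h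
  have e : 2 * ξ = 2 * r + ((2 * n : ℤ) : ℝ) := by rw [h1]; push_cast; ring
  have h5 : |2 * r| = 2 * |r| := by rw [abs_mul]; norm_num
  rw [e, dz_add_int, h3, dz_eq_abs (by rw [h5]; linarith), h5]

theorem dz_two_ge {ξ : ℝ} (h : 1/4 ≤ dz ξ) : dz (2 * ξ) = 1 - 2 * dz ξ := by
  have h1 := dz_half ξ
  rcases eq_or_lt_of_le h with h | h
  · obtain ⟨n, r, h1, h2, h3⟩ := dz_rep ξ
    rw [h3] at h
    have e : 2 * ξ = 2 * r + ((2 * n : ℤ) : ℝ) := by rw [h1]; push_cast; ring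
    have h5 : |2 * r| = 2 * |r| := by rw [abs_mul]; norm_num
    rw [e, dz_add_int, h3, dz_eq_abs (by rw [h5]; linarith), h5]; linarith
  · have h2 : dz (ξ + 1/2) < 1/4 := by linarith
    have h3 := dz_two_lt h2
    rw [show 2 * (ξ + 1/2) = 2 * ξ + ((1:ℤ):ℝ) by push_cast; ring, dz_add_int] at h3
    linarith

theorem dz_meas : Measurable dz := by
  have h1 : Measurable (fun ξ : ℝ => ((round ξ : ℤ) : ℝ)) := by
    have e : (fun ξ : ℝ => ((round ξ : ℤ) : ℝ)) = fun ξ => ((⌊ξ + 1/2⌋ : ℤ) : ℝ) := by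
      ext ξ; rw [round_eq]
    rw [e]
    have h2 : Measurable (fun ξ : ℝ => (⌊ξ + 1/2⌋ : ℤ)) := Int.measurable_floor.comp (measurable_add_const _)
    exact (measurable_of_countable (fun n : ℤ => (n:ℝ))).comp h2
  have h2 : Measurable (fun ξ : ℝ => ξ - ((round ξ : ℤ) : ℝ)) := measurable_id.sub h1
  exact measurable_norm.comp h2

theorem round_meas : Measurable (fun ξ : ℝ => ξ - ((round ξ : ℤ) : ℝ)) := by
  have h1 : Measurable (fun ξ : ℝ => ((round ξ : ℤ) : ℝ)) := by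
    have e : (fun ξ : ℝ => ((round ξ : ℤ) : ℝ)) = fun ξ => ((⌊ξ + 1/2⌋ : ℤ) : ℝ) := by
      ext ξ; rw [round_eq]
    rw [e]
    have h2 : Measurable (fun ξ : ℝ => (⌊ξ + 1/2⌋ : ℤ)) := Int.measurable_floor.comp (measurable_add_const _)
    exact (measurable_of_countable (fun n : ℤ => (n:ℝ))).comp h2
  exact measurable_id.sub h1

theorem dz_tail (ξ : ℝ) {ε : ℝ} (hε : 0 < ε) : ∃ j : ℕ, |ξ / 2 ^ j| < ε := by
  have h : Tendsto (fun j : ℕ => |ξ / 2 ^ j|) atTop (𝓝 0) := by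
    have h1 : Tendsto (fun j : ℕ => |ξ| * (1/2:ℝ) ^ j) atTop (𝓝 (|ξ| * 0)) :=
      (tendsto_pow_atTop_nhds_zero_of_lt_one (by norm_num) (by norm_num)).const_mul _
    rw [mul_zero] at h1
    refine h1.congr (fun j => ?_)
    rw [abs_div, abs_of_pos (by positivity : (0:ℝ) < 2 ^ j), one_div, inv_pow]; rfl
  exact (h.eventually (gt_mem_nhds hε)).exists

/-- phase of `φ` -/
noncomputable def ph (φ : ℝ → ℂ) (ξ : ℝ) : ℂ := if φ ξ = 0 then 1 else φ ξ / (‖φ ξ‖ : ℂ)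

theorem ph_norm (φ : ℝ → ℂ) (ξ : ℝ) : ‖ph φ ξ‖ = 1 := by
  unfold ph
  split_ifs with h
  · simp
  · rw [norm_div, Complex.norm_real, norm_norm, div_self (norm_ne_zero_iff.2 h)]

theorem ph_mul (φ : ℝ → ℂ) (ξ : ℝ) : φ ξ = ph φ ξ * (‖φ ξ‖ : ℂ) := by
  unfold ph
  split_ifs with h
  · rw [h]; simp
  · rw [div_mul_cancel₀]
    rw [Complex.ofReal_ne_zero]; exact norm_ne_zero_iff.2 h

theorem ph_meas {φ : ℝ → ℂ} (h : Measurable φ) : Measurable (ph φ) := by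
  unfold ph
  apply Measurable.ite
  · exact h (measurableSet_singleton 0)
  · exact measurable_const
  · exact h.div (Complex.measurable_ofReal.comp h.norm)

/-! ### first hit -/

theorem hit_ex (t ξ : ℝ) : ∃ j : ℕ, dz (ξ / 2 ^ j) < t / 2 ∨ (∀ i : ℕ, ¬ dz (ξ / 2 ^ i) < t / 2) := by
  by_cases h : ∃ j : ℕ, dz (ξ / 2 ^ j) < t / 2
  · obtain ⟨j, hj⟩ := h; exact ⟨j, Or.inl hj⟩
  · push Not at h
    exact ⟨0, Or.inr (fun i => not_lt.2 (h i))⟩

open Classical in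
/-- first hit of the neighbourhood of the integers -/
noncomputable def NF (t ξ : ℝ) : ℕ := Nat.find (hit_ex t ξ)

theorem hitset_meas (t : ℝ) (k : ℕ) : MeasurableSet {ξ : ℝ | dz (ξ / 2 ^ k) < t / 2} :=
  (dz_meas.comp (measurable_div_const _)) measurableSet_Iio

theorem NF_meas (t : ℝ) : Measurable (NF t) := by
  classical
  have h : ∀ k : ℕ, MeasurableSet {ξ : ℝ | dz (ξ / 2 ^ k) < t / 2 ∨ (∀ i : ℕ, ¬ dz (ξ / 2 ^ i) < t / 2)} := by
    intro k
    apply MeasurableSet.union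
    · exact hitset_meas t k
    · have e : {ξ : ℝ | ∀ i : ℕ, ¬ dz (ξ / 2 ^ i) < t / 2} = ⋂ i : ℕ, {ξ : ℝ | dz (ξ / 2 ^ i) < t / 2}ᶜ := by
        ext ξ; simp
      have : MeasurableSet {ξ : ℝ | ∀ i : ℕ, ¬ dz (ξ / 2 ^ i) < t / 2} := by
        rw [e]
        exact MeasurableSet.iInter (fun i => (hitset_meas t i).compl)
      exact this
  exact measurable_find (hit_ex t) h

theorem hit_pos {t : ℝ} (ht : 0 < t) (ξ : ℝ) : ∃ j : ℕ, dz (ξ / 2 ^ j) < t / 2 := by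
  obtain ⟨j, hj⟩ := dz_tail ξ (show 0 < t / 2 by linarith)
  exact ⟨j, (dz_le_abs _).trans_lt hj⟩

theorem NF_spec {t : ℝ} (ht : 0 < t) (ξ : ℝ) : dz (ξ / 2 ^ (NF t ξ)) < t / 2 := by
  classical
  rcases Nat.find_spec (hit_ex t ξ) with h | h
  · exact h
  · obtain ⟨j, hj⟩ := hit_pos ht ξ
    exact absurd hj (h j)

theorem NF_eq {t ξ : ℝ} {j : ℕ} (h : dz (ξ / 2 ^ j) < t / 2) (h' : ∀ i < j, ¬ dz (ξ / 2 ^ i) < t / 2) : NF t ξ = j := by
  classical
  unfold NF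
  rw [Nat.find_eq_iff]
  refine ⟨Or.inl h, fun i hi => ?_⟩
  rintro (h1 | h1)
  · exact h' i hi h1
  · exact h1 j h

theorem NF_min {t ξ : ℝ} {i : ℕ} (h : i < NF t ξ) : ¬ dz (ξ / 2 ^ i) < t / 2 := by
  classical
  intro h1
  exact Nat.find_min (hit_ex t ξ) h (Or.inl h1)

theorem NF_zero {t ξ : ℝ} (h : dz ξ < t / 2) : NF t ξ = 0 :=
  NF_eq (by rw [pow_zero, div_one]; exact h) (fun i hi => absurd hi (Nat.not_lt_zero i))

theorem NF_two {t ξ : ℝ} (ht : 0 < t) (h : ¬ dz (2 * ξ) < t / 2) : NF t (2 * ξ) = NF t ξ + 1 := by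
  have e : ∀ j : ℕ, 2 * ξ / 2 ^ (j+1) = ξ / 2 ^ j := by intro j; rw [pow_succ]; field_simp
  apply NF_eq
  · rw [e]; exact NF_spec ht ξ
  · intro i hi
    cases i with
    | zero => rw [pow_zero, div_one]; exact h
    | succ i => rw [e]; exact NF_min (by omega)

/-- value of the modified scaling function at a hit -/
noncomputable def wt (φ : ℝ → ℂ) (t ξ : ℝ) : ℂ := if |ξ| < t / 2 then ph φ ξ else 0

/-- modified scaling function -/
noncomputable def phit (φ m : ℝ → ℂ) (t ξ : ℝ) : ℂ :=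
  if dz (ξ / 2 ^ (NF t ξ)) < t / 2 then
    (∏ i ∈ Finset.range (NF t ξ), m (ξ / 2 ^ (i+1))) * wt φ t (ξ / 2 ^ (NF t ξ))
  else φ ξ

/-- modified filters -/
noncomputable def mt (φ m : ℝ → ℂ) (t ξ : ℝ) : ℂ :=
  if dz (2 * ξ) < t / 2 then
    (if dz ξ < t / 4 then ph φ (2 * (ξ - round ξ)) * conj (ph φ (ξ - round ξ)) else 0)
  else m ξ

noncomputable def μt (μ : ℝ → ℂ) (t ξ : ℝ) : ℂ :=
  if dz (2 * ξ) < t / 2 then (if dz ξ < t / 4 then 0 else 1) else μ ξ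

variable {φ m μ : ℝ → ℂ}

theorem wt_meas (hφ : Measurable φ) (t : ℝ) : Measurable (wt φ t) := by
  unfold wt
  refine Measurable.ite ?_ (ph_meas hφ) measurable_const
  have : Measurable (fun ξ : ℝ => |ξ|) := measurable_norm
  exact this measurableSet_Iio

theorem phit_meas (hφ : Measurable φ) (hm : Measurable m) (t : ℝ) : Measurable (phit φ m t) := by
  have h0 : ∀ j : ℕ, Measurable (fun ξ : ℝ => (if dz (ξ / 2 ^ j) < t / 2 then
      (∏ i ∈ Finset.range j, m (ξ / 2 ^ (i+1))) * wt φ t (ξ / 2 ^ j) else φ ξ)) := by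
    intro j
    refine Measurable.ite (hitset_meas t j) ?_ hφ
    refine Measurable.mul ?_ ?_
    · exact Finset.measurable_prod _ (fun i _ => hm.comp (measurable_div_const _))
    · exact (wt_meas hφ t).comp (measurable_div_const _)
  have h1 : Measurable (fun p : ℕ × ℝ => (if dz (p.2 / 2 ^ p.1) < t / 2 then
      (∏ i ∈ Finset.range p.1, m (p.2 / 2 ^ (i+1))) * wt φ t (p.2 / 2 ^ p.1) else φ p.2)) := by
    apply measurable_from_prod_countable_right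
    intro j
    exact h0 j
  have h4 : Measurable (fun ξ : ℝ => (NF t ξ, ξ)) := (NF_meas t).prodMk measurable_id
  exact h1.comp h4

theorem phit_hit {t ξ : ℝ} (h : dz ξ < t / 2) : phit φ m t ξ = wt φ t ξ := by
  unfold phit
  rw [NF_zero h, pow_zero, div_one, if_pos h, Finset.prod_range_zero, one_mul]

theorem phit_two {t ξ : ℝ} (ht : 0 < t) (h : ¬ dz (2 * ξ) < t / 2) :
    phit φ m t (2 * ξ) = m ξ * phit φ m t ξ := by
  have e : ∀ j : ℕ, 2 * ξ / 2 ^ (j+1) = ξ / 2 ^ j := by intro j; rw [pow_succ]; field_simp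
  unfold phit
  rw [NF_two ht h, e, if_pos (NF_spec ht ξ), if_pos (NF_spec ht ξ), Finset.prod_range_succ', e, pow_zero, div_one]
  simp only [e]
  ring

theorem phit_zero {t ξ : ℝ} (ht : t ≤ 0) : phit φ m t ξ = φ ξ := by
  unfold phit
  rw [if_neg]
  have := dz_nonneg (ξ / 2 ^ NF t ξ)
  linarith

theorem mt_zero {t ξ : ℝ} (ht : t ≤ 0) : mt φ m t ξ = m ξ := by
  unfold mt
  rw [if_neg]
  have := dz_nonneg (2 * ξ)
  linarith

theorem μt_zero {t ξ : ℝ} (ht : t ≤ 0) : μt μ t ξ = μ ξ := by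
  unfold μt
  rw [if_neg]
  have := dz_nonneg (2 * ξ)
  linarith

end Pool.Agent.Helper30.WD
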