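import Pool.Agent.Helper30.WD.Mod0

/-! The modified functions form an MRA. -/

set_option autoImplicit false
open MeasureTheory Filter Topology Set
open scoped ENNReal ComplexConjugate

namespace Pool.Agent.Helper30.WD

variable {φ m μ : ℝ → ℂ} {t : ℝ}

theorem round_add_int' (ξ : ℝ) (n : ℤ) : ξ + n - ((round (ξ + n) : ℤ) : ℝ) = ξ - ((round ξ : ℤ) : ℝ) := by
  rw [round_add_intCast]; push_cast; ring

theorem dz_two_int (ξ : ℝ) (n : ℤ) : dz (2 * (ξ + n)) = dz (2 * ξ) := by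
  rw [show 2 * (ξ + n) = 2 * ξ + ((2 * n : ℤ) : ℝ) by push_cast; ring, dz_add_int]

theorem dz_two_half (ξ : ℝ) : dz (2 * (ξ + 1/2)) = dz (2 * ξ) := by
  rw [show 2 * (ξ + 1/2) = 2 * ξ + ((1:ℤ):ℝ) by push_cast; ring, dz_add_int]

/-- dichotomy for the modified region -/
theorem dz_dich (ht1 : t ≤ 1) {ξ : ℝ} (h : dz (2 * ξ) < t / 2) :
    (dz ξ < t / 4 ∧ ¬ dz (ξ + 1/2) < t / 4) ∨ (¬ dz ξ < t / 4 ∧ dz (ξ + 1/2) < t / 4) := by
  have h1 := dz_half ξ
  rcases lt_or_ge (dz ξ) (1/4) with h2 | h2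
  · have h3 := dz_two_lt h2
    left; constructor
    · linarith
    · rw [not_lt]; linarith
  · have h3 := dz_two_ge h2
    right; constructor
    · rw [not_lt]; linarith
    · linarith

theorem mt_meas (hφ : Measurable φ) (hm : Measurable m) (t : ℝ) : Measurable (mt φ m t) := by
  unfold mt
  refine Measurable.ite ?_ (Measurable.ite ?_ ?_ measurable_const) hm
  · exact (dz_meas.comp (measurable_const_mul 2)) measurableSet_Iio
  · exact dz_meas measurableSet_Iio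
  · refine Measurable.mul ?_ ?_
    · exact (ph_meas hφ).comp (round_meas.const_mul 2)
    · exact Complex.continuous_conj.measurable.comp ((ph_meas hφ).comp round_meas)

theorem μt_meas (hμ : Measurable μ) (t : ℝ) : Measurable (μt μ t) := by
  unfold μt
  refine Measurable.ite ?_ (Measurable.ite ?_ measurable_const measurable_const) hμ
  · exact (dz_meas.comp (measurable_const_mul 2)) measurableSet_Iio
  · exact dz_meas measurableSet_Iio

theorem mt_per (hm : ∀ (ξ : ℝ) (n : ℤ), m (ξ + n) = m ξ) (ξ : ℝ) (n : ℤ) : mt φ m t (ξ + n) = mt φ m t ξ := by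
  unfold mt
  rw [dz_two_int, dz_add_int, round_add_int', hm]

theorem μt_per (hμ : ∀ (ξ : ℝ) (n : ℤ), μ (ξ + n) = μ ξ) (ξ : ℝ) (n : ℤ) : μt μ t (ξ + n) = μt μ t ξ := by
  unfold μt
  rw [dz_two_int, dz_add_int, hμ]

/-- refinement equation -/
theorem phit_ref (ht0 : 0 < t) (ht1 : t ≤ 1) (ξ : ℝ) : phit φ m t (2 * ξ) = mt φ m t ξ * phit φ m t ξ := by
  by_cases h : dz (2 * ξ) < t / 2
  · rw [phit_hit h]
    unfold mt
    rw [if_pos h]
    by_cases h2 : dz ξ < t / 4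
    · rw [if_pos h2, phit_hit (show dz ξ < t / 2 by linarith)]
      by_cases h3 : |ξ| < t / 4
      · have hr : round ξ = 0 := by
          by_contra hne
          have h1 : (1:ℝ) ≤ |((round ξ : ℤ) : ℝ)| := by
            have : 1 ≤ |round ξ| := Int.one_le_abs hne
            exact_mod_cast this
          have h4 : |((round ξ : ℤ) : ℝ)| - |ξ| ≤ |ξ - round ξ| := by
            have := abs_sub_abs_le_abs_sub ((round ξ : ℤ) : ℝ) ξ
            rwa [abs_sub_comm] at this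
          have h5 := abs_sub_round ξ
          linarith
        have h6 : |2 * ξ| < t / 2 := by rw [abs_mul]; norm_num; linarith
        unfold wt
        rw [if_pos h6, if_pos (show |ξ| < t / 2 by linarith), hr]
        push_cast
        rw [sub_zero]
        have h7 : conj (ph φ ξ) * ph φ ξ = 1 := by
          rw [mul_comm, Complex.mul_conj, Complex.normSq_eq_norm_sq, ph_norm]; simp
        rw [mul_assoc, h7, mul_one]
      · have h4 : 1/2 < |ξ| := by
          by_contra hc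
          rw [not_lt] at hc
          rw [dz_eq_abs hc] at h2
          exact h3 h2
        have h5 : ¬ |ξ| < t / 2 := by rw [not_lt]; linarith
        have h6 : ¬ |2 * ξ| < t / 2 := by rw [not_lt, abs_mul]; norm_num; linarith
        unfold wt
        rw [if_neg h5, if_neg h6, mul_zero]
    · rw [if_neg h2, zero_mul]
      unfold wt
      rw [if_neg]
      rw [not_lt, abs_mul]
      have := dz_le_abs ξ
      norm_num; linarith
  · rw [phit_two ht0 h]
    unfold mt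
    rw [if_neg h]

theorem ph2_enorm (φ : ℝ → ℂ) (a b : ℝ) : ‖ph φ a * conj (ph φ b)‖ₑ ^ 2 = 1 := by
  rw [enorm_sq_ofReal, norm_mul, RCLike.norm_conj, ph_norm, ph_norm]; simp

theorem mt_u1 (ht1 : t ≤ 1) {ξ : ℝ} (h : ‖m ξ‖ₑ ^ 2 + ‖m (ξ + 1/2)‖ₑ ^ 2 = 1) :
    ‖mt φ m t ξ‖ₑ ^ 2 + ‖mt φ m t (ξ + 1/2)‖ₑ ^ 2 = 1 := by
  unfold mt
  rw [dz_two_half]
  by_cases h1 : dz (2 * ξ) < t / 2
  · rw [if_pos h1, if_pos h1]
    rcases dz_dich ht1 h1 with ⟨h2, h3⟩ | ⟨h2, h3⟩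
    · rw [if_pos h2, if_neg h3, ph2_enorm]; simp
    · rw [if_neg h2, if_pos h3, ph2_enorm]; simp
  · rw [if_neg h1, if_neg h1, h]

theorem μt_u2 (ht1 : t ≤ 1) {ξ : ℝ} (h : ‖μ ξ‖ₑ ^ 2 + ‖μ (ξ + 1/2)‖ₑ ^ 2 = 1) :
    ‖μt μ t ξ‖ₑ ^ 2 + ‖μt μ t (ξ + 1/2)‖ₑ ^ 2 = 1 := by
  unfold μt
  rw [dz_two_half]
  by_cases h1 : dz (2 * ξ) < t / 2
  · rw [if_pos h1, if_pos h1]
    rcases dz_dich ht1 h1 with ⟨h2, h3⟩ | ⟨h2, h3⟩
    · rw [if_pos h2, if_neg h3]; simp
    · rw [if_neg h2, if_pos h3]; simp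
  · rw [if_neg h1, if_neg h1, h]

theorem mt_u3 (ht1 : t ≤ 1) {ξ : ℝ} (h : m ξ * conj (μ ξ) + m (ξ + 1/2) * conj (μ (ξ + 1/2)) = 0) :
    mt φ m t ξ * conj (μt μ t ξ) + mt φ m t (ξ + 1/2) * conj (μt μ t (ξ + 1/2)) = 0 := by
  unfold mt μt
  rw [dz_two_half]
  by_cases h1 : dz (2 * ξ) < t / 2
  · rw [if_pos h1, if_pos h1, if_pos h1, if_pos h1]
    rcases dz_dich ht1 h1 with ⟨h2, h3⟩ | ⟨h2, h3⟩
    · rw [if_pos h2, if_pos h2, if_neg h3, if_neg h3]; simp
    · rw [if_neg h2, if_neg h2, if_pos h3, if_pos h3]; simp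
  · rw [if_neg h1, if_neg h1, if_neg h1, if_neg h1, h]

/-- intermediate functions -/
noncomputable def Phn (φ m : ℝ → ℂ) (t : ℝ) (n : ℕ) (ξ : ℝ) : ℂ := if NF t ξ ≤ n then phit φ m t ξ else φ ξ

theorem wt_sum (ht1 : t ≤ 1) {ξ : ℝ} (h : dz ξ < t / 2) : ∑' k : ℤ, ‖wt φ t (ξ + k)‖ₑ ^ 2 = 1 := by
  rw [tsum_eq_single (-round ξ)]
  · have : |ξ + ((-round ξ : ℤ) : ℝ)| < t / 2 := by
      push_cast; rw [← sub_eq_add_neg]; exact h
    unfold wt
    rw [if_pos this, enorm_sq_ofReal, ph_norm]; simp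
  · intro k hk
    have h1 : (1:ℝ) ≤ |((k + round ξ : ℤ) : ℝ)| := by
      have : 1 ≤ |k + round ξ| := Int.one_le_abs (by omega)
      exact_mod_cast this
    have h2 : |((k + round ξ : ℤ) : ℝ)| - |ξ - round ξ| ≤ |ξ + k| := by
      have e : ((k + round ξ : ℤ) : ℝ) = (ξ + k) - (ξ - round ξ) := by push_cast; ring
      rw [e]
      have := abs_sub (ξ + k) (ξ - round ξ)
      linarith
    have h3 : |ξ - round ξ| ≤ 1/2 := abs_sub_round ξ
    have h4 : ¬ |ξ + k| < t / 2 := by rw [not_lt]; linarith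
    unfold wt
    rw [if_neg h4]; simp

theorem Phn_hit (ht1 : t ≤ 1) {ξ : ℝ} (h : dz ξ < t / 2) (n : ℕ) : nsq (Phn φ m t n) ξ = 1 := by
  unfold nsq
  rw [← wt_sum (φ := φ) ht1 h]
  apply tsum_congr; intro k
  have h' : dz (ξ + k) < t / 2 := by rw [dz_add_int]; exact h
  unfold Phn
  rw [NF_zero h', if_pos (Nat.zero_le _), phit_hit h']

theorem Phn_zero_nohit {ξ : ℝ} (ht : 0 < t) (h : ¬ dz ξ < t / 2) : Phn φ m t 0 ξ = φ ξ := by
  unfold Phn
  rw [if_neg]
  intro h0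
  have h1 : NF t ξ = 0 := by omega
  have h2 := NF_spec ht ξ
  rw [h1, pow_zero, div_one] at h2
  exact h h2

theorem Phn_succ {ξ : ℝ} (ht : 0 < t) (h : ¬ dz (2 * ξ) < t / 2) (hr : φ (2 * ξ) = m ξ * φ ξ) (n : ℕ) :
    Phn φ m t (n+1) (2 * ξ) = m ξ * Phn φ m t n ξ := by
  unfold Phn
  rw [NF_two ht h, phit_two ht h, hr]
  by_cases h1 : NF t ξ ≤ n
  · rw [if_pos h1, if_pos (by omega)]
  · rw [if_neg h1, if_neg (by omega)]

theorem Phn_nsq (hM : IsMRA φ m μ) (ht0 : 0 < t) (ht1 : t ≤ 1) (n : ℕ) : ∀ᵐ ξ, nsq (Phn φ m t n) ξ = 1 := by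
  induction n with
  | zero =>
    filter_upwards [hM.n1] with ξ hξ
    by_cases h : dz ξ < t / 2
    · exact Phn_hit ht1 h 0
    · rw [← hξ]
      unfold nsq
      apply tsum_congr; intro k
      rw [Phn_zero_nohit ht0 (by rw [dz_add_int]; exact h)]
  | succ n ih =>
    have h2 : ∀ᵐ ξ : ℝ, nsq (Phn φ m t (n+1)) (2 * ξ) = 1 := by
      filter_upwards [ae_add_int hM.ref, ae_half (ae_add_int hM.ref), ih, ae_half ih, hM.u1] with ξ a b c d e
      by_cases h : dz (2 * ξ) < t / 2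
      · exact Phn_hit ht1 h _
      · rw [nsq_two (φ := Phn φ m t n) (ψ := Phn φ m t (n+1)) (ν := m) hM.mper
          (fun k => Phn_succ ht0 (by rw [dz_two_int]; exact h) (a k) n)
          (fun k => Phn_succ ht0 (by rw [dz_two_int, dz_two_half]; exact h) (b k) n), c, d, mul_one, mul_one, e]
    have h3 := ae_scale h2 (1/2) (by norm_num)
    filter_upwards [h3] with ξ hξ
    rwa [show 2 * (1 / 2 * ξ) = ξ by ring] at hξ

theorem phit_nsq (hM : IsMRA φ m μ) (ht0 : 0 < t) (ht1 : t ≤ 1) : ∀ᵐ ξ, nsq (phit φ m t) ξ = 1 := by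
  classical
  filter_upwards [ae_all_iff.2 (fun n => Phn_nsq hM ht0 ht1 n), hM.n1] with ξ hn h1
  apply le_antisymm
  · unfold nsq
    rw [ENNReal.tsum_eq_iSup_sum]
    apply iSup_le
    intro s
    have hs : ∀ k ∈ s, NF t (ξ + k) ≤ s.sup (fun k : ℤ => NF t (ξ + k)) := fun k hk =>
      Finset.le_sup (f := fun k : ℤ => NF t (ξ + k)) hk
    calc ∑ k ∈ s, ‖phit φ m t (ξ + k)‖ₑ ^ 2
        = ∑ k ∈ s, ‖Phn φ m t (s.sup (fun k : ℤ => NF t (ξ + k))) (ξ + k)‖ₑ ^ 2 := by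
          apply Finset.sum_congr rfl
          intro k hk
          unfold Phn
          rw [if_pos (hs k hk)]
      _ ≤ nsq (Phn φ m t (s.sup (fun k : ℤ => NF t (ξ + k)))) ξ := ENNReal.sum_le_tsum _
      _ = 1 := hn _
  · apply ENNReal.le_of_forall_pos_le_add
    intro ε hε _
    have hfin : ∑' k : ℤ, ‖φ (ξ + k)‖ₑ ^ 2 ≠ ⊤ := by
      have : nsq φ ξ ≠ ⊤ := by rw [h1]; exact ENNReal.one_ne_top
      exact this
    have htail := ENNReal.tendsto_tsum_compl_atTop_zero hfin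
    have hε' : (0:ℝ≥0∞) < ε := by exact_mod_cast hε
    obtain ⟨s, hs⟩ := (htail.eventually (gt_mem_nhds hε')).exists
    set n := s.sup (fun k : ℤ => NF t (ξ + k)) with hnn
    have hsn : ∀ k ∈ s, NF t (ξ + k) ≤ n := fun k hk =>
      Finset.le_sup (f := fun k : ℤ => NF t (ξ + k)) hk
    have h2 : ∀ k : ℤ, ‖Phn φ m t n (ξ + k)‖ₑ ^ 2 ≤ ‖phit φ m t (ξ + k)‖ₑ ^ 2
        + ({k : ℤ | k ∉ s}).indicator (fun k : ℤ => ‖φ (ξ + k)‖ₑ ^ 2) k := by
      intro k
      by_cases hk : k ∈ s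
      · unfold Phn
        rw [if_pos (hsn k hk)]
        exact le_self_add
      · rw [indicator_of_mem (show k ∈ {k : ℤ | k ∉ s} from hk)]
        unfold Phn
        split_ifs
        · exact le_self_add
        · exact le_add_self
    calc (1:ℝ≥0∞) = nsq (Phn φ m t n) ξ := (hn n).symm
      _ ≤ ∑' k : ℤ, (‖phit φ m t (ξ + k)‖ₑ ^ 2 + ({k : ℤ | k ∉ s}).indicator (fun k : ℤ => ‖φ (ξ + k)‖ₑ ^ 2) k) :=
          ENNReal.tsum_le_tsum h2
      _ = nsq (phit φ m t) ξ + ∑' k : ℤ, ({k : ℤ | k ∉ s}).indicator (fun k : ℤ => ‖φ (ξ + k)‖ₑ ^ 2) k := by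
          rw [ENNReal.tsum_add]; rfl
      _ ≤ nsq (phit φ m t) ξ + ε := by
          gcongr
          rw [← tsum_subtype]
          exact hs.le

/-- the modified functions form an MRA -/
theorem IsMRA.modify (hM : IsMRA φ m μ) (ht0 : 0 < t) (ht1 : t ≤ 1) :
    IsMRA (phit φ m t) (mt φ m t) (μt μ t) where
  φm := phit_meas hM.φm hM.mm t
  mm := mt_meas hM.φm hM.mm t
  μm := μt_meas hM.μm t
  mper := mt_per hM.mper
  μper := μt_per hM.μper
  n1 := phit_nsq hM ht0 ht1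
  ref := Eventually.of_forall (fun ξ => phit_ref ht0 ht1 ξ)
  u1 := by filter_upwards [hM.u1] with ξ h using mt_u1 ht1 h
  u2 := by filter_upwards [hM.u2] with ξ h using μt_u2 ht1 h
  u3 := by filter_upwards [hM.u3] with ξ h using mt_u3 ht1 h
  lim := by
    apply Eventually.of_forall
    intro ξ
    obtain ⟨J, hJ⟩ := dz_tail ξ (show 0 < t / 2 by linarith)
    apply tendsto_const_nhds.congr'
    filter_upwards [eventually_ge_atTop J] with j hj
    have h1 : |ξ / 2 ^ j| < t / 2 := by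
      refine lt_of_le_of_lt ?_ hJ
      rw [abs_div, abs_div]
      apply div_le_div_of_nonneg_left (abs_nonneg _)
      · positivity
      · rw [abs_of_pos (by positivity), abs_of_pos (by positivity)]
        exact pow_le_pow_right₀ (by norm_num) hj
    rw [phit_hit ((dz_le_abs _).trans_lt h1)]
    unfold wt
    rw [if_pos h1, ph_norm]

end Pool.Agent.Helper30.WD
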