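import Pool.Agent.Helper30.WD.Hit

/-! Paths. -/

set_option autoImplicit false
open MeasureTheory Filter Topology Set
open scoped ENNReal ComplexConjugate

namespace Pool.Agent.Helper30.WD

/-- Riesz–Scheffé: a.e. convergence and equal norms imply `L²` convergence. -/
theorem riesz_scheffe {f : ℕ → ℝ → ℂ} {g : ℝ → ℂ} (hf : ∀ n, AEStronglyMeasurable (f n))
    (hg : AEStronglyMeasurable g) (hN : ∀ n, N2 (f n) = 1) (hNg : N2 g = 1)
    (hlim : ∀ᵐ ξ, Tendsto (fun n => f n ξ) atTop (𝓝 (g ξ))) :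
    Tendsto (fun n => N2 (fun ξ => f n ξ - g ξ)) atTop (𝓝 0) := by
  let u : ℕ → ℝ → ℝ≥0∞ := fun n ξ =>
    ENNReal.ofReal (2 * ‖f n ξ‖ ^ 2 + 2 * ‖g ξ‖ ^ 2 - ‖f n ξ - g ξ‖ ^ 2)
  have hpar : ∀ a b : ℂ, 0 ≤ 2 * ‖a‖ ^ 2 + 2 * ‖b‖ ^ 2 - ‖a - b‖ ^ 2 := by
    intro a b
    have h1 : ‖a - b‖ ≤ ‖a‖ + ‖b‖ := norm_sub_le a b
    nlinarith [norm_nonneg (a - b), norm_nonneg a, norm_nonneg b, sq_nonneg (‖a‖ - ‖b‖)]
  have hadd : ∀ n ξ, u n ξ + ‖f n ξ - g ξ‖ₑ ^ 2 = 2 * ‖f n ξ‖ₑ ^ 2 + 2 * ‖g ξ‖ₑ ^ 2 := by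
    intro n ξ
    have e : ∀ a : ℂ, ‖a‖ₑ ^ 2 = ENNReal.ofReal (‖a‖ ^ 2) := by
      intro a; rw [ENNReal.ofReal_pow (norm_nonneg _), ofReal_norm]
    have e2 : (2:ℝ≥0∞) = ENNReal.ofReal 2 := by simp
    simp only [u, e]
    rw [← ENNReal.ofReal_add (hpar _ _) (by positivity), e2, ← ENNReal.ofReal_mul (by norm_num),
      ← ENNReal.ofReal_mul (by norm_num), ← ENNReal.ofReal_add (by positivity) (by positivity)]
    congr 1; ring
  have hum : ∀ n, AEMeasurable (u n) := by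
    intro n
    apply AEMeasurable.ennreal_ofReal
    exact (((hf n).norm.aemeasurable.pow_const 2).const_mul 2).add
      ((hg.norm.aemeasurable.pow_const 2).const_mul 2) |>.sub
      ((((hf n).sub hg).norm.aemeasurable).pow_const 2)
  have hint : ∀ n, (∫⁻ ξ, u n ξ) + N2 (fun ξ => f n ξ - g ξ) = 4 := by
    intro n
    unfold N2
    rw [← lintegral_add_left' (hum n)]
    simp only [hadd]
    rw [lintegral_add_left' (((hf n).enorm.pow_const 2).const_mul 2),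
      lintegral_const_mul'' _ ((hf n).enorm.pow_const 2), lintegral_const_mul'' _ (hg.enorm.pow_const 2)]
    have a := hN n
    have b := hNg
    unfold N2 at a b
    rw [a, b]; norm_num
  have hint' : ∀ n, N2 (fun ξ => f n ξ - g ξ) ≤ 4 := by
    intro n
    rw [← hint n]; exact le_add_self
  have hfatou : (4:ℝ≥0∞) ≤ liminf (fun n => ∫⁻ ξ, u n ξ) atTop := by
    have h1 : ∫⁻ ξ, liminf (fun n => u n ξ) atTop ≤ liminf (fun n => ∫⁻ ξ, u n ξ) atTop :=
      lintegral_liminf_le' hum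
    refine le_trans ?_ h1
    have h2 : ∀ᵐ ξ, liminf (fun n => u n ξ) atTop = 4 * ‖g ξ‖ₑ ^ 2 := by
      filter_upwards [hlim] with ξ hξ
      have h3 : Tendsto (fun n => u n ξ) atTop (𝓝 (ENNReal.ofReal (2 * ‖g ξ‖ ^ 2 + 2 * ‖g ξ‖ ^ 2 - ‖g ξ - g ξ‖ ^ 2))) := by
        apply ENNReal.tendsto_ofReal
        exact (((hξ.norm.pow 2).const_mul 2).add tendsto_const_nhds).sub ((hξ.sub tendsto_const_nhds).norm.pow 2)
      rw [h3.liminf_eq]
      have e : ‖g ξ‖ₑ ^ 2 = ENNReal.ofReal (‖g ξ‖ ^ 2) := by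
        rw [ENNReal.ofReal_pow (norm_nonneg _), ofReal_norm]
      rw [e, show (4:ℝ≥0∞) = ENNReal.ofReal 4 by simp, ← ENNReal.ofReal_mul (by norm_num)]
      congr 1; simp; ring
    rw [lintegral_congr_ae h2, lintegral_const_mul'' _ (hg.enorm.pow_const 2)]
    have b := hNg
    unfold N2 at b
    rw [b]; norm_num
  rw [ENNReal.tendsto_nhds_zero]
  intro ε hε
  by_cases hε4 : 4 < ε
  · exact Eventually.of_forall (fun n => (hint' n).trans hε4.le)
  push Not at hε4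
  have hlt : 4 - ε < liminf (fun n => ∫⁻ ξ, u n ξ) atTop :=
    lt_of_lt_of_le (ENNReal.sub_lt_self (by norm_num) (by norm_num) hε.ne') hfatou
  filter_upwards [eventually_lt_of_lt_liminf hlt] with n hn
  have h3 := hint n
  by_contra hcon
  push Not at hcon
  have : (4:ℝ≥0∞) < 4 := by
    calc (4:ℝ≥0∞) = (4 - ε) + ε := (tsub_add_cancel_of_le hε4).symm
      _ < (∫⁻ ξ, u n ξ) + N2 (fun ξ => f n ξ - g ξ) := ENNReal.add_lt_add hn hcon
      _ = 4 := h3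
  exact lt_irrefl _ this

/-! ### congruence -/

theorem IsPW.congr {F F' : ℝ → ℂ} (h : IsPW F) (e : F =ᵐ[volume] F') : IsPW F' := by
  refine ⟨h.mem.ae_eq e, by rw [← N2_congr e]; exact h.norm, fun G hG => ?_⟩
  rw [← h.pars G hG]
  apply tsum_congr; intro j
  apply EE_congr
  filter_upwards [e] with ξ hξ
  rw [hξ]

theorem dimf_congr {F F' : ℝ → ℂ} (e : F =ᵐ[volume] F') : ∀ᵐ ξ, dimf F ξ = dimf F' ξ := by
  filter_upwards [ae_pow_add e] with ξ hξ
  unfold dimf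
  apply tsum_congr; intro j; apply tsum_congr; intro k
  rw [hξ (j+1) k]

/-! ### paths of functions -/

/-- the set of Parseval wavelets (on the Fourier side) with dimension function `D` -/
def WW (D : ℝ → ℕ) : Set (Lp ℂ 2 (volume : Measure ℝ)) :=
  {F | IsPW F ∧ ∀ᵐ ξ : ℝ, dimf F ξ = D ξ}

/-- `F0` and `F1` are joined by an a.e.-continuous path of wavelets with dimension function `D` -/
def Jn (D : ℝ → ℕ) (F0 F1 : ℝ → ℂ) : Prop :=
  ∃ f : ℝ → ℝ → ℂ,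
    (∀ t ∈ Icc (0:ℝ) 1, IsPW (f t) ∧ ∀ᵐ ξ, dimf (f t) ξ = D ξ) ∧
    (∀ t ∈ Icc (0:ℝ) 1, ∀ s : ℕ → ℝ, (∀ n, s n ∈ Icc (0:ℝ) 1) → Tendsto s atTop (𝓝 t) →
      ∀ᵐ ξ, Tendsto (fun n => f (s n) ξ) atTop (𝓝 (f t ξ))) ∧
    f 0 =ᵐ[volume] F0 ∧ f 1 =ᵐ[volume] F1

theorem Jn.joinedIn {D : ℝ → ℕ} {F0 F1 : Lp ℂ 2 (volume : Measure ℝ)} (h : Jn D F0 F1) :
    JoinedIn (WW D) F0 F1 := by
  obtain ⟨f, hf, hc, h0, h1⟩ := h
  let g : unitInterval → Lp ℂ 2 (volume : Measure ℝ) := fun t => (hf t t.2).1.mem.toLp (f t)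
  have hgc : Continuous g := by
    apply SeqContinuous.continuous
    intro s t hs
    rw [tendsto_iff_edist_tendsto_0]
    have hs' : Tendsto (fun n => ((s n : unitInterval) : ℝ)) atTop (𝓝 (t : ℝ)) :=
      (continuous_subtype_val.tendsto t).comp hs
    have hae := hc t t.2 (fun n => (s n : ℝ)) (fun n => (s n).2) hs'
    have hN := riesz_scheffe (f := fun n => f (s n)) (g := f t) (fun n => (hf _ (s n).2).1.mem.1)
      (hf t t.2).1.mem.1 (fun n => (hf _ (s n).2).1.norm) (hf t t.2).1.norm hae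
    have e : ∀ n, edist ((g ∘ s) n) (g t) = (N2 (fun ξ => f (s n) ξ - f t ξ)) ^ (1/2 : ℝ) := by
      intro n
      simp only [g, Function.comp]
      rw [Lp.edist_toLp_toLp, N2_eq_eLpNorm, ← ENNReal.rpow_natCast, ← ENNReal.rpow_mul]
      norm_num
      rfl
    simp only [e]
    have := (ENNReal.continuous_rpow_const (y := (1/2:ℝ))).tendsto 0 |>.comp hN
    simpa [Function.comp_def] using this
  have hmem : ∀ t, g t ∈ WW D := by
    intro t
    have e : (g t : ℝ → ℂ) =ᵐ[volume] f t := MemLp.coeFn_toLp _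
    refine ⟨(hf t t.2).1.congr e.symm, ?_⟩
    filter_upwards [(hf t t.2).2, dimf_congr e] with ξ a b
    rw [b, a]
  refine ⟨⟨⟨g, hgc⟩, ?_, ?_⟩, hmem⟩
  · have e : (g 0 : ℝ → ℂ) =ᵐ[volume] f ((0 : unitInterval) : ℝ) := MemLp.coeFn_toLp _
    change g 0 = F0
    exact Lp.ext (e.trans h0)
  · have e : (g 1 : ℝ → ℂ) =ᵐ[volume] f ((1 : unitInterval) : ℝ) := MemLp.coeFn_toLp _
    change g 1 = F1
    exact Lp.ext (e.trans h1)

/-! ### Part A: the dimension function vanishes on a set of positive measure -/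

/-- first-zero sets -/
def Pt (D : ℝ → ℕ) (t : ℝ) : Set ℝ :=
  {ξ | ∃ j : ℕ, D ((2:ℝ) ^ j * ξ) = 0 ∧ (∀ l < j, D ((2:ℝ) ^ l * ξ) ≠ 0) ∧
    Int.fract ((2:ℝ) ^ j * ξ) < t}

theorem Pt_meas {D : ℝ → ℕ} (hD : Measurable D) (t : ℝ) : MeasurableSet (Pt D t) := by
  have hm : ∀ j : ℕ, Measurable (fun ξ : ℝ => D ((2:ℝ) ^ j * ξ)) := fun j =>
    hD.comp (measurable_const_mul _)
  have : Pt D t = ⋃ j : ℕ, ({ξ | D ((2:ℝ) ^ j * ξ) = 0} ∩ ((⋂ l : ℕ, ⋂ _ : l < j, {ξ | D ((2:ℝ) ^ l * ξ) ≠ 0}) ∩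
      {ξ | Int.fract ((2:ℝ) ^ j * ξ) < t})) := by
    ext ξ
    simp [Pt]
  rw [this]
  refine MeasurableSet.iUnion (fun j => MeasurableSet.inter ?_ (MeasurableSet.inter ?_ ?_))
  · exact (hm j) (measurableSet_singleton 0)
  · exact MeasurableSet.iInter (fun l => MeasurableSet.iInter (fun _ =>
      (hm l) (measurableSet_singleton 0).compl))
  · exact (measurable_fract.comp (measurable_const_mul _)) measurableSet_Iio

theorem D_int {D : ℝ → ℕ} (hDp : Function.Periodic D 1) (ξ : ℝ) (n : ℤ) : D (ξ + n) = D ξ := by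
  have := hDp.int_mul n ξ
  simpa using this

theorem D_pow {D : ℝ → ℕ} (hDp : Function.Periodic D 1) (j : ℕ) (ξ : ℝ) (n : ℤ) :
    D ((2:ℝ) ^ j * (ξ + n)) = D ((2:ℝ) ^ j * ξ) := by
  have := D_int hDp ((2:ℝ) ^ j * ξ) (2 ^ j * n)
  push_cast at this; rwa [← mul_add] at this

theorem Pt_per {D : ℝ → ℕ} (hDp : Function.Periodic D 1) (t : ℝ) : Per (Pt D t) := by
  intro ξ n
  have hf : ∀ j : ℕ, Int.fract ((2:ℝ) ^ j * (ξ + n)) = Int.fract ((2:ℝ) ^ j * ξ) := by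
    intro j
    rw [mul_add, show (2:ℝ) ^ j * (n:ℝ) = ((2 ^ j * n : ℤ) : ℝ) by push_cast; ring, Int.fract_add_intCast]
  unfold Pt
  simp only [mem_ofPred_eq, D_pow hDp, hf]

theorem Pt_inv {D : ℝ → ℕ} (t : ℝ) (ξ : ℝ) (h : 1 ≤ D ξ) : ξ ∈ Pt D t ↔ 2 * ξ ∈ Pt D t := by
  have e : ∀ j : ℕ, (2:ℝ) ^ j * (2 * ξ) = (2:ℝ) ^ (j+1) * ξ := by intro j; rw [pow_succ]; ring
  constructor
  · rintro ⟨j, h1, h2, h3⟩
    cases j with
    | zero => simp at h1; omega
    | succ j =>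
      refine ⟨j, by rw [e]; exact h1, fun l hl => ?_, by rw [e]; exact h3⟩
      rw [e]; exact h2 (l+1) (by omega)
  · rintro ⟨j, h1, h2, h3⟩
    rw [e] at h1 h3
    refine ⟨j+1, h1, fun l hl => ?_, h3⟩
    cases l with
    | zero => simp; omega
    | succ l => rw [← e]; exact h2 l (by omega)

theorem joined_A {D : ℝ → ℕ} (hDm : Measurable D) (hDp : Function.Periodic D 1)
    (hpos : ¬ ∀ᵐ ξ : ℝ, 1 ≤ D ξ) {F0 F1 : ℝ → ℂ} (w0 : IsPW F0) (w1 : IsPW F1)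
    (d0 : ∀ᵐ ξ, dimf F0 ξ = D ξ) (d1 : ∀ᵐ ξ, dimf F1 ξ = D ξ) : Jn D F0 F1 := by
  classical
  have hpd : ∀ t, PatchData F1 F0 D (Pt D t) := fun t =>
    ⟨w1, w0, d1, d0, hDm, Pt_meas hDm t, Pt_per hDp t, Eventually.of_forall (fun ξ h => Pt_inv t ξ h)⟩
  have hhit : ∀ᵐ ξ : ℝ, ∃ j : ℕ, (2:ℝ) ^ j * ξ ∈ {ξ | D ξ = 0} := by
    apply hit
    · exact hDm (measurableSet_singleton 0)
    · intro ξ n
      change D (ξ + n) = 0 ↔ D ξ = 0
      rw [D_int hDp]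
    · intro h
      apply hpos
      filter_upwards [h] with ξ hξ
      have : D ξ ≠ 0 := hξ
      omega
  refine ⟨fun t => pat (Pt D t) F1 F0, fun t _ => ⟨(hpd t).isPW, (hpd t).dim⟩, ?_, ?_, ?_⟩
  · intro t _ s _ hs
    -- generic points
    have hgen : ∀ᵐ ξ : ℝ, ∀ j : ℕ, Int.fract ((2:ℝ) ^ j * ξ) ≠ t := by
      have h1 : ∀ᵐ ξ : ℝ, Int.fract ξ ≠ t := by
        have : ∀ n : ℤ, ∀ᵐ ξ : ℝ, ξ ≠ t + n := fun n => by
          have : volume ({t + (n:ℝ)} : Set ℝ) = 0 := by simp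
          exact compl_mem_ae_iff.2 this
        filter_upwards [ae_all_iff.2 this] with ξ hξ h
        apply hξ ⌊ξ⌋
        rw [← h, Int.fract]; ring
      rw [ae_all_iff]
      intro j
      exact ae_scale h1 _ (by positivity)
    filter_upwards [hgen] with ξ hξ
    have hev : ∀ᶠ n in atTop, (ξ ∈ Pt D (s n) ↔ ξ ∈ Pt D t) := by
      by_cases hex : ∃ j : ℕ, D ((2:ℝ) ^ j * ξ) = 0
      · let j := Nat.find hex
        have hj : D ((2:ℝ) ^ j * ξ) = 0 := Nat.find_spec hex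
        have hj' : ∀ l < j, D ((2:ℝ) ^ l * ξ) ≠ 0 := fun l hl => Nat.find_min hex hl
        have hiff : ∀ t', ξ ∈ Pt D t' ↔ Int.fract ((2:ℝ) ^ j * ξ) < t' := by
          intro t'
          constructor
          · rintro ⟨i, h1, h2, h3⟩
            have : i = j := by
              rcases lt_trichotomy i j with h | h | h
              · exact absurd h1 (hj' i h)
              · exact h
              · exact absurd hj (h2 j h)
            rw [← this]; exact h3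
          · intro h; exact ⟨j, hj, hj', h⟩
        simp only [hiff]
        rcases lt_or_gt_of_ne (hξ j) with h | h
        · filter_upwards [hs.eventually (lt_mem_nhds h)] with n hn
          exact ⟨fun _ => h, fun _ => hn⟩
        · filter_upwards [hs.eventually (gt_mem_nhds h)] with n hn
          exact ⟨fun h' => absurd h' (not_lt.2 (le_of_lt hn)), fun h' => absurd h' (not_lt.2 (le_of_lt h))⟩
      · have : ∀ t', ξ ∉ Pt D t' := by
          rintro t' ⟨i, h1, _, _⟩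
          exact hex ⟨i, h1⟩
        exact Eventually.of_forall (fun n => ⟨fun h => absurd h (this _), fun h => absurd h (this _)⟩)
    apply tendsto_const_nhds.congr'
    filter_upwards [hev] with n hn
    by_cases h : ξ ∈ Pt D t
    · rw [pat_mem h, pat_mem (hn.2 h)]
    · rw [pat_notMem h, pat_notMem (fun h' => h (hn.1 h'))]
  · have : ∀ ξ, ξ ∉ Pt D 0 := by
      rintro ξ ⟨j, _, _, h⟩
      exact absurd h (not_lt.2 (Int.fract_nonneg _))
    exact Eventually.of_forall (fun ξ => pat_notMem (this ξ) F1 F0)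
  · filter_upwards [hhit] with ξ hex
    have : ξ ∈ Pt D 1 := ⟨Nat.find hex, Nat.find_spec hex, fun l hl => Nat.find_min hex hl, Int.fract_lt_one _⟩
    exact pat_mem this F1 F0

end Pool.Agent.Helper30.WD
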