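import Pool.Agent.Helper30.WD.Mod1
import Pool.Agent.Helper30.WD.MSF
import Pool.Agent.Helper30.WD.Path

/-! The path of modified MRA wavelets. -/

set_option autoImplicit false
open MeasureTheory Filter Topology Set
open scoped ENNReal ComplexConjugate

namespace Pool.Agent.Helper30.WD

variable {φ m μ : ℝ → ℂ}

theorem ev_lt_iff {a t c : ℝ} (_hc : 0 < c) {s : ℕ → ℝ} (hs : Tendsto s atTop (𝓝 t)) (ha : a ≠ t / c) :
    ∀ᶠ n in atTop, (a < s n / c ↔ a < t / c) := by
  have h : Tendsto (fun n => s n / c) atTop (𝓝 (t / c)) := hs.div_const c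
  rcases lt_or_gt_of_ne ha with h1 | h1
  · filter_upwards [h.eventually (lt_mem_nhds h1)] with n hn
    exact ⟨fun _ => h1, fun _ => hn⟩
  · filter_upwards [h.eventually (gt_mem_nhds h1)] with n hn
    exact ⟨fun h' => absurd h' (not_lt.2 hn.le), fun h' => absurd h' (not_lt.2 h1.le)⟩

theorem μt_ev {t : ℝ} {s : ℕ → ℝ} (hs : Tendsto s atTop (𝓝 t)) {η : ℝ} (h1 : dz (2 * η) ≠ t / 2)
    (h2 : dz η ≠ t / 4) : ∀ᶠ n in atTop, μt μ (s n) η = μt μ t η := by
  filter_upwards [ev_lt_iff (by norm_num : (0:ℝ) < 2) hs h1, ev_lt_iff (by norm_num : (0:ℝ) < 4) hs h2] with n a b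
  unfold μt
  simp only [a, b]

theorem phit_ev {t : ℝ} (ht : 0 < t) {s : ℕ → ℝ} (hs : Tendsto s atTop (𝓝 t)) {η : ℝ}
    (h1 : ∀ j : ℕ, dz (η / 2 ^ j) ≠ t / 2) (h2 : ∀ j : ℕ, |η / 2 ^ j| ≠ t / 2) :
    ∀ᶠ n in atTop, phit φ m (s n) η = phit φ m t η := by
  have k1 : ∀ᶠ n in atTop, ∀ i ∈ Finset.range (NF t η + 1), (dz (η / 2 ^ i) < s n / 2 ↔ dz (η / 2 ^ i) < t / 2) := by
    rw [Finset.eventually_all]
    intro i _
    exact ev_lt_iff (by norm_num) hs (h1 i)
  filter_upwards [k1, ev_lt_iff (by norm_num : (0:ℝ) < 2) hs (h2 (NF t η))] with n a b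
  have hN : NF (s n) η = NF t η := by
    apply NF_eq
    · rw [a _ (Finset.mem_range.2 (Nat.lt_succ_self _))]; exact NF_spec ht η
    · intro i hi
      rw [a _ (Finset.mem_range.2 (by omega))]; exact NF_min hi
  have a' := a _ (Finset.mem_range.2 (Nat.lt_succ_self (NF t η)))
  unfold phit
  rw [hN]
  unfold wt
  simp only [a', b]

theorem phi_prod {η : ℝ} (href : ∀ j : ℕ, φ (2 * (η / 2 ^ (j+1))) = m (η / 2 ^ (j+1)) * φ (η / 2 ^ (j+1))) (N : ℕ) :
    φ η = (∏ i ∈ Finset.range N, m (η / 2 ^ (i+1))) * φ (η / 2 ^ N) := by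
  induction N with
  | zero => simp
  | succ N ih =>
    rw [Finset.prod_range_succ, mul_assoc, ← href N]
    have e : 2 * (η / 2 ^ (N+1)) = η / 2 ^ N := by rw [pow_succ]; field_simp
    rw [e]; exact ih

theorem phit_zero_tendsto {s : ℕ → ℝ} (hs : Tendsto s atTop (𝓝 0)) {η : ℝ}
    (h1 : ∀ j : ℕ, dz (η / 2 ^ j) ≠ 0)
    (href : ∀ j : ℕ, φ (2 * (η / 2 ^ (j+1))) = m (η / 2 ^ (j+1)) * φ (η / 2 ^ (j+1)))
    (hlim : Tendsto (fun j : ℕ => ‖φ (η / 2 ^ j)‖) atTop (𝓝 1)) :
    Tendsto (fun n => phit φ m (s n) η) atTop (𝓝 (φ η)) := by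
  obtain ⟨J, hJ⟩ := dz_tail η (show (0:ℝ) < 1/2 by norm_num)
  have hJ' : ∀ j, J ≤ j → |η / 2 ^ j| < 1/2 := by
    intro j hj
    refine lt_of_le_of_lt ?_ hJ
    rw [abs_div, abs_div]
    apply div_le_div_of_nonneg_left (abs_nonneg _)
    · positivity
    · rw [abs_of_pos (by positivity), abs_of_pos (by positivity)]
      exact pow_le_pow_right₀ (by norm_num) hj
  have key : ∀ M : ℕ, ∀ᶠ n in atTop, phit φ m (s n) η = φ η ∨
      ∃ N, M ≤ N ∧ phit φ m (s n) η * (‖φ (η / 2 ^ N)‖ : ℂ) = φ η := by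
    intro M
    have k1 : ∀ᶠ n in atTop, ∀ i ∈ Finset.range (max M J), (dz (η / 2 ^ i) < s n / 2 ↔ dz (η / 2 ^ i) < 0 / 2) := by
      rw [Finset.eventually_all]
      intro i _
      exact ev_lt_iff (by norm_num) hs (by rw [zero_div]; exact h1 i)
    filter_upwards [k1] with n a
    rcases le_or_gt (s n) 0 with h0 | h0
    · left; exact phit_zero h0
    · right
      have hN : max M J ≤ NF (s n) η := by
        by_contra hc
        rw [not_le] at hc
        have h2 := NF_spec h0 η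
        rw [a _ (Finset.mem_range.2 hc), zero_div] at h2
        exact absurd h2 (not_lt.2 (dz_nonneg _))
      refine ⟨NF (s n) η, le_trans (le_max_left _ _) hN, ?_⟩
      have h3 := hJ' _ (le_trans (le_max_right _ _) hN)
      have h4 := NF_spec h0 η
      have h5 : |η / 2 ^ NF (s n) η| < s n / 2 := by rw [← dz_eq_abs h3.le]; exact h4
      unfold phit
      rw [if_pos h4]
      unfold wt
      rw [if_pos h5, mul_assoc, ← ph_mul]
      exact (phi_prod href _).symm
  have hg : Tendsto (fun N : ℕ => φ η / (‖φ (η / 2 ^ N)‖ : ℂ)) atTop (𝓝 (φ η)) := by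
    have h2 : Tendsto (fun N : ℕ => ((‖φ (η / 2 ^ N)‖ : ℝ) : ℂ)) atTop (𝓝 ((1:ℝ) : ℂ)) :=
      (Complex.continuous_ofReal.tendsto _).comp hlim
    have h3 := (tendsto_const_nhds (x := φ η)).div h2 (by simp)
    have h4 : φ η / ((1:ℝ) : ℂ) = φ η := by simp
    rw [h4] at h3
    exact h3
  rw [tendsto_def]
  intro U hU
  have h2 := hg.eventually hU
  have h3 : ∀ᶠ N : ℕ in atTop, ‖φ (η / 2 ^ N)‖ ≠ 0 := by
    have := hlim.eventually (lt_mem_nhds (show (0:ℝ) < 1 by norm_num))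
    filter_upwards [this] with N hN using hN.ne'
  obtain ⟨M, hM⟩ := eventually_atTop.1 (h2.and h3)
  filter_upwards [key M] with n hn
  rcases hn with hn | ⟨N, hN, hn⟩
  · change phit φ m (s n) η ∈ U
    rw [hn]; exact mem_of_mem_nhds hU
  · change phit φ m (s n) η ∈ U
    have h4 := (hM N hN).1
    have h5 := (hM N hN).2
    have h6 : phit φ m (s n) η = φ η / (‖φ (η / 2 ^ N)‖ : ℂ) := by
      rw [eq_div_iff (by rw [Complex.ofReal_ne_zero]; exact h5)]; exact hn
    rw [h6]; exact h4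

theorem ae_dz_ne (c : ℝ) : ∀ᵐ ξ : ℝ, dz ξ ≠ c := by
  have : ∀ᵐ ξ : ℝ, ∀ n : ℤ, ξ ≠ n + c ∧ ξ ≠ n - c := by
    rw [ae_all_iff]; intro n
    have a : volume ({(n:ℝ) + c} : Set ℝ) = 0 := by simp
    have b : volume ({(n:ℝ) - c} : Set ℝ) = 0 := by simp
    filter_upwards [compl_mem_ae_iff.2 a, compl_mem_ae_iff.2 b] with ξ h1 h2
    exact ⟨h1, h2⟩
  filter_upwards [this] with ξ hξ h
  unfold dz at h
  rcases abs_choice (ξ - round ξ) with h1 | h1
  · apply (hξ (round ξ)).1; linarith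
  · apply (hξ (round ξ)).2; linarith

theorem ae_dz_div_ne (c : ℝ) : ∀ᵐ ξ : ℝ, ∀ j : ℕ, dz (ξ / 2 ^ j) ≠ c := by
  rw [ae_all_iff]; intro j
  have := ae_scale (ae_dz_ne c) (((2:ℝ) ^ j)⁻¹) (by positivity)
  filter_upwards [this] with ξ hξ
  rw [div_eq_inv_mul]; exact hξ

theorem ae_abs_ne (c : ℝ) : ∀ᵐ ξ : ℝ, ∀ j : ℕ, |ξ / 2 ^ j| ≠ c := by
  rw [ae_all_iff]; intro j
  have h0 : ∀ᵐ ξ : ℝ, |ξ| ≠ c := by
    have a : volume ({c} : Set ℝ) = 0 := by simp
    have b : volume ({-c} : Set ℝ) = 0 := by simp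
    filter_upwards [compl_mem_ae_iff.2 a, compl_mem_ae_iff.2 b] with ξ h1 h2 h3
    rcases abs_choice ξ with h4 | h4
    · apply h1; rw [h4] at h3; exact h3
    · apply h2; rw [h4] at h3
      change ξ = -c
      linarith
  have := ae_scale h0 (((2:ℝ) ^ j)⁻¹) (by positivity)
  filter_upwards [this] with ξ hξ
  rw [div_eq_inv_mul]; exact hξ

theorem ref_orbit (hM : IsMRA φ m μ) : ∀ᵐ η : ℝ, ∀ j : ℕ, φ (2 * (η / 2 ^ j)) = m (η / 2 ^ j) * φ (η / 2 ^ j) := by
  rw [ae_all_iff]; intro j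
  have := ae_scale hM.ref (((2:ℝ) ^ j)⁻¹) (by positivity)
  filter_upwards [this] with ξ hξ
  rw [div_eq_inv_mul]; exact hξ

theorem path_cont (hM : IsMRA φ m μ) {t : ℝ} (ht : t ∈ Icc (0:ℝ) 1) {s : ℕ → ℝ} (hs : Tendsto s atTop (𝓝 t)) :
    ∀ᵐ η : ℝ, Tendsto (fun n => μt μ (s n) η * phit φ m (s n) η) atTop (𝓝 (μt μ t η * phit φ m t η)) := by
  have g1 : ∀ᵐ η : ℝ, dz (2 * η) ≠ t / 2 := ae_scale (ae_dz_ne (t/2)) 2 (by norm_num)
  have g2 : ∀ᵐ η : ℝ, dz η ≠ t / 4 := ae_dz_ne (t/4)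
  rcases eq_or_lt_of_le ht.1 with h0 | h0
  · filter_upwards [g1, g2, ae_dz_div_ne 0, ref_orbit hM, hM.lim] with η a b c d e
    have h1 := μt_ev (μ := μ) hs a b
    have h2 : Tendsto (fun n => phit φ m (s n) η) atTop (𝓝 (phit φ m t η)) := by
      rw [phit_zero (le_of_eq h0.symm)]
      rw [← h0] at hs
      exact phit_zero_tendsto hs c (fun j => d (j+1)) e
    have h3 : Tendsto (fun n => μt μ (s n) η) atTop (𝓝 (μt μ t η)) := by
      apply tendsto_const_nhds.congr'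
      filter_upwards [h1] with n hn using hn.symm
    exact h3.mul h2
  · filter_upwards [g1, g2, ae_dz_div_ne (t/2), ae_abs_ne (t/2)] with η a b c d
    have h1 := μt_ev (μ := μ) hs a b
    have h2 := phit_ev (φ := φ) (m := m) h0 hs c d
    apply tendsto_const_nhds.congr'
    filter_upwards [h1, h2] with n hn hn'
    rw [hn, hn']

/-- the Shannon scaling set -/
def SH : Set ℝ := Ioo (-(1/2)) (1/2)

theorem mem_SH {ξ : ℝ} : ξ ∈ SH ↔ |ξ| < 1/2 := by
  unfold SH; rw [abs_lt]; rfl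

theorem SH_scset : ScSet (fun _ => 1) SH where
  meas := measurableSet_Ioo
  half := by
    apply Eventually.of_forall
    intro ξ h
    rw [mem_SH] at h ⊢
    rw [abs_div]; norm_num; linarith [abs_nonneg ξ]
  cnt := by
    filter_upwards [ae_dz_ne (1/2)] with ξ hξ
    have hlt : dz ξ < 1/2 := lt_of_le_of_ne (dz_le_half ξ) hξ
    have e : {l : ℤ | ξ + l ∈ SH} = {-round ξ} := by
      ext l
      simp only [mem_ofPred_eq, mem_SH, mem_singleton_iff]
      constructor
      · intro h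
        by_contra hne
        have h1 : (1:ℝ) ≤ |((l + round ξ : ℤ) : ℝ)| := by
          have : 1 ≤ |l + round ξ| := Int.one_le_abs (by omega)
          exact_mod_cast this
        have h2 : |((l + round ξ : ℤ) : ℝ)| - |ξ - round ξ| ≤ |ξ + l| := by
          have e : ((l + round ξ : ℤ) : ℝ) = (ξ + l) - (ξ - round ξ) := by push_cast; ring
          rw [e]
          have := abs_sub (ξ + l) (ξ - round ξ)
          linarith
        have h3 : |ξ - round ξ| < 1/2 := hlt
        linarith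
      · rintro rfl
        push_cast
        rw [← sub_eq_add_neg]; exact hlt
    rw [e, Set.encard_singleton]; simp
  evt := by
    apply Eventually.of_forall
    intro ξ
    obtain ⟨j, hj⟩ := dz_tail ξ (show (0:ℝ) < 1/2 by norm_num)
    exact ⟨j, mem_SH.2 hj⟩
  exit := by
    have h0 : volume ({0} : Set ℝ) = 0 := by simp
    filter_upwards [compl_mem_ae_iff.2 h0] with ξ hξ
    have hne : ξ ≠ 0 := hξ
    have hp : 0 < |ξ| := abs_pos.2 hne
    obtain ⟨j, hj⟩ := pow_unbounded_of_one_lt (1 / |ξ|) (by norm_num : (1:ℝ) < 2)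
    refine ⟨j, ?_⟩
    rw [mem_SH, not_lt, abs_mul, abs_of_pos (by positivity : (0:ℝ) < 2 ^ j)]
    rw [div_lt_iff₀ hp] at hj
    linarith

theorem mem_KSH {ξ : ℝ} : ξ ∈ KS SH ↔ |ξ / 2| < 1/2 ∧ ¬ |ξ| < 1/2 := by
  unfold KS
  rw [mem_ofPred_eq, mem_SH, mem_SH]

/-- path from an MRA wavelet to a phase times the Shannon wavelet -/
theorem jn_mra (hM : IsMRA φ m μ) :
    Jn (fun _ => 1) (wav φ μ) ((KS SH).indicator (fun ξ => ph φ (ξ / 2))) := by
  refine ⟨fun t => wav (phit φ m t) (μt μ t), ?_, ?_, ?_, ?_⟩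
  · intro t ht
    rcases eq_or_lt_of_le ht.1 with h0 | h0
    · have e : wav (phit φ m t) (μt μ t) = wav φ μ := by
        ext ξ; unfold wav
        rw [phit_zero (le_of_eq h0.symm), μt_zero (le_of_eq h0.symm)]
      simp only [e]
      exact ⟨hM.isPW, by simpa using hM.dim⟩
    · have h := hM.modify h0 ht.2
      exact ⟨h.isPW, by simpa using h.dim⟩
  · intro t ht s _ hs
    have := ae_scale (path_cont hM ht hs) (1/2) (by norm_num)
    filter_upwards [this] with ξ hξ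
    unfold wav
    rw [show ξ / 2 = 1 / 2 * ξ by ring]
    exact hξ
  · apply Eventually.of_forall
    intro ξ
    change wav (phit φ m 0) (μt μ 0) ξ = wav φ μ ξ
    unfold wav
    rw [phit_zero le_rfl, μt_zero le_rfl]
  · have h1 : ∀ᵐ ξ : ℝ, dz (ξ / 2) ≠ 1/2 := by
      filter_upwards [ae_dz_div_ne (1/2)] with ξ hξ
      have := hξ 1; rwa [pow_one] at this
    filter_upwards [h1, ae_dz_ne (1/2)] with ξ a b
    have a' : dz (ξ / 2) < 1/2 := lt_of_le_of_ne (dz_le_half _) a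
    have b' : dz ξ < 1/2 := lt_of_le_of_ne (dz_le_half _) b
    change wav (phit φ m 1) (μt μ 1) ξ = _
    unfold wav μt
    rw [mul_div_cancel₀ _ (by norm_num : (2:ℝ) ≠ 0), if_pos b', phit_hit a']
    unfold wt
    by_cases hK : ξ ∈ KS SH
    · rw [indicator_of_mem hK]
      have hK' := mem_KSH.1 hK
      rw [if_neg, if_pos hK'.1, one_mul]
      rw [dz_eq_abs hK'.1.le, not_lt, abs_div]
      have := not_lt.1 hK'.2
      norm_num; linarith
    · rw [indicator_of_notMem hK]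
      by_cases h2 : |ξ / 2| < 1/2
      · have h3 : |ξ| < 1/2 := by
          by_contra hc
          exact hK (mem_KSH.2 ⟨h2, hc⟩)
        rw [if_pos, zero_mul]
        rw [dz_eq_abs h2.le, abs_div]; norm_num; linarith
      · rw [if_neg h2, mul_zero]

/-- path changing the phase -/
theorem jn_phase {S : Set ℝ} {D : ℝ → ℕ} (hS : ScSet D S)
    (h2 : ∀ᵐ ξ : ℝ, D ξ + D (ξ + 1 / 2) = D (2 * ξ) + 1) {u : ℝ → ℂ} (hu : Measurable u) (hn : ∀ ξ, ‖u ξ‖ = 1) :
    Jn D ((KS S).indicator u) ((KS S).indicator (fun _ => (1:ℂ))) := by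
  have hm : ∀ s : ℝ, Measurable (fun ξ => Complex.exp (((1 - s) * (u ξ).arg : ℝ) * Complex.I)) := by
    intro s
    have h1 : Measurable (fun ξ => (u ξ).arg) := Complex.measurable_arg.comp hu
    exact Complex.measurable_exp.comp ((Complex.measurable_ofReal.comp (h1.const_mul _)).mul_const _)
  refine ⟨fun s => (KS S).indicator (fun ξ => Complex.exp (((1 - s) * (u ξ).arg : ℝ) * Complex.I)), ?_, ?_, ?_, ?_⟩
  · intro t _
    exact msf hS h2 (hm t) (fun ξ _ => Complex.norm_exp_ofReal_mul_I _)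
  · intro t _ s _ hs
    apply Eventually.of_forall
    intro ξ
    by_cases h : ξ ∈ KS S
    · simp only [indicator_of_mem h]
      have hc : Continuous (fun s : ℝ => Complex.exp (((1 - s) * (u ξ).arg : ℝ) * Complex.I)) := by fun_prop
      exact (hc.tendsto t).comp hs
    · simp only [indicator_of_notMem h]
      exact tendsto_const_nhds
  · apply Eventually.of_forall
    intro ξ
    by_cases h : ξ ∈ KS S
    · simp only [indicator_of_mem h]
      have := Complex.norm_mul_exp_arg_mul_I (u ξ)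
      rw [hn, Complex.ofReal_one, one_mul] at this
      rw [sub_zero, one_mul, this]
    · simp only [indicator_of_notMem h]
  · apply Eventually.of_forall
    intro ξ
    by_cases h : ξ ∈ KS S
    · simp only [indicator_of_mem h]; simp
    · simp only [indicator_of_notMem h]

end Pool.Agent.Helper30.WD
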