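import Pool.Agent.Helper30.WD.Tele

/-! Patching two wavelets with the same dimension function along a periodic set. -/

set_option autoImplicit false
open MeasureTheory Filter Topology Set
open scoped ENNReal ComplexConjugate

namespace Pool.Agent.Helper30.WD

/-- `F1` on `P`, `F0` off `P` -/
noncomputable def pat (P : Set ℝ) (F1 F0 : ℝ → ℂ) : ℝ → ℂ :=
  fun ξ => P.indicator F1 ξ + Pᶜ.indicator F0 ξ

theorem pat_mem {P : Set ℝ} {ξ : ℝ} (h : ξ ∈ P) (F1 F0 : ℝ → ℂ) : pat P F1 F0 ξ = F1 ξ := by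
  unfold pat; rw [indicator_of_mem h, indicator_of_notMem (fun h' : ξ ∈ Pᶜ => h' h), add_zero]

theorem pat_notMem {P : Set ℝ} {ξ : ℝ} (h : ξ ∉ P) (F1 F0 : ℝ → ℂ) : pat P F1 F0 ξ = F0 ξ := by
  unfold pat; rw [indicator_of_notMem h, indicator_of_mem (show ξ ∈ Pᶜ from h), zero_add]

theorem aesm_pat {P : Set ℝ} (hP : MeasurableSet P) {F1 F0 : ℝ → ℂ} (h1 : AEStronglyMeasurable F1)
    (h0 : AEStronglyMeasurable F0) : AEStronglyMeasurable (pat P F1 F0) :=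
  (h1.indicator hP).add (h0.indicator hP.compl)

theorem dimf_zero {F : ℝ → ℂ} {ξ : ℝ} (h : dimf F ξ = 0) (j : ℕ) (k : ℤ) :
    F ((2:ℝ) ^ (j + 1) * (ξ + k)) = 0 := by
  unfold dimf at h
  rw [ENNReal.tsum_eq_zero] at h
  have := ENNReal.tsum_eq_zero.1 (h j) k
  simpa using this

theorem nsq_pat {P : Set ℝ} (hP : Per P) (F1 F0 : ℝ → ℂ) (ξ : ℝ) :
    nsq (pat P F1 F0) ξ = P.indicator (nsq F1) ξ + Pᶜ.indicator (nsq F0) ξ := by
  classical
  by_cases h : ξ ∈ P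
  · rw [indicator_of_mem h, indicator_of_notMem (fun h' : ξ ∈ Pᶜ => h' h), add_zero]
    unfold nsq
    apply tsum_congr; intro n
    rw [pat_mem ((hP ξ n).2 h)]
  · rw [indicator_of_notMem h, indicator_of_mem (show ξ ∈ Pᶜ from h), zero_add]
    unfold nsq
    apply tsum_congr; intro n
    rw [pat_notMem (fun h' => h ((hP ξ n).1 h'))]

theorem br_pat {P : Set ℝ} (hP : Per P) (G F1 F0 : ℝ → ℂ) (ξ : ℝ) :
    br G (pat P F1 F0) ξ = P.indicator (br G F1) ξ + Pᶜ.indicator (br G F0) ξ := by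
  classical
  by_cases h : ξ ∈ P
  · rw [indicator_of_mem h, indicator_of_notMem (fun h' : ξ ∈ Pᶜ => h' h), add_zero]
    unfold br
    apply tsum_congr; intro n
    rw [pat_mem ((hP ξ n).2 h)]
  · rw [indicator_of_notMem h, indicator_of_mem (show ξ ∈ Pᶜ from h), zero_add]
    unfold br
    apply tsum_congr; intro n
    rw [pat_notMem (fun h' => h ((hP ξ n).1 h'))]

theorem EE_pat {P : Set ℝ} (hPm : MeasurableSet P) (hP : Per P) {F1 F0 G : ℝ → ℂ}
    (h1 : AEStronglyMeasurable F1) (h0 : AEStronglyMeasurable F0)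
    (n1 : ∀ᵐ ξ, nsq F1 ξ ≤ 1) (n0 : ∀ᵐ ξ, nsq F0 ξ ≤ 1) (hG : MemLp G 2) :
    EE (pat P F1 F0) G = EE F1 (P.indicator G) + EE F0 (Pᶜ.indicator G) := by
  have hn : ∀ᵐ ξ, nsq (pat P F1 F0) ξ ≤ 1 := by
    filter_upwards [n1, n0] with ξ a b
    rw [nsq_pat hP]
    by_cases h : ξ ∈ P
    · rw [indicator_of_mem h, indicator_of_notMem (fun h' : ξ ∈ Pᶜ => h' h), add_zero]; exact a
    · rw [indicator_of_notMem h, indicator_of_mem (show ξ ∈ Pᶜ from h), zero_add]; exact b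
  rw [EE_eq hG (aesm_pat hPm h1 h0) hn, EE_eq (memLp_indicator hPm hG) h1 n1,
    EE_eq (memLp_indicator hPm.compl hG) h0 n0, ← lintegral_add_left']
  · apply lintegral_congr; intro ξ
    rw [br_pat hP, br_indicator_left hP, br_indicator_left hP.compl]
    by_cases hx : ξ ∈ P
    · rw [indicator_of_mem hx, indicator_of_notMem (fun h' : ξ ∈ Pᶜ => h' hx)]; simp
    · rw [indicator_of_notMem hx, indicator_of_mem (show ξ ∈ Pᶜ from hx)]
      simp
  · exact ((aesm_br (memLp_indicator hPm hG).1 h1).enorm.pow_const 2).restrict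

theorem qq_congr {F G G' : ℝ → ℂ} (h : G =ᵐ[volume] G') : qq F G = qq F G' := by
  unfold qq
  apply tsum_congr; intro j
  apply EE_congr
  filter_upwards [dil_congr (-((j:ℤ) + 1)) h] with ξ hξ
  rw [hξ]

/-- data for patching -/
structure PatchData (F1 F0 : ℝ → ℂ) (D : ℝ → ℕ) (P : Set ℝ) : Prop where
  w1 : IsPW F1
  w0 : IsPW F0
  d1 : ∀ᵐ ξ, dimf F1 ξ = D ξ
  d0 : ∀ᵐ ξ, dimf F0 ξ = D ξ
  Dm : Measurable D
  Pm : MeasurableSet P
  per : Per P
  inv : ∀ᵐ ξ : ℝ, 1 ≤ D ξ → (ξ ∈ P ↔ 2 * ξ ∈ P)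

theorem half_aux {F : ℝ → ℂ} (hF : IsPW F) {D : ℝ → ℕ} (hd : ∀ᵐ ξ, dimf F ξ = D ξ) {P : Set ℝ}
    (inv : ∀ᵐ ξ : ℝ, 1 ≤ D ξ → (ξ ∈ P ↔ 2 * ξ ∈ P)) (G : ℝ → ℂ) :
    qq F (P.indicator (dil 1 G)) = EE F (P.indicator G) + qq F (P.indicator G) := by
  classical
  have hZ : ∀ᵐ ξ, ξ ∈ {ξ | D ξ = 0} → ∀ j : ℕ, F ((2:ℝ) ^ (j + 1) * ξ) = 0 := by
    filter_upwards [hd] with ξ hξ h0 j
    have h0' : D ξ = 0 := h0
    rw [h0'] at hξ
    have := dimf_zero (by simpa using hξ) j 0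
    simpa using this
  rw [qq_indicator_zero hZ, ← qq_dil, qq_indicator_zero hZ (dil 1 (P.indicator G))]
  apply qq_congr
  filter_upwards [inv] with ξ hξ
  rw [dil_indicator]
  by_cases h0 : D ξ = 0
  · rw [indicator_of_notMem (fun h : ξ ∈ {ξ | D ξ = 0}ᶜ => h h0), indicator_of_notMem (fun h : ξ ∈ {ξ | D ξ = 0}ᶜ => h h0)]
  · rw [indicator_of_mem (show ξ ∈ {ξ | D ξ = 0}ᶜ from h0), indicator_of_mem (show ξ ∈ {ξ | D ξ = 0}ᶜ from h0)]
    have h1 := hξ (Nat.one_le_iff_ne_zero.2 h0)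
    by_cases hP : ξ ∈ P
    · rw [indicator_of_mem hP, indicator_of_mem]
      rw [mem_ofPred_eq, zpow_one]; exact h1.1 hP
    · rw [indicator_of_notMem hP, indicator_of_notMem]
      rw [mem_ofPred_eq, zpow_one]; exact fun h => hP (h1.2 h)

theorem PatchData.isPW {F1 F0 : ℝ → ℂ} {D : ℝ → ℕ} {P : Set ℝ} (h : PatchData F1 F0 D P) :
    IsPW (pat P F1 F0) := by
  have hn : ∀ᵐ ξ, nsq (pat P F1 F0) ξ = 1 := by
    filter_upwards [h.w1.nsq_one, h.w0.nsq_one] with ξ a b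
    rw [nsq_pat h.per]
    by_cases hx : ξ ∈ P
    · rw [indicator_of_mem hx, indicator_of_notMem (fun h' : ξ ∈ Pᶜ => h' hx), add_zero]; exact a
    · rw [indicator_of_notMem hx, indicator_of_mem (show ξ ∈ Pᶜ from hx), zero_add]; exact b
  have hm := aesm_pat h.Pm h.w1.mem.1 h.w0.mem.1
  have hN : N2 (pat P F1 F0) = 1 := by
    rw [N2_per hm, lintegral_congr_ae (ae_restrict_of_ae hn)]
    simp
  refine ⟨memLp_of_N2 hm (by rw [hN]; exact ENNReal.one_lt_top), hN, ?_⟩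
  have hsplitN : ∀ G : ℝ → ℂ, MemLp G 2 →
      (rr F1 (P.indicator G) + rr F0 (Pᶜ.indicator G)) +
      (qq F1 (P.indicator G) + qq F0 (Pᶜ.indicator G)) = N2 G := by
    intro G hG
    rw [N2_split h.Pm G hG.1, ← h.w1.rq (memLp_indicator h.Pm hG),
      ← h.w0.rq (memLp_indicator h.Pm.compl hG)]
    ring
  apply pars_of_tele (fun G => qq F1 (P.indicator G) + qq F0 (Pᶜ.indicator G))
  · intro G hG
    have inv' : ∀ᵐ ξ : ℝ, 1 ≤ D ξ → (ξ ∈ Pᶜ ↔ 2 * ξ ∈ Pᶜ) := by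
      filter_upwards [h.inv] with ξ hξ h1
      exact not_congr (hξ h1)
    rw [half_aux h.w1 h.d1 h.inv, half_aux h.w0 h.d0 inv',
      EE_pat h.Pm h.per h.w1.mem.1 h.w0.mem.1 h.w1.nsq_le h.w0.nsq_le hG]
    ring
  · intro G hG
    have ht : Tendsto (fun n : ℕ => rr F1 (P.indicator (dil (n:ℤ) G)) + rr F0 (Pᶜ.indicator (dil (n:ℤ) G)))
        atTop (𝓝 0) := by
      have := (tendsto_rr h.w1 hG).add (tendsto_rr h.w0 hG)
      rw [add_zero] at this
      refine tendsto_of_tendsto_of_tendsto_of_le_of_le tendsto_const_nhds this (fun n => zero_le) ?_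
      intro n
      have a := rr_split h.w1 h.Pm h.per (memLp_dil (n:ℤ) hG)
      have b := rr_split h.w0 h.Pm h.per (memLp_dil (n:ℤ) hG)
      simp only
      rw [a, b]
      exact add_le_add le_self_add le_add_self
    have e : ∀ n : ℕ, qq F1 (P.indicator (dil (n:ℤ) G)) + qq F0 (Pᶜ.indicator (dil (n:ℤ) G))
        = N2 G - (rr F1 (P.indicator (dil (n:ℤ) G)) + rr F0 (Pᶜ.indicator (dil (n:ℤ) G))) := by
      intro n
      have h1 := hsplitN _ (memLp_dil (n:ℤ) hG)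
      rw [N2_dil] at h1
      have hfin : rr F1 (P.indicator (dil (n:ℤ) G)) + rr F0 (Pᶜ.indicator (dil (n:ℤ) G)) ≠ ⊤ := by
        have : rr F1 (P.indicator (dil (n:ℤ) G)) + rr F0 (Pᶜ.indicator (dil (n:ℤ) G)) ≤ N2 G := by
          rw [← h1]; exact le_self_add
        exact (this.trans_lt (N2_lt_top hG)).ne
      rw [← h1, ENNReal.add_sub_cancel_left hfin]
    simp only [e]
    have := ENNReal.Tendsto.sub (tendsto_const_nhds (x := N2 G)) ht (Or.inl (N2_lt_top hG).ne)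
    simpa using this
  · intro G hG
    have := (tendsto_qq_neg h.w1 hG).add (tendsto_qq_neg h.w0 hG)
    rw [add_zero] at this
    refine tendsto_of_tendsto_of_tendsto_of_le_of_le tendsto_const_nhds this (fun n => zero_le) ?_
    intro n
    have a := qq_split h.w1 h.Pm h.per (memLp_dil (-(n:ℤ)) hG)
    have b := qq_split h.w0 h.Pm h.per (memLp_dil (-(n:ℤ)) hG)
    simp only
    rw [a, b]
    exact add_le_add le_self_add le_add_self

open Classical in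
theorem PatchData.dim {F1 F0 : ℝ → ℂ} {D : ℝ → ℕ} {P : Set ℝ} (h : PatchData F1 F0 D P) :
    ∀ᵐ ξ, dimf (pat P F1 F0) ξ = D ξ := by
  have horb := ae_pow_add (P := fun ξ => dimf F1 ξ = D ξ ∧ dimf F0 ξ = D ξ ∧
    (1 ≤ D ξ → (ξ ∈ P ↔ 2 * ξ ∈ P))) (by
      filter_upwards [h.d1, h.d0, h.inv] with ξ a b c using ⟨a, b, c⟩)
  filter_upwards [horb] with ξ hξ
  have h00 := hξ 0 0
  simp only [pow_zero, Int.cast_zero, add_zero, one_mul] at h00
  -- vanishing beyond a zero of D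
  have hvan : ∀ (l j : ℕ) (k : ℤ), l ≤ j → D ((2:ℝ) ^ l * ξ) = 0 →
      F1 ((2:ℝ) ^ (j+1) * (ξ + k)) = 0 ∧ F0 ((2:ℝ) ^ (j+1) * (ξ + k)) = 0 := by
    intro l j k hlj hD
    have h1 := hξ l 0
    simp only [Int.cast_zero, add_zero] at h1
    rw [hD] at h1
    have e : (2:ℝ) ^ (j+1) * (ξ + k) = (2:ℝ) ^ ((j - l) + 1) * ((2:ℝ) ^ l * ξ + ((2 ^ l * k : ℤ) : ℝ)) := by
      have : j + 1 = (j - l + 1) + l := by omega
      rw [this, pow_add]; push_cast; ring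
    rw [e]
    exact ⟨dimf_zero (by simpa using h1.1) _ _, dimf_zero (by simpa using h1.2.1) _ _⟩
  -- index constancy
  have hidx : ∀ j : ℕ, (∀ l < j, D ((2:ℝ) ^ l * ξ) ≠ 0) → (ξ ∈ P ↔ (2:ℝ) ^ j * ξ ∈ P) := by
    intro j
    induction j with
    | zero => intro _; simp
    | succ j ih =>
      intro hl
      rw [ih (fun l hl' => hl l (by omega))]
      have h1 := hξ j 0
      simp only [Int.cast_zero, add_zero] at h1
      rw [h1.2.2 (Nat.one_le_iff_ne_zero.2 (hl j (by omega)))]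
      rw [pow_succ, mul_comm ((2:ℝ)^j) 2, mul_assoc]
  have hper : ∀ (j : ℕ) (k : ℤ), ((2:ℝ) ^ j * (ξ + k) ∈ P ↔ (2:ℝ) ^ j * ξ ∈ P) := by
    intro j k
    have := h.per ((2:ℝ) ^ j * ξ) (2 ^ j * k)
    rw [← this]; push_cast; rw [mul_add]
  have hterm : ∀ (j : ℕ) (k : ℤ), pat P F1 F0 ((2:ℝ) ^ (j+1) * (ξ + k))
      = if ξ ∈ P then F1 ((2:ℝ) ^ (j+1) * (ξ + k)) else F0 ((2:ℝ) ^ (j+1) * (ξ + k)) := by
    intro j k
    by_cases hz : ∃ l ≤ j, D ((2:ℝ) ^ l * ξ) = 0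
    · obtain ⟨l, hlj, hD⟩ := hz
      obtain ⟨a, b⟩ := hvan l j k hlj hD
      rw [a, b]
      simp only [ite_self]
      by_cases hp : (2:ℝ) ^ (j+1) * (ξ + k) ∈ P
      · rw [pat_mem hp, a]
      · rw [pat_notMem hp, b]
    · push Not at hz
      have h1 := hidx (j+1) (fun l hl => hz l (by omega))
      by_cases hp : ξ ∈ P
      · rw [if_pos hp, pat_mem ((hper (j+1) k).2 (h1.1 hp))]
      · rw [if_neg hp, pat_notMem (fun h' => hp (h1.2 ((hper (j+1) k).1 h')))]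
  unfold dimf
  simp only [hterm]
  by_cases hp : ξ ∈ P
  · simp only [hp, if_true]; exact h00.1
  · simp only [hp, if_false]; exact h00.2.1

end Pool.Agent.Helper30.WD
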