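import Pool.Agent.Helper30.WD.Defs

/-! Periodisation and the bracket formula. -/

set_option autoImplicit false
open MeasureTheory Filter Topology Set
open scoped ENNReal ComplexConjugate

namespace Pool.Agent.Helper30.WD

theorem ek_add_int (k n : ℤ) (ξ : ℝ) : ek k (ξ + n) = ek k ξ := by
  unfold ek
  have : 2 * (Real.pi:ℂ) * Complex.I * k * ((ξ + n : ℝ) : ℂ)
      = 2 * Real.pi * Complex.I * k * ξ + ((k * n : ℤ) : ℂ) * (2 * Real.pi * Complex.I) := by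
    push_cast; ring
  rw [this, Complex.exp_add, Complex.exp_int_mul_two_pi_mul_I, mul_one]

theorem ek_norm (k : ℤ) (ξ : ℝ) : ‖ek k ξ‖ = 1 := by
  unfold ek
  have : 2 * (Real.pi:ℂ) * Complex.I * k * (ξ : ℂ) = ((2 * Real.pi * k * ξ : ℝ) : ℂ) * Complex.I := by
    push_cast; ring
  rw [this, Complex.norm_exp_ofReal_mul_I]

theorem ek_continuous (k : ℤ) : Continuous (ek k) := by
  unfold ek; fun_prop

theorem ek_enorm (k : ℤ) (ξ : ℝ) : ‖ek k ξ‖ₑ = 1 := by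
  rw [← ofReal_norm, ek_norm]; simp

/-- translation of set lintegrals -/
theorem lintegral_Ioc_int (h : ℝ → ℝ≥0∞) (n : ℤ) :
    ∫⁻ ξ in Ioc (n:ℝ) (n+1), h ξ = ∫⁻ ξ in Ioc (0:ℝ) 1, h (ξ + n) := by
  have hmp := (measurePreserving_add_right (volume : Measure ℝ) (n:ℝ))
  have := hmp.setLIntegral_comp_preimage_emb (measurableEmbedding_addRight (n:ℝ)) h (Ioc (n:ℝ) (n+1))
  rw [← this]
  have h2 : (fun x : ℝ => x + (n:ℝ)) ⁻¹' Ioc (n:ℝ) (n+1) = Ioc 0 1 := by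
    ext x; simp only [mem_preimage, mem_Ioc]; constructor <;> rintro ⟨a, b⟩ <;> constructor <;> linarith
  rw [h2]

theorem integral_Ioc_int (h : ℝ → ℂ) (n : ℤ) :
    ∫ ξ in Ioc (n:ℝ) (n+1), h ξ = ∫ ξ in Ioc (0:ℝ) 1, h (ξ + n) := by
  have hmp := (measurePreserving_add_right (volume : Measure ℝ) (n:ℝ))
  have := hmp.setIntegral_preimage_emb (measurableEmbedding_addRight (n:ℝ)) h (Ioc (n:ℝ) (n+1))
  rw [← this]
  have h2 : (fun x : ℝ => x + (n:ℝ)) ⁻¹' Ioc (n:ℝ) (n+1) = Ioc 0 1 := by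
    ext x; simp only [mem_preimage, mem_Ioc]; constructor <;> rintro ⟨a, b⟩ <;> constructor <;> linarith
  rw [h2]

theorem lintegral_tsum_int (h : ℝ → ℝ≥0∞) :
    ∫⁻ ξ, h ξ = ∑' n : ℤ, ∫⁻ ξ in Ioc (0:ℝ) 1, h (ξ + n) := by
  rw [← setLIntegral_univ, ← iUnion_Ioc_intCast ℝ, lintegral_iUnion (fun n => measurableSet_Ioc)
    (pairwise_disjoint_Ioc_intCast ℝ)]
  exact tsum_congr (fun n => lintegral_Ioc_int h n)

theorem aemeas_shift {β : Type*} [MeasurableSpace β] {h : ℝ → β} (hh : AEMeasurable h) (b : ℝ) :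
    AEMeasurable (fun ξ => h (ξ + b)) :=
  hh.comp_quasiMeasurePreserving (measurePreserving_add_right volume b).quasiMeasurePreserving

theorem aesm_shift {h : ℝ → ℂ} (hh : AEStronglyMeasurable h) (b : ℝ) :
    AEStronglyMeasurable (fun ξ => h (ξ + b)) :=
  hh.comp_quasiMeasurePreserving (measurePreserving_add_right volume b).quasiMeasurePreserving

theorem lintegral_per {h : ℝ → ℝ≥0∞} (hh : AEMeasurable h) :
    ∫⁻ ξ, h ξ = ∫⁻ ξ in Ioc (0:ℝ) 1, ∑' n : ℤ, h (ξ + n) := by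
  rw [lintegral_tsum (f := fun (n : ℤ) ξ => h (ξ + n)) (fun n => (aemeas_shift hh (n:ℝ)).restrict)]
  exact lintegral_tsum_int h

theorem integral_per {u : ℝ → ℂ} (hu : Integrable u) :
    ∫ ξ, u ξ = ∫ ξ in Ioc (0:ℝ) 1, ∑' n : ℤ, u (ξ + n) := by
  rw [integral_tsum (f := fun (n : ℤ) ξ => u (ξ + n)) (fun n => (aesm_shift hu.1 (n:ℝ)).restrict)]
  · have h1 := hasSum_integral_iUnion (μ := (volume : Measure ℝ)) (f := u) (s := fun n : ℤ => Ioc (n:ℝ) (n+1))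
      (fun n => measurableSet_Ioc) (pairwise_disjoint_Ioc_intCast ℝ) hu.integrableOn
    rw [iUnion_Ioc_intCast, setIntegral_univ] at h1
    rw [← h1.tsum_eq]
    exact tsum_congr (fun n => integral_Ioc_int u n)
  · rw [← lintegral_tsum_int (fun ξ => ‖u ξ‖ₑ)]
    exact hu.2.ne

/-- Cauchy–Schwarz for `ℝ≥0∞`-valued sums over `ℤ`. -/
theorem tsum_mul_sq_le (a b : ℤ → ℝ≥0∞) :
    (∑' n, a n * b n) ^ 2 ≤ (∑' n, a n ^ 2) * ∑' n, b n ^ 2 := by
  have h := ENNReal.lintegral_mul_le_Lp_mul_Lq (Measure.count : Measure ℤ) Real.HolderConjugate.two_two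
    (f := a) (g := b) (measurable_of_countable _).aemeasurable (measurable_of_countable _).aemeasurable
  simp only [Pi.mul_apply, lintegral_count] at h
  have h2 := ENNReal.rpow_le_rpow h (show (0:ℝ) ≤ 2 by norm_num)
  rw [ENNReal.mul_rpow_of_nonneg _ _ (by norm_num : (0:ℝ) ≤ 2), ← ENNReal.rpow_mul, ← ENNReal.rpow_mul] at h2
  norm_num at h2
  exact_mod_cast h2

theorem enorm_tsum_le (u : ℤ → ℂ) : ‖∑' n, u n‖ₑ ≤ ∑' n, ‖u n‖ₑ := by
  by_cases h : ∑' n, ‖u n‖ₑ = ⊤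
  · rw [h]; exact le_top
  · have hs : Summable (fun n => ‖u n‖) := by
      have := ENNReal.summable_toReal h
      simpa using this
    have h1 : ‖∑' n, u n‖ ≤ ∑' n, ‖u n‖ := norm_tsum_le_tsum_norm hs
    rw [← ofReal_norm]
    calc ENNReal.ofReal ‖∑' n, u n‖ ≤ ENNReal.ofReal (∑' n, ‖u n‖) := ENNReal.ofReal_le_ofReal h1
      _ = ∑' n, ENNReal.ofReal ‖u n‖ := ENNReal.ofReal_tsum_of_nonneg (fun n => norm_nonneg _) hs
      _ = ∑' n, ‖u n‖ₑ := by simp only [ofReal_norm]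

theorem br_sq_le (G F : ℝ → ℂ) (ξ : ℝ) : ‖br G F ξ‖ₑ ^ 2 ≤ nsq G ξ * nsq F ξ := by
  unfold br nsq
  calc ‖∑' n : ℤ, G (ξ + n) * conj (F (ξ + n))‖ₑ ^ 2
      ≤ (∑' n : ℤ, ‖G (ξ + n) * conj (F (ξ + n))‖ₑ) ^ 2 := by
        gcongr; exact enorm_tsum_le _
    _ = (∑' n : ℤ, ‖G (ξ + n)‖ₑ * ‖F (ξ + n)‖ₑ) ^ 2 := by
        congr 1; apply tsum_congr; intro n
        rw [enorm_mul, RCLike.enorm_conj]
    _ ≤ _ := tsum_mul_sq_le _ _

theorem N2_per {G : ℝ → ℂ} (hG : AEStronglyMeasurable G) : N2 G = ∫⁻ ξ in Ioc (0:ℝ) 1, nsq G ξ := by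
  unfold N2 nsq
  exact lintegral_per (hG.enorm.pow_const 2)

theorem aemeas_nsq {G : ℝ → ℂ} (hG : AEStronglyMeasurable G) : AEMeasurable (nsq G) := by
  unfold nsq
  exact AEMeasurable.tsum (fun n => ((aesm_shift hG (n:ℝ)).enorm.pow_const 2))

theorem N2_lt_top {G : ℝ → ℂ} (hG : MemLp G 2) : N2 G < ⊤ := by
  unfold N2
  have := hG.eLpNorm_lt_top
  rw [eLpNorm_lt_top_iff_lintegral_rpow_enorm_lt_top (by norm_num) (by norm_num)] at this
  simpa using this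

theorem memLp_of_N2 {G : ℝ → ℂ} (hG : AEStronglyMeasurable G) (h : N2 G < ⊤) : MemLp G 2 := by
  refine ⟨hG, ?_⟩
  rw [eLpNorm_lt_top_iff_lintegral_rpow_enorm_lt_top (by norm_num) (by norm_num)]
  unfold N2 at h
  simpa using h

theorem N2_eq_eLpNorm (G : ℝ → ℂ) : N2 G = eLpNorm G 2 volume ^ 2 := by
  unfold N2
  rw [eLpNorm_eq_lintegral_rpow_enorm_toReal (by norm_num) (by norm_num)]
  simp only [ENNReal.toReal_ofNat, ENNReal.rpow_ofNat, one_div]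
  rw [← ENNReal.rpow_natCast, ← ENNReal.rpow_mul]
  norm_num

theorem N2_le_of_nsq_le {F : ℝ → ℂ} (hF : AEStronglyMeasurable F) (h : ∀ᵐ ξ, nsq F ξ ≤ 1) :
    N2 F ≤ 1 := by
  rw [N2_per hF]
  calc ∫⁻ ξ in Ioc (0:ℝ) 1, nsq F ξ ≤ ∫⁻ ξ in Ioc (0:ℝ) 1, 1 := by
        apply lintegral_mono_ae
        exact ae_restrict_of_ae h
    _ = 1 := by simp

/-- integrability of `G * conj F` -/
theorem integrable_mul_conj {G F : ℝ → ℂ} (hG : MemLp G 2) (hF : MemLp F 2) :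
    Integrable (fun ξ => G ξ * conj (F ξ)) := by
  have hF' : MemLp (fun ξ => conj (F ξ)) 2 := hF.star
  have := hG.integrable_mul hF'
  exact this

theorem integrable_mul_ek {u : ℝ → ℂ} (hu : Integrable u) (k : ℤ) :
    Integrable (fun ξ => u ξ * ek k ξ) := by
  refine (integrable_norm_iff ?_).1 ?_
  · exact hu.1.mul (ek_continuous k).aestronglyMeasurable
  · have : (fun ξ => ‖u ξ * ek k ξ‖) = fun ξ => ‖u ξ‖ := by
      ext ξ; rw [norm_mul, ek_norm, mul_one]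
    rw [this]; exact hu.norm

theorem br_ek (G F : ℝ → ℂ) (k : ℤ) (ξ : ℝ) :
    ∑' n : ℤ, G (ξ + n) * conj (F (ξ + n)) * ek k (ξ + n) = br G F ξ * ek k ξ := by
  unfold br
  simp only [ek_add_int]
  rw [tsum_mul_right]

/-- the basic identity: coefficients of the bracket -/
theorem coeff_eq {G F : ℝ → ℂ} (hG : MemLp G 2) (hF : MemLp F 2) (k : ℤ) :
    ∫ ξ, G ξ * conj (F ξ) * ek k ξ = ∫ ξ in Ioc (0:ℝ) 1, br G F ξ * ek k ξ := by
  rw [integral_per (integrable_mul_ek (integrable_mul_conj hG hF) k)]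
  simp only [br_ek]

theorem aesm_br {G F : ℝ → ℂ} (hG : AEStronglyMeasurable G) (hF : AEStronglyMeasurable F) :
    AEStronglyMeasurable (br G F) := by
  unfold br
  have h1 : ∀ n : ℤ, AEMeasurable (fun ξ => G (ξ + n) * conj (F (ξ + n))) := fun n =>
    ((aesm_shift hG (n:ℝ)).aemeasurable).mul
      (Complex.continuous_conj.measurable.comp_aemeasurable (aesm_shift hF (n:ℝ)).aemeasurable)
  exact (AEMeasurable.tsum h1).aestronglyMeasurable

theorem memLp_br {G F : ℝ → ℂ} (hG : MemLp G 2) (hF : AEStronglyMeasurable F)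
    (h : ∀ᵐ ξ, nsq F ξ ≤ 1) : MemLp (br G F) 2 (volume.restrict (Ioc 0 1)) := by
  refine ⟨(aesm_br hG.1 hF).restrict, ?_⟩
  rw [eLpNorm_lt_top_iff_lintegral_rpow_enorm_lt_top (by norm_num) (by norm_num)]
  simp only [ENNReal.toReal_ofNat, ENNReal.rpow_ofNat]
  calc ∫⁻ ξ in Ioc (0:ℝ) 1, ‖br G F ξ‖ₑ ^ 2 ≤ ∫⁻ ξ in Ioc (0:ℝ) 1, nsq G ξ := by
        apply lintegral_mono_ae
        filter_upwards [ae_restrict_of_ae h] with ξ hξ
        calc ‖br G F ξ‖ₑ ^ 2 ≤ nsq G ξ * nsq F ξ := br_sq_le G F ξ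
          _ ≤ nsq G ξ * 1 := by gcongr
          _ = _ := mul_one _
    _ = N2 G := (N2_per hG.1).symm
    _ < ⊤ := N2_lt_top hG

theorem fourier_eq_ek (k : ℤ) (x : ℝ) :
    (fourier (-(-k)) (x : AddCircle ((1:ℝ) - 0)) : ℂ) = ek k x := by
  rw [fourier_coe_apply]
  unfold ek
  congr 1
  push_cast
  ring

/-- The bracket formula. -/
theorem EE_eq {G F : ℝ → ℂ} (hG : MemLp G 2) (hF : AEStronglyMeasurable F)
    (h : ∀ᵐ ξ, nsq F ξ ≤ 1) : EE F G = ∫⁻ ξ in Ioc (0:ℝ) 1, ‖br G F ξ‖ₑ ^ 2 := by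
  have hF2 : MemLp F 2 := memLp_of_N2 hF ((N2_le_of_nsq_le hF h).trans_lt ENNReal.one_lt_top)
  have hb := memLp_br hG hF h
  have hs := hasSum_sq_fourierCoeffOn (zero_lt_one : (0:ℝ) < 1) hb
  have hc : ∀ k : ℤ, ∫ ξ, G ξ * conj (F ξ) * ek k ξ
      = fourierCoeffOn (zero_lt_one : (0:ℝ) < 1) (br G F) (-k) := by
    intro k
    rw [coeff_eq hG hF2, fourierCoeffOn_eq_integral, intervalIntegral.integral_of_le zero_le_one]
    simp only [fourier_eq_ek, sub_zero, div_one, one_smul, smul_eq_mul]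
    apply integral_congr_ae
    filter_upwards with x
    ring
  have hs2 : HasSum (fun k : ℤ => ‖∫ ξ, G ξ * conj (F ξ) * ek k ξ‖ ^ 2)
      (∫ x in (0:ℝ)..1, ‖br G F x‖ ^ 2) := by
    have := (Equiv.neg ℤ).hasSum_iff.2 hs
    simp only [Function.comp_def, Equiv.neg_apply, sub_zero, inv_one, one_smul] at this
    simpa only [hc] using this
  have hint : Integrable (fun x => ‖br G F x‖ ^ 2) (volume.restrict (Ioc 0 1)) := by
    have := hb.integrable_norm_pow (by norm_num)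
    simpa using this
  unfold EE
  have e1 : ∀ k : ℤ, ‖∫ ξ, G ξ * conj (F ξ) * ek k ξ‖ₑ ^ 2
      = ENNReal.ofReal (‖∫ ξ, G ξ * conj (F ξ) * ek k ξ‖ ^ 2) := by
    intro k; rw [ENNReal.ofReal_pow (norm_nonneg _), ofReal_norm]
  simp only [e1]
  rw [← ENNReal.ofReal_tsum_of_nonneg (fun k => by positivity) hs2.summable, hs2.tsum_eq,
    intervalIntegral.integral_of_le zero_le_one, ofReal_integral_eq_lintegral_ofReal hint
      (Eventually.of_forall (fun x => by positivity))]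
  apply lintegral_congr
  intro x
  rw [ENNReal.ofReal_pow (norm_nonneg _), ofReal_norm]

end Pool.Agent.Helper30.WD
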