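import Pool.Agent.Helper30.WD.LemU

/-! Existence of a scaling function when the dimension function is `1`. -/

set_option autoImplicit false
open MeasureTheory Filter Topology Set
open scoped ENNReal ComplexConjugate

namespace Pool.Agent.Helper30.WD

variable {F : ℝ → ℂ}

/-- `G ∈ V_0` -/
structure V0 (F G : ℝ → ℂ) : Prop where
  meas : Measurable G
  mem : MemLp G 2
  orth : ∀ j : ℕ, ∀ᵐ ξ, br (dil (j:ℤ) G) F ξ = 0

theorem V0.EE_zero (hw : IsPW F) {G : ℝ → ℂ} (h : V0 F G) (j : ℕ) : EE F (dil (j:ℤ) G) = 0 := by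
  rw [EE_eq (memLp_dil _ h.mem) hw.mem.1 hw.nsq_le]
  have : ∀ᵐ ξ ∂(volume.restrict (Ioc (0:ℝ) 1)), ‖br (dil (j:ℤ) G) F ξ‖ₑ ^ 2 = 0 := by
    filter_upwards [ae_restrict_of_ae (h.orth j)] with ξ hξ
    rw [hξ]; simp
  rw [lintegral_congr_ae this]; simp

theorem dil_mul_per {α : ℝ → ℂ} (G : ℝ → ℂ) (j : ℤ) (ξ : ℝ) :
    dil j (fun ξ => α ξ * G ξ) ξ = α ((2:ℝ) ^ j * ξ) * dil j G ξ := by
  unfold dil; ring

theorem per_pow {β : Type*} {α : ℝ → β} (hα : ∀ (ξ : ℝ) (n : ℤ), α (ξ + n) = α ξ) (j : ℕ) (ξ : ℝ) (n : ℤ) :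
    α ((2:ℝ) ^ (j:ℤ) * (ξ + n)) = α ((2:ℝ) ^ (j:ℤ) * ξ) := by
  have := hα ((2:ℝ) ^ (j:ℤ) * ξ) (2 ^ j * n)
  rw [← this]; congr 1; push_cast; rw [zpow_natCast]; ring

theorem V0.mul {G α : ℝ → ℂ} (h : V0 F G) (hα : ∀ (ξ : ℝ) (n : ℤ), α (ξ + n) = α ξ)
    (hαm : Measurable α) (hmem : MemLp (fun ξ => α ξ * G ξ) 2) : V0 F (fun ξ => α ξ * G ξ) := by
  refine ⟨hαm.mul h.meas, hmem, fun j => ?_⟩
  filter_upwards [h.orth j] with ξ hξ
  unfold br at hξ ⊢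
  have e : ∀ n : ℤ, dil (j:ℤ) (fun ξ => α ξ * G ξ) (ξ + n) * conj (F (ξ + n))
      = α ((2:ℝ) ^ (j:ℤ) * ξ) * (dil (j:ℤ) G (ξ + n) * conj (F (ξ + n))) := by
    intro n
    rw [dil_mul_per, per_pow hα]; ring
  simp only [e]
  rw [tsum_mul_left, hξ, mul_zero]

theorem br_add_ae (hn : ∀ᵐ ξ, nsq F ξ ≤ 1) {G H : ℝ → ℂ} (hG : MemLp G 2) (hH : MemLp H 2) :
    ∀ᵐ ξ, br (fun ξ => G ξ + H ξ) F ξ = br G F ξ + br H F ξ := by
  filter_upwards [hn, ae_nsq_lt_top hG, ae_nsq_lt_top hH] with ξ a b c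
  have s1 := summable_br (G := G) (φ := F) b (a.trans_lt ENNReal.one_lt_top)
  have s2 := summable_br (G := H) (φ := F) c (a.trans_lt ENNReal.one_lt_top)
  unfold br
  rw [← s1.tsum_add s2]
  apply tsum_congr; intro n; ring

theorem br_sub_ae (hn : ∀ᵐ ξ, nsq F ξ ≤ 1) {G H : ℝ → ℂ} (hG : MemLp G 2) (hH : MemLp H 2) :
    ∀ᵐ ξ, br (fun ξ => G ξ - H ξ) F ξ = br G F ξ - br H F ξ := by
  filter_upwards [hn, ae_nsq_lt_top hG, ae_nsq_lt_top hH] with ξ a b c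
  have s1 := summable_br (G := G) (φ := F) b (a.trans_lt ENNReal.one_lt_top)
  have s2 := summable_br (G := H) (φ := F) c (a.trans_lt ENNReal.one_lt_top)
  unfold br
  rw [← s1.tsum_sub s2]
  apply tsum_congr; intro n; ring

theorem V0.add (hw : IsPW F) {G H : ℝ → ℂ} (hG : V0 F G) (hH : V0 F H) : V0 F (fun ξ => G ξ + H ξ) := by
  refine ⟨hG.meas.add hH.meas, hG.mem.add hH.mem, fun j => ?_⟩
  have e : dil (j:ℤ) (fun ξ => G ξ + H ξ) = fun ξ => dil (j:ℤ) G ξ + dil (j:ℤ) H ξ := by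
    ext ξ; unfold dil; ring
  rw [e]
  filter_upwards [br_add_ae hw.nsq_le (memLp_dil (j:ℤ) hG.mem) (memLp_dil (j:ℤ) hH.mem), hG.orth j, hH.orth j]
    with ξ a b c
  rw [a, b, c, add_zero]

theorem V0.sub (hw : IsPW F) {G H : ℝ → ℂ} (hG : V0 F G) (hH : V0 F H) : V0 F (fun ξ => G ξ - H ξ) := by
  refine ⟨hG.meas.sub hH.meas, hG.mem.sub hH.mem, fun j => ?_⟩
  have e : dil (j:ℤ) (fun ξ => G ξ - H ξ) = fun ξ => dil (j:ℤ) G ξ - dil (j:ℤ) H ξ := by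
    ext ξ; unfold dil; ring
  rw [e]
  filter_upwards [br_sub_ae hw.nsq_le (memLp_dil (j:ℤ) hG.mem) (memLp_dil (j:ℤ) hH.mem), hG.orth j, hH.orth j]
    with ξ a b c
  rw [a, b, c, sub_zero]

theorem br_smul (c : ℂ) (G F : ℝ → ℂ) (ξ : ℝ) : br (fun ξ => c * G ξ) F ξ = c * br G F ξ := by
  unfold br
  rw [← tsum_mul_left]
  apply tsum_congr; intro n; ring

/-- `G(2·)` in terms of `dil` -/
theorem comp_two_eq (G : ℝ → ℂ) : (fun ξ : ℝ => G (2 * ξ)) = fun ξ => (((2:ℝ) ^ (-(1:ℝ)/2) : ℝ) : ℂ) * dil 1 G ξ := by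
  ext ξ
  unfold dil
  rw [← mul_assoc, ← Complex.ofReal_mul, ← Real.rpow_add (by norm_num)]
  norm_num

theorem dil_const_mul (c : ℂ) (j : ℤ) (G : ℝ → ℂ) : dil j (fun ξ => c * G ξ) = fun ξ => c * dil j G ξ := by
  ext ξ; unfold dil; ring

theorem V0.comp_two {G : ℝ → ℂ} (h : V0 F G) : V0 F (fun ξ => G (2 * ξ)) := by
  rw [comp_two_eq]
  refine ⟨?_, (memLp_dil 1 h.mem).const_mul _, fun j => ?_⟩
  · unfold dil
    exact ((h.meas.comp (measurable_const_mul _)).const_mul _).const_mul _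
  · rw [dil_const_mul, dil_dil]
    filter_upwards [h.orth (j+1)] with ξ hξ
    rw [br_smul]
    push_cast at hξ
    rw [hξ, mul_zero]

theorem V0_comp_two_F (hw : IsPW F) (hF : Measurable F) : V0 F (fun ξ => F (2 * ξ)) := by
  rw [comp_two_eq]
  refine ⟨?_, (memLp_dil 1 hw.mem).const_mul _, fun j => ?_⟩
  · unfold dil
    exact ((hF.comp (measurable_const_mul _)).const_mul _).const_mul _
  · rw [dil_const_mul, dil_dil]
    have := br_zero_of_EE (memLp_dil ((j:ℤ)+1) hw.mem) hw.mem.1 hw.nsq_le (hw.EE_dil_self (by omega))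
    filter_upwards [this] with ξ hξ
    rw [br_smul, hξ, mul_zero]

theorem V0_comp_pow_F (hw : IsPW F) (hF : Measurable F) (j : ℕ) : V0 F (fun ξ => F ((2:ℝ) ^ (j+1) * ξ)) := by
  induction j with
  | zero => simpa using V0_comp_two_F hw hF
  | succ j ih =>
    have := ih.comp_two
    convert! this using 2 with ξ
    rw [pow_succ]; ring_nf

/-! ### fibre Pythagoras -/

theorem pyth {a b : ℤ → ℂ} (ha : Summable (fun n => ‖a n‖ ^ 2)) (hb : HasSum (fun n => ‖b n‖ ^ 2) 1)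
    {α : ℂ} (hα : HasSum (fun n => a n * conj (b n)) α) :
    HasSum (fun n => ‖a n - α * b n‖ ^ 2) ((∑' n, ‖a n‖ ^ 2) - ‖α‖ ^ 2) := by
  have e : ∀ n, ‖a n - α * b n‖ ^ 2 = ‖a n‖ ^ 2 - 2 * (conj α * (a n * conj (b n))).re + ‖α‖ ^ 2 * ‖b n‖ ^ 2 := by
    intro n
    rw [← Complex.normSq_eq_norm_sq, ← Complex.normSq_eq_norm_sq, ← Complex.normSq_eq_norm_sq,
      ← Complex.normSq_eq_norm_sq, Complex.normSq_sub, Complex.normSq_mul, map_mul]
    have : a n * (conj α * conj (b n)) = conj α * (a n * conj (b n)) := by ring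
    rw [this]; ring
  simp only [e]
  have h1 : HasSum (fun n => (conj α * (a n * conj (b n))).re) (conj α * α).re :=
    Complex.hasSum_re (hα.mul_left (conj α))
  have h2 : (conj α * α).re = ‖α‖ ^ 2 := by
    rw [mul_comm, Complex.mul_conj, Complex.normSq_eq_norm_sq, Complex.ofReal_re]
  rw [h2] at h1
  have h3 := ((ha.hasSum.sub (h1.mul_left 2)).add (hb.mul_left (‖α‖ ^ 2)))
  convert! h3 using 1
  ring

theorem nsq_real {G : ℝ → ℂ} {ξ : ℝ} (h : nsq G ξ < ⊤) :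
    HasSum (fun n : ℤ => ‖G (ξ + n)‖ ^ 2) (nsq G ξ).toReal := by
  unfold nsq at h ⊢
  have hs := ENNReal.summable_toReal h.ne
  have e : ∀ n : ℤ, (‖G (ξ + n)‖ₑ ^ 2).toReal = ‖G (ξ + n)‖ ^ 2 := by
    intro n; rw [enorm_sq_ofReal, ENNReal.toReal_ofReal (by positivity)]
  have h2 : (∑' n : ℤ, ‖G (ξ + n)‖ₑ ^ 2).toReal = ∑' n : ℤ, (‖G (ξ + n)‖ₑ ^ 2).toReal :=
    ENNReal.tsum_toReal_eq (fun n => ((ENNReal.le_tsum n).trans_lt h).ne)
  rw [h2]
  simp only [e] at hs ⊢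
  exact hs.hasSum

theorem nsq_of_real {G : ℝ → ℂ} {ξ c : ℝ} (h : HasSum (fun n : ℤ => ‖G (ξ + n)‖ ^ 2) c) :
    nsq G ξ = ENNReal.ofReal c := by
  unfold nsq
  simp only [enorm_sq_ofReal]
  rw [← ENNReal.ofReal_tsum_of_nonneg (fun n => by positivity) h.summable, h.tsum_eq]

/-- fibrewise Pythagoras for the projection onto a normalised `φ` -/
theorem nsq_pyth {G φ : ℝ → ℂ} {ξ : ℝ} (hG : nsq G ξ < ⊤) (hφ : nsq φ ξ = 1) :
    nsq (fun η => G η - br G φ η * φ η) ξ + ‖br G φ ξ‖ₑ ^ 2 = nsq G ξ := by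
  have h1 := nsq_real hG
  have h2 : HasSum (fun n : ℤ => ‖φ (ξ + n)‖ ^ 2) 1 := by
    have h2 := nsq_real (G := φ) (ξ := ξ) (by rw [hφ]; exact ENNReal.one_lt_top)
    rw [hφ, ENNReal.toReal_one] at h2
    exact h2
  have h3 : HasSum (fun n : ℤ => G (ξ + n) * conj (φ (ξ + n))) (br G φ ξ) := by
    have := (summable_br (G := G) (φ := φ) (ξ := ξ) hG (by rw [hφ]; exact ENNReal.one_lt_top)).hasSum
    exact this
  have h4 : HasSum (fun n : ℤ => ‖G (ξ + n) - br G φ ξ * φ (ξ + n)‖ ^ 2)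
      ((∑' n : ℤ, ‖G (ξ + n)‖ ^ 2) - ‖br G φ ξ‖ ^ 2) :=
    pyth (a := fun n : ℤ => G (ξ + n)) (b := fun n : ℤ => φ (ξ + n)) (α := br G φ ξ) h1.summable h2 h3
  have h5 : HasSum (fun n : ℤ => ‖(fun η => G η - br G φ η * φ η) (ξ + n)‖ ^ 2)
      ((∑' n : ℤ, ‖G (ξ + n)‖ ^ 2) - ‖br G φ ξ‖ ^ 2) := by
    have e : (fun n : ℤ => ‖(fun η => G η - br G φ η * φ η) (ξ + n)‖ ^ 2)
        = fun n : ℤ => ‖G (ξ + n) - br G φ ξ * φ (ξ + n)‖ ^ 2 := by
      ext n; simp only [br_add_int]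
    rw [e]; exact h4
  have h6 : 0 ≤ (∑' n : ℤ, ‖G (ξ + n)‖ ^ 2) - ‖br G φ ξ‖ ^ 2 := h5.nonneg (fun n => by positivity)
  have h7 : nsq (fun η => G η - br G φ η * φ η) ξ = ENNReal.ofReal ((∑' n : ℤ, ‖G (ξ + n)‖ ^ 2) - ‖br G φ ξ‖ ^ 2) :=
    nsq_of_real h5
  rw [h7, enorm_sq_ofReal, ← ENNReal.ofReal_add h6 (by positivity), sub_add_cancel, h1.tsum_eq,
    ENNReal.ofReal_toReal hG.ne]

theorem nsq_mul_per {α G : ℝ → ℂ} (hα : ∀ (ξ : ℝ) (n : ℤ), α (ξ + n) = α ξ) (ξ : ℝ) :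
    nsq (fun ξ => α ξ * G ξ) ξ = ‖α ξ‖ₑ ^ 2 * nsq G ξ := by
  unfold nsq
  rw [← ENNReal.tsum_mul_left]
  apply tsum_congr; intro n
  simp only [hα]
  rw [enorm_mul, mul_pow]

theorem meas_br {G φ : ℝ → ℂ} (hG : Measurable G) (hφ : Measurable φ) : Measurable (br G φ) := by
  unfold br
  apply Measurable.tsum
  intro n
  exact (hG.comp (measurable_add_const _)).mul
    (Complex.continuous_conj.measurable.comp (hφ.comp (measurable_add_const _)))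

/-- (V1) energy of the span of a normalised element of `V_0` -/
theorem lemV1 (hw : IsPW F) {φ : ℝ → ℂ} (hφ : V0 F φ) (n1 : ∀ᵐ ξ, nsq φ ξ = 1) {G : ℝ → ℂ}
    (hGm : Measurable G) (hG : MemLp G 2) : EE φ G ≤ qq F G := by
  have n1' : ∀ᵐ ξ, nsq φ ξ ≤ 1 := by filter_upwards [n1] with ξ hξ using hξ.le
  have hαp : ∀ (ξ : ℝ) (n : ℤ), br G φ (ξ + n) = br G φ ξ := br_add_int G φ
  have hG1m : Measurable (fun ξ => br G φ ξ * φ ξ) := (meas_br hGm hφ.meas).mul hφ.meas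
  have hG1N : N2 (fun ξ => br G φ ξ * φ ξ) = EE φ G := by
    rw [EE_eq hG hφ.mem.1 n1', N2_per hG1m.aestronglyMeasurable]
    apply lintegral_congr_ae
    filter_upwards [ae_restrict_of_ae n1] with ξ hξ
    rw [nsq_mul_per hαp, hξ, mul_one]
  have hEle := EE_le_N2 hG hφ.mem.1 n1'
  have hG1 : MemLp (fun ξ => br G φ ξ * φ ξ) 2 :=
    memLp_of_N2 hG1m.aestronglyMeasurable
      (by rw [hG1N]; exact hEle.trans_lt (N2_lt_top hG))
  have hV := hφ.mul hαp (meas_br hGm hφ.meas) hG1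
  have hsub : MemLp (fun ξ => G ξ - br G φ ξ * φ ξ) 2 := hG.sub hG1
  -- Pythagoras
  have hpy : N2 (fun ξ => G ξ - br G φ ξ * φ ξ) + EE φ G = N2 G := by
    rw [EE_eq hG hφ.mem.1 n1', N2_per hG.1, N2_per hsub.1,
      ← lintegral_add_left' (aemeas_nsq hsub.1).restrict]
    apply lintegral_congr_ae
    filter_upwards [ae_restrict_of_ae n1, ae_restrict_of_ae (ae_nsq_lt_top hG)] with ξ a b
    exact nsq_pyth b a
  -- rr F G = rr F (G - G1)
  have hrr : rr F G = rr F (fun ξ => G ξ - br G φ ξ * φ ξ) := by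
    unfold rr
    apply tsum_congr; intro j
    rw [EE_eq (memLp_dil _ hG) hw.mem.1 hw.nsq_le, EE_eq (memLp_dil _ hsub) hw.mem.1 hw.nsq_le]
    apply lintegral_congr_ae
    apply ae_restrict_of_ae
    have e : dil (j:ℤ) (fun ξ => G ξ - br G φ ξ * φ ξ) = fun ξ => dil (j:ℤ) G ξ - dil (j:ℤ) (fun ξ => br G φ ξ * φ ξ) ξ := by
      ext ξ; unfold dil; ring
    rw [e]
    filter_upwards [br_sub_ae hw.nsq_le (memLp_dil (j:ℤ) hG) (memLp_dil (j:ℤ) hG1), hV.orth j] with ξ a b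
    rw [a, b, sub_zero]
  have h1 : rr F G ≤ N2 (fun ξ => G ξ - br G φ ξ * φ ξ) := by
    rw [hrr, ← hw.rq hsub]; exact le_self_add
  have h2 : rr F G + EE φ G ≤ rr F G + qq F G := by
    rw [hw.rq hG, ← hpy]; gcongr
  have hfin : rr F G ≠ ⊤ := by
    have : rr F G ≤ N2 G := by rw [← hw.rq hG]; exact le_self_add
    exact (this.trans_lt (N2_lt_top hG)).ne
  exact (ENNReal.add_le_add_iff_left hfin).1 h2

theorem ae_of_shell {P : ℝ → Prop} (h : ∀ (r n : ℤ), ∀ᵐ ξ ∂(volume.restrict (shell r ∩ Ico (n:ℝ) (n+1))), P ξ) :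
    ∀ᵐ ξ : ℝ, P ξ := by
  have h0 : ∀ᵐ ξ : ℝ, ξ ≠ 0 := by
    have h00 : volume ({0} : Set ℝ) = 0 := by simp
    exact compl_mem_ae_iff.2 h00
  have h1 : ∀ᵐ ξ : ℝ, ∀ (r n : ℤ), ξ ∈ shell r ∩ Ico (n:ℝ) (n+1) → P ξ := by
    rw [ae_all_iff]; intro r
    rw [ae_all_iff]; intro n
    exact (ae_restrict_iff' ((shell_meas r).inter measurableSet_Ico)).1 (h r n)
  filter_upwards [h0, h1] with ξ a b
  obtain ⟨r, hr⟩ := shell_exists a
  exact b r ⌊ξ⌋ ⟨hr, Int.floor_le ξ, Int.lt_floor_add_one ξ⟩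

/-- **Lemma V**: all normalised elements of `V_0` have the same modulus. -/
theorem lemV (hw : IsPW F) (hF : Measurable F) (hd : ∀ᵐ ξ, dimf F ξ = 1) {φ : ℝ → ℂ} (hφ : V0 F φ)
    (n1 : ∀ᵐ ξ, nsq φ ξ = 1) : ∀ᵐ ξ, ‖φ ξ‖ₑ ^ 2 = sg F ξ := by
  have n1' : ∀ᵐ ξ, nsq φ ξ ≤ 1 := by filter_upwards [n1] with ξ hξ using hξ.le
  have hle : ∀ᵐ ξ, ‖φ ξ‖ₑ ^ 2 ≤ sg F ξ := by
    apply ae_of_shell
    intro r n
    apply ae_le_of_forall_setLIntegral_le_of_sigmaFinite (hφ.meas.enorm.pow_const 2)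
    intro s hs _
    set A := s ∩ (shell r ∩ Ico (n:ℝ) (n+1)) with hA
    have hAm : MeasurableSet A := hs.inter ((shell_meas r).inter measurableSet_Ico)
    rw [Measure.restrict_restrict hs, ← hA]
    have hAc : A ⊆ Ico (n:ℝ) (n+1) := fun x hx => hx.2.2
    have hAf : volume A < ⊤ := (measure_mono hAc).trans_lt (by rw [Real.volume_Ico]; exact ENNReal.ofReal_lt_top)
    have h1 := lemU hw hF hAm (r := r) (fun x hx => hx.2.1) hAc
    have h2 := lemV1 (G := chi A) hw hφ n1 (measurable_const.indicator hAm) (memLp_chi hAm hAf)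
    refine le_trans (le_of_eq ?_) (h2.trans h1)
    rw [EE_inj (memLp_chi hAm hAf) hφ.mem.1 n1']
    · rw [← lintegral_indicator hAm]
      apply lintegral_congr; intro ξ
      rw [chi_enorm]
      by_cases hx : ξ ∈ A
      · rw [indicator_of_mem hx, indicator_of_mem hx, one_mul]
      · rw [indicator_of_notMem hx, indicator_of_notMem hx, zero_mul]
    · intro ξ hξ k hk
      have hx : ξ ∈ A := by
        by_contra hc; exact hξ (chi_notMem hc)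
      apply chi_notMem
      intro hy
      have a := hAc hx
      have b := hAc hy
      have h3 : |(k:ℝ)| < 1 := by
        rw [abs_lt]; constructor <;> [linarith [a.1, a.2, b.1, b.2]; linarith [a.1, a.2, b.1, b.2]]
      have h4 : (1:ℝ) ≤ |(k:ℝ)| := by
        have : 1 ≤ |k| := Int.one_le_abs hk
        exact_mod_cast this
      linarith
  filter_upwards [ae_add_int hle, n1, hd] with ξ a b c
  have a0 := a 0
  rw [Int.cast_zero, add_zero] at a0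
  by_contra hne
  have hlt : ‖φ ξ‖ₑ ^ 2 < sg F ξ := lt_of_le_of_ne a0 hne
  have : nsq φ ξ < dimf F ξ := by
    rw [dimf_eq_sg]
    unfold nsq
    apply ENNReal.tsum_lt_tsum (i := 0)
    · change nsq φ ξ ≠ ⊤
      rw [b]; exact ENNReal.one_ne_top
    · exact a
    · rw [Int.cast_zero, add_zero]; exact hlt
  rw [b, c] at this
  exact lt_irrefl _ this


end Pool.Agent.Helper30.WD
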