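import Pool.Agent.Helper30.WD.Phi0

/-! `V_0` is singly generated. -/

set_option autoImplicit false
open MeasureTheory Filter Topology Set
open scoped ENNReal ComplexConjugate

namespace Pool.Agent.Helper30.WD

variable {F : ℝ → ℂ}

/-- norm of a combination `aφ + bh` with periodic coefficients when `h ⟂ φ` in the fibre -/
theorem nsq_comb {φ h a b : ℝ → ℂ} {ξ : ℝ} (ha : ∀ (ξ : ℝ) (n : ℤ), a (ξ + n) = a ξ)
    (hb : ∀ (ξ : ℝ) (n : ℤ), b (ξ + n) = b ξ) (hφ : nsq φ ξ < ⊤) (hh : nsq h ξ < ⊤) (hbr : br h φ ξ = 0) :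
    nsq (fun η => a η * φ η + b η * h η) ξ = ‖a ξ‖ₑ ^ 2 * nsq φ ξ + ‖b ξ‖ₑ ^ 2 * nsq h ξ := by
  have h1 : HasSum (fun n : ℤ => ‖φ (ξ + n)‖ ^ 2) (nsq φ ξ).toReal := nsq_real hφ
  have h2 : HasSum (fun n : ℤ => ‖h (ξ + n)‖ ^ 2) (nsq h ξ).toReal := nsq_real hh
  have h3 : HasSum (fun n : ℤ => h (ξ + n) * conj (φ (ξ + n))) 0 := by
    have h30 := (summable_br (G := h) (φ := φ) (ξ := ξ) hh hφ).hasSum
    have e : ∑' n : ℤ, h (ξ + n) * conj (φ (ξ + n)) = 0 := hbr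
    rw [e] at h30
    exact h30
  have h4 : HasSum (fun n : ℤ => ((conj (a ξ) * b ξ) * (h (ξ + n) * conj (φ (ξ + n)))).re) 0 := by
    have h40 := Complex.hasSum_re (h3.mul_left (conj (a ξ) * b ξ))
    rw [mul_zero, Complex.zero_re] at h40
    exact h40
  have h6 : HasSum (fun n : ℤ => ‖a ξ‖ ^ 2 * ‖φ (ξ + n)‖ ^ 2 + ‖b ξ‖ ^ 2 * ‖h (ξ + n)‖ ^ 2
          + 2 * ((conj (a ξ) * b ξ) * (h (ξ + n) * conj (φ (ξ + n)))).re)
      (‖a ξ‖ ^ 2 * (nsq φ ξ).toReal + ‖b ξ‖ ^ 2 * (nsq h ξ).toReal + 2 * 0) :=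
    ((h1.mul_left (‖a ξ‖ ^ 2)).add (h2.mul_left (‖b ξ‖ ^ 2))).add (h4.mul_left 2)
  have e : ∀ n : ℤ, ‖(fun η => a η * φ η + b η * h η) (ξ + n)‖ ^ 2
        = ‖a ξ‖ ^ 2 * ‖φ (ξ + n)‖ ^ 2 + ‖b ξ‖ ^ 2 * ‖h (ξ + n)‖ ^ 2
          + 2 * ((conj (a ξ) * b ξ) * (h (ξ + n) * conj (φ (ξ + n)))).re := by
    intro n
    have e0 : (fun η => a η * φ η + b η * h η) (ξ + n) = a ξ * φ (ξ + n) + b ξ * h (ξ + n) := by
      show a (ξ + n) * φ (ξ + n) + b (ξ + n) * h (ξ + n) = _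
      rw [ha, hb]
    rw [e0, ← Complex.normSq_eq_norm_sq, ← Complex.normSq_eq_norm_sq, ← Complex.normSq_eq_norm_sq,
      ← Complex.normSq_eq_norm_sq, ← Complex.normSq_eq_norm_sq, Complex.normSq_add, Complex.normSq_mul,
      Complex.normSq_mul, map_mul]
    have e1 : (conj (a ξ) * b ξ) * (h (ξ + n) * conj (φ (ξ + n))) = conj (a ξ * φ (ξ + n) * (conj (b ξ) * conj (h (ξ + n)))) := by
      simp only [map_mul, Complex.conj_conj]; ring
    rw [e1, Complex.conj_re]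
  have h5 : HasSum (fun n : ℤ => ‖(fun η => a η * φ η + b η * h η) (ξ + n)‖ ^ 2)
      (‖a ξ‖ ^ 2 * (nsq φ ξ).toReal + ‖b ξ‖ ^ 2 * (nsq h ξ).toReal + 2 * 0) := by
    rw [funext e]; exact h6
  have h7 : nsq (fun η => a η * φ η + b η * h η) ξ
      = ENNReal.ofReal (‖a ξ‖ ^ 2 * (nsq φ ξ).toReal + ‖b ξ‖ ^ 2 * (nsq h ξ).toReal + 2 * 0) :=
    nsq_of_real h5
  rw [h7, mul_zero, add_zero, ENNReal.ofReal_add (by positivity) (by positivity),
    ENNReal.ofReal_mul (by positivity), ENNReal.ofReal_mul (by positivity), ENNReal.ofReal_toReal hφ.ne,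
    ENNReal.ofReal_toReal hh.ne, enorm_sq_ofReal, enorm_sq_ofReal]

theorem meas_nsq {G : ℝ → ℂ} (hG : Measurable G) : Measurable (nsq G) := by
  unfold nsq
  exact Measurable.tsum (fun n => (hG.comp (measurable_add_const _)).enorm.pow_const 2)

/-- **Lemma W**: an element of `V_0` orthogonal to `φ` vanishes. -/
theorem lemW (hw : IsPW F) (hF : Measurable F) (hd : ∀ᵐ ξ, dimf F ξ = 1) {φ h : ℝ → ℂ} (hφ : V0 F φ)
    (n1 : ∀ᵐ ξ, nsq φ ξ = 1) (hh : V0 F h) (hbr : ∀ᵐ ξ, br h φ ξ = 0) : ∀ᵐ ξ, h ξ = 0 := by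
  classical
  -- the normalising coefficient
  let B : Set ℝ := {ξ | nsq h ξ ≠ 0}
  have hBm : MeasurableSet B := (meas_nsq hh.meas) (measurableSet_singleton 0).compl
  let al : ℝ → ℂ := fun ξ => (((Real.sqrt (nsq h ξ).toReal)⁻¹ : ℝ) : ℂ)
  have halm : Measurable al := by
    apply Complex.measurable_ofReal.comp
    exact ((meas_nsq hh.meas).ennreal_toReal.sqrt).inv
  have halp : ∀ (ξ : ℝ) (n : ℤ), al (ξ + n) = al ξ := by
    intro ξ n; simp only [al, nsq_add_int]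
  -- periodic coefficient functions supported on B
  let ca : ℂ → ℝ → ℂ := fun c => fun ξ => B.indicator (fun _ => c) ξ + Bᶜ.indicator (fun _ => (1:ℂ)) ξ
  let cb : ℂ → ℝ → ℂ := fun c => fun ξ => B.indicator (fun ξ => c * al ξ) ξ
  have hBp : ∀ (ξ : ℝ) (n : ℤ), (ξ + n ∈ B ↔ ξ ∈ B) := by
    intro ξ n
    change nsq h (ξ + n) ≠ 0 ↔ nsq h ξ ≠ 0
    rw [nsq_add_int]
  have hcap : ∀ (c : ℂ) (ξ : ℝ) (n : ℤ), ca c (ξ + n) = ca c ξ := by
    intro c ξ n
    simp only [ca]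
    by_cases hx : ξ ∈ B
    · rw [indicator_of_mem hx, indicator_of_mem ((hBp ξ n).2 hx),
        indicator_of_notMem (fun h' : ξ ∈ Bᶜ => h' hx), indicator_of_notMem (fun h' : ξ + n ∈ Bᶜ => h' ((hBp ξ n).2 hx))]
    · have hx' : ξ + n ∉ B := fun h' => hx ((hBp ξ n).1 h')
      rw [indicator_of_notMem hx, indicator_of_notMem hx', indicator_of_mem (show ξ ∈ Bᶜ from hx),
        indicator_of_mem (show ξ + n ∈ Bᶜ from hx')]
  have hcbp : ∀ (c : ℂ) (ξ : ℝ) (n : ℤ), cb c (ξ + n) = cb c ξ := by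
    intro c ξ n
    simp only [cb]
    by_cases hx : ξ ∈ B
    · rw [indicator_of_mem hx, indicator_of_mem ((hBp ξ n).2 hx), halp]
    · have hx' : ξ + n ∉ B := fun h' => hx ((hBp ξ n).1 h')
      rw [indicator_of_notMem hx, indicator_of_notMem hx']
  have hcam : ∀ c, Measurable (ca c) := fun c =>
    (measurable_const.indicator hBm).add (measurable_const.indicator hBm.compl)
  have hcbm : ∀ c, Measurable (cb c) := fun c => (halm.const_mul c).indicator hBm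
  have hfin := ae_nsq_lt_top hh.mem
  -- normalised combinations
  have hal2 : ∀ ξ, nsq h ξ ≠ 0 → nsq h ξ < ⊤ → ‖al ξ‖ₑ ^ 2 * nsq h ξ = 1 := by
    intro ξ h0 h1
    have hp : 0 < (nsq h ξ).toReal := ENNReal.toReal_pos h0 h1.ne
    have e : ‖al ξ‖ₑ ^ 2 = ENNReal.ofReal ((nsq h ξ).toReal)⁻¹ := by
      rw [enorm_sq_ofReal]
      congr 1
      simp only [al]
      rw [Complex.norm_real, Real.norm_of_nonneg (by positivity), inv_pow, Real.sq_sqrt hp.le]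
    rw [e, ENNReal.ofReal_inv_of_pos hp, ENNReal.ofReal_toReal h1.ne, ENNReal.inv_mul_cancel h0 h1.ne]
  have hcomb : ∀ c d : ℂ, ‖c‖ₑ ^ 2 + ‖d‖ₑ ^ 2 = 1 →
      ∀ᵐ ξ, nsq (fun ξ => ca c ξ * φ ξ + cb d ξ * h ξ) ξ = 1 := by
    intro c d hcd
    filter_upwards [n1, hfin, hbr] with ξ a1 a2 a3
    rw [nsq_comb (hcap c) (hcbp d) (by rw [a1]; exact ENNReal.one_lt_top) a2 a3, a1, mul_one]
    simp only [ca, cb]
    by_cases hx : ξ ∈ B
    · rw [indicator_of_mem hx, indicator_of_notMem (fun h' : ξ ∈ Bᶜ => h' hx), indicator_of_mem hx, add_zero,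
        enorm_mul, mul_pow, mul_assoc, hal2 ξ hx a2, mul_one, hcd]
    · rw [indicator_of_notMem hx, indicator_of_mem (show ξ ∈ Bᶜ from hx), indicator_of_notMem hx, zero_add]
      simp
  have hmod : ∀ c d : ℂ, ‖c‖ₑ ^ 2 + ‖d‖ₑ ^ 2 = 1 →
      ∀ᵐ ξ, ‖ca c ξ * φ ξ + cb d ξ * h ξ‖ₑ ^ 2 = sg F ξ := by
    intro c d hcd
    have hcle : ‖c‖ₑ ^ 2 ≤ 1 := by rw [← hcd]; exact le_self_add
    have hdle : ‖d‖ₑ ^ 2 ≤ 1 := by rw [← hcd]; exact le_add_self
    have m1 : MemLp (fun ξ => ca c ξ * φ ξ) 2 := by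
      have hmm : Measurable (fun ξ => ca c ξ * φ ξ) := (hcam c).mul hφ.meas
      apply memLp_of_N2 hmm.aestronglyMeasurable
      refine lt_of_le_of_lt ?_ (N2_lt_top hφ.mem)
      unfold N2
      apply lintegral_mono; intro ξ
      simp only
      rw [enorm_mul, mul_pow]
      have : ‖ca c ξ‖ₑ ^ 2 ≤ 1 := by
        simp only [ca]
        by_cases hx : ξ ∈ B
        · rw [indicator_of_mem hx, indicator_of_notMem (fun h' : ξ ∈ Bᶜ => h' hx), add_zero]; exact hcle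
        · rw [indicator_of_notMem hx, indicator_of_mem (show ξ ∈ Bᶜ from hx), zero_add]; simp
      calc ‖ca c ξ‖ₑ ^ 2 * ‖φ ξ‖ₑ ^ 2 ≤ 1 * ‖φ ξ‖ₑ ^ 2 := by gcongr
        _ = _ := one_mul _
    have m2 : MemLp (fun ξ => cb d ξ * h ξ) 2 := by
      have hmm : Measurable (fun ξ => cb d ξ * h ξ) := (hcbm d).mul hh.meas
      apply memLp_of_N2 hmm.aestronglyMeasurable
      rw [N2_per hmm.aestronglyMeasurable]
      calc ∫⁻ ξ in Ioc (0:ℝ) 1, nsq (fun ξ => cb d ξ * h ξ) ξ ≤ ∫⁻ ξ in Ioc (0:ℝ) 1, 1 := by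
            apply lintegral_mono_ae
            filter_upwards [ae_restrict_of_ae hfin] with ξ a2
            rw [nsq_mul_per (hcbp d)]
            simp only [cb]
            by_cases hx : ξ ∈ B
            · rw [indicator_of_mem hx, enorm_mul, mul_pow, mul_assoc, hal2 ξ hx a2, mul_one]; exact hdle
            · rw [indicator_of_notMem hx]; simp
        _ < ⊤ := by simp
    have v1 := hφ.mul (hcap c) (hcam c) m1
    have v2 := hh.mul (hcbp d) (hcbm d) m2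
    exact lemV hw hF hd (v1.add hw v2) (hcomb c d hcd)
  -- use three combinations
  have hs2 : ‖(((Real.sqrt 2)⁻¹ : ℝ) : ℂ)‖ₑ ^ 2 = ENNReal.ofReal (1/2) := by
    rw [enorm_sq_ofReal]; congr 1
    rw [Complex.norm_real, Real.norm_of_nonneg (by positivity), inv_pow, Real.sq_sqrt (by norm_num)]; norm_num
  have hhalf : ENNReal.ofReal (1/2) + ENNReal.ofReal (1/2) = 1 := by
    rw [← ENNReal.ofReal_add (by norm_num) (by norm_num)]; norm_num
  have k1 := hmod 0 1 (by simp)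
  have k2 := hmod (((Real.sqrt 2)⁻¹ : ℝ) : ℂ) (((Real.sqrt 2)⁻¹ : ℝ) : ℂ) (by rw [hs2, hhalf])
  have k3 := hmod (((Real.sqrt 2)⁻¹ : ℝ) : ℂ) ((((Real.sqrt 2)⁻¹ : ℝ) : ℂ) * Complex.I) (by
    rw [enorm_mul, mul_pow]
    have : ‖Complex.I‖ₑ ^ 2 = 1 := by rw [enorm_sq_ofReal]; simp
    rw [this, mul_one, hs2, hhalf])
  have k0 := lemV hw hF hd hφ n1
  -- on B, φ vanishes
  have hφB : ∀ᵐ ξ, ξ ∈ B → φ ξ = 0 := by
    filter_upwards [k0, k1, k2, k3] with ξ a0 a1 a2 a3 hx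
    simp only [ca, cb, indicator_of_mem hx, indicator_of_notMem (fun h' : ξ ∈ Bᶜ => h' hx), add_zero] at a1 a2 a3
    set x := φ ξ with hxdef
    set y := al ξ * h ξ with hydef
    set s : ℂ := (((Real.sqrt 2)⁻¹ : ℝ) : ℂ) with hsdef
    have b1 : ‖y‖ₑ ^ 2 = ‖x‖ₑ ^ 2 := by
      rw [a0, ← a1, hydef]; congr 2; ring
    have b2 : ENNReal.ofReal (1/2) * ‖x + y‖ₑ ^ 2 = ‖x‖ₑ ^ 2 := by
      rw [a0, ← a2, ← hs2, ← mul_pow, ← enorm_mul]; congr 2; rw [hydef]; ring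
    have b3 : ENNReal.ofReal (1/2) * ‖x + Complex.I * y‖ₑ ^ 2 = ‖x‖ₑ ^ 2 := by
      rw [a0, ← a3, ← hs2, ← mul_pow, ← enorm_mul]; congr 2; rw [hydef]; ring
    simp only [enorm_sq_ofReal] at b1 b2 b3
    rw [← ENNReal.ofReal_mul (by norm_num)] at b2 b3
    rw [ENNReal.ofReal_eq_ofReal_iff (by positivity) (by positivity)] at b1 b2 b3
    rw [← Complex.normSq_eq_norm_sq, ← Complex.normSq_eq_norm_sq] at b1 b2 b3
    simp only [Complex.normSq_apply, Complex.add_re, Complex.add_im, Complex.mul_re, Complex.mul_im,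
      Complex.I_re, Complex.I_im] at b1 b2 b3
    -- real and imaginary parts of x conj y vanish
    have c1 : x.re * y.re + x.im * y.im = 0 := by nlinarith
    have c2 : x.im * y.re - x.re * y.im = 0 := by nlinarith
    have c3 : (x.re * x.re + x.im * x.im) * (y.re * y.re + y.im * y.im) = 0 := by
      have : (x.re * x.re + x.im * x.im) * (y.re * y.re + y.im * y.im)
          = (x.re * y.re + x.im * y.im) ^ 2 + (x.im * y.re - x.re * y.im) ^ 2 := by ring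
      rw [this, c1, c2]; ring
    rw [b1] at c3
    have c4 : x.re * x.re + x.im * x.im = 0 := by
      rcases mul_eq_zero.1 c3 with h' | h' <;> exact h'
    have c5 : x.re = 0 := by nlinarith [mul_self_nonneg x.re, mul_self_nonneg x.im]
    have c6 : x.im = 0 := by nlinarith [mul_self_nonneg x.re, mul_self_nonneg x.im]
    exact Complex.ext c5 c6
  filter_upwards [ae_add_int hφB, n1] with ξ a b
  by_contra hne
  have hxB : ξ ∈ B := by
    change nsq h ξ ≠ 0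
    intro h0
    have := nsq_ge h ξ
    rw [h0] at this
    apply hne
    have h1 : ‖h ξ‖ₑ ^ 2 = 0 := le_antisymm this zero_le
    simpa using h1
  have : nsq φ ξ = 0 := by
    unfold nsq
    rw [ENNReal.tsum_eq_zero]
    intro n
    rw [a n ((hBp ξ n).2 hxB)]; simp
  rw [b] at this
  exact one_ne_zero this

/-- **Lemma X**: `V_0` is generated by `φ`. -/
theorem lemX (hw : IsPW F) (hF : Measurable F) (hd : ∀ᵐ ξ, dimf F ξ = 1) {φ G : ℝ → ℂ} (hφ : V0 F φ)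
    (n1 : ∀ᵐ ξ, nsq φ ξ = 1) (hG : V0 F G) : ∀ᵐ ξ, G ξ = br G φ ξ * φ ξ := by
  have n1' : ∀ᵐ ξ, nsq φ ξ ≤ 1 := by filter_upwards [n1] with ξ hξ using hξ.le
  have hG1m : Measurable (fun ξ => br G φ ξ * φ ξ) := (meas_br hG.meas hφ.meas).mul hφ.meas
  have hG1 : MemLp (fun ξ => br G φ ξ * φ ξ) 2 := by
    apply memLp_of_N2 hG1m.aestronglyMeasurable
    rw [N2_per hG1m.aestronglyMeasurable]
    refine lt_of_le_of_lt ?_ (N2_lt_top hG.mem)
    rw [N2_per hG.mem.1]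
    apply lintegral_mono_ae
    filter_upwards [ae_restrict_of_ae n1] with ξ hξ
    rw [nsq_mul_per (br_add_int G φ), hξ, mul_one]
    calc ‖br G φ ξ‖ₑ ^ 2 ≤ nsq G ξ * nsq φ ξ := br_sq_le G φ ξ
      _ = nsq G ξ := by rw [hξ, mul_one]
  have hV := hφ.mul (br_add_int G φ) (meas_br hG.meas hφ.meas) hG1
  have hsub := hG.sub hw hV
  have := lemW hw hF hd hφ n1 hsub (by
    filter_upwards [br_sub_ae n1' hG.mem hG1, n1] with ξ a b
    rw [a]
    have e : br (fun ξ => br G φ ξ * φ ξ) φ ξ = br G φ ξ * br φ φ ξ := by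
      have e3 : ∀ n : ℤ, (fun η => br G φ η * φ η) (ξ + n) * conj (φ (ξ + n))
          = br G φ ξ * (φ (ξ + n) * conj (φ (ξ + n))) := by
        intro n
        show br G φ (ξ + n) * φ (ξ + n) * conj (φ (ξ + n)) = _
        rw [br_add_int]; ring
      show ∑' n : ℤ, (fun η => br G φ η * φ η) (ξ + n) * conj (φ (ξ + n)) = br G φ ξ * ∑' n : ℤ, φ (ξ + n) * conj (φ (ξ + n))
      rw [tsum_congr e3, tsum_mul_left]
    have e2 : br φ φ ξ = 1 := by
      have h1 := nsq_real (G := φ) (ξ := ξ) (by rw [b]; exact ENNReal.one_lt_top)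
      rw [b, ENNReal.toReal_one] at h1
      have h2 : HasSum (fun n : ℤ => φ (ξ + n) * conj (φ (ξ + n))) ((1:ℝ) : ℂ) := by
        have := Complex.hasSum_ofReal.2 h1
        convert! this using 2 with n
        rw [Complex.mul_conj, Complex.normSq_eq_norm_sq]
      rw [Complex.ofReal_one] at h2
      exact h2.tsum_eq
    rw [e, e2, mul_one, sub_self])
  filter_upwards [this] with ξ hξ
  exact sub_eq_zero.1 hξ

end Pool.Agent.Helper30.WD
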