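import Pool.Agent.Helper30.WD.Phi1

/-! Calderón condition and construction of the scaling function. -/

set_option autoImplicit false
open MeasureTheory Filter Topology Set
open scoped ENNReal ComplexConjugate

namespace Pool.Agent.Helper30.WD

variable {F : ℝ → ℂ}

theorem EE_smul (c : ℂ) (F G : ℝ → ℂ) : EE F (fun ξ => c * G ξ) = ‖c‖ₑ ^ 2 * EE F G := by
  unfold EE
  rw [← ENNReal.tsum_mul_left]
  apply tsum_congr; intro k
  have e : ∀ ξ, c * G ξ * conj (F ξ) * ek k ξ = c * (G ξ * conj (F ξ) * ek k ξ) := by intro ξ; ring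
  simp only [e]
  rw [integral_const_mul, enorm_mul, mul_pow]

theorem qq_smul (c : ℂ) (F G : ℝ → ℂ) : qq F (fun ξ => c * G ξ) = ‖c‖ₑ ^ 2 * qq F G := by
  unfold qq
  rw [← ENNReal.tsum_mul_left]
  apply tsum_congr; intro j
  rw [dil_const_mul, EE_smul]

theorem dil_chi (n : ℕ) (A : Set ℝ) :
    dil (n:ℤ) (chi A) = fun ξ => (((2:ℝ) ^ (((n:ℤ):ℝ) / 2) : ℝ) : ℂ) * chi {ξ | (2:ℝ) ^ n * ξ ∈ A} ξ := by
  ext ξ
  unfold dil
  congr 1

theorem qq_dil_chi_le (hw : IsPW F) (hF : Measurable F) {A : Set ℝ} (hA : MeasurableSet A) {r : ℤ}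
    (hAr : A ⊆ shell r) {n : ℕ} (hn : r + 1 ≤ (n:ℤ) - 1) :
    qq F (dil (n:ℤ) (chi A)) ≤ ∫⁻ ξ in A, sg F (ξ / 2 ^ n) := by
  rw [dil_chi, qq_smul, sq_coef, zpow_natCast]
  set B : Set ℝ := {ξ | (2:ℝ) ^ n * ξ ∈ A} with hB
  have hBm : MeasurableSet B := measurable_const_mul _ hA
  have hp : (0:ℝ) < 2 ^ n := by positivity
  have hBr : B ⊆ shell (r - n) := by
    intro ξ hξ
    have h1 := hAr (show (2:ℝ) ^ n * ξ ∈ A from hξ)
    have h2 := h1.1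
    have h3 := h1.2
    rw [abs_mul, abs_of_pos hp] at h2 h3
    constructor
    · rw [zpow_sub₀ (by norm_num), zpow_natCast, div_le_iff₀ hp, mul_comm]; exact h2
    · rw [show r - (n:ℤ) + 1 = (r + 1) - n by ring, zpow_sub₀ (by norm_num), zpow_natCast, lt_div_iff₀ hp, mul_comm]
      exact h3
  have hBc : B ⊆ Ico (-(1/2):ℝ) (-(1/2)+1) := by
    intro ξ hξ
    have h1 := (hBr hξ).2
    have h2 : (2:ℝ) ^ (r - (n:ℤ) + 1) ≤ 1/2 := by
      calc (2:ℝ) ^ (r - (n:ℤ) + 1) ≤ (2:ℝ) ^ (-1:ℤ) := by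
            apply zpow_le_zpow_right₀ (by norm_num); omega
        _ = 1/2 := by norm_num
    have h3 := abs_lt.1 (h1.trans_le h2)
    constructor
    · exact h3.1.le
    · linarith [h3.2]
  have h1 := lemU hw hF hBm hBr hBc
  calc ENNReal.ofReal ((2:ℝ) ^ n) * qq F (chi B) ≤ ENNReal.ofReal ((2:ℝ) ^ n) * ∫⁻ ξ in B, sg F ξ := by gcongr
    _ = ∫⁻ ξ in A, sg F (ξ / 2 ^ n) := by
      rw [← lintegral_indicator hBm, ← lintegral_indicator hA]
      have e : ∀ ξ, B.indicator (sg F) ξ = (fun η => A.indicator (fun η => sg F (η / 2 ^ n)) η) ((2:ℝ) ^ n * ξ) := by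
        intro ξ
        simp only
        by_cases h : (2:ℝ) ^ n * ξ ∈ A
        · rw [indicator_of_mem h, indicator_of_mem (show ξ ∈ B from h), mul_div_cancel_left₀ _ hp.ne']
        · rw [indicator_of_notMem h, indicator_of_notMem (show ξ ∉ B from h)]
      simp only [e]
      rw [lintegral_comp_mul (fun η => A.indicator (fun η => sg F (η / 2 ^ n)) η) hp, ← mul_assoc,
        ← ENNReal.ofReal_mul (by positivity), mul_inv_cancel₀ hp.ne', ENNReal.ofReal_one, one_mul]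

theorem sg_half (F : ℝ → ℂ) (ξ : ℝ) : sg F (ξ / 2) = ‖F ξ‖ₑ ^ 2 + sg F ξ := by
  unfold sg
  rw [tsum_eq_zero_add' ENNReal.summable]
  congr 1
  · congr 3; ring
  · apply tsum_congr; intro j
    congr 3; rw [pow_succ]; ring

theorem sg_mono (F : ℝ → ℂ) (ξ : ℝ) : Monotone (fun n : ℕ => sg F (ξ / 2 ^ n)) := by
  apply monotone_nat_of_le_succ
  intro n
  have : ξ / 2 ^ (n+1) = (ξ / 2 ^ n) / 2 := by rw [pow_succ]; field_simp
  rw [this, sg_half]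
  exact le_add_self

/-- Calderón condition (lower bound) -/
theorem sg_sup (hw : IsPW F) (hF : Measurable F) : ∀ᵐ ξ, 1 ≤ ⨆ n : ℕ, sg F (ξ / 2 ^ n) := by
  have hm : ∀ n : ℕ, Measurable (fun ξ => sg F (ξ / 2 ^ n)) := fun n =>
    (sg_meas hF).comp (measurable_div_const _)
  apply ae_of_shell
  intro r l
  apply ae_le_of_forall_setLIntegral_le_of_sigmaFinite measurable_const
  intro s hs _
  set A := s ∩ (shell r ∩ Ico (l:ℝ) (l+1)) with hA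
  have hAm : MeasurableSet A := hs.inter ((shell_meas r).inter measurableSet_Ico)
  rw [Measure.restrict_restrict hs, ← hA]
  have hAc : A ⊆ Ico (l:ℝ) (l+1) := fun x hx => hx.2.2
  have hAr : A ⊆ shell r := fun x hx => hx.2.1
  have hAf : volume A < ⊤ := (measure_mono hAc).trans_lt (by rw [Real.volume_Ico]; exact ENNReal.ofReal_lt_top)
  have hG := memLp_chi hAm hAf
  rw [setLIntegral_const, one_mul, ← N2_chi hAm]
  have h1 : ∀ n : ℕ, N2 (chi A) = rr F (dil (n:ℤ) (chi A)) + qq F (dil (n:ℤ) (chi A)) := by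
    intro n
    rw [hw.rq (memLp_dil _ hG), N2_dil]
  have h2 : ∀ᶠ n : ℕ in atTop, N2 (chi A) ≤ rr F (dil (n:ℤ) (chi A)) + ∫⁻ ξ in A, ⨆ n : ℕ, sg F (ξ / 2 ^ n) := by
    filter_upwards [eventually_ge_atTop ((r + 2).toNat)] with n hn
    rw [h1 n]
    gcongr
    refine (qq_dil_chi_le hw hF hAm hAr (by omega)).trans ?_
    apply lintegral_mono; intro ξ
    exact le_iSup (fun n : ℕ => sg F (ξ / 2 ^ n)) n
  have h3 : Tendsto (fun n : ℕ => rr F (dil (n:ℤ) (chi A)) + ∫⁻ ξ in A, ⨆ n : ℕ, sg F (ξ / 2 ^ n)) atTop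
      (𝓝 (0 + ∫⁻ ξ in A, ⨆ n : ℕ, sg F (ξ / 2 ^ n))) := (tendsto_rr hw hG).add tendsto_const_nhds
  rw [zero_add] at h3
  exact ge_of_tendsto h3 h2

theorem lim_of_sg (hw : IsPW F) (hF : Measurable F) {φ : ℝ → ℂ} (h : ∀ᵐ ξ, ‖φ ξ‖ₑ ^ 2 = sg F ξ)
    (n1 : ∀ᵐ ξ, nsq φ ξ = 1) : ∀ᵐ ξ : ℝ, Tendsto (fun j : ℕ => ‖φ (ξ / 2 ^ j)‖) atTop (𝓝 1) := by
  have k1 : ∀ᵐ ξ : ℝ, ∀ n : ℕ, ‖φ (ξ / 2 ^ n)‖ₑ ^ 2 = sg F (ξ / 2 ^ n) ∧ nsq φ (ξ / 2 ^ n) = 1 := by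
    rw [ae_all_iff]; intro n
    have := ae_scale (P := fun ξ => ‖φ ξ‖ₑ ^ 2 = sg F ξ ∧ nsq φ ξ = 1) (by filter_upwards [h, n1] with ξ a b using ⟨a, b⟩)
      ((2:ℝ) ^ n)⁻¹ (by positivity)
    filter_upwards [this] with ξ hξ
    rw [div_eq_inv_mul]; exact hξ
  filter_upwards [k1, sg_sup hw hF] with ξ a b
  have hle : ∀ n : ℕ, sg F (ξ / 2 ^ n) ≤ 1 := by
    intro n
    rw [← (a n).1, ← (a n).2]; exact nsq_ge φ _
  have hsup : ⨆ n : ℕ, sg F (ξ / 2 ^ n) = 1 := le_antisymm (iSup_le hle) b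
  have ht := tendsto_atTop_iSup (sg_mono F ξ)
  rw [hsup] at ht
  have h2 : Tendsto (fun n : ℕ => (‖φ (ξ / 2 ^ n)‖ₑ ^ 2).toReal) atTop (𝓝 (1:ℝ≥0∞).toReal) := by
    apply (ENNReal.tendsto_toReal ENNReal.one_ne_top).comp
    simpa only [(a _).1] using ht
  have h3 : ∀ n : ℕ, (‖φ (ξ / 2 ^ n)‖ₑ ^ 2).toReal = ‖φ (ξ / 2 ^ n)‖ ^ 2 := by
    intro n; rw [enorm_sq_ofReal, ENNReal.toReal_ofReal (by positivity)]
  simp only [h3, ENNReal.toReal_one] at h2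
  have h4 := (Real.continuous_sqrt.tendsto _).comp h2
  rw [Real.sqrt_one] at h4
  refine h4.congr (fun n => ?_)
  simp only [Function.comp]
  rw [Real.sqrt_sq (norm_nonneg _)]

end Pool.Agent.Helper30.WD
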