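import Pool.Agent.Helper30.WD.Phi2

/-! Construction of the scaling function. -/

set_option autoImplicit false
open MeasureTheory Filter Topology Set
open scoped ENNReal ComplexConjugate

namespace Pool.Agent.Helper30.WD

variable {F : ℝ → ℂ}

/-- `F(2^{j+1} ·)` -/
noncomputable def Gj (F : ℝ → ℂ) (j : ℕ) (ξ : ℝ) : ℂ := F ((2:ℝ) ^ (j+1) * ξ)

open Classical in
/-- first index with non-vanishing fibre -/
theorem first_ex (F : ℝ → ℂ) (ξ : ℝ) : ∃ j : ℕ, nsq (Gj F j) ξ ≠ 0 ∨ (∀ i, nsq (Gj F i) ξ = 0) := by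
  by_cases h : ∃ j, nsq (Gj F j) ξ ≠ 0
  · obtain ⟨j, hj⟩ := h; exact ⟨j, Or.inl hj⟩
  · push Not at h
    exact ⟨0, Or.inr h⟩

open Classical in
noncomputable def NN (F : ℝ → ℂ) (ξ : ℝ) : ℕ := Nat.find (first_ex F ξ)

theorem Gj_meas (hF : Measurable F) (j : ℕ) : Measurable (Gj F j) := hF.comp (measurable_const_mul _)

theorem NN_meas (hF : Measurable F) : Measurable (NN F) := by
  classical
  have h : ∀ k, MeasurableSet {ξ : ℝ | nsq (Gj F k) ξ ≠ 0 ∨ (∀ i, nsq (Gj F i) ξ = 0)} := by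
    intro k
    apply MeasurableSet.union
    · exact (meas_nsq (Gj_meas hF k)) (measurableSet_singleton 0).compl
    · have e : {ξ | ∀ i, nsq (Gj F i) ξ = 0} = ⋂ i, {ξ | nsq (Gj F i) ξ = 0} := by ext ξ; simp
      have : MeasurableSet {ξ | ∀ i, nsq (Gj F i) ξ = 0} := by
        rw [e]
        exact MeasurableSet.iInter (fun i => (meas_nsq (Gj_meas hF i)) (measurableSet_singleton 0))
      exact this
  exact measurable_find (first_ex F) h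

theorem NN_add_int (F : ℝ → ℂ) (ξ : ℝ) (n : ℤ) : NN F (ξ + n) = NN F ξ := by
  classical
  unfold NN
  congr 1
  ext j
  simp only [nsq_add_int]

theorem NN_spec {ξ : ℝ} (h : dimf F ξ ≠ 0) : nsq (Gj F (NN F ξ)) ξ ≠ 0 := by
  classical
  rcases Nat.find_spec (first_ex F ξ) with h1 | h1
  · exact h1
  · exfalso
    apply h
    unfold dimf
    rw [ENNReal.tsum_eq_zero]
    exact h1

/-- the scaling function -/
noncomputable def phi0 (F : ℝ → ℂ) (ξ : ℝ) : ℂ :=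
  (((Real.sqrt (nsq (Gj F (NN F ξ)) ξ).toReal)⁻¹ : ℝ) : ℂ) * Gj F (NN F ξ) ξ

theorem phi0_meas (hF : Measurable F) : Measurable (phi0 F) := by
  have h1 : Measurable (fun p : ℕ × ℝ => (((Real.sqrt (nsq (Gj F p.1) p.2).toReal)⁻¹ : ℝ) : ℂ) * Gj F p.1 p.2) := by
    apply measurable_from_prod_countable_right
    intro j
    have h2 : Measurable (fun ξ : ℝ => (Real.sqrt (nsq (Gj F j) ξ).toReal)⁻¹) :=
      ((meas_nsq (Gj_meas hF j)).ennreal_toReal.sqrt).inv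
    have h3 : Measurable (fun ξ : ℝ => (((Real.sqrt (nsq (Gj F j) ξ).toReal)⁻¹ : ℝ) : ℂ)) :=
      Complex.measurable_ofReal.comp h2
    exact h3.mul (Gj_meas hF j)
  have h4 : Measurable (fun ξ : ℝ => (NN F ξ, ξ)) := (NN_meas hF).prodMk measurable_id
  have e : phi0 F = (fun p : ℕ × ℝ => (((Real.sqrt (nsq (Gj F p.1) p.2).toReal)⁻¹ : ℝ) : ℂ) * Gj F p.1 p.2) ∘ (fun ξ : ℝ => (NN F ξ, ξ)) := by
    ext ξ
    simp only [Function.comp, phi0]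
  rw [e]
  exact h1.comp h4

theorem phi0_nsq (hd : ∀ᵐ ξ, dimf F ξ = 1) : ∀ᵐ ξ, nsq (phi0 F) ξ = 1 := by
  filter_upwards [hd] with ξ h
  have h0 := NN_spec (F := F) (ξ := ξ) (by rw [h]; exact one_ne_zero)
  have h1 : nsq (Gj F (NN F ξ)) ξ ≤ 1 := by
    rw [← h]; unfold dimf
    exact ENNReal.le_tsum (f := fun j => nsq (Gj F j) ξ) (NN F ξ)
  have h2 : nsq (Gj F (NN F ξ)) ξ < ⊤ := h1.trans_lt ENNReal.one_lt_top
  have hp : 0 < (nsq (Gj F (NN F ξ)) ξ).toReal := ENNReal.toReal_pos h0 h2.ne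
  have e : nsq (phi0 F) ξ = ‖(((Real.sqrt (nsq (Gj F (NN F ξ)) ξ).toReal)⁻¹ : ℝ) : ℂ)‖ₑ ^ 2 * nsq (Gj F (NN F ξ)) ξ := by
    conv_lhs => unfold nsq
    conv_rhs => rw [show nsq (Gj F (NN F ξ)) ξ = ∑' n : ℤ, ‖Gj F (NN F ξ) (ξ + n)‖ₑ ^ 2 from rfl]
    rw [← ENNReal.tsum_mul_left]
    apply tsum_congr; intro n
    unfold phi0
    rw [NN_add_int, nsq_add_int, enorm_mul, mul_pow]
    rfl
  rw [e, enorm_sq_ofReal, Complex.norm_real, Real.norm_of_nonneg (by positivity), inv_pow, Real.sq_sqrt hp.le,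
    ENNReal.ofReal_inv_of_pos hp, ENNReal.ofReal_toReal h2.ne, ENNReal.inv_mul_cancel h0 h2.ne]

theorem phi0_V0 (hw : IsPW F) (hF : Measurable F) (hd : ∀ᵐ ξ, dimf F ξ = 1) : V0 F (phi0 F) := by
  refine ⟨phi0_meas hF, ?_, fun j => ?_⟩
  · apply memLp_of_N2 (phi0_meas hF).aestronglyMeasurable
    rw [N2_per (phi0_meas hF).aestronglyMeasurable]
    rw [lintegral_congr_ae (ae_restrict_of_ae (phi0_nsq hd))]
    simp
  · have h1 : ∀ᵐ ξ, ∀ i : ℕ, br (dil (j:ℤ) (Gj F i)) F ξ = 0 := by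
      rw [ae_all_iff]; intro i
      exact (V0_comp_pow_F hw hF i).orth j
    filter_upwards [h1] with ξ hξ
    have h2 := hξ (NN F ((2:ℝ) ^ (j:ℤ) * ξ))
    set i := NN F ((2:ℝ) ^ (j:ℤ) * ξ) with hi
    set c : ℂ := (((Real.sqrt (nsq (Gj F i) ((2:ℝ) ^ (j:ℤ) * ξ)).toReal)⁻¹ : ℝ) : ℂ) with hc
    have e : ∀ n : ℤ, dil (j:ℤ) (phi0 F) (ξ + n) = c * dil (j:ℤ) (Gj F i) (ξ + n) := by
      intro n
      have e1 : phi0 F ((2:ℝ) ^ (j:ℤ) * (ξ + n)) = c * Gj F i ((2:ℝ) ^ (j:ℤ) * (ξ + n)) := by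
        unfold phi0
        rw [per_pow (NN_add_int F) j ξ n, ← hi, per_pow (nsq_add_int (Gj F i)) j ξ n]
      unfold dil
      rw [e1]; ring
    unfold br at h2 ⊢
    have e2 : ∀ n : ℤ, dil (j:ℤ) (phi0 F) (ξ + n) * conj (F (ξ + n)) = c * (dil (j:ℤ) (Gj F i) (ξ + n) * conj (F (ξ + n))) := by
      intro n; rw [e]; ring
    rw [tsum_congr e2, tsum_mul_left, h2, mul_zero]

theorem exists_MRA (hw : IsPW F) (hF : Measurable F) (hd : ∀ᵐ ξ, dimf F ξ = 1) :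
    ∃ φ m μ : ℝ → ℂ, IsMRA φ m μ ∧ F =ᵐ[volume] wav φ μ := by
  have hV := phi0_V0 hw hF hd
  have hn := phi0_nsq hd
  set φ := phi0 F with hφ
  have hn' : ∀ᵐ ξ, nsq φ ξ < ⊤ := by filter_upwards [hn] with ξ h; rw [h]; exact ENNReal.one_lt_top
  have hφm : Measurable φ := phi0_meas hF
  have hφ2 := hV.comp_two
  have hF2 := V0_comp_two_F hw hF
  have r1 := lemX hw hF hd hV hn hφ2
  have r2 := lemX hw hF hd hV hn hF2
  set m : ℝ → ℂ := br (fun ξ => φ (2 * ξ)) φ with hm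
  set μ : ℝ → ℂ := br (fun ξ => F (2 * ξ)) φ with hμ
  have mm : Measurable m := meas_br hφ2.meas hφm
  have μm : Measurable μ := meas_br hF2.meas hφm
  have mper : ∀ (ξ : ℝ) (n : ℤ), m (ξ + n) = m ξ := br_add_int _ _
  have μper : ∀ (ξ : ℝ) (n : ℤ), μ (ξ + n) = μ ξ := br_add_int _ _
  have n2 := ae_scale hn 2 (by norm_num)
  have nh := ae_half hn
  have u1 : ∀ᵐ ξ : ℝ, ‖m ξ‖ₑ ^ 2 + ‖m (ξ + 1/2)‖ₑ ^ 2 = 1 := by
    filter_upwards [ae_add_int r1, ae_half (ae_add_int r1), hn, nh, n2] with ξ a b c d e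
    have := nsq_two (φ := φ) (ψ := φ) (ν := m) (ξ := ξ) mper a b
    rw [e, c, d, mul_one, mul_one] at this
    exact this.symm
  have u2 : ∀ᵐ ξ : ℝ, ‖μ ξ‖ₑ ^ 2 + ‖μ (ξ + 1/2)‖ₑ ^ 2 = 1 := by
    filter_upwards [ae_add_int r2, ae_half (ae_add_int r2), hn, nh, ae_scale hw.nsq_one 2 (by norm_num)] with ξ a b c d e
    have := nsq_two (φ := φ) (ψ := F) (ν := μ) (ξ := ξ) μper a b
    rw [e, c, d, mul_one, mul_one] at this
    exact this.symm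
  have hdil : dil 1 φ = fun ξ => (((2:ℝ) ^ ((1:ℝ)/2) : ℝ) : ℂ) * (fun η => φ (2 * η)) ξ := by
    ext ξ; unfold dil; norm_num
  have hs : ∀ᵐ ξ, nsq (dil 1 φ) ξ < ⊤ := ae_nsq_lt_top (memLp_dil 1 hV.mem)
  have u3 : ∀ᵐ ξ : ℝ, m ξ * conj (μ ξ) + m (ξ + 1/2) * conj (μ (ξ + 1/2)) = 0 := by
    have h0 := ae_scale (hV.orth 0) 2 (by norm_num)
    filter_upwards [ae_add_int r2, ae_half (ae_add_int r2), hn', ae_half hn', hs, ae_half hs, h0] with ξ a b c d e f g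
    have := br_two (G := φ) (φ := φ) (ψ := F) (ν := μ) (ξ := ξ) μper a b
      (summable_br e c) (summable_br f d)
    rw [Nat.cast_zero, dil_zero, this, hdil, br_smul, br_smul] at g
    have hc1 : (((2:ℝ) ^ (-(1:ℝ)/2) : ℝ) : ℂ) ≠ 0 := by
      rw [Complex.ofReal_ne_zero]; positivity
    have hc2 : (((2:ℝ) ^ ((1:ℝ)/2) : ℝ) : ℂ) ≠ 0 := by
      rw [Complex.ofReal_ne_zero]; positivity
    rcases mul_eq_zero.1 g with g | g
    · exact absurd g hc1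
    · have g2 : (((2:ℝ) ^ ((1:ℝ)/2) : ℝ) : ℂ) * (m ξ * conj (μ ξ) + m (ξ + 1/2) * conj (μ (ξ + 1/2))) = 0 := by
        rw [← g]; ring
      rcases mul_eq_zero.1 g2 with g2 | g2
      · exact absurd g2 hc2
      · exact g2
  refine ⟨φ, m, μ, ⟨hφm, mm, μm, mper, μper, hn, r1, u1, u2, u3, ?_⟩, ?_⟩
  · exact lim_of_sg hw hF (lemV hw hF hd hV hn) hn
  · have := ae_scale r2 (1/2) (by norm_num)
    filter_upwards [this] with ξ hξ
    unfold wav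
    rw [show ξ / 2 = 1 / 2 * ξ by ring, ← hξ]
    congr 1; ring

end Pool.Agent.Helper30.WD
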