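import Pool.Agent.Helper30.WD.Path

/-! Existence of a generalized scaling set for every `D` with (D1)–(D4). -/

set_option autoImplicit false
open MeasureTheory Filter Topology Set
open scoped ENNReal ComplexConjugate

namespace Pool.Agent.Helper30.WD.Scal

/-- stages of the greedy construction -/
def T (D : ℝ → ℕ) : ℕ → Set ℝ
  | 0 => ∅
  | n + 1 => T D n ∪ {x | (n:ℝ) ≤ 2 * |x| ∧ 2 * |x| < n + 1 ∧
      ∀ (k : ℕ) (L : Finset ℤ), (∀ l ∈ L, x + 2 ^ k * l ∈ T D n) → L.card < D (x / 2 ^ k)}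

/-- the scaling set -/
def S (D : ℝ → ℕ) : Set ℝ := ⋃ n, T D n

variable {D : ℝ → ℕ}

theorem T_meas (hD : Measurable D) (n : ℕ) : MeasurableSet (T D n) := by
  induction n with
  | zero => exact MeasurableSet.empty
  | succ n ih =>
    apply ih.union
    have : {x : ℝ | (n:ℝ) ≤ 2 * |x| ∧ 2 * |x| < n + 1 ∧
      ∀ (k : ℕ) (L : Finset ℤ), (∀ l ∈ L, x + 2 ^ k * l ∈ T D n) → L.card < D (x / 2 ^ k)}
      = {x : ℝ | (n:ℝ) ≤ 2 * |x|} ∩ ({x | 2 * |x| < n + 1} ∩
        ⋂ (k : ℕ) (L : Finset ℤ), ((⋂ l ∈ L, {x : ℝ | x + 2 ^ k * l ∈ T D n})ᶜ ∪ {x | L.card < D (x / 2 ^ k)})) := by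
      ext x
      simp only [mem_ofPred_eq, mem_inter_iff, mem_iInter, mem_union, mem_compl_iff, imp_iff_not_or]
    rw [this]
    have ha : Measurable (fun x : ℝ => 2 * |x|) := measurable_const_mul _ |>.comp measurable_norm
    refine MeasurableSet.inter (ha measurableSet_Ici) (MeasurableSet.inter (ha measurableSet_Iio) ?_)
    refine MeasurableSet.iInter (fun k => MeasurableSet.iInter (fun L => MeasurableSet.union ?_ ?_))
    · refine MeasurableSet.compl (Finset.measurableSet_biInter L (fun l _ => ?_))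
      exact (measurable_add_const _) ih
    · have : Measurable (fun x : ℝ => D (x / 2 ^ k)) := hD.comp (measurable_div_const _)
      exact this measurableSet_Ioi

theorem S_meas (hD : Measurable D) : MeasurableSet (S D) := MeasurableSet.iUnion (T_meas hD)

theorem T_mono {m n : ℕ} (h : m ≤ n) : T D m ⊆ T D n := by
  induction n, h using Nat.le_induction with
  | base => exact subset_rfl
  | succ n _ ih => exact ih.trans subset_union_left

theorem T_lt {n : ℕ} {x : ℝ} (h : x ∈ T D n) : 2 * |x| < n := by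
  induction n with
  | zero => exact absurd h (notMem_empty _)
  | succ n ih =>
    rcases h with h | h
    · have := ih h; push_cast; linarith
    · have := h.2.1; push_cast; exact this

/-- `T n` is the part of `S` with `2|x| < n`. -/
theorem mem_T_iff {n : ℕ} {x : ℝ} : x ∈ T D n ↔ x ∈ S D ∧ 2 * |x| < n := by
  constructor
  · intro h; exact ⟨mem_iUnion.2 ⟨n, h⟩, T_lt h⟩
  · rintro ⟨h, h2⟩
    obtain ⟨m, hm⟩ := mem_iUnion.1 h
    induction m with
    | zero => exact absurd hm (notMem_empty _)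
    | succ m ih =>
      rcases hm with hm | hm
      · exact ih hm
      · have h3 : (m:ℝ) < n := lt_of_le_of_lt hm.1 h2
        have h4 : m + 1 ≤ n := by exact_mod_cast h3
        exact T_mono h4 (Or.inr hm)

theorem int_abs_aux {x y : ℝ} {m : ℤ} (hy : y = x + m) (h : |y| < |x|) :
    2 * |y| < (⌊2 * |x|⌋₊ : ℝ) := by
  by_contra hcon
  push Not at hcon
  have hlt : 2 * |x| < ⌊2 * |x|⌋₊ + 1 := Nat.lt_floor_add_one _
  set c : ℝ := (⌊2 * |x|⌋₊ : ℝ) with hc
  have hm0 : m ≠ 0 := by
    rintro rfl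
    simp at hy
    rw [hy] at h; exact lt_irrefl _ h
  have hm1 : (1:ℝ) ≤ |(m:ℝ)| := by
    have : 1 ≤ |m| := Int.one_le_abs hm0
    exact_mod_cast this
  have hmy : (m:ℝ) = y - x := by rw [hy]; ring
  rcases le_or_gt 0 x with hx | hx <;> rcases le_or_gt 0 y with hy0 | hy0
  · rw [abs_of_nonneg hx, abs_of_nonneg hy0] at *
    rw [hmy, abs_of_nonpos (by linarith)] at hm1
    linarith
  · rw [abs_of_nonneg hx, abs_of_neg hy0] at *
    -- x - y is an integer in [c, c+1), hence equals c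
    have h1 : c ≤ x - y := by linarith
    have h2 : x - y < c + 1 := by linarith
    have h3 : x - y = ((-m : ℤ) : ℝ) := by push_cast; linarith
    rw [h3, hc] at h1 h2
    have h4 : ((⌊2 * x⌋₊ : ℤ)) ≤ -m := by exact_mod_cast h1
    have h5 : -m < (⌊2 * x⌋₊ : ℤ) + 1 := by exact_mod_cast h2
    have h6 : -m = (⌊2 * x⌋₊ : ℤ) := by omega
    have h7 : x - y = c := by rw [h3, h6, hc]; simp
    linarith
  · rw [abs_of_neg hx, abs_of_nonneg hy0] at *
    have h1 : c ≤ y - x := by linarith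
    have h2 : y - x < c + 1 := by linarith
    rw [← hmy, hc] at h1 h2
    have h4 : ((⌊2 * -x⌋₊ : ℤ)) ≤ m := by exact_mod_cast h1
    have h5 : m < (⌊2 * -x⌋₊ : ℤ) + 1 := by exact_mod_cast h2
    have h6 : m = (⌊2 * -x⌋₊ : ℤ) := by omega
    have h7 : y - x = c := by rw [← hmy, h6, hc]; simp
    linarith
  · rw [abs_of_neg hx, abs_of_neg hy0] at *
    rw [hmy, abs_of_nonneg (by linarith)] at hm1
    linarith

/-- The recursive characterisation of `S`. -/
theorem mem_S_iff {x : ℝ} : x ∈ S D ↔ ∀ (k : ℕ) (L : Finset ℤ),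
    (∀ l ∈ L, |x + 2 ^ k * l| < |x| ∧ x + 2 ^ k * l ∈ S D) → L.card < D (x / 2 ^ k) := by
  set c := ⌊2 * |x|⌋₊ with hc
  have hc1 : (c:ℝ) ≤ 2 * |x| := Nat.floor_le (by positivity)
  have hc2 : 2 * |x| < c + 1 := Nat.lt_floor_add_one _
  have key : ∀ (k : ℕ) (l : ℤ), (|x + 2 ^ k * l| < |x| ∧ x + 2 ^ k * l ∈ S D) ↔ x + 2 ^ k * l ∈ T D c := by
    intro k l
    rw [mem_T_iff]
    constructor
    · rintro ⟨h1, h2⟩
      refine ⟨h2, ?_⟩
      exact int_abs_aux (m := 2 ^ k * l) (by push_cast; ring) h1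
    · rintro ⟨h1, h2⟩
      exact ⟨by linarith, h1⟩
  simp only [key]
  constructor
  · intro h
    have h1 : x ∈ T D (c + 1) := mem_T_iff.2 ⟨h, by push_cast; exact hc2⟩
    rcases h1 with h1 | h1
    · exact absurd (T_lt h1) (not_lt.2 hc1)
    · exact h1.2.2
  · intro h
    have : x ∈ T D (c+1) := Or.inr ⟨hc1, hc2, h⟩
    exact mem_iUnion.2 ⟨c+1, this⟩

/-- the `k = 0` condition -/
def P0 (D : ℝ → ℕ) (x : ℝ) : Prop :=
  ∀ L : Finset ℤ, (∀ l ∈ L, |x + l| < |x| ∧ x + l ∈ S D) → L.card < D x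

theorem P0_mono (hDp : Function.Periodic D 1) {x y : ℝ} {m : ℤ} (hy : y = x + m) (h : |y| ≤ |x|)
    (hx : P0 D x) : P0 D y := by
  intro L hL
  have hDy : D y = D x := by rw [hy]; exact D_int hDp x m
  rw [hDy]
  have := hx (L.map (addRightEmbedding m)) (by
    intro l hl
    simp only [Finset.mem_map, addRightEmbedding_apply] at hl
    obtain ⟨l', hl', rfl⟩ := hl
    obtain ⟨a, b⟩ := hL l' hl'
    have e : x + ((l' + m : ℤ) : ℝ) = y + l' := by rw [hy]; push_cast; ring
    rw [e]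
    exact ⟨lt_of_lt_of_le a h, b⟩)
  rwa [Finset.card_map] at this

/-- Claim A -/
theorem claimA (hDp : Function.Periodic D 1) (n : ℕ) : ∀ x : ℝ, ⌊2 * |x|⌋₊ = n →
    (x ∈ S D ↔ (x / 2 ∈ S D ∧ P0 D x)) := by
  induction n using Nat.strong_induction_on with
  | _ n ih =>
    intro x hn
    have hP0S : x ∈ S D → P0 D x := by
      intro h L hL
      have := mem_S_iff.1 h 0 L (by simpa using hL)
      simpa using this
    -- under P0, smaller points are in S iff their halves are
    have hsmall : P0 D x → ∀ (m : ℤ), |x + m| < |x| → (x + m ∈ S D ↔ (x + m) / 2 ∈ S D) := by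
      intro h0 m hm
      have h1 : 2 * |x + m| < (⌊2 * |x|⌋₊ : ℝ) := int_abs_aux (m := m) rfl hm
      have h2 : ⌊2 * |x + m|⌋₊ < n := by
        rw [← hn]
        rw [Nat.floor_lt (by positivity)]
        exact h1
      rw [ih _ h2 (x + m) rfl]
      have := P0_mono hDp (x := x) (y := x + m) (m := m) rfl hm.le h0
      tauto
    constructor
    · intro h
      have h0 := hP0S h
      refine ⟨?_, h0⟩
      rw [mem_S_iff]
      intro k L hL
      have := mem_S_iff.1 h (k+1) L (by
        intro l hl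
        obtain ⟨a, b⟩ := hL l hl
        have e : x / 2 + 2 ^ k * (l:ℝ) = (x + 2 ^ (k+1) * l) / 2 := by rw [pow_succ]; ring
        rw [e] at a b
        have a' : |x + 2 ^ (k+1) * (l:ℝ)| < |x| := by
          rw [abs_div, abs_div] at a
          have : (0:ℝ) < |2| := by norm_num
          exact (div_lt_div_iff_of_pos_right this).1 a
        refine ⟨a', ?_⟩
        have := hsmall h0 (2 ^ (k+1) * l) (by push_cast; exact a')
        push_cast at this
        exact this.2 b)
      have e2 : x / 2 / 2 ^ k = x / 2 ^ (k+1) := by rw [pow_succ]; field_simp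
      rw [e2]; exact this
    · rintro ⟨h, h0⟩
      rw [mem_S_iff]
      intro k L hL
      cases k with
      | zero =>
        have := h0 L (by simpa using hL)
        simpa using this
      | succ k =>
        have := mem_S_iff.1 h k L (by
          intro l hl
          obtain ⟨a, b⟩ := hL l hl
          have e : x / 2 + 2 ^ k * (l:ℝ) = (x + 2 ^ (k+1) * l) / 2 := by rw [pow_succ]; ring
          rw [e]
          constructor
          · rw [abs_div, abs_div]
            have : (0:ℝ) < |2| := by norm_num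
            exact (div_lt_div_iff_of_pos_right this).2 a
          · have := hsmall h0 (2 ^ (k+1) * l) (by push_cast; exact a)
            push_cast at this
            exact this.1 b)
        have e2 : x / 2 / 2 ^ k = x / 2 ^ (k+1) := by rw [pow_succ]; field_simp
        rw [← e2]; exact this

theorem claimA' (hDp : Function.Periodic D 1) (x : ℝ) : x ∈ S D ↔ (x / 2 ∈ S D ∧ P0 D x) :=
  claimA hDp _ x rfl

/-- Claim B -/
theorem claimB {x : ℝ} (hx : |x| < 1/2) (h : ∀ k : ℕ, 1 ≤ D (x / 2 ^ k)) : x ∈ S D := by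
  rw [mem_S_iff]
  intro k L hL
  have : L = ∅ := by
    rw [Finset.eq_empty_iff_forall_notMem]
    intro l hl
    obtain ⟨a, _⟩ := hL l hl
    by_cases hl0 : l = 0
    · subst hl0; simp at a
    · have h1 : (1:ℝ) ≤ |(2:ℝ) ^ k * l| := by
        rw [abs_mul]
        have h2 : (1:ℝ) ≤ |(l:ℝ)| := by
          have : 1 ≤ |l| := Int.one_le_abs hl0
          exact_mod_cast this
        have h3 : (1:ℝ) ≤ |(2:ℝ) ^ k| := by
          rw [abs_of_pos (by positivity)]; exact one_le_pow₀ (by norm_num)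
        nlinarith
      have h4 : |(2:ℝ) ^ k * l| ≤ |x + 2 ^ k * l| + |x| := by
        have : (2:ℝ) ^ k * l = (x + 2 ^ k * l) - x := by ring
        calc |(2:ℝ) ^ k * l| = |(x + 2 ^ k * l) - x| := by rw [← this]
          _ ≤ _ := abs_sub _ _
      linarith
  rw [this, Finset.card_empty]
  exact h k

/-- number of points of `S` in a fibre -/
noncomputable def sc (D : ℝ → ℕ) (x : ℝ) : ℕ∞ := {l : ℤ | x + l ∈ S D}.encard

/-- pointwise conditions -/
structure Good (D : ℝ → ℕ) (x : ℝ) : Prop where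
  h2 : D x + D (x + 1/2) = D (2 * x) + 1
  h3 : (D x : ℕ∞) ≤ {k : ℤ | ∀ j : ℕ, 1 ≤ D ((x + k) / 2 ^ j)}.encard
  ni : ∀ n : ℤ, 2 * x ≠ n

/-- generic points -/
def Gen (D : ℝ → ℕ) (x : ℝ) : Prop := ∀ (j : ℤ) (q : ℚ), Good D ((2:ℝ) ^ j * x + q)

theorem Gen.good {x : ℝ} (h : Gen D x) : Good D x := by simpa using h 0 0

theorem Gen.aff {x : ℝ} (h : Gen D x) (j : ℤ) (q : ℚ) : Gen D ((2:ℝ) ^ j * x + q) := by
  intro i r
  have := h (i + j) (2 ^ i * q + r)
  have e : (2:ℝ) ^ (i + j) * x + ((2 ^ i * q + r : ℚ) : ℝ) = (2:ℝ) ^ i * ((2:ℝ) ^ j * x + q) + r := by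
    push_cast
    rw [zpow_add₀ (by norm_num)]
    ring
  rwa [e] at this

theorem Gen.add_int {x : ℝ} (h : Gen D x) (n : ℤ) : Gen D (x + n) := by
  have := h.aff 0 n
  simpa using this

theorem Gen.half {x : ℝ} (h : Gen D x) : Gen D (x / 2) := by
  have := h.aff (-1) 0
  have e : (2:ℝ) ^ (-1:ℤ) * x + ((0:ℚ):ℝ) = x / 2 := by rw [zpow_neg_one]; push_cast; ring
  rwa [e] at this

theorem Gen.half' {x : ℝ} (h : Gen D x) : Gen D (x / 2 + 1/2) := by
  have := h.aff (-1) (1/2)
  have e : (2:ℝ) ^ (-1:ℤ) * x + ((1/2:ℚ):ℝ) = x / 2 + 1/2 := by rw [zpow_neg_one]; push_cast; ring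
  rwa [e] at this

theorem sc_add_int (x : ℝ) (n : ℤ) : sc D (x + n) = sc D x := by
  unfold sc
  have : {l : ℤ | x + l ∈ S D} = (fun l => l + n) '' {l : ℤ | x + n + l ∈ S D} := by
    ext l
    simp only [mem_ofPred_eq, mem_image]
    constructor
    · intro h
      refine ⟨l - n, ?_, by ring⟩
      push_cast
      have : x + n + ((l:ℝ) - n) = x + l := by ring
      rw [this]; exact h
    · rintro ⟨m, hm, rfl⟩
      push_cast
      have : x + ((m:ℝ) + n) = x + n + m := by ring
      rw [this]; exact hm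
  rw [this, (add_left_injective n).encard_image]

theorem card_le_of_sub {A : Set ℤ} {L : Finset ℤ} (h : ∀ l ∈ L, l ∈ A) : (L.card : ℕ∞) ≤ A.encard := by
  rw [← Set.encard_coe_eq_coe_finsetCard]
  exact Set.encard_le_encard h

/-- upper bound for the fibre count -/
theorem sc_le (hDp : Function.Periodic D 1) {x : ℝ} (hx : ∀ n : ℤ, 2 * x ≠ n) : sc D x ≤ D x := by
  by_contra hcon
  push Not at hcon
  have h1 : ((D x + 1 : ℕ) : ℕ∞) ≤ sc D x := by
    have := Order.add_one_le_of_lt hcon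
    exact_mod_cast this
  obtain ⟨A, hA, hAc⟩ := Set.exists_subset_encard_eq h1
  have hfin : A.Finite := Set.finite_of_encard_eq_coe hAc
  let L := hfin.toFinset
  have hLc : L.card = D x + 1 := by
    have := hfin.encard_eq_coe_toFinset_card
    rw [hAc] at this
    exact_mod_cast this.symm
  have hLne : L.Nonempty := by rw [← Finset.card_pos]; omega
  obtain ⟨m, hm, hmax⟩ := L.exists_max_image (fun l => |x + l|) hLne
  have hmem : ∀ l ∈ L, x + l ∈ S D := fun l hl => hA (hfin.mem_toFinset.1 hl)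
  have h0 : P0 D (x + m) := ((claimA' hDp _).1 (hmem m hm)).2
  have := h0 ((L.erase m).map (addRightEmbedding (-m))) (by
    intro l hl
    simp only [Finset.mem_map, addRightEmbedding_apply] at hl
    obtain ⟨l', hl', rfl⟩ := hl
    have hl'L := Finset.mem_of_mem_erase hl'
    have e : x + m + ((l' + -m : ℤ) : ℝ) = x + l' := by push_cast; ring
    rw [e]
    refine ⟨lt_of_le_of_ne (hmax l' hl'L) ?_, hmem l' hl'L⟩
    intro heq
    rcases abs_eq_abs.1 heq with h | h
    · have : (l':ℝ) = m := by linarith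
      exact (Finset.ne_of_mem_erase hl') (by exact_mod_cast this)
    · apply hx (-(l' + m))
      push_cast; linarith)
  rw [Finset.card_map, Finset.card_erase_of_mem hm, hLc, D_int hDp] at this
  omega

/-- Fact 1: halving is a bijection when the fibre is deficient. -/
theorem P0_of_lt (hDp : Function.Periodic D 1) {v : ℝ} (h : sc D v < D v) (m : ℤ) : P0 D (v + m) := by
  intro L hL
  rw [D_int hDp]
  have h1 : (L.card : ℕ∞) ≤ sc D (v + m) := card_le_of_sub (fun l hl => (hL l hl).2)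
  rw [sc_add_int] at h1
  exact_mod_cast lt_of_le_of_lt h1 h

theorem sc_split (hDp : Function.Periodic D 1) {v : ℝ} (h : sc D v < D v) :
    sc D v = sc D (v / 2) + sc D (v / 2 + 1/2) := by
  have e1 : {l : ℤ | v + l ∈ S D} = (fun m => 2 * m) '' {m : ℤ | v / 2 + m ∈ S D} ∪
      (fun m => 2 * m + 1) '' {m : ℤ | v / 2 + 1/2 + m ∈ S D} := by
    ext l
    simp only [mem_ofPred_eq, mem_union, mem_image]
    have h0 := P0_of_lt hDp h l
    rw [claimA' hDp]
    rcases Int.even_or_odd' l with ⟨m, hm | hm⟩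
    · constructor
      · rintro ⟨a, _⟩
        left
        refine ⟨m, ?_, hm.symm⟩
        have : v / 2 + m = (v + l) / 2 := by rw [hm]; push_cast; ring
        rw [this]; exact a
      · rintro (⟨m', a, b⟩ | ⟨m', _, b⟩)
        · have : m' = m := by omega
          subst this
          refine ⟨?_, h0⟩
          have : (v + l) / 2 = v / 2 + m' := by rw [hm]; push_cast; ring
          rw [this]; exact a
        · omega
    · constructor
      · rintro ⟨a, _⟩
        right
        refine ⟨m, ?_, hm.symm⟩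
        have : v / 2 + 1/2 + m = (v + l) / 2 := by rw [hm]; push_cast; ring
        rw [this]; exact a
      · rintro (⟨m', _, b⟩ | ⟨m', a, b⟩)
        · omega
        · have : m' = m := by omega
          subst this
          refine ⟨?_, h0⟩
          have : (v + l) / 2 = v / 2 + 1/2 + m' := by rw [hm]; push_cast; ring
          rw [this]; exact a
  unfold sc
  rw [e1, Set.encard_union_eq]
  · rw [Function.Injective.encard_image, Function.Injective.encard_image]
    · intro a b hab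
      simp only at hab; omega
    · intro a b hab
      simp only at hab; omega
  · rw [Set.disjoint_left]
    rintro l ⟨m, _, rfl⟩ ⟨m', _, h'⟩
    simp only at h'; omega

/-- Lemma E -/
theorem lemE (hDp : Function.Periodic D 1) {v : ℝ} (hv : Gen D v) (h : sc D v = 0) : D v = 0 := by
  by_contra hD
  have h3 := hv.good.h3
  have hne : {k : ℤ | ∀ j : ℕ, 1 ≤ D ((v + k) / 2 ^ j)}.Nonempty := by
    rw [← Set.encard_ne_zero]
    intro h0
    rw [h0] at h3
    have : D v = 0 := by exact_mod_cast (nonpos_iff_eq_zero.1 h3)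
    exact hD this
  obtain ⟨k, hk⟩ := hne
  have hk' : ∀ j : ℕ, 1 ≤ D ((v + k) / 2 ^ j) := hk
  have hall : ∀ j : ℕ, sc D ((v + k) / 2 ^ j) = 0 := by
    intro j
    induction j with
    | zero => simp only [pow_zero, div_one]; rw [sc_add_int]; exact h
    | succ j ih =>
      have hlt : sc D ((v + k) / 2 ^ j) < D ((v + k) / 2 ^ j) := by
        rw [ih]
        exact_mod_cast hk' j
      have := sc_split hDp hlt
      rw [ih] at this
      have e : (v + k) / 2 ^ j / 2 = (v + k) / 2 ^ (j+1) := by rw [pow_succ]; field_simp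
      rw [e] at this
      exact (add_eq_zero.1 this.symm).1
  -- but eventually the point is in S
  obtain ⟨j, hj⟩ : ∃ j : ℕ, |(v + k) / 2 ^ j| < 1/2 := by
    have ht : Tendsto (fun j : ℕ => |v + k| * (1/2:ℝ) ^ j) atTop (𝓝 (|v+k| * 0)) :=
      (tendsto_pow_atTop_nhds_zero_of_lt_one (by norm_num) (by norm_num)).const_mul _
    rw [mul_zero] at ht
    obtain ⟨j, hj⟩ := (ht.eventually (gt_mem_nhds (show (0:ℝ) < 1/2 by norm_num))).exists
    refine ⟨j, ?_⟩
    rw [abs_div, abs_of_pos (show (0:ℝ) < 2 ^ j by positivity)]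
    rw [one_div, inv_pow] at hj
    rw [div_eq_mul_inv]; simpa using hj
  have hS : (v + k) / 2 ^ j ∈ S D := by
    apply claimB hj
    intro i
    have := hk' (j + i)
    rwa [pow_add, ← div_div] at this
  have h0 := hall j
  unfold sc at h0
  rw [Set.encard_eq_zero] at h0
  have : (0:ℤ) ∈ {l : ℤ | (v + k) / 2 ^ j + l ∈ S D} := by simpa using hS
  rw [h0] at this
  exact this

/-- Claim C -/
theorem claimC (hDp : Function.Periodic D 1) {x : ℝ} (hx : Gen D x) : sc D x = D x := by
  by_contra hne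
  have hbad : ∃ v, Gen D v ∧ sc D v < D v :=
    ⟨x, hx, lt_of_le_of_ne (sc_le hDp hx.good.ni) hne⟩
  -- minimise `sc`
  let W : Set ℕ := {n | ∃ v, Gen D v ∧ sc D v < D v ∧ sc D v = n}
  have hW : W.Nonempty := by
    obtain ⟨v, h1, h2⟩ := hbad
    obtain ⟨n, hn⟩ := ENat.ne_top_iff_exists.1 (ne_top_of_lt h2)
    exact ⟨n, v, h1, h2, hn.symm⟩
  let s := sInf W
  have hs : s ∈ W := Nat.sInf_mem hW
  have hmin : ∀ v, Gen D v → sc D v < D v → (s:ℕ∞) ≤ sc D v := by
    intro v h1 h2
    obtain ⟨n, hn⟩ := ENat.ne_top_iff_exists.1 (ne_top_of_lt h2)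
    rw [← hn]
    exact_mod_cast Nat.sInf_le (show n ∈ W from ⟨v, h1, h2, hn.symm⟩)
  let M : ℝ → Prop := fun v => Gen D v ∧ sc D v < D v ∧ sc D v = s
  -- generic step, for one half or the other
  have hstep : ∀ v, M v → ∃ u, M u ∧ D u = D v + 1 ∧ D (u + 1/2) = 0 ∧
      ∃ m : ℤ, 2 * u = v + m := by
    rintro v ⟨h1, h2, h3⟩
    have hsp := sc_split hDp h2
    have g1 := h1.half
    have g2 := h1.half'
    have hD2 := g1.good.h2
    have e2 : 2 * (v / 2) = v := by ring
    rw [e2] at hD2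
    have hle1 := sc_le hDp g1.good.ni
    have hle2 := sc_le hDp g2.good.ni
    obtain ⟨a, ha⟩ := ENat.ne_top_iff_exists.1 (ne_top_of_le_ne_top (ENat.natCast_ne_top _) hle1)
    obtain ⟨b, hb⟩ := ENat.ne_top_iff_exists.1 (ne_top_of_le_ne_top (ENat.natCast_ne_top _) hle2)
    rw [← ha, ← hb] at hsp
    rw [h3] at hsp h2
    rw [← ha] at hle1
    rw [← hb] at hle2
    have hsp' : s = a + b := by exact_mod_cast hsp
    have h2' : s < D v := by exact_mod_cast h2
    have hle1' : a ≤ D (v/2) := by exact_mod_cast hle1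
    have hle2' : b ≤ D (v/2 + 1/2) := by exact_mod_cast hle2
    by_cases hca : a < D (v/2)
    · have hlt : sc D (v/2) < D (v/2) := by rw [← ha]; exact_mod_cast hca
      have hm := hmin _ g1 hlt
      rw [← ha] at hm
      have hm' : s ≤ a := by exact_mod_cast hm
      have hb0 : b = 0 := by omega
      have ha0 : a = s := by omega
      have hDz : D (v/2 + 1/2) = 0 := lemE hDp g2 (by rw [← hb, hb0]; rfl)
      refine ⟨v/2, ⟨g1, hlt, by rw [← ha, ha0]⟩, by omega, hDz, 0, by push_cast; ring⟩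
    · have hcb : b < D (v/2 + 1/2) := by omega
      have hlt : sc D (v/2 + 1/2) < D (v/2 + 1/2) := by rw [← hb]; exact_mod_cast hcb
      have hm := hmin _ g2 hlt
      rw [← hb] at hm
      have hm' : s ≤ b := by exact_mod_cast hm
      have ha0 : a = 0 := by omega
      have hb0 : b = s := by omega
      have hDz : D (v/2) = 0 := lemE hDp g1 (by rw [← ha, ha0]; rfl)
      refine ⟨v/2 + 1/2, ⟨g2, hlt, by rw [← hb, hb0]⟩, by omega, ?_, 1, by push_cast; ring⟩
      have e : v / 2 + 1/2 + 1/2 = v/2 + ((1:ℤ):ℝ) := by push_cast; ring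
      rw [e, D_int hDp]; exact hDz
  -- two descending rays in an M-fibre coincide
  have hray : ∀ (j : ℕ) (v : ℝ), M v → ∀ y y' : ℝ, (∃ m : ℤ, y = v + m) → (∃ m : ℤ, y' = v + m) →
      (∀ i : ℕ, 1 ≤ D (y / 2 ^ i)) → (∀ i : ℕ, 1 ≤ D (y' / 2 ^ i)) → ∃ m : ℤ, (y - y') / 2 ^ j = m := by
    intro j
    induction j with
    | zero =>
      rintro v _ y y' ⟨m, hm⟩ ⟨m', hm'⟩ _ _
      exact ⟨m - m', by rw [hm, hm']; push_cast; ring⟩
    | succ j ih =>
      rintro v hv y y' ⟨m, hm⟩ ⟨m', hm'⟩ hy hy'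
      obtain ⟨u, hu, _, hu0, n, hn⟩ := hstep v hv
      have aux : ∀ z : ℝ, (∃ m : ℤ, z = v + m) → (∀ i : ℕ, 1 ≤ D (z / 2 ^ i)) → ∃ m : ℤ, z / 2 = u + m := by
        rintro z ⟨p, hp⟩ hz
        rcases Int.even_or_odd' (p - n) with ⟨r, hr | hr⟩
        · refine ⟨r, ?_⟩
          have : ((p - n : ℤ) : ℝ) = 2 * r := by rw [hr]; push_cast; ring
          push_cast at this
          rw [hp]; linarith
        · exfalso
          have : ((p - n : ℤ) : ℝ) = 2 * r + 1 := by rw [hr]; push_cast; ring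
          push_cast at this
          have e : z / 2 = (u + 1/2) + r := by rw [hp]; linarith
          have h1 := hz 1
          rw [pow_one, e, D_int hDp, hu0] at h1
          omega
      have e1 : ∀ (z : ℝ) (i : ℕ), z / 2 / 2 ^ i = z / 2 ^ (i+1) := by
        intro z i; rw [pow_succ]; field_simp
      obtain ⟨k, hk⟩ := ih u hu (y/2) (y'/2) (aux y ⟨m, hm⟩ hy) (aux y' ⟨m', hm'⟩ hy')
        (fun i => by rw [e1]; exact hy _) (fun i => by rw [e1]; exact hy' _)
      refine ⟨k, ?_⟩
      rw [← hk, ← sub_div, e1]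
  -- hence D ≤ 1 on M-fibres
  have hD1 : ∀ v, M v → D v ≤ 1 := by
    intro v hv
    by_contra hcon
    push Not at hcon
    have h3 := hv.1.good.h3
    have h4 : (1:ℕ∞) < {k : ℤ | ∀ j : ℕ, 1 ≤ D ((v + k) / 2 ^ j)}.encard :=
      lt_of_lt_of_le (by exact_mod_cast hcon) h3
    rw [Set.one_lt_encard_iff] at h4
    obtain ⟨k, k', hk, hk', hkk⟩ := h4
    have hdiv : ∀ j : ℕ, ∃ m : ℤ, ((k:ℝ) - k') / 2 ^ j = m := by
      intro j
      have := hray j v hv (v + k) (v + k') ⟨k, rfl⟩ ⟨k', rfl⟩ hk hk'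
      have e : v + (k:ℝ) - (v + k') = k - k' := by ring
      rwa [e] at this
    obtain ⟨j, hj⟩ : ∃ j : ℕ, |((k:ℝ) - k')| < 2 ^ j := by
      obtain ⟨j, hj⟩ := pow_unbounded_of_one_lt (|((k:ℝ) - k')|) (by norm_num : (1:ℝ) < 2)
      exact ⟨j, hj⟩
    obtain ⟨m, hm⟩ := hdiv j
    have h5 : |(m:ℝ)| < 1 := by
      rw [← hm, abs_div, abs_of_pos (show (0:ℝ) < 2 ^ j by positivity)]
      rw [div_lt_one (by positivity)]; exact hj
    have h6 : m = 0 := by
      have : |m| < 1 := by exact_mod_cast h5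
      exact Int.abs_lt_one_iff.1 this
    rw [h6] at hm
    have h7 : (k:ℝ) - k' = 0 := by
      have h8 : (2:ℝ) ^ j ≠ 0 := by positivity
      have := (div_eq_iff h8).1 hm
      simpa using this
    exact hkk (by exact_mod_cast sub_eq_zero.1 h7)
  obtain ⟨v, h1, h2, h3⟩ := hs
  obtain ⟨u, hu, hDu, _, _⟩ := hstep v ⟨h1, h2, h3⟩
  have h4 := hD1 u hu
  have h5 : 0 < D v := by
    have : (0:ℕ∞) < D v := lt_of_le_of_lt zero_le h2
    exact_mod_cast this
  omega

end Pool.Agent.Helper30.WD.Scal
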