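import Pool.Agent.Helper30.WD.TDefs
import Pool.Agent.Helper30.WD.MRA2

/-! L1-L2 agreement of the Fourier transform, truncated integrals. -/

set_option autoImplicit false
open MeasureTheory Filter Topology Set
open scoped ENNReal ComplexConjugate FourierTransform SchwartzMap ContDiff

namespace Pool.Agent.Helper30.WD

/-- The `L²` Fourier transform agrees with the integral on `L¹ ∩ L²`. -/
theorem fourier_L1L2 {f : ℝ → ℂ} (h1 : Integrable f) (h2 : MemLp f 2) :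
    (Lp.fourierTransformₗᵢ ℝ ℂ (h2.toLp f) : ℝ → ℂ) =ᵐ[volume] 𝓕 f := by
  apply ae_eq_of_integral_contDiff_smul_eq
  · exact (Lp.memLp _).locallyIntegrable (by norm_num)
  · have hc : Continuous (𝓕 f) := VectorFourier.fourierIntegral_continuous Real.continuous_fourierChar
      (by exact continuous_inner) h1
    exact hc.locallyIntegrable
  · intro g g_smooth g_cpt
    have hg₁ : HasCompactSupport (Complex.ofRealCLM ∘ g) := g_cpt.comp_left rfl
    have hg₂ : ContDiff ℝ ∞ (Complex.ofRealCLM ∘ g) := by fun_prop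
    set φ : 𝓢(ℝ, ℂ) := hg₁.toSchwartzMap hg₂ with hφ
    have hφv : ∀ x, φ x = (g x : ℂ) := fun x => rfl
    have e1 := congrArg (fun T : 𝓢'(ℝ, ℂ) => T φ) (Lp.fourier_toTemperedDistribution_eq (h2.toLp f))
    simp only [TemperedDistribution.fourier_apply, Lp.toTemperedDistribution_apply] at e1
    have e2 : ∫ x, (𝓕 φ) x • (h2.toLp f : ℝ → ℂ) x = ∫ x, φ x • (𝓕 f) x := by
      have : ∫ x, (𝓕 φ) x • (h2.toLp f : ℝ → ℂ) x = ∫ x, (𝓕 φ) x • f x := by
        apply integral_congr_ae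
        filter_upwards [h2.coeFn_toLp] with x hx
        rw [hx]
      rw [this]
      have h3 := VectorFourier.integral_fourierIntegral_smul_eq_flip (L := innerₗ ℝ) (μ := volume) (ν := volume)
        (e := Real.fourierChar) Real.continuous_fourierChar continuous_inner (φ.integrable (μ := volume)) h1
      rw [flip_innerₗ] at h3
      exact h3
    have e3 : ∀ F : ℝ → ℂ, ∫ x, g x • F x = ∫ x, φ x • F x := by
      intro F
      apply integral_congr_ae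
      apply Eventually.of_forall
      intro x
      simp only [hφv]
      rw [Complex.real_smul, smul_eq_mul]
    rw [e3, e3, ← e2]
    exact e1.symm

/-- truncation -/
noncomputable def tr (f : ℝ → ℂ) (n : ℕ) : ℝ → ℂ := (Ioc (-(n:ℝ)) (n:ℝ)).indicator f

theorem memLp_tr {f : ℝ → ℂ} (hf : MemLp f 2) (n : ℕ) : MemLp (tr f n) 2 := hf.indicator measurableSet_Ioc

theorem integrable_tr {f : ℝ → ℂ} (hf : MemLp f 2) (n : ℕ) : Integrable (tr f n) := by
  unfold tr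
  rw [integrable_indicator_iff measurableSet_Ioc]
  have h1 : MemLp f 2 (volume.restrict (Ioc (-(n:ℝ)) (n:ℝ))) := hf.restrict _
  have h2 : IsFiniteMeasure (volume.restrict (Ioc (-(n:ℝ)) (n:ℝ))) := ⟨by
    rw [Measure.restrict_apply_univ, Real.volume_Ioc]; exact ENNReal.ofReal_lt_top⟩
  exact h1.integrable (by norm_num)

theorem fourier_tr (f : ℝ → ℂ) (n : ℕ) (ξ : ℝ) :
    𝓕 (tr f n) ξ = ∫ x in (-(n:ℝ))..(n:ℝ), Complex.exp (-(2 * (Real.pi : ℂ) * Complex.I * (x : ℂ) * (ξ : ℂ))) * f x := by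
  have hn : (0:ℝ) ≤ n := Nat.cast_nonneg n
  rw [Real.fourier_real_eq_integral_exp_smul, intervalIntegral.integral_of_le (by linarith), ← integral_indicator measurableSet_Ioc]
  apply integral_congr_ae
  apply Eventually.of_forall
  intro x
  simp only [tr]
  by_cases h : x ∈ Ioc (-(n:ℝ)) (n:ℝ)
  · rw [indicator_of_mem h, indicator_of_mem h, smul_eq_mul]
    congr 2
    push_cast; ring
  · rw [indicator_of_notMem h, indicator_of_notMem h, smul_zero]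

theorem N2_tr {f : ℝ → ℂ} (hf : MemLp f 2) : Tendsto (fun n : ℕ => N2 (fun x => f x - tr f n x)) atTop (𝓝 0) := by
  unfold N2
  have h0 : ∫⁻ x : ℝ, ((0:ℝ≥0∞)) = 0 := by simp
  rw [← h0]
  apply tendsto_lintegral_of_dominated_convergence' (fun x => ‖f x‖ₑ ^ 2)
  · intro n
    exact ((hf.1.sub (memLp_tr hf n).1).enorm.pow_const 2)
  · intro n
    apply Eventually.of_forall
    intro x
    simp only [tr]
    by_cases h : x ∈ Ioc (-(n:ℝ)) (n:ℝ)
    · rw [indicator_of_mem h]; simp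
    · rw [indicator_of_notMem h, sub_zero]
  · exact (N2_lt_top hf).ne
  · apply Eventually.of_forall
    intro x
    apply tendsto_const_nhds.congr'
    obtain ⟨N, hN⟩ := exists_nat_gt |x|
    filter_upwards [eventually_ge_atTop N] with n hn
    have h1 : |x| < n := hN.trans_le (by exact_mod_cast hn)
    have h2 := abs_lt.1 h1
    have h : x ∈ Ioc (-(n:ℝ)) (n:ℝ) := ⟨h2.1, h2.2.le⟩
    simp only [tr]
    rw [indicator_of_mem h]; simp

theorem N2_toLp_sub (f g : Lp ℂ 2 (volume : Measure ℝ)) : N2 (fun x => f x - g x) = ‖f - g‖ₑ ^ 2 := by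
  rw [Lp.enorm_def, ← N2_eq_eLpNorm]
  apply N2_congr
  filter_upwards [Lp.coeFn_sub f g] with x hx
  rw [hx]; rfl

theorem T1_trunc (f : Lp ℂ 2 (volume : Measure ℝ)) :
    Tendsto (fun n : ℕ => ∫⁻ ξ : ℝ,
        ‖(Lp.fourierTransformₗᵢ ℝ ℂ f : ℝ → ℂ) ξ - ∫ x in (-(n:ℝ))..(n:ℝ),
          Complex.exp (-(2 * (Real.pi : ℂ) * Complex.I * (x : ℂ) * (ξ : ℂ))) * f x‖ₑ ^ 2)
      atTop (𝓝 0) := by
  have hf := Lp.memLp f
  have e : ∀ n : ℕ, ∫⁻ ξ : ℝ,
        ‖(Lp.fourierTransformₗᵢ ℝ ℂ f : ℝ → ℂ) ξ - ∫ x in (-(n:ℝ))..(n:ℝ),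
          Complex.exp (-(2 * (Real.pi : ℂ) * Complex.I * (x : ℂ) * (ξ : ℂ))) * f x‖ₑ ^ 2
      = N2 (fun x => f x - tr f n x) := by
    intro n
    have h1 := fourier_L1L2 (integrable_tr hf n) (memLp_tr hf n)
    have h2 : ∫⁻ ξ : ℝ,
        ‖(Lp.fourierTransformₗᵢ ℝ ℂ f : ℝ → ℂ) ξ - ∫ x in (-(n:ℝ))..(n:ℝ),
          Complex.exp (-(2 * (Real.pi : ℂ) * Complex.I * (x : ℂ) * (ξ : ℂ))) * f x‖ₑ ^ 2
        = N2 (fun ξ => (Lp.fourierTransformₗᵢ ℝ ℂ f : ℝ → ℂ) ξ - (Lp.fourierTransformₗᵢ ℝ ℂ ((memLp_tr hf n).toLp _) : ℝ → ℂ) ξ) := by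
      unfold N2
      apply lintegral_congr_ae
      filter_upwards [h1] with ξ hξ
      rw [hξ, fourier_tr]
    rw [h2, N2_toLp_sub, ← map_sub, LinearIsometryEquiv.enorm_map, ← N2_toLp_sub]
    apply N2_congr
    filter_upwards [(memLp_tr hf n).coeFn_toLp] with x hx
    rw [hx]
  simp only [e]
  exact N2_tr hf

theorem T1_trunc_unique (f : Lp ℂ 2 (volume : Measure ℝ)) (F : ℝ → ℂ) (hF : MemLp F 2)
    (h : Tendsto (fun n : ℕ => ∫⁻ ξ : ℝ,
        ‖F ξ - ∫ x in (-(n:ℝ))..(n:ℝ),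
          Complex.exp (-(2 * (Real.pi : ℂ) * Complex.I * (x : ℂ) * (ξ : ℂ))) * f x‖ₑ ^ 2)
      atTop (𝓝 0)) : F =ᵐ[volume] (Lp.fourierTransformₗᵢ ℝ ℂ f : ℝ → ℂ) := by
  have h1 := T1_trunc f
  have hf := Lp.memLp f
  set T : ℕ → ℝ → ℂ := fun n ξ => ∫ x in (-(n:ℝ))..(n:ℝ),
          Complex.exp (-(2 * (Real.pi : ℂ) * Complex.I * (x : ℂ) * (ξ : ℂ))) * f x with hT
  have hTm : ∀ n, AEStronglyMeasurable (T n) := by
    intro n
    have hc : Continuous (𝓕 (tr f n)) := VectorFourier.fourierIntegral_continuous Real.continuous_fourierChar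
      (by exact continuous_inner) (integrable_tr hf n)
    have e : T n = 𝓕 (tr f n) := by ext ξ; rw [fourier_tr]
    rw [e]; exact hc.aestronglyMeasurable
  set U : ℝ → ℂ := (Lp.fourierTransformₗᵢ ℝ ℂ f : ℝ → ℂ) with hU
  have hUm : AEStronglyMeasurable U := (Lp.memLp _).1
  -- N2 (F - U) ≤ 2 (N2 (F - T n) + N2 (U - T n))
  have h2 : ∀ n, N2 (fun ξ => F ξ - U ξ) ≤ 2 * (∫⁻ ξ, ‖F ξ - T n ξ‖ₑ ^ 2) + 2 * ∫⁻ ξ, ‖U ξ - T n ξ‖ₑ ^ 2 := by
    intro n
    have hm1 : AEMeasurable (fun ξ => 2 * ‖F ξ - T n ξ‖ₑ ^ 2) := ((hF.1.sub (hTm n)).enorm.pow_const 2).const_mul 2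
    unfold N2
    rw [← lintegral_const_mul' _ _ (by norm_num), ← lintegral_const_mul' _ _ (by norm_num),
      ← lintegral_add_left' hm1]
    apply lintegral_mono
    intro ξ
    simp only
    have e : F ξ - U ξ = (F ξ - T n ξ) - (U ξ - T n ξ) := by ring
    rw [e, enorm_sq_ofReal, enorm_sq_ofReal, enorm_sq_ofReal, show (2:ℝ≥0∞) = ENNReal.ofReal 2 by simp,
      ← ENNReal.ofReal_mul (by norm_num), ← ENNReal.ofReal_mul (by norm_num), ← ENNReal.ofReal_add (by positivity) (by positivity)]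
    apply ENNReal.ofReal_le_ofReal
    have h3 := norm_sub_le (F ξ - T n ξ) (U ξ - T n ξ)
    nlinarith [norm_nonneg (F ξ - T n ξ), norm_nonneg (U ξ - T n ξ), norm_nonneg ((F ξ - T n ξ) - (U ξ - T n ξ)),
      sq_nonneg (‖F ξ - T n ξ‖ - ‖U ξ - T n ξ‖)]
  have h3 : Tendsto (fun n => 2 * (∫⁻ ξ, ‖F ξ - T n ξ‖ₑ ^ 2) + 2 * ∫⁻ ξ, ‖U ξ - T n ξ‖ₑ ^ 2) atTop (𝓝 (2 * 0 + 2 * 0)) :=
    (ENNReal.Tendsto.const_mul h (Or.inr (by norm_num))).add (ENNReal.Tendsto.const_mul h1 (Or.inr (by norm_num)))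
  have h4 : N2 (fun ξ => F ξ - U ξ) ≤ 2 * 0 + 2 * 0 := ge_of_tendsto' h3 h2
  have h5 : N2 (fun ξ => F ξ - U ξ) = 0 := by simpa using h4
  unfold N2 at h5
  have hm2 : AEMeasurable (fun ξ => ‖F ξ - U ξ‖ₑ ^ 2) := (hF.1.sub hUm).enorm.pow_const 2
  rw [lintegral_eq_zero_iff' hm2] at h5
  filter_upwards [h5] with ξ hξ
  have : ‖F ξ - U ξ‖ₑ ^ 2 = 0 := hξ
  have h6 : F ξ - U ξ = 0 := by simpa using this
  exact sub_eq_zero.1 h6

end Pool.Agent.Helper30.WD
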