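import Pool.Agent.Helper30.WD.Path

/-! Definitions for the Fourier transfer layer of MP_1deea1_an / S03999. -/

set_option autoImplicit false
open MeasureTheory Filter Topology Set
open scoped ENNReal ComplexConjugate

namespace Pool.Agent.Helper30.WD

/-- The frozen set of S03999 (written verbatim in the final file). -/
def FrozenSet (D : ℝ → ℕ) : Set (Lp ℂ 2 (volume : Measure ℝ)) :=
  {f : MeasureTheory.Lp ℂ 2 (MeasureTheory.volume : MeasureTheory.Measure ℝ) |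
      (∀ j k j' k' : ℤ,
        ∫ x : ℝ, (((2:ℝ) ^ ((j:ℝ) / 2) : ℝ) : ℂ) * f ((2:ℝ) ^ j * x - k) *
          starRingEnd ℂ ((((2:ℝ) ^ ((j':ℝ) / 2) : ℝ) : ℂ) * f ((2:ℝ) ^ j' * x - k'))
          = if j = j' ∧ k = k' then 1 else 0) ∧
      (∀ g : ℝ → ℂ, MeasureTheory.MemLp g 2 →
        (∀ j k : ℤ, ∫ x : ℝ, g x *
          starRingEnd ℂ ((((2:ℝ) ^ ((j:ℝ) / 2) : ℝ) : ℂ) * f ((2:ℝ) ^ j * x - k)) = 0) →
        g =ᵐ[MeasureTheory.volume] 0) ∧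
      ∃ F : ℝ → ℂ, MeasureTheory.MemLp F 2 ∧
        Filter.Tendsto (fun n : ℕ => ∫⁻ ξ : ℝ,
            ‖F ξ - ∫ x in (-(n:ℝ))..(n:ℝ),
              Complex.exp (-(2 * (Real.pi : ℂ) * Complex.I * (x : ℂ) * (ξ : ℂ))) * f x‖ₑ ^ 2)
          Filter.atTop (nhds 0) ∧
        ∀ᵐ ξ : ℝ, (∑' j : ℕ, ∑' k : ℤ, ‖F ((2:ℝ) ^ (j + 1) * (ξ + k))‖ₑ ^ 2)
          = ((D ξ : ℕ) : ENNReal)}

/-- the wavelet translates/dilates on the Fourier side -/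
noncomputable def wj (F : ℝ → ℂ) (j k : ℤ) : ℝ → ℂ := dil (-j) (fun η => ek (-k) η * F η)

end Pool.Agent.Helper30.WD
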