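import Pool.Agent.Helper30.WD.Uniq

/-! Dilations, the energies `E₀`, and the telescoping criterion. -/

set_option autoImplicit false
open MeasureTheory Filter Topology Set
open scoped ENNReal ComplexConjugate

namespace Pool.Agent.Helper30.WD

theorem dil_dil (j l : ℤ) (G : ℝ → ℂ) : dil j (dil l G) = dil (j + l) G := by
  ext ξ
  unfold dil
  rw [← mul_assoc, ← Complex.ofReal_mul, ← Real.rpow_add (by norm_num), ← mul_assoc,
    ← zpow_add₀ (by norm_num : (2:ℝ) ≠ 0)]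
  congr 3
  · push_cast; ring
  · rw [add_comm l j]

theorem dil_zero (G : ℝ → ℂ) : dil 0 G = G := by
  ext ξ; simp [dil]

theorem aesm_mul {G : ℝ → ℂ} (hG : AEStronglyMeasurable G) {a : ℝ} (ha : a ≠ 0) :
    AEStronglyMeasurable (fun ξ => G (a * ξ)) := by
  have h2 : Measure.QuasiMeasurePreserving (fun x : ℝ => a * x) volume volume := by
    refine ⟨measurable_const_mul a, ?_⟩
    rw [Real.map_volume_mul_left ha]
    exact Measure.smul_absolutelyContinuous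
  exact hG.comp_quasiMeasurePreserving h2

theorem aesm_dil (j : ℤ) {G : ℝ → ℂ} (hG : AEStronglyMeasurable G) :
    AEStronglyMeasurable (dil j G) := by
  unfold dil
  exact (aesm_mul hG (by positivity)).const_mul _

theorem lintegral_comp_mul (h : ℝ → ℝ≥0∞) {a : ℝ} (ha : 0 < a) :
    ∫⁻ ξ, h (a * ξ) = ENNReal.ofReal a⁻¹ * ∫⁻ ξ, h ξ := by
  have hm : MeasurableEmbedding (fun x : ℝ => a * x) :=
    (Homeomorph.mulLeft₀ a ha.ne').measurableEmbedding
  rw [← hm.lintegral_map, Real.map_volume_mul_left ha.ne', lintegral_smul_measure,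
    abs_of_pos (inv_pos.2 ha)]
  rfl

theorem sq_coef (j : ℤ) : ‖(((2:ℝ) ^ ((j:ℝ) / 2) : ℝ) : ℂ)‖ₑ ^ 2 = ENNReal.ofReal ((2:ℝ) ^ j) := by
  rw [← ofReal_norm, Complex.norm_real, Real.norm_of_nonneg (by positivity),
    ← ENNReal.ofReal_pow (by positivity), ← Real.rpow_natCast, ← Real.rpow_mul (by norm_num)]
  congr 1
  rw [← Real.rpow_intCast]
  congr 1
  push_cast; ring

theorem dil_enorm_sq (j : ℤ) (G : ℝ → ℂ) (ξ : ℝ) :
    ‖dil j G ξ‖ₑ ^ 2 = ENNReal.ofReal ((2:ℝ) ^ j) * ‖G ((2:ℝ) ^ j * ξ)‖ₑ ^ 2 := by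
  unfold dil
  rw [enorm_mul, mul_pow, sq_coef]

theorem N2_dil (j : ℤ) (G : ℝ → ℂ) : N2 (dil j G) = N2 G := by
  unfold N2
  simp only [dil_enorm_sq]
  rw [lintegral_const_mul' _ _ ENNReal.ofReal_ne_top,
    lintegral_comp_mul (fun ξ => ‖G ξ‖ₑ ^ 2) (by positivity), ← mul_assoc, ← ENNReal.ofReal_mul (by positivity),
    mul_inv_cancel₀ (by positivity), ENNReal.ofReal_one, one_mul]

theorem memLp_dil (j : ℤ) {G : ℝ → ℂ} (hG : MemLp G 2) : MemLp (dil j G) 2 := by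
  apply memLp_of_N2 (aesm_dil j hG.1)
  rw [N2_dil]; exact N2_lt_top hG

theorem ae_scale {P : ℝ → Prop} (h : ∀ᵐ ξ : ℝ, P ξ) (a : ℝ) (ha : a ≠ 0) :
    ∀ᵐ ξ : ℝ, P (a * ξ) := by
  have := ae_affine h a 0 ha
  simpa using this

theorem EE_congr {F F' G G' : ℝ → ℂ} (h : ∀ᵐ ξ, G ξ * conj (F ξ) = G' ξ * conj (F' ξ)) :
    EE F G = EE F' G' := by
  unfold EE
  apply tsum_congr; intro k
  congr 2
  apply integral_congr_ae
  filter_upwards [h] with ξ hξ
  rw [hξ]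

theorem N2_congr {G G' : ℝ → ℂ} (h : G =ᵐ[volume] G') : N2 G = N2 G' := by
  unfold N2
  apply lintegral_congr_ae
  filter_upwards [h] with ξ hξ
  rw [hξ]

theorem dil_congr {G G' : ℝ → ℂ} (j : ℤ) (h : G =ᵐ[volume] G') : dil j G =ᵐ[volume] dil j G' := by
  filter_upwards [ae_scale h ((2:ℝ)^j) (by positivity)] with ξ hξ
  unfold dil; rw [hξ]

/-! ### periodic sets -/

/-- `P` is invariant under integer translations -/
def Per (P : Set ℝ) : Prop := ∀ (ξ : ℝ) (n : ℤ), ξ + n ∈ P ↔ ξ ∈ P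

theorem Per.compl {P : Set ℝ} (h : Per P) : Per Pᶜ := fun ξ n => not_congr (h ξ n)

theorem Per.scale {P : Set ℝ} (h : Per P) (j : ℕ) : Per {ξ | (2:ℝ) ^ (j:ℤ) * ξ ∈ P} := by
  intro ξ n
  simp only [mem_ofPred_eq]
  have := h ((2:ℝ) ^ (j:ℤ) * ξ) (2 ^ j * n)
  rw [← this]
  push_cast
  rw [mul_add, zpow_natCast]

theorem br_indicator_left {P : Set ℝ} (hP : Per P) (G F : ℝ → ℂ) (ξ : ℝ) :
    br (P.indicator G) F ξ = P.indicator (br G F) ξ := by
  classical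
  unfold br
  by_cases h : ξ ∈ P
  · rw [indicator_of_mem h]
    apply tsum_congr; intro n
    rw [indicator_of_mem ((hP ξ n).2 h)]
  · rw [indicator_of_notMem h]
    have : ∀ n : ℤ, P.indicator G (ξ + n) * conj (F (ξ + n)) = 0 := by
      intro n
      rw [indicator_of_notMem (fun h' => h ((hP ξ n).1 h')), zero_mul]
    simp [this]

theorem nsq_indicator {P : Set ℝ} (hP : Per P) (G : ℝ → ℂ) (ξ : ℝ) :
    nsq (P.indicator G) ξ = P.indicator (nsq G) ξ := by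
  classical
  unfold nsq
  by_cases h : ξ ∈ P
  · rw [indicator_of_mem h]
    apply tsum_congr; intro n
    rw [indicator_of_mem ((hP ξ n).2 h)]
  · rw [indicator_of_notMem h]
    have : ∀ n : ℤ, ‖P.indicator G (ξ + n)‖ₑ ^ 2 = 0 := by
      intro n
      rw [indicator_of_notMem (fun h' => h ((hP ξ n).1 h'))]; simp
    simp [this]

theorem memLp_indicator {P : Set ℝ} (hP : MeasurableSet P) {G : ℝ → ℂ} (hG : MemLp G 2) :
    MemLp (P.indicator G) 2 := hG.indicator hP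

theorem EE_split {P : Set ℝ} (hPm : MeasurableSet P) (hP : Per P) {G F : ℝ → ℂ} (hG : MemLp G 2)
    (hF : AEStronglyMeasurable F) (h : ∀ᵐ ξ, nsq F ξ ≤ 1) :
    EE F G = EE F (P.indicator G) + EE F (Pᶜ.indicator G) := by
  rw [EE_eq hG hF h, EE_eq (memLp_indicator hPm hG) hF h, EE_eq (memLp_indicator hPm.compl hG) hF h,
    ← lintegral_add_left']
  · apply lintegral_congr; intro ξ
    rw [br_indicator_left hP, br_indicator_left hP.compl]
    by_cases hx : ξ ∈ P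
    · rw [indicator_of_mem hx, indicator_of_notMem (fun h' : ξ ∈ Pᶜ => h' hx)]; simp
    · rw [indicator_of_notMem hx, indicator_of_mem (show ξ ∈ Pᶜ from hx)]; simp
  · exact ((aesm_br (memLp_indicator hPm hG).1 hF).enorm.pow_const 2).restrict

theorem N2_split {P : Set ℝ} (hPm : MeasurableSet P) (G : ℝ → ℂ) (hG : AEStronglyMeasurable G) :
    N2 G = N2 (P.indicator G) + N2 (Pᶜ.indicator G) := by
  unfold N2
  rw [← lintegral_add_left']
  · apply lintegral_congr; intro ξ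
    by_cases hx : ξ ∈ P
    · rw [indicator_of_mem hx, indicator_of_notMem (fun h' : ξ ∈ Pᶜ => h' hx)]; simp
    · rw [indicator_of_notMem hx, indicator_of_mem (show ξ ∈ Pᶜ from hx)]; simp
  · exact ((hG.indicator hPm).enorm.pow_const 2)

theorem dil_indicator (P : Set ℝ) (j : ℤ) (G : ℝ → ℂ) :
    dil j (P.indicator G) = {ξ | (2:ℝ) ^ j * ξ ∈ P}.indicator (dil j G) := by
  classical
  ext ξ
  unfold dil
  by_cases h : (2:ℝ) ^ j * ξ ∈ P
  · rw [indicator_of_mem h, indicator_of_mem (show ξ ∈ {ξ | (2:ℝ) ^ j * ξ ∈ P} from h)]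
  · rw [indicator_of_notMem h, indicator_of_notMem (show ξ ∉ {ξ | (2:ℝ) ^ j * ξ ∈ P} from h), mul_zero]

/-! ### the functionals `q` and `r` -/

/-- energy in `⊕_{j<0} W_j` -/
noncomputable def qq (F G : ℝ → ℂ) : ℝ≥0∞ := ∑' j : ℕ, EE F (dil (-((j:ℤ) + 1)) G)

/-- energy in `⊕_{j≥0} W_j` -/
noncomputable def rr (F G : ℝ → ℂ) : ℝ≥0∞ := ∑' j : ℕ, EE F (dil (j:ℤ) G)

theorem tsum_EE (F G : ℝ → ℂ) : ∑' j : ℤ, EE F (dil j G) = rr F G + qq F G := by
  rw [tsum_of_nat_of_neg_add_one ENNReal.summable ENNReal.summable]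
  rfl

theorem qq_dil (F G : ℝ → ℂ) : qq F (dil 1 G) = EE F G + qq F G := by
  unfold qq
  simp only [dil_dil]
  rw [tsum_eq_zero_add' ENNReal.summable]
  congr 1
  simp [dil_zero]

theorem rr_dil (F G : ℝ → ℂ) : rr F G = EE F G + rr F (dil 1 G) := by
  unfold rr
  simp only [dil_dil]
  rw [tsum_eq_zero_add' ENNReal.summable]
  simp [dil_zero]

/-- **Telescoping criterion.** -/
theorem pars_of_tele {F : ℝ → ℂ} (Q : (ℝ → ℂ) → ℝ≥0∞)
    (h1 : ∀ G, MemLp G 2 → Q (dil 1 G) = EE F G + Q G)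
    (h2 : ∀ G, MemLp G 2 → Tendsto (fun n : ℕ => Q (dil (n:ℤ) G)) atTop (𝓝 (N2 G)))
    (h3 : ∀ G, MemLp G 2 → Tendsto (fun n : ℕ => Q (dil (-(n:ℤ)) G)) atTop (𝓝 0))
    (G : ℝ → ℂ) (hG : MemLp G 2) : ∑' j : ℤ, EE F (dil j G) = N2 G := by
  rw [tsum_EE]
  have hr : rr F G + Q G = N2 G := by
    have hpart : ∀ n : ℕ, (∑ j ∈ Finset.range n, EE F (dil (j:ℤ) G)) + Q G = Q (dil (n:ℤ) G) := by
      intro n
      induction n with
      | zero => simp [dil_zero]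
      | succ n ih =>
        rw [Finset.sum_range_succ, add_right_comm, ih, add_comm, ← h1 _ (memLp_dil _ hG), dil_dil]
        congr 2
        push_cast; ring
    have ht : Tendsto (fun n : ℕ => (∑ j ∈ Finset.range n, EE F (dil (j:ℤ) G)) + Q G) atTop
        (𝓝 (rr F G + Q G)) :=
      (ENNReal.summable.hasSum.tendsto_sum_nat).add tendsto_const_nhds
    simp only [hpart] at ht
    exact tendsto_nhds_unique ht (h2 G hG)
  have hq : qq F G = Q G := by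
    have hpart : ∀ n : ℕ, (∑ j ∈ Finset.range n, EE F (dil (-((j:ℤ) + 1)) G)) + Q (dil (-(n:ℤ)) G) = Q G := by
      intro n
      induction n with
      | zero => simp [dil_zero]
      | succ n ih =>
        rw [Finset.sum_range_succ, add_assoc]
        push_cast
        rw [← h1 _ (memLp_dil _ hG), dil_dil]
        rw [show (1:ℤ) + -((n:ℤ) + 1) = -(n:ℤ) by ring]
        exact ih
    have ht : Tendsto (fun n : ℕ => (∑ j ∈ Finset.range n, EE F (dil (-((j:ℤ) + 1)) G))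
        + Q (dil (-(n:ℤ)) G)) atTop (𝓝 (qq F G + 0)) :=
      (ENNReal.summable.hasSum.tendsto_sum_nat).add (h3 G hG)
    simp only [hpart, add_zero] at ht
    exact (tendsto_nhds_unique ht tendsto_const_nhds)
  rw [hq, hr]

/-! ### basic facts about Parseval wavelets -/

theorem IsPW.rq {F : ℝ → ℂ} (h : IsPW F) {G : ℝ → ℂ} (hG : MemLp G 2) :
    rr F G + qq F G = N2 G := by
  rw [← tsum_EE]; exact h.pars G hG

theorem selfint {F : ℝ → ℂ} (hF : MemLp F 2) : ∫ ξ, F ξ * conj (F ξ) = ((N2 F).toReal : ℂ) := by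
  have e1 : ∀ ξ, F ξ * conj (F ξ) = ((‖F ξ‖ ^ 2 : ℝ) : ℂ) := by
    intro ξ; rw [Complex.mul_conj, Complex.normSq_eq_norm_sq]
  simp only [e1]
  rw [integral_complex_ofReal]
  congr 1
  rw [integral_eq_lintegral_of_nonneg_ae (f := fun ξ => ‖F ξ‖ ^ 2)
    (Eventually.of_forall (fun ξ => by positivity)) (by exact hF.1.norm.pow 2)]
  congr 1
  unfold N2
  apply lintegral_congr; intro ξ
  rw [ENNReal.ofReal_pow (norm_nonneg _), ofReal_norm]

theorem IsPW.EE_self_le {F : ℝ → ℂ} (h : IsPW F) : EE F F ≤ 1 := by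
  have h1 := h.pars F h.mem
  rw [h.norm] at h1
  rw [← h1]
  have := ENNReal.le_tsum (f := fun j : ℤ => EE F (dil j F)) 0
  simpa only [dil_zero] using this

theorem IsPW.coeff {F : ℝ → ℂ} (h : IsPW F) (k : ℤ) :
    ∫ ξ, F ξ * conj (F ξ) * ek k ξ = if k = 0 then 1 else 0 := by
  have c0 : ∫ ξ, F ξ * conj (F ξ) * ek 0 ξ = 1 := by
    have : ∀ ξ, F ξ * conj (F ξ) * ek 0 ξ = F ξ * conj (F ξ) := by
      intro ξ; simp [ek]
    simp only [this]
    rw [selfint h.mem, h.norm]; simp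
  by_cases hk : k = 0
  · subst hk; simp only [if_true]; exact c0
  · simp only [hk, if_false]
    have h1 := h.EE_self_le
    have h2 : ∑ k' ∈ ({0, k} : Finset ℤ), ‖∫ ξ, F ξ * conj (F ξ) * ek k' ξ‖ₑ ^ 2 ≤ EE F F :=
      ENNReal.sum_le_tsum _
    rw [Finset.sum_pair (Ne.symm hk), c0] at h2
    have h3 := h2.trans h1
    have h4 : ‖∫ ξ, F ξ * conj (F ξ) * ek k ξ‖ₑ ^ 2 = 0 := by
      by_contra hne
      have : (1:ℝ≥0∞) < 1 + ‖∫ ξ, F ξ * conj (F ξ) * ek k ξ‖ₑ ^ 2 :=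
        ENNReal.lt_add_right ENNReal.one_ne_top hne
      have h5 : ‖(1:ℂ)‖ₑ ^ 2 = (1:ℝ≥0∞) := by simp
      rw [h5] at h3
      exact absurd h3 (not_le.2 this)
    simpa using h4

theorem IsPW.nsq_one {F : ℝ → ℂ} (h : IsPW F) : ∀ᵐ ξ, nsq F ξ = 1 := nsq_eq_one h.mem h.coeff

theorem IsPW.nsq_le {F : ℝ → ℂ} (h : IsPW F) : ∀ᵐ ξ, nsq F ξ ≤ 1 := by
  filter_upwards [h.nsq_one] with ξ hξ; exact hξ.le

theorem EE_self_of {F : ℝ → ℂ} (hF : MemLp F 2) (h : ∀ᵐ ξ, nsq F ξ = 1) : EE F F = 1 := by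
  rw [EE_eq hF hF.1 (by filter_upwards [h] with ξ hξ; exact hξ.le)]
  have : ∀ᵐ ξ ∂(volume.restrict (Ioc (0:ℝ) 1)), ‖br F F ξ‖ₑ ^ 2 = 1 := by
    filter_upwards [ae_restrict_of_ae h] with ξ hξ
    have e1 : ∀ n : ℤ, F (ξ + n) * conj (F (ξ + n)) = (((‖F (ξ + n)‖ₑ ^ 2).toReal : ℝ) : ℂ) := by
      intro n
      rw [Complex.mul_conj, Complex.normSq_eq_norm_sq]
      simp
    have e2 : br F F ξ = ((nsq F ξ).toReal : ℂ) := by
      unfold br
      simp only [e1]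
      rw [← Complex.ofReal_tsum, ← ENNReal.tsum_toReal_eq]
      · rfl
      · intro n
        refine ((ENNReal.le_tsum (f := fun n : ℤ => ‖F (ξ + n)‖ₑ ^ 2) n).trans_lt ?_).ne
        change nsq F ξ < ⊤
        rw [hξ]; exact ENNReal.one_lt_top
    rw [e2, hξ]; simp
  rw [lintegral_congr_ae this]
  simp

/-- orthogonality of different scales -/
theorem IsPW.EE_dil_self {F : ℝ → ℂ} (h : IsPW F) {j : ℤ} (hj : j ≠ 0) : EE F (dil j F) = 0 := by
  have h1 := h.pars F h.mem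
  rw [h.norm] at h1
  have h2 : ∑ j' ∈ ({0, j} : Finset ℤ), EE F (dil j' F) ≤ ∑' j' : ℤ, EE F (dil j' F) :=
    ENNReal.sum_le_tsum _
  rw [Finset.sum_pair (Ne.symm hj), dil_zero, EE_self_of h.mem h.nsq_one, h1] at h2
  by_contra hne
  exact absurd h2 (not_le.2 (ENNReal.lt_add_right ENNReal.one_ne_top hne))

theorem br_zero_of_EE {F G : ℝ → ℂ} (hG : MemLp G 2) (hF : AEStronglyMeasurable F)
    (h : ∀ᵐ ξ, nsq F ξ ≤ 1) (h0 : EE F G = 0) : ∀ᵐ ξ, br G F ξ = 0 := by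
  rw [EE_eq hG hF h, lintegral_eq_zero_iff' ((aesm_br hG.1 hF).enorm.pow_const 2).restrict] at h0
  apply ae_of_ae_Ioc (P := fun ξ => br G F ξ = 0)
  · intro ξ m hm; rw [← hm, br_add_int]
  · filter_upwards [h0] with ξ hξ
    simpa using hξ

/-! ### splitting of `q` -/

theorem rr_split {F : ℝ → ℂ} (h : IsPW F) {P : Set ℝ} (hPm : MeasurableSet P) (hP : Per P)
    {G : ℝ → ℂ} (hG : MemLp G 2) : rr F G = rr F (P.indicator G) + rr F (Pᶜ.indicator G) := by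
  unfold rr
  rw [← ENNReal.tsum_add]
  apply tsum_congr; intro j
  have hm : MeasurableSet {ξ : ℝ | (2:ℝ) ^ (j:ℤ) * ξ ∈ P} := measurable_const_mul _ hPm
  have := EE_split hm (hP.scale j) (memLp_dil j hG) h.mem.1 h.nsq_le
  rw [this, dil_indicator, dil_indicator]
  rfl

theorem qq_split {F : ℝ → ℂ} (h : IsPW F) {P : Set ℝ} (hPm : MeasurableSet P) (hP : Per P)
    {G : ℝ → ℂ} (hG : MemLp G 2) : qq F G = qq F (P.indicator G) + qq F (Pᶜ.indicator G) := by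
  have h0 := h.rq hG
  have h1 := h.rq (memLp_indicator hPm hG)
  have h2 := h.rq (memLp_indicator hPm.compl hG)
  have h3 := N2_split hPm G hG.1
  have h4 := rr_split h hPm hP hG
  have hfin : rr F G ≠ ⊤ := by
    have : rr F G ≤ N2 G := by rw [← h0]; exact le_self_add
    exact (this.trans_lt (N2_lt_top hG)).ne
  have : rr F G + qq F G = rr F G + (qq F (P.indicator G) + qq F (Pᶜ.indicator G)) := by
    rw [h0, h3, ← h1, ← h2, h4]; ring
  exact (ENNReal.add_right_inj hfin).1 this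

theorem qq_le {F : ℝ → ℂ} (h : IsPW F) {G : ℝ → ℂ} (hG : MemLp G 2) : qq F G ≤ N2 G := by
  rw [← h.rq hG]; exact le_add_self

/-- `q` does not see the set where `F(2^{j+1}·)` vanishes. -/
theorem qq_indicator_zero {F : ℝ → ℂ} {Z : Set ℝ}
    (hZ : ∀ᵐ ξ, ξ ∈ Z → ∀ j : ℕ, F ((2:ℝ) ^ (j + 1) * ξ) = 0) (G : ℝ → ℂ) :
    qq F G = qq F (Zᶜ.indicator G) := by
  classical
  unfold qq
  apply tsum_congr; intro j
  apply EE_congr
  have := ae_scale hZ ((2:ℝ) ^ (-((j:ℤ) + 1))) (by positivity)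
  filter_upwards [this] with ξ hξ
  rw [dil_indicator]
  by_cases hx : (2:ℝ) ^ (-((j:ℤ) + 1)) * ξ ∈ Z
  · have h1 := hξ hx j
    have h2 : (2:ℝ) ^ (j + 1) * ((2:ℝ) ^ (-((j:ℤ) + 1)) * ξ) = ξ := by
      rw [← mul_assoc, zpow_neg]
      have : (2:ℝ) ^ ((j:ℤ) + 1) = (2:ℝ) ^ (j+1) := by
        exact_mod_cast zpow_natCast (2:ℝ) (j+1)
      rw [this, mul_inv_cancel₀ (by positivity), one_mul]
    rw [h2] at h1
    rw [h1]; simp
  · rw [indicator_of_mem (show ξ ∈ {ξ | (2:ℝ) ^ (-((j:ℤ) + 1)) * ξ ∈ Zᶜ} from hx)]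

theorem tendsto_qq_neg {F : ℝ → ℂ} (h : IsPW F) {G : ℝ → ℂ} (hG : MemLp G 2) :
    Tendsto (fun n : ℕ => qq F (dil (-(n:ℤ)) G)) atTop (𝓝 0) := by
  have e : ∀ n : ℕ, qq F (dil (-(n:ℤ)) G) = ∑' j : ℕ, (fun j : ℕ => EE F (dil (-((j:ℤ) + 1)) G)) (j + n) := by
    intro n
    unfold qq
    apply tsum_congr; intro j
    rw [dil_dil]
    congr 2
    push_cast; ring
  simp only [e]
  refine ENNReal.tendsto_sum_nat_add (fun j : ℕ => EE F (dil (-((j:ℤ) + 1)) G)) ?_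
  change qq F G ≠ ⊤
  exact ((qq_le h hG).trans_lt (N2_lt_top hG)).ne

theorem tendsto_rr {F : ℝ → ℂ} (h : IsPW F) {G : ℝ → ℂ} (hG : MemLp G 2) :
    Tendsto (fun n : ℕ => rr F (dil (n:ℤ) G)) atTop (𝓝 0) := by
  have e : ∀ n : ℕ, rr F (dil (n:ℤ) G) = ∑' j : ℕ, (fun j : ℕ => EE F (dil (j:ℤ) G)) (j + n) := by
    intro n
    unfold rr
    apply tsum_congr; intro j
    rw [dil_dil]
    congr 2
  simp only [e]
  refine ENNReal.tendsto_sum_nat_add (fun j : ℕ => EE F (dil (j:ℤ) G)) ?_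
  change rr F G ≠ ⊤
  have : rr F G ≤ N2 G := by rw [← h.rq hG]; exact le_self_add
  exact (this.trans_lt (N2_lt_top hG)).ne

end Pool.Agent.Helper30.WD
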