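import Pool.Agent.Helper30.WD.Per

/-! Orthonormality of integer translates gives `∑ |F(ξ+n)|² = 1` a.e. -/

set_option autoImplicit false
open MeasureTheory Filter Topology Set
open scoped ENNReal ComplexConjugate

namespace Pool.Agent.Helper30.WD

instance factOne : Fact ((0:ℝ) < 1) := ⟨zero_lt_one⟩

theorem continuous_integral_cm (μ : Measure (AddCircle (1:ℝ))) [IsFiniteMeasure μ] :
    Continuous (fun f : C(AddCircle (1:ℝ), ℂ) => ∫ x, f x ∂μ) := by
  have h1 : Continuous (fun f : C(AddCircle (1:ℝ), ℂ) =>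
      ∫ x, (ContinuousMap.toLp (E := ℂ) 1 μ ℂ f) x ∂μ) :=
    continuous_integral.comp (ContinuousMap.toLp (E := ℂ) 1 μ ℂ).continuous
  have h2 : (fun f : C(AddCircle (1:ℝ), ℂ) => ∫ x, (ContinuousMap.toLp (E := ℂ) 1 μ ℂ f) x ∂μ)
      = fun f : C(AddCircle (1:ℝ), ℂ) => ∫ x, f x ∂μ := by
    ext f
    exact integral_congr_ae (ContinuousMap.coeFn_toLp μ f)
  rwa [h2] at h1

theorem integrable_cm (μ : Measure (AddCircle (1:ℝ))) [IsFiniteMeasure μ]
    (f : C(AddCircle (1:ℝ), ℂ)) : Integrable f μ := by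
  have := (BoundedContinuousFunction.mkOfCompact f).integrable μ
  exact this

theorem fourier_measure_unique (μ ν : Measure (AddCircle (1:ℝ))) [IsFiniteMeasure μ]
    [IsFiniteMeasure ν] (h : ∀ n : ℤ, ∫ x, (fourier n x : ℂ) ∂μ = ∫ x, (fourier n x : ℂ) ∂ν) :
    μ = ν := by
  have key : ∀ f : C(AddCircle (1:ℝ), ℂ), ∫ x, f x ∂μ = ∫ x, f x ∂ν := by
    intro f
    have hmem : f ∈ (Submodule.span ℂ (range (@fourier (1:ℝ)))).topologicalClosure := by
      rw [span_fourier_closure_eq_top]; trivial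
    have hcl : IsClosed {f : C(AddCircle (1:ℝ), ℂ) | ∫ x, f x ∂μ = ∫ x, f x ∂ν} :=
      isClosed_eq (continuous_integral_cm μ) (continuous_integral_cm ν)
    have hsub : (Submodule.span ℂ (range (@fourier (1:ℝ))) : Set C(AddCircle (1:ℝ), ℂ))
        ⊆ {f : C(AddCircle (1:ℝ), ℂ) | ∫ x, f x ∂μ = ∫ x, f x ∂ν} := by
      intro g hg
      induction hg using Submodule.span_induction with
      | mem x hx => obtain ⟨n, rfl⟩ := hx; exact h n
      | zero => simp
      | add x y _ _ hx hy =>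
        simp only [mem_ofPred_eq, ContinuousMap.add_apply] at *
        rw [integral_add (integrable_cm μ x) (integrable_cm μ y),
          integral_add (integrable_cm ν x) (integrable_cm ν y), hx, hy]
      | smul a x _ hx =>
        simp only [mem_ofPred_eq, ContinuousMap.smul_apply] at *
        rw [integral_smul, integral_smul, hx]
    exact closure_minimal hsub hcl hmem
  apply ext_of_forall_integral_eq_of_IsFiniteMeasure
  intro f
  have := key ⟨fun x => ((f x : ℝ) : ℂ), by fun_prop⟩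
  simp only [ContinuousMap.coe_mk] at this
  rw [integral_complex_ofReal, integral_complex_ofReal] at this
  exact_mod_cast this

theorem nsq_add_int (F : ℝ → ℂ) (ξ : ℝ) (m : ℤ) : nsq F (ξ + m) = nsq F ξ := by
  unfold nsq
  rw [← (Equiv.addLeft m).tsum_eq (fun n : ℤ => ‖F (ξ + n)‖ₑ ^ 2)]
  apply tsum_congr; intro n
  simp only [Equiv.coe_addLeft]
  push_cast
  rw [add_assoc]

theorem br_add_int (G F : ℝ → ℂ) (ξ : ℝ) (m : ℤ) : br G F (ξ + m) = br G F ξ := by
  unfold br
  rw [← (Equiv.addLeft m).tsum_eq (fun n : ℤ => G (ξ + n) * conj (F (ξ + n)))]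
  apply tsum_congr; intro n
  simp only [Equiv.coe_addLeft]
  push_cast
  rw [add_assoc]

/-- periodic a.e. statements -/
theorem ae_of_ae_Ioc {P : ℝ → Prop} (hP : ∀ ξ (m : ℤ), P (ξ + m) → P ξ)
    (h : ∀ᵐ ξ ∂(volume.restrict (Ioc (0:ℝ) 1)), P ξ) : ∀ᵐ ξ : ℝ, P ξ := by
  rw [ae_restrict_iff' measurableSet_Ioc] at h
  filter_upwards [ae_add_int h] with ξ hξ
  have h1 := hξ (-(⌈ξ⌉ - 1))
  apply hP ξ (-(⌈ξ⌉ - 1))
  apply h1
  push_cast
  constructor
  · have := Int.ceil_lt_add_one ξ; linarith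
  · have := Int.le_ceil ξ; linarith

theorem nsq_eq_one {F : ℝ → ℂ} (hF : MemLp F 2)
    (h : ∀ k : ℤ, ∫ ξ, F ξ * conj (F ξ) * ek k ξ = if k = 0 then 1 else 0) :
    ∀ᵐ ξ, nsq F ξ = 1 := by
  -- work with a measurable density
  let w : ℝ → ℝ≥0∞ := nsq F
  have hwm : AEMeasurable w := aemeas_nsq hF.1
  let μ0 : Measure ℝ := (volume.restrict (Ioc 0 1)).withDensity w
  have hfin : ∫⁻ ξ in Ioc (0:ℝ) 1, w ξ < ⊤ := by
    rw [← N2_per hF.1]; exact N2_lt_top hF
  have : IsFiniteMeasure μ0 := isFiniteMeasure_withDensity hfin.ne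
  have hmk : Measurable (fun x : ℝ => (x : AddCircle (1:ℝ))) := AddCircle.measurable_mk'
  let μ : Measure (AddCircle (1:ℝ)) := μ0.map (fun x : ℝ => (x : AddCircle (1:ℝ)))
  let ν : Measure (AddCircle (1:ℝ)) := (volume.restrict (Ioc (0:ℝ) 1)).map (fun x : ℝ => (x : AddCircle (1:ℝ)))
  have hwlt : ∀ᵐ ξ ∂(volume.restrict (Ioc (0:ℝ) 1)), w ξ < ⊤ := ae_lt_top' hwm.restrict hfin.ne
  have hbr : ∀ᵐ ξ ∂(volume.restrict (Ioc (0:ℝ) 1)), br F F ξ = ((w ξ).toReal : ℂ) := by
    filter_upwards [hwlt] with ξ hξ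
    have e1 : ∀ n : ℤ, F (ξ + n) * conj (F (ξ + n)) = (((‖F (ξ + n)‖ₑ ^ 2).toReal : ℝ) : ℂ) := by
      intro n
      rw [Complex.mul_conj, Complex.normSq_eq_norm_sq]
      simp
    unfold br
    simp only [e1]
    rw [← Complex.ofReal_tsum, ← ENNReal.tsum_toReal_eq]
    · rfl
    · intro n
      exact ((ENNReal.le_tsum n).trans_lt hξ).ne
  have hmn : μ = ν := by
    apply fourier_measure_unique
    intro n
    have hfm : ∀ n : ℤ, AEStronglyMeasurable (fun x : AddCircle (1:ℝ) => (fourier n x : ℂ)) μ := fun n =>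
      (map_continuous (fourier n)).aestronglyMeasurable
    have hfn : ∀ n : ℤ, AEStronglyMeasurable (fun x : AddCircle (1:ℝ) => (fourier n x : ℂ)) ν := fun n =>
      (map_continuous (fourier n)).aestronglyMeasurable
    have e2 : ∀ x : ℝ, (fourier n (x : AddCircle (1:ℝ)) : ℂ) = ek n x := by
      intro x
      rw [fourier_coe_apply]; unfold ek
      congr 1; push_cast; ring
    have hμ : ∫ x, (fourier n x : ℂ) ∂μ = if n = 0 then 1 else 0 := by
      rw [integral_map hmk.aemeasurable (hfm n)]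
      simp only [e2]
      rw [integral_withDensity_eq_integral_toReal_smul₀ hwm.restrict hwlt, ← h n, coeff_eq hF hF]
      apply integral_congr_ae
      filter_upwards [hbr] with ξ hξ
      rw [hξ]; simp
    have hν : ∫ x, (fourier n x : ℂ) ∂ν = if n = 0 then 1 else 0 := by
      rw [integral_map hmk.aemeasurable (hfn n)]
      simp only [e2]
      by_cases hn : n = 0
      · subst hn
        simp [ek]
      · have hne : (2 * (Real.pi:ℂ) * Complex.I * n) ≠ 0 := by
          simp [Real.pi_ne_zero, hn]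
        rw [← intervalIntegral.integral_of_le zero_le_one]
        unfold ek
        rw [integral_exp_mul_complex hne]
        simp only [hn, if_false]
        rw [div_eq_zero_iff]; left
        have : 2 * (Real.pi:ℂ) * Complex.I * n * ((1:ℝ):ℂ) = (n:ℂ) * (2 * Real.pi * Complex.I) := by
          push_cast; ring
        rw [this, Complex.exp_int_mul_two_pi_mul_I]
        simp
    rw [hμ, hν]
  apply ae_of_ae_Ioc (P := fun ξ => nsq F ξ = 1)
  · intro ξ m hm; rw [← hm, nsq_add_int]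
  -- compare on measurable sets
  have hset : ∀ A : Set ℝ, MeasurableSet A → ∫⁻ ξ in A, w ξ ∂(volume.restrict (Ioc (0:ℝ) 1))
      = ∫⁻ ξ in A, 1 ∂(volume.restrict (Ioc (0:ℝ) 1)) := by
    intro A hA
    let B : Set (AddCircle (1:ℝ)) := {x | ((AddCircle.measurableEquivIoc (1:ℝ) 0 x : ℝ)) ∈ A}
    have hB : MeasurableSet B := by
      apply measurableSet_preimage _ hA
      exact measurable_subtype_coe.comp (AddCircle.measurableEquivIoc (1:ℝ) 0).measurable
    have hBA : ∀ ξ ∈ Ioc (0:ℝ) 1, ((ξ : AddCircle (1:ℝ)) ∈ B ↔ ξ ∈ A) := by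
      intro ξ hξ
      simp only [B, mem_ofPred_eq]
      have : (AddCircle.measurableEquivIoc (1:ℝ) 0 (ξ : AddCircle (1:ℝ)) : ℝ) = ξ := by
        have h0 : ξ ∈ Ioc (0:ℝ) (0 + 1) := by simpa using hξ
        exact AddCircle.equivIoc_coe_of_mem (p := 1) (a := 0) h0
      rw [this]
    have e3 : μ B = ν B := by rw [hmn]
    rw [Measure.map_apply hmk hB, Measure.map_apply hmk hB,
      withDensity_apply _ (hmk hB)] at e3
    have e4 : ∀ g : ℝ → ℝ≥0∞, ∫⁻ ξ in (fun x : ℝ => (x : AddCircle (1:ℝ))) ⁻¹' B, g ξ ∂(volume.restrict (Ioc (0:ℝ) 1))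
        = ∫⁻ ξ in A, g ξ ∂(volume.restrict (Ioc (0:ℝ) 1)) := by
      intro g
      rw [Measure.restrict_restrict (hmk hB), Measure.restrict_restrict hA]
      congr 2
      ext ξ
      simp only [mem_inter_iff, mem_preimage]
      constructor
      · rintro ⟨h1, h2⟩; exact ⟨(hBA ξ h2).1 h1, h2⟩
      · rintro ⟨h1, h2⟩; exact ⟨(hBA ξ h2).2 h1, h2⟩
    rw [e4] at e3
    rw [e3, ← e4 (fun _ => 1), lintegral_one, Measure.restrict_apply MeasurableSet.univ, univ_inter]
  have := ae_eq_of_forall_setLIntegral_eq_of_sigmaFinite₀ (μ := volume.restrict (Ioc (0:ℝ) 1)) hwm.restrict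
    (aemeasurable_const (b := (1:ℝ≥0∞))) (fun A hA _ => hset A hA)
  exact this

end Pool.Agent.Helper30.WD
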